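import Pool.Agent.V11311.ER.E

/-! Rare patterns along trajectories, part F: the largest climb, conclusion. -/

set_option autoImplicit false

namespace Pool.Agent.V11311.ER

open Finset Filter Topology Pool.Agent.V11311.FP Pool.Agent.V11311.RC Pool.Agent.V11311.SL

open Pool.Agent.V11311.DV (fl fl_card mem_fl)

open Pool.Agent.Helper894.Collatz (T od er od_add iter_eq sum_pow_od)

open Pool.Agent.H377R2 (iter_pos)

theorem cN_add_not (P : ℕ → Prop) (N : ℕ) : cN P N + cN (fun n => ¬ P n) N = N := by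
  classical
  have h := card_filter_add_card_filter_not (s := Icc 1 N) P
  rw [Nat.card_Icc, Nat.add_sub_cancel] at h
  unfold cN
  convert h using 3
  ext a
  simp only [mem_filter]

theorem hasD_one {P : ℕ → Prop} (h : ∀ ε : ℝ, 0 < ε → ∀ᶠ N : ℕ in atTop, (cN (fun n => ¬ P n) N : ℝ) ≤ ε * N) :
    HasD P 1 := by
  unfold HasD
  rw [Metric.tendsto_nhds]
  intro ε hε
  filter_upwards [h (ε / 2) (by positivity), eventually_gt_atTop 0] with N h1 h2
  have h3 : (cN P N : ℝ) + cN (fun n => ¬ P n) N = N := by exact_mod_cast cN_add_not P N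
  have hN0 : (0 : ℝ) < N := by exact_mod_cast h2
  rw [Real.dist_eq]
  have h4 : (cN P N : ℝ) / N - 1 = -(cN (fun n => ¬ P n) N / N) := by
    rw [eq_sub_of_add_eq h3, sub_div, div_self hN0.ne']
    ring
  rw [h4, abs_neg, abs_of_nonneg (by positivity), div_lt_iff₀ hN0]
  nlinarith

/-- small integers are rare -/
theorem small_rare (ε : ℝ) (hε : 0 < ε) :
    ∀ᶠ N : ℕ in atTop, (cN (fun n => (n : ℝ) < Real.sqrt N) N : ℝ) ≤ ε * N := by
  classical
  have e1 : ∀ᶠ X : ℝ in atTop, 2 / ε ≤ X ^ (1 / 2 : ℝ) :=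
    (tendsto_rpow_atTop (by norm_num)).eventually (eventually_ge_atTop _)
  filter_upwards [tendsto_natCast_atTop_atTop.eventually e1, eventually_ge_atTop 1] with N h1 h2
  rw [← Real.sqrt_eq_rpow] at h1
  have hN0 : (1 : ℝ) ≤ N := by exact_mod_cast h2
  have hs : 1 ≤ Real.sqrt N := by rwa [Real.one_le_sqrt]
  have h3 : cN (fun n => (n : ℝ) < Real.sqrt N) N ≤ ⌊Real.sqrt N⌋₊ := by
    rw [← fl_card]
    calc _ ≤ (Icc 1 ⌊Real.sqrt N⌋₊).card := card_le_card fun n hn => by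
          rw [mem_fl] at hn
          rw [mem_Icc]
          exact ⟨hn.1.1, Nat.le_floor hn.2.le⟩
      _ = _ := by rw [Nat.card_Icc, Nat.add_sub_cancel]
  have h4 : (cN (fun n => (n : ℝ) < Real.sqrt N) N : ℝ) ≤ Real.sqrt N :=
    (Nat.cast_le.2 h3).trans (Nat.floor_le (by positivity))
  refine h4.trans ?_
  have h5 : Real.sqrt N * Real.sqrt N = N := Real.mul_self_sqrt (by positivity)
  rw [div_le_iff₀ hε] at h1
  nlinarith

theorem cN_or3 {P A B C : ℕ → Prop} {N : ℕ} (h : ∀ n, 0 < n → n ≤ N → P n → A n ∨ B n ∨ C n) :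
    (cN P N : ℝ) ≤ cN A N + (cN B N + cN C N) := by
  classical
  have : cN P N ≤ cN A N + (cN B N + cN C N) := by
    rw [← fl_card, ← fl_card, ← fl_card, ← fl_card]
    refine (card_le_card (t := fl A N ∪ (fl B N ∪ fl C N)) fun n hn => ?_).trans
      ((card_union_le _ _).trans (Nat.add_le_add_left (card_union_le _ _) _))
    rw [mem_fl] at hn
    rw [mem_union, mem_union, mem_fl, mem_fl, mem_fl]
    rcases h n hn.1.1 hn.1.2 hn.2 with h1 | h1 | h1
    · exact Or.inl ⟨hn.1, h1⟩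
    · exact Or.inr (Or.inl ⟨hn.1, h1⟩)
    · exact Or.inr (Or.inr ⟨hn.1, h1⟩)
  exact_mod_cast this

/-- all climbs are at most `(log n)^(1+e)` -/
def Lo (e κ : ℝ) (n : ℕ) : Prop :=
  ∀ i j, i ≤ j → (∀ s, s < j → (n : ℝ) ^ κ < (T^[s] n : ℕ)) →
    ((T^[j] n : ℕ) : ℝ) ≤ Real.log n ^ (1 + e) * (T^[i] n : ℕ)

theorem log_half {N n : ℕ} (h1 : Real.sqrt N ≤ n) (hN : 1 ≤ N) : Real.log N / 2 ≤ Real.log n := by
  have : (1 : ℝ) ≤ N := by exact_mod_cast hN
  rw [← Real.log_sqrt (by positivity)]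
  exact Real.log_le_log (Real.sqrt_pos.2 (by linarith)) h1

theorem Lo_Cl {e κ : ℝ} (he : 0 < e) (hκ : 0 < κ) : ∀ᶠ N : ℕ in atTop, ∀ n : ℕ, Real.sqrt N ≤ n →
    ¬ Lo e κ n → Cl (e / 2) N (Lv (κ / 2) N) n := by
  have e1 : ∀ᶠ X : ℝ in atTop, 2 * (2 : ℝ) ^ (1 + e) ≤ X ^ (e / 2) :=
    (tendsto_rpow_atTop (by positivity)).eventually (eventually_ge_atTop _)
  have e2 : ∀ᶠ X : ℝ in atTop, (2 : ℝ) ≤ X ^ (1 + e / 2) :=
    (tendsto_rpow_atTop (by positivity)).eventually (eventually_ge_atTop _)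
  filter_upwards [tendsto_natCast_atTop_atTop.eventually (Real.tendsto_log_atTop.eventually
    (e1.and (e2.and (eventually_ge_atTop (1 : ℝ))))), eventually_ge_atTop 1] with N h1 h2 n h3 h4
  obtain ⟨f1, f2, f3⟩ := h1
  unfold Lo at h4
  push Not at h4
  obtain ⟨i, j, k1, k2, k3⟩ := h4
  have hN0 : (1 : ℝ) ≤ N := by exact_mod_cast h2
  have hL := log_half h3 h2
  set Λ := Real.log N with hΛ
  have hΛ0 : 0 < Λ := by linarith
  have h5 : (N : ℝ) ^ (κ / 2) ≤ (n : ℝ) ^ κ := by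
    calc (N : ℝ) ^ (κ / 2) = (Real.sqrt N) ^ κ := by
          rw [Real.sqrt_eq_rpow, ← Real.rpow_mul (by positivity)]
          congr 1
          ring
      _ ≤ (n : ℝ) ^ κ := Real.rpow_le_rpow (by positivity) h3 hκ.le
  refine ⟨i, j, k1, fun s hs => ?_, ?_⟩
  · have h6 : ((Lv (κ / 2) N : ℕ) : ℝ) < (T^[s] n : ℕ) :=
      (Nat.floor_le (by positivity)).trans_lt (h5.trans_lt (k2 s hs))
    exact_mod_cast h6
  · refine lt_of_le_of_lt ?_ k3
    apply mul_le_mul_of_nonneg_right _ (Nat.cast_nonneg _)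
    unfold lam
    rw [← hΛ]
    calc 2 + Λ ^ (1 + e / 2) ≤ 2 * Λ ^ (1 + e / 2) := by linarith
      _ ≤ (Λ / 2) ^ (1 + e) := by
          rw [Real.div_rpow hΛ0.le (by norm_num), le_div_iff₀ (by positivity)]
          calc 2 * Λ ^ (1 + e / 2) * 2 ^ (1 + e) = Λ ^ (1 + e / 2) * (2 * 2 ^ (1 + e)) := by ring
            _ ≤ Λ ^ (1 + e / 2) * Λ ^ (e / 2) := mul_le_mul_of_nonneg_left f1 (by positivity)
            _ = Λ ^ (1 + e) := by
                rw [← Real.rpow_add hΛ0]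
                congr 1
                ring
      _ ≤ Real.log n ^ (1 + e) := Real.rpow_le_rpow (by positivity) hL (by positivity)

/-- **the largest climb is `(log n)^(1+o(1))`** -/
theorem climb_law {e κ : ℝ} (he : 0 < e) (he1 : e < 1) (hκ : 0 < κ) (hκ1 : κ < 1) :
    HasD (fun n => Lo e κ n ∧ Up e κ n) 1 := by
  apply hasD_one
  intro ε hε
  filter_upwards [small_rare (ε / 3) (by positivity), Up_rare he he1 hκ hκ1 (ε / 3) (by positivity),
    Cl_rare (e := e / 2) (κ := κ / 2) (by positivity) (by positivity) (ε / 3) (by positivity), Lo_Cl he hκ]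
    with N h1 h2 h3 h4
  have h5 := cN_or3 (P := fun n => ¬ (Lo e κ n ∧ Up e κ n)) (A := fun n => (n : ℝ) < Real.sqrt N)
    (B := fun n => Real.sqrt N ≤ n ∧ n ≤ N ∧ ¬ Up e κ n) (C := Cl (e / 2) N (Lv (κ / 2) N)) (N := N)
    (fun n _ hnN hn => by
      rcases lt_or_ge (n : ℝ) (Real.sqrt N) with h | h
      · exact Or.inl h
      · right
        rcases Classical.not_and_iff_not_or_not.1 hn with h' | h'
        · exact Or.inr (h4 n h h')
        · exact Or.inl ⟨h, hnN, h'⟩)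
  linarith

end Pool.Agent.V11311.ER
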