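import Pool.Agent.V11311.ER.R3

/-! Shrinking targets for typical trajectories. -/

set_option autoImplicit false

namespace Pool.Agent.V11311.ER

open Finset Filter Topology Pool.Agent.V11311.FP Pool.Agent.V11311.RC Pool.Agent.V11311.SL

open Pool.Agent.V11311.DV (fl fl_card mem_fl)

open Pool.Agent.Helper894.Collatz (T od er od_add iter_eq sum_pow_od period)

open Pool.Agent.H377R2 (iter_pos)

theorem set_per (k : ℕ) (S : Finset ℕ) : Per (2 ^ k) (fun y => y % 2 ^ k ∈ S) := by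
  intro x
  simp only
  rw [Nat.mod_mod]

theorem set_prq {k : ℕ} {S : Finset ℕ} (hS : ∀ r ∈ S, r < 2 ^ k) :
    prq (2 ^ k) (fun y => y % 2 ^ k ∈ S) = S.card / 2 ^ k := by
  classical
  rw [prq_eq]
  have : (range (2 ^ k)).filter (fun y => y % 2 ^ k ∈ S) = S := by
    ext x
    rw [mem_filter, mem_range]
    constructor
    · rintro ⟨g1, g2⟩
      rwa [Nat.mod_eq_of_lt g1] at g2
    · intro g
      exact ⟨hS x g, by rw [Nat.mod_eq_of_lt (hS x g)]; exact g⟩
  rw [this]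
  push_cast
  rfl

theorem pow_small {K : ℕ → ℕ} (hK : Tendsto (fun N : ℕ => (K N : ℝ) / Real.log N) atTop (𝓝 0)) {κ : ℝ} (hκ : 0 < κ) :
    ∀ᶠ N : ℕ in atTop, (K N : ℝ) ≤ κ * Real.log N := by
  have hlog : Tendsto (fun N : ℕ => Real.log (N : ℝ)) atTop atTop :=
    Real.tendsto_log_atTop.comp tendsto_natCast_atTop_atTop
  filter_upwards [hK.eventually (gt_mem_nhds hκ), hlog.eventually (eventually_gt_atTop 0)] with N h1 h2
  rw [div_lt_iff₀ h2] at h1
  exact h1.le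

/-- small targets are avoided -/
theorem avoid {K : ℕ → ℕ} {S : ℕ → Finset ℕ} (hK : Tendsto (fun N : ℕ => (K N : ℝ) / Real.log N) atTop (𝓝 0))
    (hS : ∀ N, ∀ r ∈ S N, r < 2 ^ K N)
    (hμ : Tendsto (fun N : ℕ => Real.log N * ((S N).card / 2 ^ K N)) atTop (𝓝 0)) {κ : ℝ} (hκ : 0 < κ)
    (ε : ℝ) (hε : 0 < ε) :
    ∀ᶠ N : ℕ in atTop, (cN (St (fun N x => x % 2 ^ K N ∈ S N) N (Lv κ N)) N : ℝ) ≤ ε * N := by
  classical
  refine St_rare2 (ι := ℕ) (fun N x => x % 2 ^ K N ∈ S N) (fun _ => {0}) (fun N _ => K N)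
    (fun N _ x => x % 2 ^ K N ∈ S N) (fun N _ => set_per _ _) ?_ ?_ ?_ hκ ε hε
  · intro κ' hκ'
    filter_upwards [pow_small hK hκ', eventually_gt_atTop 0] with N h1 h2 p _
    have hN0 : (0 : ℝ) < N := by exact_mod_cast h2
    calc (2 : ℝ) ^ K N = Real.exp ((K N : ℝ) * Real.log 2) := by
          rw [Real.exp_nat_mul, Real.exp_log (by norm_num)]
      _ ≤ Real.exp (Real.log N * κ') := by
          apply Real.exp_le_exp.2
          have hl2 : Real.log 2 < 1 := by have := Real.log_two_lt_d9; linarith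
          have hl2' : 0 < Real.log 2 := Real.log_pos (by norm_num)
          have m0 : (0 : ℝ) ≤ (K N : ℝ) := Nat.cast_nonneg _
          nlinarith
      _ = (N : ℝ) ^ κ' := by rw [Real.rpow_def_of_pos hN0]
  · filter_upwards with N m hm
    exact ⟨0, mem_singleton_self _, hm⟩
  · refine hμ.congr fun N => ?_
    rw [sum_singleton, set_prq (hS N)]

/-- large targets are hit -/
theorem hits {K : ℕ → ℕ} {S : ℕ → Finset ℕ} (hK1 : ∀ N, 1 ≤ K N) (hS : ∀ N, ∀ r ∈ S N, r < 2 ^ K N)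
    (hK : Tendsto (fun N : ℕ => (K N : ℝ) / Real.log N) atTop (𝓝 0))
    (hμ : Tendsto (fun N : ℕ => Real.log N / K N * ((S N).card / 2 ^ K N)) atTop atTop) {κ : ℝ}
    (hκ0 : 0 < κ) (hκ1 : κ < 1) (ε : ℝ) (hε : 0 < ε) :
    ∀ᶠ N : ℕ in atTop, (cN (fun n => (N : ℝ) ^ ((1 + κ) / 2) ≤ n ∧
      ¬ ∃ s, (∀ s', s' ≤ s → Lv κ N < T^[s'] n) ∧ T^[s] n % 2 ^ K N ∈ S N) N : ℝ) ≤ ε * N := by
  classical
  have hc : 0 < 1 - κ := by linarith
  filter_upwards [hμ.eventually (eventually_ge_atTop (4 / (1 - κ) * (|Real.log (2 / ε)| + 1))), pow_small hK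
    (show 0 < (1 - κ) / 4 by positivity), eventually_ge_atTop 3] with N h1 h2 hN
  have hk0 : (0 : ℝ) < K N := by exact_mod_cast hK1 N
  have hNR : (3 : ℝ) ≤ N := by exact_mod_cast hN
  have hN0 : (0 : ℝ) < N := by linarith
  set Λ := Real.log N with hΛ
  have hΛ0 : 0 < Λ := Real.log_pos (by linarith)
  set k := K N with hk
  set R : ℕ := ⌊(1 - κ) / 2 * Λ / k⌋₊ with hR
  have hR0 : (R : ℝ) ≤ (1 - κ) / 2 * Λ / k := Nat.floor_le (by positivity)
  have hR1 : ((k * R : ℕ) : ℝ) ≤ (1 - κ) / 2 * Λ := by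
    rw [le_div_iff₀ hk0] at hR0
    push_cast
    linarith
  have hR2 : (1 - κ) / 2 * Λ / k < R + 1 := Nat.lt_floor_add_one _
  have hR3 : (1 - κ) / 4 * Λ / k ≤ R := by
    have g1 : 1 ≤ (1 - κ) / 4 * Λ / k := by
      rw [le_div_iff₀ hk0, one_mul]
      exact h2
    have g2 : (1 - κ) / 2 * Λ / k = (1 - κ) / 4 * Λ / k + (1 - κ) / 4 * Λ / k := by ring
    linarith
  obtain ⟨hP1, hP2⟩ := no_suc k (set_per k (S N)) R
  have hq := set_prq (k := k) (S := S N) (hS N)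
  have hcn : (cN (fun n => (N : ℝ) ^ ((1 + κ) / 2) ≤ n ∧
      ¬ ∃ s, (∀ s', s' ≤ s → Lv κ N < T^[s'] n) ∧ T^[s] n % 2 ^ k ∈ S N) N : ℝ) ≤
      cN (fun x => ∀ r, r < R → ¬ T^[k * r] x % 2 ^ k ∈ S N) N := by
    refine Nat.cast_le.2 (cN_mono (fun n hn ⟨g1, g2⟩ r hr hs => g2 ?_) N)
    have hj : k * r ≤ k * R := Nat.mul_le_mul_left _ hr.le
    exact ⟨k * r, fun s' hs' => above2 hκ1 g1 hN hR1 s' (hs'.trans hj), hs⟩
  have hpow : 2 ^ (k * R) ≤ N := by
    have g2 : (2 : ℝ) ^ (k * R) ≤ N := by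
      calc (2 : ℝ) ^ (k * R) = Real.exp (((k * R : ℕ) : ℝ) * Real.log 2) := by
            rw [Real.exp_nat_mul, Real.exp_log (by norm_num)]
        _ ≤ Real.exp (Real.log N) := by
            apply Real.exp_le_exp.2
            have hl2 : Real.log 2 < 1 := by have := Real.log_two_lt_d9; linarith
            have hl2' : 0 < Real.log 2 := Real.log_pos (by norm_num)
            have h3 : (0 : ℝ) ≤ ((k * R : ℕ) : ℝ) := Nat.cast_nonneg _
            rw [← hΛ]
            nlinarith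
        _ = N := Real.exp_log hN0
    exact_mod_cast g2
  refine hcn.trans ((cN_rare _ hP1 hpow).trans ?_)
  rw [← prq_pow, hP2, hq]
  set q : ℝ := (S N).card / 2 ^ k with hqd
  have hq1 : q ≤ 1 := by
    rw [← hq]
    exact prq_le_one _ _
  have hq0 : 0 ≤ q := by positivity
  have hqR : Real.log (2 / ε) ≤ q * R := by
    have m1 : |Real.log (2 / ε)| + 1 ≤ (1 - κ) / 4 * (Λ / k * q) := by
      calc |Real.log (2 / ε)| + 1 = (1 - κ) / 4 * (4 / (1 - κ) * (|Real.log (2 / ε)| + 1)) := by field_simp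
        _ ≤ _ := mul_le_mul_of_nonneg_left h1 (by positivity)
    have m2 : (1 - κ) / 4 * (Λ / k * q) = q * ((1 - κ) / 4 * Λ / k) := by ring
    have m3 := mul_le_mul_of_nonneg_left hR3 hq0
    linarith [le_abs_self (Real.log (2 / ε))]
  have hfin : (1 - q) ^ R ≤ ε / 2 := by
    calc (1 - q) ^ R ≤ Real.exp (-q) ^ R := by
          apply pow_le_pow_left₀ (by linarith)
          have := Real.add_one_le_exp (-q)
          linarith
      _ = Real.exp (-(q * R)) := by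
          rw [← Real.exp_nat_mul]
          congr 1
          ring
      _ ≤ Real.exp (-Real.log (2 / ε)) := Real.exp_le_exp.2 (by linarith)
      _ = ε / 2 := by
          rw [Real.exp_neg, Real.exp_log (by positivity), inv_div]
  calc 2 * (N : ℝ) * (1 - q) ^ R ≤ 2 * N * (ε / 2) := mul_le_mul_of_nonneg_left hfin (by positivity)
    _ = ε * N := by ring

end Pool.Agent.V11311.ER
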