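import Pool.Agent.V11311.ER.Q

/-! Rare patterns along trajectories, part X1: blocks with parity words in a factorial language. -/

set_option autoImplicit false

namespace Pool.Agent.V11311.ER

open Finset Filter Topology Pool.Agent.V11311.FP Pool.Agent.V11311.RC Pool.Agent.V11311.SL

open Pool.Agent.V11311.DV (fl fl_card mem_fl)

open Pool.Agent.Helper894.Collatz (T od er od_add iter_eq sum_pow_od period)

open Pool.Agent.H377R2 (iter_pos)

/-- the parity word -/
def wd : ℕ → ℕ → List ℕ
  | 0, _ => []
  | w + 1, m => (m % 2) :: wd w (T m)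

theorem wd_add (u v m : ℕ) : wd (u + v) m = wd u m ++ wd v (T^[u] m) := by
  induction u generalizing m with
  | zero => simp [wd]
  | succ u ih =>
    rw [show u + 1 + v = (u + v) + 1 by ring]
    simp only [wd, List.cons_append]
    rw [ih, Function.iterate_succ_apply]

theorem T_add' (a b : ℕ) : T (a + 2 * b) = T a + 3 ^ (a % 2) * b := by
  unfold T
  rcases Nat.mod_two_eq_zero_or_one a with h | h
  · rw [if_pos (by omega), if_pos h, h]; omega
  · rw [if_neg (by omega), if_neg (by omega), h]; omega

theorem wd_shift (w : ℕ) : ∀ a b : ℕ, wd w (a + 2 ^ w * b) = wd w a := by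
  induction w with
  | zero => intro a b; rfl
  | succ w ih =>
    intro a b
    have e : a + 2 ^ (w + 1) * b = a + 2 * (2 ^ w * b) := by ring
    have e1 : (a + 2 * (2 ^ w * b)) % 2 = a % 2 := by omega
    have e2 : T (a + 2 * (2 ^ w * b)) = T a + 2 ^ w * (3 ^ (a % 2) * b) := by
      rw [T_add']; ring
    rw [e]
    simp only [wd]
    rw [e1, e2, ih]

theorem wd_mod (w x : ℕ) : wd w (x % 2 ^ w) = wd w x := by
  conv_rhs => rw [← Nat.mod_add_div x (2 ^ w)]
  rw [wd_shift]

theorem wd_per (P : List ℕ → Prop) (w : ℕ) : Per (2 ^ w) (fun x => P (wd w x)) := by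
  intro x
  simp only
  rw [wd_mod]

/-- the words of length `w` in the letters `0`, `1` -/
def words : ℕ → Finset (List ℕ)
  | 0 => {[]}
  | w + 1 => (words w).image (fun v => 0 :: v) ∪ (words w).image (fun v => 1 :: v)

theorem words_card (w : ℕ) (P : List ℕ → Prop) [DecidablePred P] :
    ((words (w + 1)).filter P).card =
      ((words w).filter (fun v => P (0 :: v))).card + ((words w).filter (fun v => P (1 :: v))).card := by
  classical
  have h0 : Function.Injective (fun v : List ℕ => (0 :: v : List ℕ)) := fun a b h => by simpa using h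
  have h1 : Function.Injective (fun v : List ℕ => (1 :: v : List ℕ)) := fun a b h => by simpa using h
  simp only [words]
  rw [filter_union, filter_image, filter_image, card_union_of_disjoint, card_image_of_injective _ h0,
    card_image_of_injective _ h1]
  rw [disjoint_left]
  intro v hv hv'
  rw [mem_image] at hv hv'
  obtain ⟨a, -, rfl⟩ := hv
  obtain ⟨b, -, hb⟩ := hv'
  simp at hb

/-- the number of words of a kind is the number of residue classes -/
theorem wd_prq (w : ℕ) : ∀ (P : List ℕ → Prop) [DecidablePred P],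
    prq (2 ^ w) (fun x => P (wd w x)) = (((words w).filter P).card : ℝ) / 2 ^ w := by
  classical
  induction w with
  | zero =>
    intro P _
    rw [prq_eq]
    by_cases h : P []
    · have e1 : ((range (2 ^ 0)).filter (fun x => P (wd 0 x))).card = 1 := by
        rw [filter_true_of_mem]
        · simp
        · intro x _; exact h
      have e2 : ((words 0).filter P).card = 1 := by
        rw [filter_true_of_mem]
        · simp [words]
        · intro x hx
          simp only [words, mem_singleton] at hx
          rw [hx]; exact h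
      rw [e1, e2]
      norm_num
    · have e1 : ((range (2 ^ 0)).filter (fun x => P (wd 0 x))).card = 0 := by
        rw [card_eq_zero, filter_eq_empty_iff]
        intro x _; exact h
      have e2 : ((words 0).filter P).card = 0 := by
        rw [card_eq_zero, filter_eq_empty_iff]
        intro x hx
        simp only [words, mem_singleton] at hx
        rw [hx]; exact h
      rw [e1, e2]
      norm_num
  | succ w ih =>
    intro P _
    have h1 : (fun x => P (wd (w + 1) x)) = fun x => (x % 2 = 0 ∧ P (0 :: wd w (T^[1] x))) ∨ (x % 2 = 1 ∧ P (1 :: wd w (T^[1] x))) := by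
      funext x
      apply propext
      simp only [wd, Function.iterate_one]
      rcases Nat.mod_two_eq_zero_or_one x with h | h
      · rw [h]; simp
      · rw [h]; simp
    have h2 : ∀ b, b < 2 → prq (2 ^ (1 + w)) (fun x => x % 2 = b ∧ P (b :: wd w (T^[1] x))) =
        1 / 2 * prq (2 ^ w) (fun y => P (b :: wd w y)) := by
      intro b hb
      rw [pow_add]
      rw [prod_prq (B := fun y => P (b :: wd w y)) (by positivity) (Nat.Coprime.pow_left _ (by norm_num)) (par_per b)
        (wd_per (fun v => P (b :: v)) w), prq_par b hb]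
    rw [h1, add_comm w 1, prq_or (fun x g g' => by omega), h2 0 (by norm_num), h2 1 (by norm_num),
      ih (fun v => P (0 :: v)), ih (fun v => P (1 :: v)), add_comm 1 w, words_card w P]
    push_cast
    rw [pow_succ]
    field_simp

/-- the number of the words of a language -/
noncomputable def nw (L : Set (List ℕ)) (w : ℕ) : ℕ := by
  classical
  exact ((words w).filter (fun v => v ∈ L)).card

/-- factorial languages -/
def Fac (L : Set (List ℕ)) : Prop := ∀ u v : List ℕ, v ∈ L → u <:+: v → u ∈ L

/-- the proportion -/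
theorem nw_prq (L : Set (List ℕ)) (w : ℕ) : prq (2 ^ w) (fun x => wd w x ∈ L) = (nw L w : ℝ) / 2 ^ w := by
  classical
  rw [wd_prq w (fun v => v ∈ L)]
  unfold nw
  congr

theorem nw_sub {L : Set (List ℕ)} (hL : Fac L) (u v : ℕ) : (nw L (u + v) : ℝ) ≤ nw L u * nw L v := by
  have h1 : prq (2 ^ (u + v)) (fun x => wd (u + v) x ∈ L) ≤ prq (2 ^ u) (fun x => wd u x ∈ L) * prq (2 ^ v) (fun x => wd v x ∈ L) := by
    rw [← prod_prq (by positivity) (Nat.Coprime.pow_left _ (by norm_num)) (wd_per (fun z => z ∈ L) u) (wd_per (fun z => z ∈ L) v),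
      ← pow_add]
    apply prq_mono
    intro x hx
    rw [wd_add] at hx
    exact ⟨hL _ _ hx (List.prefix_append _ _).isInfix, hL _ _ hx (List.suffix_append _ _).isInfix⟩
  rw [nw_prq, nw_prq, nw_prq, div_mul_div_comm, ← pow_add, div_le_div_iff_of_pos_right (by positivity)] at h1
  exact h1

theorem nw_le (L : Set (List ℕ)) (w : ℕ) : (nw L w : ℝ) ≤ 2 ^ w := by
  have h := prq_le_one (2 ^ w) (fun x => wd w x ∈ L)
  rw [nw_prq, div_le_one (by positivity)] at h
  exact h

theorem words_total (w : ℕ) : (words w).card = 2 ^ w := by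
  induction w with
  | zero => simp [words]
  | succ w ih =>
    have h := words_card w (fun _ => True)
    simp only [filter_true] at h
    rw [h, ih, pow_succ]
    ring

/-- the entropy -/
theorem entropy {L : Set (List ℕ)} (hL : Fac L) (hne : ∀ w, 0 < nw L w) (hp : ∃ w, ∃ v ∈ words w, v ∉ L) :
    ∃ h : ℝ, 0 ≤ h ∧ h < Real.log 2 ∧ Tendsto (fun w : ℕ => Real.log (nw L w) / w) atTop (𝓝 h) ∧
      ∀ w : ℕ, w ≠ 0 → h * w ≤ Real.log (nw L w) := by
  classical
  have hl2 : 0 < Real.log 2 := Real.log_pos (by norm_num)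
  have hne' : ∀ w, (0 : ℝ) < nw L w := fun w => by exact_mod_cast hne w
  have hsub : Subadditive (fun w => Real.log (nw L w)) := by
    intro u v
    simp only
    rw [← Real.log_mul (hne' u).ne' (hne' v).ne']
    exact Real.log_le_log (hne' _) (nw_sub hL u v)
  have h0 : ∀ w, 0 ≤ Real.log (nw L w) := fun w => Real.log_nonneg (by exact_mod_cast hne w)
  have hbdd : BddBelow (Set.range fun n : ℕ => Real.log (nw L n) / n) := by
    refine ⟨0, ?_⟩
    rintro x ⟨n, rfl⟩
    exact div_nonneg (h0 n) (Nat.cast_nonneg _)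
  have hlim := hsub.tendsto_lim hbdd
  refine ⟨hsub.lim, ge_of_tendsto' hlim fun n => div_nonneg (h0 n) (Nat.cast_nonneg _), ?_, hlim, fun w hw => ?_⟩
  · obtain ⟨w, v, hv, hvL⟩ := hp
    have h1 : nw L w < 2 ^ w := by
      rw [← words_total]
      unfold nw
      exact card_lt_card (filter_ssubset.2 ⟨v, hv, hvL⟩)
    have hw : w ≠ 0 := by
      rintro rfl
      have := hne 0
      omega
    have h2 := hsub.lim_le_div hbdd hw
    refine lt_of_le_of_lt h2 ?_
    have hw0 : (0 : ℝ) < w := by
      have : 0 < w := Nat.pos_of_ne_zero hw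
      exact_mod_cast this
    rw [div_lt_iff₀ hw0]
    have h3 : (nw L w : ℝ) < 2 ^ w := by exact_mod_cast h1
    have h4 := Real.log_lt_log (hne' w) h3
    rw [Real.log_pow] at h4
    linarith
  · have hw0 : (0 : ℝ) < w := by
      have : 0 < w := Nat.pos_of_ne_zero hw
      exact_mod_cast this
    have h2 := hsub.lim_le_div hbdd hw
    rwa [le_div_iff₀ hw0] at h2

/-- no long block above `n ^ κ` has its word in `L` -/
def LoL (L : Set (List ℕ)) (c κ : ℝ) (n : ℕ) : Prop :=
  ∀ s w : ℕ, c * Real.log (Real.log n) ≤ w → (∀ s', s' < s + w → (n : ℝ) ^ κ < (T^[s'] n : ℕ)) →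
    wd w (T^[s] n) ∉ L

/-- some long block above `n ^ κ` has its word in `L` -/
def UpL (L : Set (List ℕ)) (c κ : ℝ) (n : ℕ) : Prop :=
  ∃ s w : ℕ, c * Real.log (Real.log n) ≤ w ∧ (∀ s', s' < s + w → (n : ℝ) ^ κ < (T^[s'] n : ℕ)) ∧
    wd w (T^[s] n) ∈ L

theorem LoL_rare {L : Set (List ℕ)} {h c κ : ℝ} (hh : Tendsto (fun w : ℕ => Real.log (nw L w) / w) atTop (𝓝 h))
    (hne : ∀ w, 0 < nw L w) (h2 : h < Real.log 2) (hc : 1 < (Real.log 2 - h) * c) (hκ : 0 < κ)
    (ε : ℝ) (hε : 0 < ε) : ∀ᶠ N : ℕ in atTop,
    (cN (St (fun N m => wd (kU c N) m ∈ L) N (Lv κ N)) N : ℝ) ≤ ε * N := by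
  have hβ0 : 0 < Real.log 2 - h := by linarith
  have hc0 : 0 < c := by
    by_contra hcon
    push Not at hcon
    nlinarith
  have hl1 : ∀ᶠ N : ℕ in atTop, (1 : ℝ) ≤ Real.log (Real.log N) := ll_tendsto.eventually (eventually_ge_atTop 1)
  have hlog : Tendsto (fun N : ℕ => Real.log (N : ℝ)) atTop atTop :=
    Real.tendsto_log_atTop.comp tendsto_natCast_atTop_atTop
  have hkU : Tendsto (fun N : ℕ => kU c N) atTop atTop := by
    unfold kU
    exact tendsto_nat_floor_atTop.comp ((tendsto_atTop_add_const_right _ (-1) ll_tendsto).const_mul_atTop hc0)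
  refine St_rare2 (ι := Unit) _ (fun _ => {()}) (fun N _ => kU c N)
    (fun N _ m => wd (kU c N) m ∈ L) ?_ ?_ ?_ ?_ hκ ε hε
  · intro N _
    exact wd_per (fun z => z ∈ L) _
  · intro κ hκ
    have e1 : ∀ᶠ X : ℝ in atTop, c * Real.log X ≤ κ * X := by
      filter_upwards [Real.isLittleO_log_id_atTop.bound (show 0 < κ / c by positivity),
        eventually_ge_atTop (1 : ℝ)] with X h1 h3
      rw [Real.norm_of_nonneg (Real.log_nonneg h3), id, Real.norm_of_nonneg (by linarith), div_mul_eq_mul_div,
        le_div_iff₀ (by positivity)] at h1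
      linarith
    filter_upwards [hl1, hlog.eventually (e1.and (eventually_ge_atTop (1 : ℝ)))] with N g1 g2 v _
    obtain ⟨g2, g3⟩ := g2
    have hN0 : (0 : ℝ) < N := by
      by_contra hcon
      push Not at hcon
      have : (N : ℝ) = 0 := le_antisymm hcon (Nat.cast_nonneg _)
      rw [this, Real.log_zero] at g3
      norm_num at g3
    have k2 := kU_le hc0 g1
    have k3 : (kU c N : ℝ) ≤ κ * Real.log N := by linarith
    calc (2 : ℝ) ^ kU c N = Real.exp (kU c N * Real.log 2) := by rw [Real.exp_nat_mul, Real.exp_log (by norm_num)]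
      _ ≤ Real.exp (Real.log N * κ) := by
          apply Real.exp_le_exp.2
          have hl2 : Real.log 2 < 1 := by have := Real.log_two_lt_d9; linarith
          have hl2' : 0 < Real.log 2 := Real.log_pos (by norm_num)
          have m0 : (0 : ℝ) ≤ kU c N := Nat.cast_nonneg _
          nlinarith
      _ = (N : ℝ) ^ κ := by rw [Real.rpow_def_of_pos hN0]
  · filter_upwards with N m hm
    exact ⟨(), mem_singleton_self _, hm⟩
  · -- probabilities
    set β := Real.log 2 - h with hβ
    set β' := (β + 1 / c) / 2 with hβ'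
    have hb1 : β' < β := by
      have : 1 / c < β := by rwa [div_lt_iff₀ hc0]
      rw [hβ']
      linarith
    have hb2 : 1 < β' * c := by
      have h3 : β' * c = (β * c + 1) / 2 := by
        rw [hβ']
        field_simp
      rw [h3]
      linarith
    have hb0 : 0 < β' := by rw [hβ']; positivity
    have g1 := exp_kU hb0 hb2
    refine squeeze_zero' ?_ ?_ g1
    · filter_upwards with N
      exact mul_nonneg (Real.log_natCast_nonneg N) (sum_nonneg fun p _ => prq_nonneg _ _)
    · have e1 : ∀ᶠ w : ℕ in atTop, Real.log (nw L w) / w < h + (β - β') :=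
        hh.eventually (gt_mem_nhds (by linarith))
      filter_upwards [hkU.eventually (e1.and (eventually_ge_atTop 1))] with N g2
      obtain ⟨g2, g3⟩ := g2
      rw [sum_singleton]
      apply mul_le_mul_of_nonneg_left _ (Real.log_natCast_nonneg N)
      rw [nw_prq]
      have hk0 : (0 : ℝ) < kU c N := by
        have : 0 < kU c N := g3
        exact_mod_cast this
      rw [div_lt_iff₀ hk0] at g2
      have hn0 : (0 : ℝ) < nw L (kU c N) := by exact_mod_cast hne _
      rw [div_le_iff₀ (by positivity)]
      calc (nw L (kU c N) : ℝ) = Real.exp (Real.log (nw L (kU c N))) := (Real.exp_log hn0).symm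
        _ ≤ Real.exp (-(β' * kU c N) + kU c N * Real.log 2) := by
            apply Real.exp_le_exp.2
            have : h + (β - β') = Real.log 2 - β' := by rw [hβ]; ring
            rw [this] at g2
            linarith
        _ = Real.exp (-(β' * kU c N)) * 2 ^ kU c N := by
            rw [Real.exp_add, Real.exp_nat_mul, Real.exp_log (by norm_num)]

theorem UpL_rare {L : Set (List ℕ)} {h e κ : ℝ} (hne : ∀ w, 0 < nw L w) (h2 : h < Real.log 2)
    (hlow : ∀ w : ℕ, w ≠ 0 → h * w ≤ Real.log (nw L w)) (he : 0 < e) (he1 : e < 1) (hκ : 0 < κ)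
    (hκ1 : κ < 1) (ε : ℝ) (hε : 0 < ε) : ∀ᶠ N : ℕ in atTop,
    (cN (fun n => Real.sqrt N ≤ n ∧ n ≤ N ∧ ¬ UpL L ((1 - e) / (Real.log 2 - h)) κ n) N : ℝ) ≤ ε * N := by
  set β := Real.log 2 - h with hβ
  have hrp : 0 < β := by rw [hβ]; linarith
  set c' := (1 - e) / β with hc'
  have h1e : 0 < 1 - e := by linarith
  have hc'0 : 0 < c' := by positivity
  have hbc' : β * c' = 1 - e := by rw [hc']; field_simp
  have hq : ∀ᶠ N : ℕ in atTop, Real.log N ^ (-(1 - e / 2)) ≤
      prq (2 ^ kL c' N) (fun x => wd (kL c' N) x ∈ L) := by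
    have g1 := exp_kL (c := c') (r := β) (e := e / 2) hc'0 hrp.le (by linarith)
    filter_upwards [g1] with N g2
    refine g2.trans ?_
    rw [nw_prq, le_div_iff₀ (by positivity)]
    have hn0 : (0 : ℝ) < nw L (kL c' N) := by exact_mod_cast hne _
    have h5 := hlow (kL c' N) (by unfold kL; omega)
    calc Real.exp (-(β * kL c' N)) * 2 ^ kL c' N = Real.exp (-(β * kL c' N) + kL c' N * Real.log 2) := by
          rw [Real.exp_add, Real.exp_nat_mul, Real.exp_log (by norm_num)]
      _ ≤ Real.exp (Real.log (nw L (kL c' N))) := by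
          apply Real.exp_le_exp.2
          rw [hβ]
          linarith
      _ = nw L (kL c' N) := Real.exp_log hn0
  filter_upwards [blocks (e := e / 2) (κ := κ) (C := c' + 1) (by positivity) hκ hκ1 (kL c')
      (fun N x => wd (kL c' N) x ∈ L)
      (fun N => wd_per (fun z => z ∈ L) _) (fun N => by unfold kL; omega) (kL_le hc'0) hq ε hε,
      (Real.tendsto_log_atTop.comp tendsto_natCast_atTop_atTop).eventually (eventually_ge_atTop 3),
      eventually_ge_atTop 3] with N g1 g2 g3
  rw [Function.comp_apply] at g2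
  refine le_trans (Nat.cast_le.2 (cN_mono (fun n hn ⟨k1, k2, k3⟩ => ⟨k1, k2, fun ⟨s, hs1, hs2⟩ => k3 ?_⟩) N)) g1
  refine ⟨s, kL c' N, ?_, fun s' hs' => hs1 s' hs'.le, hs2⟩
  obtain ⟨m1, m2⟩ := loglog k1 g3 g2
  have hnR : (n : ℝ) ≤ N := by exact_mod_cast k2
  have hn0 : (0 : ℝ) < n := by exact_mod_cast hn
  have m3 : Real.log (Real.log n) ≤ Real.log (Real.log N) := Real.log_le_log m2 (Real.log_le_log hn0 hnR)
  unfold kL
  push_cast
  have m5 := Nat.lt_floor_add_one (c' * Real.log (Real.log N))
  have m6 : c' * Real.log (Real.log n) ≤ c' * Real.log (Real.log N) := mul_le_mul_of_nonneg_left m3 hc'0.le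
  linarith

/-- **the law of the longest blocks with words in a factorial language** -/
theorem lang_law {L : Set (List ℕ)} (hL : Fac L) {h : ℝ} (hh : Tendsto (fun w : ℕ => Real.log (nw L w) / w) atTop (𝓝 h))
    (hne : ∀ w, 0 < nw L w) (hlt : h < Real.log 2)
    (hlow : ∀ w : ℕ, w ≠ 0 → h * w ≤ Real.log (nw L w)) {e κ : ℝ} (he : 0 < e) (he1 : e < 1)
    (hκ : 0 < κ) (hκ1 : κ < 1) :
    HasD (fun n => LoL L ((1 + e) / (Real.log 2 - h)) κ n ∧ UpL L ((1 - e) / (Real.log 2 - h)) κ n) 1 := by
  have hrp : 0 < Real.log 2 - h := by linarith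
  set c := (1 + e) / (Real.log 2 - h) with hc
  have hc0 : 0 < c := by positivity
  have hbc : (Real.log 2 - h) * c = 1 + e := by rw [hc]; field_simp
  apply hasD_one
  intro ε hε
  filter_upwards [small_rare (ε / 3) (by positivity), UpL_rare hne hlt hlow he he1 hκ hκ1 (ε / 3) (by positivity),
    LoL_rare (c := c) (κ := κ / 2) hh hne hlt (by rw [hbc]; linarith) (by positivity) (ε / 3) (by positivity),
    ll_tendsto.eventually (eventually_ge_atTop 1), eventually_ge_atTop 3,
    (Real.tendsto_log_atTop.comp tendsto_natCast_atTop_atTop).eventually (eventually_ge_atTop 3)] with N h1 h2 h3 h4 h5 h6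
  rw [Function.comp_apply] at h6
  have h7 := cN_or3 (P := fun n => ¬ (LoL L c κ n ∧ UpL L ((1 - e) / (Real.log 2 - h)) κ n))
    (A := fun n => (n : ℝ) < Real.sqrt N)
    (B := fun n => Real.sqrt N ≤ n ∧ n ≤ N ∧ ¬ UpL L ((1 - e) / (Real.log 2 - h)) κ n)
    (C := St (fun N m => wd (kU c N) m ∈ L) N (Lv (κ / 2) N)) (N := N)
    (fun n hn hnN hbad => by
      rcases lt_or_ge (n : ℝ) (Real.sqrt N) with h | h
      · exact Or.inl h
      · right
        obtain ⟨g1, g2⟩ := loglog h h5 h6
        rcases Classical.not_and_iff_not_or_not.1 hbad with h' | h'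
        · right
          unfold LoL at h'
          push Not at h'
          obtain ⟨s, w, hw, hs1, hs2⟩ := h'
          have hKw : kU c N ≤ w := by
            have : (kU c N : ℝ) ≤ w :=
              (kU_le hc0 h4).trans ((mul_le_mul_of_nonneg_left g1 hc0.le).trans hw)
            exact_mod_cast this
          obtain ⟨v, rfl⟩ := Nat.exists_eq_add_of_le hKw
          rcases Nat.eq_zero_or_pos (kU c N + v) with h0 | h0
          · refine ⟨0, fun s' hs' => ?_, ?_⟩
            · have hs0 : s' = 0 := by omega
              subst hs0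
              have hn1 : (1 : ℝ) < n := by
                have : (1 : ℝ) ≤ n := by exact_mod_cast hn
                rcases this.eq_or_lt with h8 | h8
                · rw [← h8, Real.log_one] at g2
                  exact absurd g2 (lt_irrefl _)
                · exact h8
              apply Lv_lt hκ h
              simp only [Function.iterate_zero, id_eq]
              calc (n : ℝ) ^ κ < (n : ℝ) ^ (1 : ℝ) := Real.rpow_lt_rpow_of_exponent_lt hn1 hκ1
                _ = n := Real.rpow_one _
            · have hk0 : kU c N = 0 := by omega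
              have hv0 : v = 0 := by omega
              subst hv0
              show wd (kU c N) (T^[0] n) ∈ L
              rw [hk0] at hs2 ⊢
              simpa [wd] using hs2
          · refine ⟨s, fun s' hs' => Lv_lt hκ h (hs1 s' (by omega)), ?_⟩
            rw [wd_add] at hs2
            exact hL _ _ hs2 (List.prefix_append _ _).isInfix
        · left
          exact ⟨h, hnN, h'⟩)
  linarith

end Pool.Agent.V11311.ER
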