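import Pool.Agent.V11311.ER.Y2

/-! Pairs of blocks of two trajectories, part 3: conclusion. -/

set_option autoImplicit false

namespace Pool.Agent.V11311.ER

open Finset Filter Topology Pool.Agent.V11311.FP Pool.Agent.V11311.RC Pool.Agent.V11311.SL

open Pool.Agent.V11311.DV (fl fl_card mem_fl)

open Pool.Agent.Helper894.Collatz (T od er od_add iter_eq sum_pow_od period)

open Pool.Agent.H377R2 (iter_pos)

/-- long windows consist of windows of the length `W` -/
theorem pieces2 {h : ℕ → ℝ} (hh : ∀ j, |h j| ≤ 1) {W : ℕ} {η : ℝ} (q r : ℕ)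
    (hp : ∀ i, i < q → |∑ j ∈ range W, h (W * i + j)| ≤ η * W) :
    |∑ j ∈ range (W * q + r), h j| ≤ η * W * q + r := by
  have h1 : |∑ j ∈ range (W * q), h j| ≤ η * W * q := by
    induction q with
    | zero => simp
    | succ q ih =>
      rw [mul_add, mul_one, sum_range_add]
      have g1 := ih fun i hi => hp i (by omega)
      have g2 := hp q (by omega)
      refine (abs_add_le _ _).trans ?_
      push_cast
      linarith
  rw [sum_range_add]
  refine (abs_add_le _ _).trans ?_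
  have h2 : |∑ j ∈ range r, h (W * q + j)| ≤ r := by
    refine (abs_sum_le_sum_abs _ _).trans ?_
    calc ∑ j ∈ range r, |h (W * q + j)| ≤ ∑ _j ∈ range r, (1 : ℝ) := sum_le_sum fun j _ => hh _
      _ = r := by simp
  linarith

/-- **any two long blocks of two typical trajectories are uncorrelated** -/
theorem pair_law {k : ℕ} (hk : 1 ≤ k) {δ : ℝ} (hδ : 0 < δ) (hδ1 : δ ≤ 1) : ∃ C : ℝ, 0 < C ∧ ∀ κ : ℝ, 0 < κ →
    PD (fun N n m => ∀ s t w : ℕ, C * Real.log (Real.log N) ≤ w → (∀ s', s' < s + w → Lv κ N < T^[s'] n) →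
      (∀ t', t' < t + w → Lv κ N < T^[t'] m) → ∀ a, a < 2 ^ k → ∀ b, b < 2 ^ k →
      |∑ j ∈ range w, ind (Cr k a) (T^[s + j] n) * ind (Cr k b) (T^[t + j] m) - w / 4 ^ k| ≤ δ * w) := by
  classical
  set η : ℝ := δ / 4 with hη
  have hη0 : 0 < η := by positivity
  have hη1 : η ≤ 1 := by rw [hη]; linarith
  set c : ℝ := 12 / η ^ 2 with hc
  have hc0 : 0 < c := by rw [hc]; positivity
  have hk0 : (0 : ℝ) < k := by exact_mod_cast hk
  refine ⟨2 * k * (c + 1) / δ, by positivity, fun κ hκ => ?_⟩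
  apply PD_of
  intro ε hε
  have hshort := short_law hκ
  have hshort' : ∀ᶠ N : ℕ in atTop, (cN (fun m => ¬ ∀ t : ℕ, (∀ t', t' ≤ t → (m : ℝ) ^ κ < (T^[t'] m : ℕ)) →
      (t : ℝ) ≤ 21 * Real.log m) N : ℝ) ≤ ε / 3 * N := by
    unfold HasD at hshort
    have h1 := hshort.eventually (lt_mem_nhds (show 1 - ε / 3 < 1 by linarith))
    filter_upwards [h1, eventually_gt_atTop 0] with N h2 h3
    have hN0 : (0 : ℝ) < N := by exact_mod_cast h3
    have h4 := cN_add_not (fun m : ℕ => ∀ t : ℕ, (∀ t', t' ≤ t → (m : ℝ) ^ κ < (T^[t'] m : ℕ)) →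
      (t : ℝ) ≤ 21 * Real.log m) N
    have h5 : (cN (fun m : ℕ => ∀ t : ℕ, (∀ t', t' ≤ t → (m : ℝ) ^ κ < (T^[t'] m : ℕ)) →
      (t : ℝ) ≤ 21 * Real.log m) N : ℝ) + cN (fun m => ¬ ∀ t : ℕ, (∀ t', t' ≤ t → (m : ℝ) ^ κ < (T^[t'] m : ℕ)) →
      (t : ℝ) ≤ 21 * Real.log m) N = N := by exact_mod_cast h4
    rw [lt_div_iff₀ hN0] at h2
    linarith
  filter_upwards [hshort', fam_rare hk hη0 hη1 hc hκ (ε / 3) (by positivity), eventually_ge_atTop 3,
    (Real.tendsto_log_atTop.comp tendsto_natCast_atTop_atTop).eventually (eventually_ge_atTop 1),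
    ll_tendsto.eventually (eventually_ge_atTop 1)] with N h1 h2 hN hlog hll
  rw [Function.comp_apply] at hlog
  set Λ := Real.log N with hΛ
  have hN0 : (0 : ℝ) < N := by
    have : (3 : ℝ) ≤ N := by exact_mod_cast hN
    linarith
  have hbn : (bn c N : ℝ) ≤ (c + 1) * Real.log Λ := by
    have g2 := Nat.ceil_lt_add_one (show 0 ≤ c * Real.log Λ by positivity)
    unfold bn
    rw [← hΛ]
    linarith
  have hbn0 : 0 < bn c N := Nat.ceil_pos.2 (by rw [← hΛ]; positivity)
  have hW0 : 0 < k * bn c N := Nat.mul_pos (by omega) hbn0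
  refine ⟨fun m => (¬ ∀ t : ℕ, (∀ t', t' ≤ t → (m : ℝ) ^ κ < (T^[t'] m : ℕ)) → (t : ℝ) ≤ 21 * Real.log m) ∨
    St (fun N x => BF k η c (fun _ _ => 1) N x) N (Lv κ N) m, ?_, ?_⟩
  · have g1 := h2 (fun _ _ => 1) (fun _ _ => by norm_num)
    have h6 := cN_or3 (P := fun m : ℕ => (¬ ∀ t : ℕ, (∀ t', t' ≤ t → (m : ℝ) ^ κ < (T^[t'] m : ℕ)) → (t : ℝ) ≤ 21 * Real.log m) ∨
      St (fun N x => BF k η c (fun _ _ => 1) N x) N (Lv κ N) m)
      (A := fun m : ℕ => ¬ ∀ t : ℕ, (∀ t', t' ≤ t → (m : ℝ) ^ κ < (T^[t'] m : ℕ)) → (t : ℝ) ≤ 21 * Real.log m)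
      (B := St (fun N x => BF k η c (fun _ _ => 1) N x) N (Lv κ N))
      (C := St (fun N x => BF k η c (fun _ _ => 1) N x) N (Lv κ N))
      (N := N) (fun n _ _ h => by
        rcases h with h | h
        · exact Or.inl h
        · exact Or.inr (Or.inl h))
    linarith
  · intro m hm hmN hbad
    rw [not_or, not_not] at hbad
    obtain ⟨b1, b2⟩ := hbad
    have hm0 : (0 : ℝ) < m := by exact_mod_cast hm
    have hmR : (m : ℝ) ≤ N := by exact_mod_cast hmN
    have g1 := h2 (fun q j => ind (Cr k q.2) (T^[q.1 + j] m)) (fun q j => ⟨ind_nonneg _ _, ind_le_one _ _⟩)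
    have hpos : 0 ≤ ε / 3 * (N : ℝ) := by positivity
    refine le_trans (Nat.cast_le.2 (cN_mono (fun n hn hP => ?_) N)) (g1.trans (by linarith))
    by_contra hst
    apply hP
    intro s t w hw hsn htm a ha b hb
    -- the sizes
    have hWw : ((k * bn c N : ℕ) : ℝ) ≤ δ / 2 * w := by
      push_cast
      calc (k : ℝ) * bn c N ≤ k * ((c + 1) * Real.log Λ) := mul_le_mul_of_nonneg_left hbn hk0.le
        _ = δ / 2 * (2 * k * (c + 1) / δ * Real.log Λ) := by field_simp
        _ ≤ δ / 2 * w := mul_le_mul_of_nonneg_left hw (by positivity)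
    set W := k * bn c N with hW
    have hdiv := Nat.div_add_mod w W
    have hmod := Nat.mod_lt w hW0
    -- one window
    have hone : ∀ i, i < w / W → |∑ j ∈ range W, (ind (Cr k a) (T^[s + (W * i + j)] n) * ind (Cr k b) (T^[t + (W * i + j)] m) - 1 / 4 ^ k)| ≤
        δ / 2 * W := by
      intro i hi
      have hi1 : W * i + W ≤ w := by
        calc W * i + W = W * (i + 1) := by ring
          _ ≤ W * (w / W) := Nat.mul_le_mul_left _ hi
          _ ≤ w := by omega
      have q1 : ¬ BF k η c (fun q j => ind (Cr k q.2) (T^[q.1 + j] m)) N (T^[s + W * i] n) := by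
        intro hB
        exact hst ⟨s + W * i, fun s' hs' => hsn s' (by omega), hB⟩
      have q2 : ¬ BF k η c (fun _ _ => 1) N (T^[t + W * i] m) := by
        intro hB
        exact b2 ⟨t + W * i, fun s' hs' => htm s' (by omega), hB⟩
      unfold BF at q1 q2
      push Not at q1 q2
      have ht21 : t + W * i < ⌊21 * Λ⌋₊ + 1 := by
        rw [Nat.lt_succ_iff]
        apply Nat.le_floor
        have g1 := b1 (t + W * i) (fun t' ht' => by
          have g2 := htm t' (by omega)
          have g3 : (N : ℝ) ^ κ < (T^[t'] m : ℕ) := by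
            unfold Lv at g2
            exact (Nat.floor_lt (by positivity)).1 g2
          exact lt_of_le_of_lt (Real.rpow_le_rpow hm0.le hmR hκ.le) g3)
        refine g1.trans ?_
        exact mul_le_mul_of_nonneg_left (Real.log_le_log hm0 hmR) (by norm_num)
      have q3 := q1 (t + W * i, b) (mem_product.2 ⟨mem_range.2 ht21, mem_range.2 hb⟩) a (mem_range.2 ha)
      have q4 := q2 (0, 0) (mem_product.2 ⟨mem_range.2 (by omega), mem_range.2 (by positivity)⟩) b (mem_range.2 hb)
      rw [← hW] at q3 q4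
      have eW : η * ((k : ℝ) * bn c N) = η * W := by rw [hW]; push_cast; ring
      rw [eW] at q3 q4
      have hp2 : (1 : ℝ) / 2 ^ k ≤ 1 := by
        rw [div_le_one (by positivity)]
        exact one_le_pow₀ (by norm_num)
      have hsplit : ∑ j ∈ range W, (ind (Cr k a) (T^[s + (W * i + j)] n) * ind (Cr k b) (T^[t + (W * i + j)] m) - 1 / 4 ^ k) =
          Wg (Cr k a) (1 / 2 ^ k) (fun j => ind (Cr k b) (T^[t + W * i + j] m)) W (T^[s + W * i] n) +
          1 / 2 ^ k * Wg (Cr k b) (1 / 2 ^ k) (fun _ => 1) W (T^[t + W * i] m) := by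
        unfold Wg
        rw [mul_sum, ← sum_add_distrib]
        apply sum_congr rfl
        intro j _
        have e1 : T^[j] (T^[s + W * i] n) = T^[s + (W * i + j)] n := by
          rw [← Function.iterate_add_apply]
          congr 1
          ring
        have e2 : T^[j] (T^[t + W * i] m) = T^[t + (W * i + j)] m := by
          rw [← Function.iterate_add_apply]
          congr 1
          ring
        have e3 : t + W * i + j = t + (W * i + j) := by ring
        have e4 : (1 : ℝ) / 4 ^ k = 1 / 2 ^ k * (1 / 2 ^ k) := by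
          rw [show (4 : ℝ) = 2 * 2 by norm_num, mul_pow]
          field_simp
        rw [e1, e2, e4]
        beta_reduce
        rw [e3]
        ring
      rw [hsplit]
      refine (abs_add_le _ _).trans ?_
      rw [abs_mul, abs_of_pos (show (0 : ℝ) < 1 / 2 ^ k by positivity)]
      have q5 : (1 : ℝ) / 2 ^ k * |Wg (Cr k b) (1 / 2 ^ k) (fun _ => 1) W (T^[t + W * i] m)| ≤ 1 * (η * W) :=
        mul_le_mul hp2 q4 (abs_nonneg _) (by norm_num)
      have q6 : δ / 2 * (W : ℝ) = η * W + η * W := by rw [hη]; ring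
      linarith
    have hh : ∀ j, |ind (Cr k a) (T^[s + j] n) * ind (Cr k b) (T^[t + j] m) - 1 / 4 ^ k| ≤ 1 := by
      intro j
      have u1 := ind_nonneg (Cr k a) (T^[s + j] n)
      have u2 := ind_le_one (Cr k a) (T^[s + j] n)
      have u3 := ind_nonneg (Cr k b) (T^[t + j] m)
      have u4 := ind_le_one (Cr k b) (T^[t + j] m)
      have u5 : (0 : ℝ) ≤ 1 / 4 ^ k := by positivity
      have u6 : (1 : ℝ) / 4 ^ k ≤ 1 := by
        rw [div_le_one (by positivity)]
        exact one_le_pow₀ (by norm_num)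
      rw [abs_le]
      constructor
      · nlinarith [mul_nonneg u1 u3]
      · nlinarith [mul_nonneg u1 u3]
    have hfin := pieces2 (h := fun j => ind (Cr k a) (T^[s + j] n) * ind (Cr k b) (T^[t + j] m) - 1 / 4 ^ k) hh
      (w / W) (w % W) hone
    rw [hdiv] at hfin
    have e5 : ∑ j ∈ range w, (ind (Cr k a) (T^[s + j] n) * ind (Cr k b) (T^[t + j] m) - 1 / 4 ^ k) =
        ∑ j ∈ range w, ind (Cr k a) (T^[s + j] n) * ind (Cr k b) (T^[t + j] m) - w / 4 ^ k := by
      rw [sum_sub_distrib, sum_const, card_range, nsmul_eq_mul, mul_one_div]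
    rw [e5] at hfin
    refine hfin.trans ?_
    have m1 : ((W * (w / W) : ℕ) : ℝ) ≤ w := by
      have : W * (w / W) ≤ w := by omega
      exact_mod_cast this
    have m2 : ((w % W : ℕ) : ℝ) ≤ W := by exact_mod_cast hmod.le
    push_cast at m1
    have m3 : δ / 2 * (W : ℝ) * ((w / W : ℕ) : ℝ) ≤ δ / 2 * w := by
      have := mul_le_mul_of_nonneg_left m1 (show 0 ≤ δ / 2 by positivity)
      linarith
    linarith

end Pool.Agent.V11311.ER
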