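import Pool.Agent.V11311.ER.R3

/-! Common blocks of two trajectories, part 4: conclusion. -/

set_option autoImplicit false

namespace Pool.Agent.V11311.ER

open Finset Filter Topology Pool.Agent.V11311.FP Pool.Agent.V11311.RC Pool.Agent.V11311.SL

open Pool.Agent.V11311.DV (fl fl_card mem_fl)

open Pool.Agent.Helper894.Collatz (T od er od_add iter_eq sum_pow_od period)

open Pool.Agent.H377R2 (iter_pos)

/-- almost all pairs -/
def PD (P : ℕ → ℕ → ℕ → Prop) : Prop :=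
  ∀ ε : ℝ, 0 < ε → ∀ᶠ N : ℕ in atTop, ∑ m ∈ Icc 1 N, (cN (fun n => ¬ P N n m) N : ℝ) ≤ ε * (N : ℝ) ^ 2

theorem PD_of {P : ℕ → ℕ → ℕ → Prop} (h : ∀ ε : ℝ, 0 < ε → ∀ᶠ N : ℕ in atTop, ∃ Bad : ℕ → Prop,
    (cN Bad N : ℝ) ≤ ε * N ∧ ∀ m, 0 < m → m ≤ N → ¬ Bad m → (cN (fun n => ¬ P N n m) N : ℝ) ≤ ε * N) : PD P := by
  classical
  intro ε hε
  filter_upwards [h (ε / 2) (by positivity)] with N hN
  obtain ⟨Bad, h1, h2⟩ := hN
  have h3 : ∀ m ∈ Icc 1 N, (cN (fun n => ¬ P N n m) N : ℝ) ≤ (if Bad m then (N : ℝ) else 0) + ε / 2 * N := by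
    intro m hm
    rw [mem_Icc] at hm
    by_cases hb : Bad m
    · rw [if_pos hb]
      have : (cN (fun n => ¬ P N n m) N : ℝ) ≤ N := by exact_mod_cast cN_le _ N
      have h4 : 0 ≤ ε / 2 * (N : ℝ) := by positivity
      linarith
    · rw [if_neg hb, zero_add]
      exact h2 m (by omega) hm.2 hb
  have h5 : ∑ m ∈ Icc 1 N, (if Bad m then (N : ℝ) else 0) = cN Bad N * N := by
    rw [← sum_filter, sum_const, nsmul_eq_mul]
    congr 2
  calc ∑ m ∈ Icc 1 N, (cN (fun n => ¬ P N n m) N : ℝ)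
      ≤ ∑ m ∈ Icc 1 N, ((if Bad m then (N : ℝ) else 0) + ε / 2 * N) := sum_le_sum h3
    _ = cN Bad N * N + N * (ε / 2 * N) := by
        rw [sum_add_distrib, h5, sum_const, Nat.card_Icc, Nat.add_sub_cancel, nsmul_eq_mul]
    _ ≤ ε / 2 * N * N + N * (ε / 2 * N) := by
        have := mul_le_mul_of_nonneg_right h1 (Nat.cast_nonneg (α := ℝ) N)
        linarith
    _ = ε * (N : ℝ) ^ 2 := by ring

/-- a common block of length `k` above the level `Y` -/
def Com (Y k n m : ℕ) : Prop :=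
  ∃ s t, (∀ s', s' ≤ s → Y < T^[s'] n) ∧ (∀ t', t' ≤ t → Y < T^[t'] m) ∧ T^[s] n % 2 ^ k = T^[t] m % 2 ^ k

theorem com_law {e κ : ℝ} (he : 0 < e) (he1 : e < 1) (hκ0 : 0 < κ) (hκ1 : κ < 1) :
    PD (fun N n m => Com (Lv κ N) (kf (2 - e) N) n m ∧ ¬ Com (Lv κ N) (kc (2 + e) N) n m) := by
  classical
  apply PD_of
  intro ε hε
  have hshort := short_law hκ0
  have hshort' : ∀ᶠ N : ℕ in atTop, (cN (fun m => ¬ ∀ t : ℕ, (∀ t', t' ≤ t → (m : ℝ) ^ κ < (T^[t'] m : ℕ)) →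
      (t : ℝ) ≤ 21 * Real.log m) N : ℝ) ≤ ε / 3 * N := by
    unfold HasD at hshort
    have h1 := hshort.eventually (lt_mem_nhds (show 1 - ε / 3 < 1 by linarith))
    filter_upwards [h1, eventually_gt_atTop 0] with N h2 h3
    have hN0 : (0 : ℝ) < N := by exact_mod_cast h3
    have h4 := cN_add_not (fun m : ℕ => ∀ t : ℕ, (∀ t', t' ≤ t → (m : ℝ) ^ κ < (T^[t'] m : ℕ)) →
      (t : ℝ) ≤ 21 * Real.log m) N
    have h5 : (cN (fun m : ℕ => ∀ t : ℕ, (∀ t', t' ≤ t → (m : ℝ) ^ κ < (T^[t'] m : ℕ)) →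
      (t : ℝ) ≤ 21 * Real.log m) N : ℝ) + cN (fun m => ¬ ∀ t : ℕ, (∀ t', t' ≤ t → (m : ℝ) ^ κ < (T^[t'] m : ℕ)) →
      (t : ℝ) ≤ 21 * Real.log m) N = N := by exact_mod_cast h4
    rw [lt_div_iff₀ hN0] at h2
    linarith
  filter_upwards [hshort', coll_rare (c := 2 - e) (by linarith) hκ0 hκ1 (ε / 3) (by positivity),
    small_rare2 hκ1 (ε / 3) (by positivity), match_rare (c := 2 - e) (by linarith) (by linarith) hκ0 hκ1 (ε / 3)
      (by positivity), hit_rare (c := 2 + e) (by linarith) hκ0 (ε / 3) (by positivity), eventually_ge_atTop 3,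
    (Real.tendsto_log_atTop.comp tendsto_natCast_atTop_atTop).eventually (eventually_ge_atTop 1),
    (kf_tendsto (show 0 < 2 - e by linarith)).eventually (eventually_ge_atTop 1)]
    with N h1 h2 h3 h4 h5 hN hlog hk
  rw [Function.comp_apply] at hlog
  set Λ := Real.log N with hΛ
  refine ⟨fun m => (m : ℝ) < (N : ℝ) ^ ((1 + κ) / 2) ∨
    (¬ (RR κ (2 - e) N : ℝ) / 2 ≤ (im (kf (2 - e) N) (RR κ (2 - e) N) m).card) ∨
    ¬ ∀ t : ℕ, (∀ t', t' ≤ t → (m : ℝ) ^ κ < (T^[t'] m : ℕ)) → (t : ℝ) ≤ 21 * Real.log m, ?_, ?_⟩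
  · have h6 := cN_or3 (P := fun m : ℕ => (m : ℝ) < (N : ℝ) ^ ((1 + κ) / 2) ∨
      (¬ (RR κ (2 - e) N : ℝ) / 2 ≤ (im (kf (2 - e) N) (RR κ (2 - e) N) m).card) ∨
      ¬ ∀ t : ℕ, (∀ t', t' ≤ t → (m : ℝ) ^ κ < (T^[t'] m : ℕ)) → (t : ℝ) ≤ 21 * Real.log m)
      (A := fun m => (m : ℝ) < (N : ℝ) ^ ((1 + κ) / 2))
      (B := fun m => ¬ (RR κ (2 - e) N : ℝ) / 2 ≤ (im (kf (2 - e) N) (RR κ (2 - e) N) m).card)
      (C := fun m : ℕ => ¬ ∀ t : ℕ, (∀ t', t' ≤ t → (m : ℝ) ^ κ < (T^[t'] m : ℕ)) → (t : ℝ) ≤ 21 * Real.log m)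
      (N := N) (fun n _ _ h => h)
    linarith
  · intro m hm hmN hbad
    push Not at hbad
    obtain ⟨b1, b2, b3⟩ := hbad
    have hm0 : (0 : ℝ) < m := by exact_mod_cast hm
    have hmR : (m : ℝ) ≤ N := by exact_mod_cast hmN
    -- the residues of the trajectory of m
    set R2 : Finset ℕ := (range (⌊21 * Λ⌋₊ + 1)).image fun t => T^[t] m % 2 ^ kc (2 + e) N with hR2
    have hR2c : (R2.card : ℝ) ≤ 22 * Λ := by
      have g1 : R2.card ≤ ⌊21 * Λ⌋₊ + 1 := card_image_le.trans (by rw [card_range])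
      have g2 : ((⌊21 * Λ⌋₊ : ℕ) : ℝ) ≤ 21 * Λ := Nat.floor_le (by linarith)
      have g3 : (R2.card : ℝ) ≤ (⌊21 * Λ⌋₊ : ℕ) + 1 := by exact_mod_cast g1
      linarith
    have k1 := h5 R2 hR2c
    have k2 := h4 (im (kf (2 - e) N) (RR κ (2 - e) N) m) (fun r hr => by
      unfold im at hr
      rw [mem_image] at hr
      obtain ⟨t, -, rfl⟩ := hr
      exact Nat.mod_lt _ (by positivity)) b2
    have k3 := cN_or3 (P := fun n => ¬ (Com (Lv κ N) (kf (2 - e) N) n m ∧ ¬ Com (Lv κ N) (kc (2 + e) N) n m))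
      (A := fun n => (n : ℝ) < (N : ℝ) ^ ((1 + κ) / 2))
      (B := fun n => (N : ℝ) ^ ((1 + κ) / 2) ≤ n ∧ ¬ ∃ s, (∀ s', s' ≤ s → Lv κ N < T^[s'] n) ∧
        T^[s] n % 2 ^ kf (2 - e) N ∈ im (kf (2 - e) N) (RR κ (2 - e) N) m)
      (C := St (fun _ m => m % 2 ^ kc (2 + e) N ∈ R2) N (Lv κ N)) (N := N) (fun n hn hnN hP => by
        rcases lt_or_ge (n : ℝ) ((N : ℝ) ^ ((1 + κ) / 2)) with h | h
        · exact Or.inl h
        · right
          rcases Classical.not_and_iff_not_or_not.1 hP with h' | h'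
          · left
            refine ⟨h, fun ⟨s, hs1, hs2⟩ => h' ?_⟩
            unfold im at hs2
            rw [mem_image] at hs2
            obtain ⟨t, ht1, ht2⟩ := hs2
            rw [mem_range] at ht1
            refine ⟨s, kf (2 - e) N * t, hs1, fun t' ht' => ?_, ht2.symm⟩
            exact above2 hκ1 b1 hN (RR_le hκ1 hk) t' (ht'.trans (Nat.mul_le_mul_left _ ht1.le))
          · right
            rw [not_not] at h'
            obtain ⟨s, t, hs, ht, hst⟩ := h'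
            refine ⟨s, hs, ?_⟩
            show T^[s] n % 2 ^ kc (2 + e) N ∈ R2
            rw [hst, hR2, mem_image]
            refine ⟨t, ?_, rfl⟩
            rw [mem_range, Nat.lt_succ_iff]
            apply Nat.le_floor
            have g1 := b3 t (fun t' ht' => by
              have g2 := ht t' ht'
              have g3 : (N : ℝ) ^ κ < (T^[t'] m : ℕ) := by
                unfold Lv at g2
                exact (Nat.floor_lt (by positivity)).1 g2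
              exact lt_of_le_of_lt (Real.rpow_le_rpow hm0.le hmR hκ0.le) g3)
            refine g1.trans ?_
            exact mul_le_mul_of_nonneg_left (Real.log_le_log hm0 hmR) (by norm_num))
    linarith

theorem PD_tendsto {P : ℕ → ℕ → ℕ → Prop} (h : PD P) :
    Tendsto (fun N : ℕ => ({p : ℕ × ℕ | 1 ≤ p.1 ∧ p.1 ≤ N ∧ 1 ≤ p.2 ∧ p.2 ≤ N ∧ P N p.1 p.2}.ncard : ℝ) / (N : ℝ) ^ 2)
      atTop (𝓝 1) := by
  classical
  have key : ∀ N : ℕ, ({p : ℕ × ℕ | 1 ≤ p.1 ∧ p.1 ≤ N ∧ 1 ≤ p.2 ∧ p.2 ≤ N ∧ P N p.1 p.2}.ncard : ℝ) =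
      (N : ℝ) ^ 2 - ∑ m ∈ Icc 1 N, (cN (fun n => ¬ P N n m) N : ℝ) := by
    intro N
    have h1 : {p : ℕ × ℕ | 1 ≤ p.1 ∧ p.1 ≤ N ∧ 1 ≤ p.2 ∧ p.2 ≤ N ∧ P N p.1 p.2} =
        (((Icc 1 N) ×ˢ (Icc 1 N)).filter (fun p : ℕ × ℕ => P N p.2 p.1)).image Prod.swap := by
      ext ⟨n, m⟩
      simp only [Set.mem_setOf_eq, coe_image, Set.mem_image, mem_coe, mem_filter, mem_product, mem_Icc, Prod.exists,
        Prod.swap_prod_mk, Prod.mk.injEq]
      constructor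
      · rintro ⟨a1, a2, a3, a4, a5⟩
        exact ⟨m, n, ⟨⟨⟨a3, a4⟩, a1, a2⟩, a5⟩, rfl, rfl⟩
      · rintro ⟨a, b, ⟨⟨⟨a3, a4⟩, a1, a2⟩, a5⟩, rfl, rfl⟩
        exact ⟨a1, a2, a3, a4, a5⟩
    rw [h1, Set.ncard_coe_finset, card_image_of_injective _ Prod.swap_injective]
    have h2 : (((Icc 1 N) ×ˢ (Icc 1 N)).filter (fun p : ℕ × ℕ => P N p.2 p.1)).card =
        ∑ m ∈ Icc 1 N, cN (fun n => P N n m) N := by
      rw [card_filter, sum_product]
      apply sum_congr rfl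
      intro m _
      rw [← card_filter]
      unfold cN
      congr
    rw [h2]
    have h3 : ∀ m ∈ Icc 1 N, (cN (fun n => P N n m) N : ℝ) = N - cN (fun n => ¬ P N n m) N := by
      intro m _
      have := cN_add_not (fun n => P N n m) N
      have h4 : (cN (fun n => P N n m) N : ℝ) + cN (fun n => ¬ P N n m) N = N := by exact_mod_cast this
      linarith
    push_cast
    rw [sum_congr rfl h3, sum_sub_distrib, sum_const, Nat.card_Icc, Nat.add_sub_cancel, nsmul_eq_mul]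
    ring
  rw [Metric.tendsto_nhds]
  intro ε hε
  filter_upwards [h (ε / 2) (by positivity), eventually_gt_atTop 0] with N h1 h2
  have hN0 : (0 : ℝ) < N := by exact_mod_cast h2
  rw [Real.dist_eq, key, sub_div, div_self (by positivity), sub_sub_cancel_left, abs_neg, abs_of_nonneg (div_nonneg
    (sum_nonneg fun _ _ => Nat.cast_nonneg _) (by positivity)), div_lt_iff₀ (by positivity)]
  have h3 : (0 : ℝ) < (N : ℝ) ^ 2 := by positivity
  nlinarith

end Pool.Agent.V11311.ER
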