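import Pool.Agent.V11311.ER.N

/-! Rare patterns along trajectories, part O: all residue classes are visited. -/

set_option autoImplicit false

namespace Pool.Agent.V11311.ER

open Finset Filter Topology Pool.Agent.V11311.FP Pool.Agent.V11311.RC Pool.Agent.V11311.SL

open Pool.Agent.V11311.DV (fl fl_card mem_fl)

open Pool.Agent.Helper894.Collatz (T od er od_add iter_eq sum_pow_od period)

open Pool.Agent.H377R2 (iter_pos)

theorem hasD_mono_one {P Q : ℕ → Prop} (h : HasD P 1) (hPQ : ∀ n, 0 < n → P n → Q n) : HasD Q 1 := by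
  unfold HasD at h ⊢
  refine tendsto_of_tendsto_of_tendsto_of_le_of_le' h tendsto_const_nhds ?_ ?_
  · filter_upwards with N
    exact div_le_div_of_nonneg_right (Nat.cast_le.2 (cN_mono hPQ N)) (Nat.cast_nonneg N)
  · filter_upwards [eventually_gt_atTop 0] with N hN
    rw [div_le_one (by exact_mod_cast hN)]
    exact_mod_cast cN_le Q N

/-- the residue class `r` modulo `2 ^ k` is visited above `n ^ κ` -/
def Vis2 (κ : ℝ) (k r n : ℕ) : Prop := ∃ s, (∀ s', s' ≤ s → (n : ℝ) ^ κ < (T^[s'] n : ℕ)) ∧ T^[s] n % 2 ^ k = r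

theorem visits {e κ : ℝ} (he : 0 < e) (he1 : e < 1) (hκ : 0 < κ) (hκ1 : κ < 1) :
    HasD (fun n => ∀ k : ℕ, (2 : ℝ) ^ k ≤ Real.log n ^ (1 - e) → ∀ r, r < 2 ^ k → Vis2 κ k r n) 1 := by
  obtain ⟨C, hC0, hC⟩ := window_law (δ := 1 / 2) (by norm_num) (by norm_num)
  have e1 : ∀ᶠ X : ℝ in atTop, Real.log X ≤ X ^ (e / 4) := by
    filter_upwards [(isLittleO_log_rpow_atTop (by positivity : (0 : ℝ) < e / 4)).bound one_pos,
      eventually_ge_atTop (1 : ℝ)] with X h1 h3
    rwa [Real.norm_of_nonneg (Real.log_nonneg h3), Real.norm_of_nonneg (by positivity), one_mul] at h1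
  have e2 : ∀ᶠ X : ℝ in atTop, (3 * C + 2) / ((1 - κ) / 2) ≤ X ^ (e / 2) :=
    (tendsto_rpow_atTop (by positivity)).eventually (eventually_ge_atTop _)
  have hlog : Tendsto (fun N : ℕ => Real.log (N : ℝ)) atTop atTop :=
    Real.tendsto_log_atTop.comp tendsto_natCast_atTop_atTop
  obtain ⟨n0, hn0⟩ := eventually_atTop.1 ((hlog.eventually (e1.and (e2.and (eventually_ge_atTop (3 : ℝ))))).and
    ((ll_tendsto.eventually (eventually_ge_atTop 1)).and (eventually_ge_atTop 3)))
  refine hasD_mono_one (tail_dens (hC e κ he he1 hκ) n0) ?_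
  rintro n hn ⟨hE, hnn⟩ k hk r hr
  obtain ⟨⟨f1, f2, f3⟩, f4, f5⟩ := hn0 n hnn
  set Λ := Real.log n with hΛ
  set ℓ := Real.log Λ with hℓ
  have hΛ0 : 0 < Λ := by linarith
  have hnR : (3 : ℝ) ≤ n := by exact_mod_cast f5
  have hsq : Real.sqrt n ≤ n := by
    rw [Real.sqrt_le_left (by linarith)]
    nlinarith
  have h1κ : 0 < (1 - κ) / 2 := by linarith
  rcases Nat.eq_zero_or_pos k with h0 | h0
  · subst h0
    refine ⟨0, fun s' hs' => ?_, ?_⟩
    · have := above hκ1 (K := 0) hn hsq f5 (by push_cast; positivity) s' (by omega)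
      exact this
    · rw [pow_zero] at hr ⊢
      omega
  · set w := ⌈C * k * 2 ^ k * ℓ⌉₊ with hw
    have hk2 : k < KK n := lt_KK he f4 hk
    have hk3 : (k : ℝ) ≤ 3 * ℓ := by
      have m1 : (k : ℝ) ≤ KK n := by exact_mod_cast hk2.le
      have m2 := KK_le f4
      linarith
    have hw1 : (w : ℝ) ≤ C * k * 2 ^ k * ℓ + 1 := (Nat.ceil_lt_add_one (by positivity)).le
    have hℓ2 : ℓ * ℓ ≤ Λ ^ (e / 2) := by
      calc ℓ * ℓ ≤ Λ ^ (e / 4) * Λ ^ (e / 4) := mul_le_mul f1 f1 (by linarith) (by positivity)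
        _ = Λ ^ (e / 2) := by rw [← Real.rpow_add hΛ0]; congr 1; ring
    have hwΛ : (w : ℝ) ≤ (1 - κ) / 2 * Λ := by
      have m3 : (1 : ℝ) ≤ Λ ^ (1 - e) := Real.one_le_rpow (by linarith) (by linarith)
      have m5 : Λ ^ (1 - e) * Λ ^ (e / 2) * Λ ^ (e / 2) = Λ := by
        rw [← Real.rpow_add hΛ0, ← Real.rpow_add hΛ0]
        have : 1 - e + e / 2 + e / 2 = 1 := by ring
        rw [this, Real.rpow_one]
      have m6 : C * k * 2 ^ k * ℓ ≤ 3 * C * (Λ ^ (1 - e) * (ℓ * ℓ)) := by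
        calc C * k * 2 ^ k * ℓ ≤ C * (3 * ℓ) * Λ ^ (1 - e) * ℓ := by
              apply mul_le_mul_of_nonneg_right _ (by linarith)
              apply mul_le_mul _ hk (by positivity) (by positivity)
              exact mul_le_mul_of_nonneg_left hk3 hC0.le
          _ = _ := by ring
      have m7 : (1 : ℝ) ≤ Λ ^ (1 - e) * (ℓ * ℓ) := by nlinarith
      calc (w : ℝ) ≤ (3 * C + 2) * (Λ ^ (1 - e) * (ℓ * ℓ)) := by linarith
        _ ≤ (3 * C + 2) * (Λ ^ (1 - e) * Λ ^ (e / 2)) := by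
            apply mul_le_mul_of_nonneg_left _ (by positivity)
            exact mul_le_mul_of_nonneg_left hℓ2 (by positivity)
        _ ≤ ((1 - κ) / 2 * Λ ^ (e / 2)) * (Λ ^ (1 - e) * Λ ^ (e / 2)) := by
            apply mul_le_mul_of_nonneg_right _ (by positivity)
            rw [div_le_iff₀ h1κ] at f2
            linarith
        _ = (1 - κ) / 2 * (Λ ^ (1 - e) * Λ ^ (e / 2) * Λ ^ (e / 2)) := by ring
        _ = (1 - κ) / 2 * Λ := by rw [m5]
    have hab := above hκ1 hn hsq f5 hwΛ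
    have h2 := hE k 0 w h0 hk (Nat.le_ceil _) (fun s' hs' => hab s' (by omega)) r hr
    rw [Function.iterate_zero, id_eq] at h2
    have hw0 : (0 : ℝ) < w := by
      have : 0 < w := Nat.ceil_pos.2 (by
        have : (0 : ℝ) < k := by exact_mod_cast h0
        positivity)
      exact_mod_cast this
    have h3 : (0 : ℝ) < Vc (Cr k r) w n := by
      have h4 := (abs_le.1 h2).1
      have h5 : (0 : ℝ) < w / 2 ^ k := by positivity
      linarith
    classical
    have h4 : 0 < Vc (Cr k r) w n := by exact_mod_cast h3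
    rw [Vc_eq, card_pos] at h4
    obtain ⟨s, hs⟩ := h4
    rw [mem_filter, mem_range] at hs
    exact ⟨s, fun s' hs' => hab s' (by omega), hs.2⟩

end Pool.Agent.V11311.ER
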