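import Pool.Agent.V11311.ER.O

/-! Rare patterns along trajectories, part Q: blocks with a large proportion of odd or even terms. -/

set_option autoImplicit false

namespace Pool.Agent.V11311.ER

open Finset Filter Topology Pool.Agent.V11311.FP Pool.Agent.V11311.RC Pool.Agent.V11311.SL

open Pool.Agent.V11311.DV (fl fl_card mem_fl)

open Pool.Agent.Helper894.Collatz (T od er od_add iter_eq sum_pow_od period)

open Pool.Agent.H377R2 (iter_pos)

theorem Vc_odd (w x : ℕ) : Vc (Cr 1 1) w x = od w x := by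
  classical
  rw [Vc_eq, card_filter]
  unfold od
  apply sum_congr rfl
  intro i _
  unfold Cr
  rw [pow_one]
  rcases Nat.mod_two_eq_zero_or_one (T^[i] x) with h | h
  · rw [h]; simp
  · rw [h]; simp

theorem Vc_even (w x : ℕ) : Vc (Cr 1 0) w x + od w x = w := by
  classical
  rw [← Vc_odd, Vc_eq, Vc_eq, card_filter, card_filter, ← sum_add_distrib]
  have h : ∀ i ∈ range w, ((if Cr 1 0 (T^[i] x) then 1 else 0) + if Cr 1 1 (T^[i] x) then 1 else 0) = 1 := by
    intro i _
    unfold Cr
    rw [pow_one]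
    rcases Nat.mod_two_eq_zero_or_one (T^[i] x) with h | h
    · rw [h]; simp
    · rw [h]; simp
  rw [sum_congr rfl h]
  simp

/-- the distribution of the number of terms of a given parity -/
theorem Vc_prob {r : ℕ} (hr : r < 2) (k j : ℕ) (hj : j ≤ k) :
    prq (2 ^ k) (fun x => Vc (Cr 1 r) k x = j) = k.choose j / 2 ^ k := by
  interval_cases r
  · have h : (fun x => Vc (Cr 1 0) k x = j) = fun x => od k x = k - j := by
      funext x
      apply propext
      have := Vc_even k x
      omega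
    rw [h, od_prob, Nat.choose_symm hj]
  · have h : (fun x => Vc (Cr 1 1) k x = j) = fun x => od k x = j := by
      funext x
      rw [Vc_odd]
    rw [h, od_prob]

theorem Vc_le (A : ℕ → Prop) (w x : ℕ) : Vc A w x ≤ w := by
  classical
  rw [Vc_eq]
  exact (card_filter_le _ _).trans (by rw [card_range])

theorem Vc_per {r : ℕ} (hr : r < 2) (k : ℕ) (x : ℕ) : Vc (Cr 1 r) k (x % 2 ^ k) = Vc (Cr 1 r) k x := by
  have h0 := od_mod k x le_rfl
  interval_cases r
  · have h1 := Vc_even k x
    have h2 := Vc_even k (x % 2 ^ k)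
    omega
  · rw [Vc_odd, Vc_odd, h0]

/-- Chernoff's bound, for both parities -/
theorem chern2 {r : ℕ} (hr : r < 2) {θ : ℝ} (h0 : 1 / 2 < θ) (h1 : θ ≤ 1) (k : ℕ) :
    prq (2 ^ k) (fun x => θ * k ≤ Vc (Cr 1 r) k x) ≤ Real.exp (-(rt θ * k)) := by
  classical
  refine le_trans (le_of_eq ?_) (chern h0 h1 k)
  have key : ∀ F : ℕ → ℕ, (∀ x, F x ≤ k) → (∀ j, j ≤ k → prq (2 ^ k) (fun x => F x = j) = k.choose j / 2 ^ k) →
      prq (2 ^ k) (fun x => θ * k ≤ F x) =
        ∑ j ∈ (range (k + 1)).filter (fun j : ℕ => θ * k ≤ j), (k.choose j / 2 ^ k : ℝ) := by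
    intro F hF hp
    have h2 : ∀ j ∈ (range (k + 1)).filter (fun j : ℕ => θ * k ≤ j), (k.choose j / 2 ^ k : ℝ) =
        (((range (2 ^ k)).filter (fun x => F x = j)).card : ℝ) / (2 ^ k : ℕ) := by
      intro j hj
      rw [mem_filter, mem_range] at hj
      rw [← hp j (by omega), prq_eq]
    rw [sum_congr rfl h2, ← sum_div, prq_eq, ← Nat.cast_sum]
    congr 2
    rw [card_eq_sum_card_fiberwise (f := F) (t := (range (k + 1)).filter (fun j : ℕ => θ * k ≤ j))]
    · apply sum_congr rfl
      intro j hj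
      rw [mem_filter] at hj
      rw [filter_filter]
      congr 1
      apply filter_congr
      intro x _
      constructor
      · exact fun h => h.2
      · intro h
        exact ⟨by rw [h]; exact hj.2, h⟩
    · intro x hx
      rw [mem_coe, mem_filter] at hx
      rw [mem_coe, mem_filter, mem_range]
      exact ⟨Nat.lt_succ_of_le (hF x), hx.2⟩
  rw [key (fun x => Vc (Cr 1 r) k x) (fun x => Vc_le _ _ _) (fun j hj => Vc_prob hr k j hj),
    key (fun x => od k x) (fun x => od_le' k x) (fun j _ => od_prob k j)]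

/-- splitting of long blocks -/
theorem split_block (A : ℕ → Prop) {θ : ℝ} {K : ℕ} (hK : 1 ≤ K) : ∀ w : ℕ, K ≤ w → ∀ x : ℕ, θ * w ≤ Vc A w x →
    ∃ s v, K ≤ v ∧ v < 2 * K ∧ s + v ≤ w ∧ θ * v ≤ Vc A v (T^[s] x) := by
  intro w
  induction w using Nat.strong_induction_on with
  | _ w ih =>
    intro hw x hx
    rcases Nat.lt_or_ge w (2 * K) with h | h
    · exact ⟨0, w, hw, h, by omega, hx⟩
    · by_cases h1 : θ * K ≤ Vc A K x
      · exact ⟨0, K, le_rfl, by omega, by omega, h1⟩
      · push Not at h1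
        have h2 : Vc A w x = Vc A K x + Vc A (w - K) (T^[K] x) := by
          rw [← Vc_add, Nat.add_sub_cancel' hw]
        have h3 : θ * ((w - K : ℕ) : ℝ) ≤ Vc A (w - K) (T^[K] x) := by
          rw [Nat.cast_sub hw]
          rw [h2] at hx
          push_cast at hx
          linarith
        obtain ⟨s, v, g1, g2, g3, g4⟩ := ih (w - K) (by omega) (by omega) (T^[K] x) h3
        refine ⟨s + K, v, g1, g2, by omega, ?_⟩
        rwa [Function.iterate_add_apply]

/-- no long block above `n ^ κ` has a proportion `θ` of terms of the parity `r` -/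
def LoB (θ c κ : ℝ) (r n : ℕ) : Prop :=
  ∀ s w : ℕ, c * Real.log (Real.log n) ≤ w → (∀ s', s' < s + w → (n : ℝ) ^ κ < (T^[s'] n : ℕ)) →
    (Vc (Cr 1 r) w (T^[s] n) : ℝ) < θ * w

/-- some long block above `n ^ κ` has a proportion `θ` of terms of the parity `r` -/
def UpB (θ c κ : ℝ) (r n : ℕ) : Prop :=
  ∃ s w : ℕ, c * Real.log (Real.log n) ≤ w ∧ (∀ s', s' < s + w → (n : ℝ) ^ κ < (T^[s'] n : ℕ)) ∧
    θ * w ≤ Vc (Cr 1 r) w (T^[s] n)

theorem rt_pos' {θ : ℝ} (h0 : 1 / 2 < θ) : 0 < rt θ := by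
  unfold rt
  have h1 := Real.binEntropy_lt_log_two (p := θ) |>.2 (by
    intro h
    rw [h] at h0
    norm_num at h0)
  linarith

theorem LoB_rare {r : ℕ} (hr : r < 2) {θ c κ : ℝ} (h0 : 1 / 2 < θ) (h1 : θ ≤ 1) (hc : 1 < rt θ * c) (hκ : 0 < κ)
    (ε : ℝ) (hε : 0 < ε) : ∀ᶠ N : ℕ in atTop,
    (cN (St (fun N m => ∃ v, kU c N ≤ v ∧ v < 2 * kU c N ∧ θ * v ≤ Vc (Cr 1 r) v m) N (Lv κ N)) N : ℝ) ≤ ε * N := by
  have hrp := rt_pos' h0
  have hc0 : 0 < c := by
    by_contra hcon
    push Not at hcon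
    nlinarith
  have hl1 : ∀ᶠ N : ℕ in atTop, (1 : ℝ) ≤ Real.log (Real.log N) := ll_tendsto.eventually (eventually_ge_atTop 1)
  have hlog : Tendsto (fun N : ℕ => Real.log (N : ℝ)) atTop atTop :=
    Real.tendsto_log_atTop.comp tendsto_natCast_atTop_atTop
  refine St_rare2 (ι := ℕ) _ (fun N => Ico (kU c N) (2 * kU c N)) (fun _ v => v)
    (fun _ v m => θ * v ≤ Vc (Cr 1 r) v m) ?_ ?_ ?_ ?_ hκ ε hε
  · intro N v x
    simp only
    rw [Vc_per hr]
  · intro κ hκ
    have e1 : ∀ᶠ X : ℝ in atTop, 2 * c * Real.log X ≤ κ * X := by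
      filter_upwards [Real.isLittleO_log_id_atTop.bound (show 0 < κ / (2 * c) by positivity),
        eventually_ge_atTop (1 : ℝ)] with X h1 h3
      rw [Real.norm_of_nonneg (Real.log_nonneg h3), id, Real.norm_of_nonneg (by linarith), div_mul_eq_mul_div,
        le_div_iff₀ (by positivity)] at h1
      linarith
    filter_upwards [hl1, hlog.eventually (e1.and (eventually_ge_atTop (1 : ℝ)))] with N g1 g2 v hv
    obtain ⟨g2, g3⟩ := g2
    rw [mem_Ico] at hv
    have hN0 : (0 : ℝ) < N := by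
      by_contra hcon
      push Not at hcon
      have : (N : ℝ) = 0 := le_antisymm hcon (Nat.cast_nonneg _)
      rw [this, Real.log_zero] at g3
      norm_num at g3
    have k1 : (v : ℝ) ≤ 2 * kU c N := by exact_mod_cast hv.2.le
    have k2 := kU_le hc0 g1
    have k3 : (v : ℝ) ≤ κ * Real.log N := by linarith
    calc (2 : ℝ) ^ v = Real.exp (v * Real.log 2) := by rw [Real.exp_nat_mul, Real.exp_log (by norm_num)]
      _ ≤ Real.exp (Real.log N * κ) := by
          apply Real.exp_le_exp.2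
          have hl2 : Real.log 2 < 1 := by have := Real.log_two_lt_d9; linarith
          have hl2' : 0 < Real.log 2 := Real.log_pos (by norm_num)
          have m0 : (0 : ℝ) ≤ v := Nat.cast_nonneg _
          nlinarith
      _ = (N : ℝ) ^ κ := by rw [Real.rpow_def_of_pos hN0]
  · filter_upwards with N m hm
    obtain ⟨v, g1, g2, g3⟩ := hm
    exact ⟨v, mem_Ico.2 ⟨g1, g2⟩, g3⟩
  · -- probabilities
    set β' := (rt θ + 1 / c) / 2 with hβ'
    have hb1 : β' < rt θ := by
      have : 1 / c < rt θ := by rwa [div_lt_iff₀ hc0]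
      rw [hβ']
      linarith
    have hb2 : 1 < β' * c := by
      have : 1 < rt θ * c := hc
      have h3 : β' * c = (rt θ * c + 1) / 2 := by
        rw [hβ']
        field_simp
      rw [h3]
      linarith
    have hb0 : 0 < β' := by rw [hβ']; positivity
    have g1 := (exp_kU hb0 hb2).const_mul (1 / (rt θ - β'))
    rw [mul_zero] at g1
    refine squeeze_zero' ?_ ?_ g1
    · filter_upwards with N
      exact mul_nonneg (Real.log_natCast_nonneg N) (sum_nonneg fun p _ => prq_nonneg _ _)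
    · filter_upwards with N
      have g2 : ∑ v ∈ Ico (kU c N) (2 * kU c N), prq (2 ^ v) (fun m => θ * v ≤ Vc (Cr 1 r) v m) ≤
          kU c N * Real.exp (-(rt θ * kU c N)) := by
        calc _ ≤ ∑ _v ∈ Ico (kU c N) (2 * kU c N), Real.exp (-(rt θ * kU c N)) := by
              refine sum_le_sum fun v hv => ?_
              rw [mem_Ico] at hv
              refine (chern2 hr h0 h1 v).trans (Real.exp_le_exp.2 ?_)
              have : (kU c N : ℝ) ≤ v := by exact_mod_cast hv.1
              nlinarith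
          _ = _ := by
              rw [sum_const, Nat.card_Ico, nsmul_eq_mul]
              congr 2
              omega
      have g3 : (kU c N : ℝ) * Real.exp (-(rt θ * kU c N)) ≤ 1 / (rt θ - β') * Real.exp (-(β' * kU c N)) := by
        have hd : 0 < rt θ - β' := by linarith
        have g4 : (rt θ - β') * kU c N ≤ Real.exp ((rt θ - β') * kU c N) := by
          have := Real.add_one_le_exp ((rt θ - β') * kU c N)
          linarith
        have g5 : (kU c N : ℝ) ≤ 1 / (rt θ - β') * Real.exp ((rt θ - β') * kU c N) := by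
          rw [one_div, inv_mul_eq_div, le_div_iff₀ hd, mul_comm]
          exact g4
        calc (kU c N : ℝ) * Real.exp (-(rt θ * kU c N))
            ≤ 1 / (rt θ - β') * Real.exp ((rt θ - β') * kU c N) * Real.exp (-(rt θ * kU c N)) :=
              mul_le_mul_of_nonneg_right g5 (Real.exp_pos _).le
          _ = _ := by
              rw [mul_assoc, ← Real.exp_add]
              congr 2
              ring
      calc Real.log N * ∑ v ∈ Ico (kU c N) (2 * kU c N), prq (2 ^ v) (fun m => θ * v ≤ Vc (Cr 1 r) v m)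
          ≤ Real.log N * (1 / (rt θ - β') * Real.exp (-(β' * kU c N))) :=
            mul_le_mul_of_nonneg_left (g2.trans g3) (Real.log_natCast_nonneg N)
        _ = _ := by ring

theorem UpB_rare {r : ℕ} (hr : r < 2) {θ e κ : ℝ} (h0 : 1 / 2 < θ) (h1 : θ ≤ 1) (he : 0 < e) (he1 : e < 1) (hκ : 0 < κ)
    (hκ1 : κ < 1) (ε : ℝ) (hε : 0 < ε) : ∀ᶠ N : ℕ in atTop,
    (cN (fun n => Real.sqrt N ≤ n ∧ n ≤ N ∧ ¬ UpB θ ((1 - e) / rt θ) κ r n) N : ℝ) ≤ ε * N := by
  have hrp := rt_pos' h0
  set β := rt θ with hβ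
  set c' := (1 - e) / β with hc'
  have h1e : 0 < 1 - e := by linarith
  have hc'0 : 0 < c' := by positivity
  have hbc' : β * c' = 1 - e := by rw [hc']; field_simp
  have hk : Tendsto (fun N : ℕ => kL c' N) atTop atTop := by
    unfold kL
    exact (tendsto_add_atTop_nat 1).comp (tendsto_nat_floor_atTop.comp (ll_tendsto.const_mul_atTop hc'0))
  have hlow : ∀ᶠ N : ℕ in atTop, Real.log N ^ (-(1 - e / 2)) ≤
      prq (2 ^ kL c' N) (fun x => θ * kL c' N ≤ Vc (Cr 1 r) (kL c' N) x) := by
    have g1 := exp_kL (c := c') (r := β + β * (e / 2)) (e := e / 2) hc'0 (by positivity) (by nlinarith)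
    filter_upwards [g1, hk.eventually (tail_low h0 h1 (β * (e / 2)) (by positivity))] with N g2 g3
    refine g2.trans (g3.trans ?_)
    have h2 : ⌈θ * (kL c' N : ℝ)⌉₊ ≤ kL c' N := by
      apply Nat.ceil_le.2
      have : (0 : ℝ) ≤ kL c' N := Nat.cast_nonneg _
      nlinarith
    rw [← Vc_prob hr _ _ h2]
    refine prq_mono fun x hx => ?_
    rw [hx]
    exact Nat.le_ceil _
  filter_upwards [blocks (e := e / 2) (κ := κ) (C := c' + 1) (by positivity) hκ hκ1 (kL c')
      (fun N x => θ * kL c' N ≤ Vc (Cr 1 r) (kL c' N) x)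
      (fun N x => by simp only; rw [Vc_per hr]) (fun N => by unfold kL; omega) (kL_le hc'0) hlow ε hε,
      (Real.tendsto_log_atTop.comp tendsto_natCast_atTop_atTop).eventually (eventually_ge_atTop 3),
      eventually_ge_atTop 3] with N g1 g2 g3
  rw [Function.comp_apply] at g2
  refine le_trans (Nat.cast_le.2 (cN_mono (fun n hn ⟨k1, k2, k3⟩ => ⟨k1, k2, fun ⟨s, hs1, hs2⟩ => k3 ?_⟩) N)) g1
  refine ⟨s, kL c' N, ?_, fun s' hs' => hs1 s' hs'.le, hs2⟩
  obtain ⟨m1, m2⟩ := loglog k1 g3 g2
  have hnR : (n : ℝ) ≤ N := by exact_mod_cast k2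
  have hn0 : (0 : ℝ) < n := by exact_mod_cast hn
  have m3 : Real.log (Real.log n) ≤ Real.log (Real.log N) := Real.log_le_log m2 (Real.log_le_log hn0 hnR)
  unfold kL
  push_cast
  have m5 := Nat.lt_floor_add_one (c' * Real.log (Real.log N))
  have m6 : c' * Real.log (Real.log n) ≤ c' * Real.log (Real.log N) := mul_le_mul_of_nonneg_left m3 hc'0.le
  linarith

/-- **the Erdős–Rényi law for the proportion of terms of one parity** -/
theorem block_law {r : ℕ} (hr : r < 2) {θ e κ : ℝ} (h0 : 1 / 2 < θ) (h1 : θ ≤ 1) (he : 0 < e) (he1 : e < 1)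
    (hκ : 0 < κ) (hκ1 : κ < 1) :
    HasD (fun n => LoB θ ((1 + e) / rt θ) κ r n ∧ UpB θ ((1 - e) / rt θ) κ r n) 1 := by
  have hrp := rt_pos' h0
  set c := (1 + e) / rt θ with hc
  have hc0 : 0 < c := by positivity
  have hbc : rt θ * c = 1 + e := by rw [hc]; field_simp
  apply hasD_one
  intro ε hε
  have hkU : Tendsto (fun N : ℕ => kU c N) atTop atTop := by
    unfold kU
    exact tendsto_nat_floor_atTop.comp ((tendsto_atTop_add_const_right _ (-1) ll_tendsto).const_mul_atTop hc0)
  filter_upwards [small_rare (ε / 3) (by positivity), UpB_rare hr h0 h1 he he1 hκ hκ1 (ε / 3) (by positivity),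
    LoB_rare (c := c) (κ := κ / 2) hr h0 h1 (by rw [hbc]; linarith) (by positivity) (ε / 3) (by positivity),
    ll_tendsto.eventually (eventually_ge_atTop 1), eventually_ge_atTop 3,
    (Real.tendsto_log_atTop.comp tendsto_natCast_atTop_atTop).eventually (eventually_ge_atTop 3),
    hkU.eventually (eventually_ge_atTop 1)] with N h1 h2 h3 h4 h5 h6 hkU1
  rw [Function.comp_apply] at h6
  have h7 := cN_or3 (P := fun n => ¬ (LoB θ c κ r n ∧ UpB θ ((1 - e) / rt θ) κ r n))
    (A := fun n => (n : ℝ) < Real.sqrt N)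
    (B := fun n => Real.sqrt N ≤ n ∧ n ≤ N ∧ ¬ UpB θ ((1 - e) / rt θ) κ r n)
    (C := St (fun N m => ∃ v, kU c N ≤ v ∧ v < 2 * kU c N ∧ θ * v ≤ Vc (Cr 1 r) v m) N (Lv (κ / 2) N)) (N := N)
    (fun n hn hnN hbad => by
      rcases lt_or_ge (n : ℝ) (Real.sqrt N) with h | h
      · exact Or.inl h
      · right
        obtain ⟨g1, g2⟩ := loglog h h5 h6
        rcases Classical.not_and_iff_not_or_not.1 hbad with h' | h'
        · right
          unfold LoB at h'
          push Not at h'
          obtain ⟨s, w, hw, hs1, hs2⟩ := h'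
          have hKw : kU c N ≤ w := by
            have : (kU c N : ℝ) ≤ w :=
              (kU_le hc0 h4).trans ((mul_le_mul_of_nonneg_left g1 hc0.le).trans hw)
            exact_mod_cast this
          obtain ⟨u, v, k1, k2, k3, k4⟩ := split_block (Cr 1 r) (θ := θ) hkU1 w hKw (T^[s] n) hs2
          refine ⟨u + s, fun s' hs' => Lv_lt hκ h (hs1 s' (by omega)), v, k1, k2, ?_⟩
          rwa [Function.iterate_add_apply]
        · left
          exact ⟨h, hnN, h'⟩)
  linarith

end Pool.Agent.V11311.ER
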