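import Pool.Agent.V11311.ER.Z3

/-! Windows of a typical trajectory show no periodicity, part 4: the class of the polynomial phases. -/

set_option autoImplicit false

namespace Pool.Agent.V11311.ER

open Finset Filter Topology Pool.Agent.V11311.FP Pool.Agent.V11311.RC Pool.Agent.V11311.SL

open Pool.Agent.V11311.DV (fl fl_card mem_fl)

open Pool.Agent.Helper894.Collatz (T od er od_add iter_eq sum_pow_od period)

open Pool.Agent.H377R2 (iter_pos)

theorem size {k : ℕ} (hk : 1 ≤ k) (D : ℕ) {η c : ℝ} (hη : 0 < η) (hc : 0 < c) : ∀ᶠ N : ℕ in atTop,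
    ∃ L : ℕ, 0 < L ∧ 2 * Real.pi * ((D + 1) * (((k * bn c N : ℕ) : ℝ)) ^ D) ≤ η * L ∧
      L ^ (D + 1) ≤ ⌊21 * Real.log N⌋₊ + 1 := by
  have hk0 : (0 : ℝ) < k := by exact_mod_cast hk
  have hpi := Real.pi_pos
  set K1 : ℝ := k * (c + 1) with hK1
  have hK10 : 0 < K1 := by positivity
  set K2 : ℝ := 2 * Real.pi * ((D + 1) * K1 ^ D) / η + 1 with hK2
  have hK20 : 0 < K2 := by positivity
  have h1 : ∀ᶠ X : ℝ in atTop, X ^ (D * (D + 1)) * Real.exp (-X) < 1 / K2 ^ (D + 1) :=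
    (Real.tendsto_pow_mul_exp_neg_atTop_nhds_zero (D * (D + 1))).eventually (gt_mem_nhds (by positivity))
  filter_upwards [ll_tendsto.eventually (h1.and (eventually_ge_atTop (1 : ℝ))),
    (Real.tendsto_log_atTop.comp tendsto_natCast_atTop_atTop).eventually (eventually_ge_atTop 1)] with N h2 hlog
  rw [Function.comp_apply] at hlog
  obtain ⟨h2, h3⟩ := h2
  set Λ := Real.log N with hΛ
  set X := Real.log Λ with hX
  have hbn : (bn c N : ℝ) ≤ (c + 1) * X := by
    unfold bn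
    have g1 := Nat.ceil_lt_add_one (show 0 ≤ c * Real.log (Real.log N) by rw [← hΛ, ← hX]; positivity)
    rw [← hΛ, ← hX] at g1 ⊢
    linarith
  have hbn0 : 0 < bn c N := by
    unfold bn
    apply Nat.ceil_pos.2
    rw [← hΛ, ← hX]
    positivity
  have hW0 : 0 < k * bn c N := Nat.mul_pos hk hbn0
  have hW : ((k * bn c N : ℕ) : ℝ) ≤ K1 * X := by
    push_cast
    calc (k : ℝ) * bn c N ≤ k * ((c + 1) * X) := mul_le_mul_of_nonneg_left hbn hk0.le
      _ = K1 * X := by rw [hK1]; ring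
  set W := k * bn c N with hWd
  have hWR : (0 : ℝ) < W := by exact_mod_cast hW0
  set B : ℝ := 2 * Real.pi * ((D + 1) * (W : ℝ) ^ D) / η with hB
  have hB0 : 0 < B := by positivity
  refine ⟨⌈B⌉₊, Nat.ceil_pos.2 hB0, ?_, ?_⟩
  · have g1 : B ≤ ⌈B⌉₊ := Nat.le_ceil _
    calc 2 * Real.pi * ((D + 1) * (W : ℝ) ^ D) = η * B := by rw [hB]; field_simp
      _ ≤ η * ⌈B⌉₊ := mul_le_mul_of_nonneg_left g1 hη.le
  · have g1 : (⌈B⌉₊ : ℝ) ≤ K2 * X ^ D := by
      have g2 := Nat.ceil_lt_add_one hB0.le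
      have g3 : (W : ℝ) ^ D ≤ K1 ^ D * X ^ D := by
        rw [← mul_pow]
        exact pow_le_pow_left₀ hWR.le hW _
      have g4 : B ≤ 2 * Real.pi * ((D + 1) * (K1 ^ D * X ^ D)) / η := by
        rw [hB]
        gcongr
      have g5 : (1 : ℝ) ≤ X ^ D := one_le_pow₀ h3
      calc (⌈B⌉₊ : ℝ) ≤ B + 1 := g2.le
        _ ≤ 2 * Real.pi * ((D + 1) * (K1 ^ D * X ^ D)) / η + X ^ D := add_le_add g4 g5
        _ = K2 * X ^ D := by rw [hK2]; ring
    have g6 : (⌈B⌉₊ : ℝ) ^ (D + 1) ≤ Λ := by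
      calc (⌈B⌉₊ : ℝ) ^ (D + 1) ≤ (K2 * X ^ D) ^ (D + 1) := pow_le_pow_left₀ (Nat.cast_nonneg _) g1 _
        _ = K2 ^ (D + 1) * (X ^ (D * (D + 1)) * Real.exp (-X)) * Real.exp X := by
            rw [mul_pow, ← pow_mul, Real.exp_neg]
            field_simp
        _ ≤ K2 ^ (D + 1) * (1 / K2 ^ (D + 1)) * Real.exp X := by
            apply mul_le_mul_of_nonneg_right _ (Real.exp_pos _).le
            exact mul_le_mul_of_nonneg_left h2.le (by positivity)
        _ = Real.exp X := by field_simp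
        _ = Λ := by rw [hX, Real.exp_log (by linarith)]
    have g7 : ⌈B⌉₊ ^ (D + 1) ≤ ⌊21 * Λ⌋₊ := by
      apply Nat.le_floor
      push_cast
      linarith
    omega

/-- the polynomial phases of degree at most `D` -/
def FD (D : ℕ) : Set (ℕ → ℝ) :=
  {g | ∃ P : Polynomial ℝ, P.natDegree ≤ D ∧ ∀ j : ℕ, g j = Real.cos (2 * Real.pi * P.eval (j : ℝ))}

theorem FD_net {k : ℕ} (hk : 1 ≤ k) (D : ℕ) : NetP k (FD D) := by
  refine ⟨?_, ?_, ?_⟩
  · rintro g ⟨P, -, hg⟩ j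
    rw [hg]
    exact Real.abs_cos_le_one _
  · rintro g ⟨P, hP, hg⟩ t
    refine ⟨P.comp (Polynomial.X + Polynomial.C (t : ℝ)), ?_, fun j => ?_⟩
    · rw [Polynomial.natDegree_comp, Polynomial.natDegree_X_add_C, mul_one]
      exact hP
    · simp only [hg]
      rw [Polynomial.eval_comp, Polynomial.eval_add, Polynomial.eval_X, Polynomial.eval_C]
      push_cast
      rw [add_comm (t : ℝ)]
  · intro η c hη hc
    filter_upwards [size hk D hη hc] with N hN
    obtain ⟨L, hL, h1, h2⟩ := hN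
    refine ⟨GP D L, GP_mem D L, fun h hh h3 => ?_⟩
    rintro g ⟨P, hP, hg⟩
    obtain ⟨α, hα⟩ := newton P hP
    have h4 := pnet hh (D := D) hL hη.le h1 (fun q hq => h3 (q, 0) (mem_product.2 ⟨mem_range.2 (by
      show q < _
      omega), mem_range.2 (by positivity)⟩)) α
    have h5 : ∀ j : ℕ, g j = Real.cos (ph D α j) := by
      intro j
      rw [hg, hα]
      rfl
    simp only [h5]
    exact h4

end Pool.Agent.V11311.ER
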