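import Pool.Agent.V11311.ER.V5

/-! Increments of trajectories, part 6: sizes. -/

set_option autoImplicit false

namespace Pool.Agent.V11311.ER

open Finset Filter Topology Pool.Agent.V11311.FP Pool.Agent.V11311.RC Pool.Agent.V11311.SL

open Pool.Agent.V11311.DV (fl fl_card mem_fl)

open Pool.Agent.Helper894.Collatz (T od er od_add iter_eq sum_pow_od period)

open Pool.Agent.H377R2 (iter_pos)

/-- the deviation of the size from its mean -/
noncomputable def Dw (w m : ℕ) : ℝ := Real.log ((T^[w] m : ℕ) / (m : ℕ)) + w / 2 * Real.log (4 / 3)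

theorem Dw_err {w m : ℕ} (hm : 0 < m) (h : (w : ℝ) * 4 ^ w ≤ m) : |Dw w m - Real.log 3 / 2 * Xw w m| ≤ 1 := by
  have hm0 : (0 : ℝ) < m := by exact_mod_cast hm
  have hT0 : (0 : ℝ) < (T^[w] m : ℕ) := by exact_mod_cast iter_pos hm w
  set a : ℝ := (3 : ℝ) ^ od w m / 2 ^ w with ha
  have ha0 : 0 < a := by positivity
  have h1 : a * m ≤ (T^[w] m : ℕ) := lower_val w m
  have h2 := iter_upper w m
  have hla : Real.log a = od w m * Real.log 3 - w * Real.log 2 := by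
    rw [ha, Real.log_div (by positivity) (by positivity), Real.log_pow, Real.log_pow]
  have h43 : Real.log (4 / 3) = 2 * Real.log 2 - Real.log 3 := by
    rw [Real.log_div (by norm_num) (by norm_num), show (4 : ℝ) = 2 ^ 2 by norm_num, Real.log_pow]
    push_cast
    ring
  have hD : Dw w m - Real.log 3 / 2 * Xw w m = Real.log ((T^[w] m : ℕ) / (m : ℕ)) - Real.log a := by
    unfold Dw Xw
    rw [hla, h43]
    ring
  have h3 : Real.log a ≤ Real.log ((T^[w] m : ℕ) / (m : ℕ)) := by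
    apply Real.log_le_log ha0
    rw [le_div_iff₀ hm0]
    exact h1
  have h4 : Real.log ((T^[w] m : ℕ) / (m : ℕ)) ≤ Real.log a + 1 := by
    have h5 : ((T^[w] m : ℕ) : ℝ) / (m : ℕ) ≤ a * 2 := by
      rw [div_le_iff₀ hm0]
      have h6 : (w : ℝ) * 2 ^ w ≤ a * m := by
        rw [ha, div_mul_eq_mul_div, le_div_iff₀ (by positivity)]
        calc (w : ℝ) * 2 ^ w * 2 ^ w = w * 4 ^ w := by
              rw [mul_assoc, ← mul_pow]
              norm_num
          _ ≤ m := h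
          _ ≤ 3 ^ od w m * m := le_mul_of_one_le_left hm0.le (one_le_pow₀ (by norm_num))
      calc ((T^[w] m : ℕ) : ℝ) ≤ a * m + w * 2 ^ w := h2
        _ ≤ a * m + a * m := by linarith
        _ = a * 2 * m := by ring
    have h7 := Real.log_le_log (by positivity) h5
    rw [Real.log_mul ha0.ne' (by norm_num)] at h7
    have hl2 : Real.log 2 < 1 := by have := Real.log_two_lt_d9; linarith
    linarith
  rw [hD, abs_le]
  constructor <;> linarith

/-- the size of the largest deviations -/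
noncomputable def bs (n w : ℕ) : ℝ := Real.log 3 * Real.sqrt (w * Real.log (Real.log n / w) / 2)

theorem bs_eq (n w : ℕ) : bs n w = Real.log 3 / 2 * bw (Real.log n) w := by
  unfold bs bw
  have h4 : Real.sqrt 4 = 2 := by
    rw [show (4 : ℝ) = 2 ^ 2 by norm_num, Real.sqrt_sq (by norm_num)]
  rw [show 2 * (w : ℝ) * Real.log (Real.log n / w) = 4 * (w * Real.log (Real.log n / w) / 2) by ring,
    Real.sqrt_mul (by norm_num), h4]
  ring

/-- **the modulus of continuity of typical trajectories** -/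
theorem size_law {α1 α2 ε κ : ℝ} (hα1 : 0 < α1) (hα12 : α1 ≤ α2) (hα2 : α2 < 1) (hε : 0 < ε) (hε1 : ε < 1)
    (hκ0 : 0 < κ) (hκ1 : κ < 1) : HasD (fun n => ∀ w : ℕ, Real.log n ^ α1 ≤ w → (w : ℝ) ≤ Real.log n ^ α2 →
      (∀ s, (∀ s', s' ≤ s + w → (n : ℝ) ^ κ < (T^[s'] n : ℕ)) → |Dw w (T^[s] n)| ≤ (1 + ε) * bs n w) ∧
      (∃ s, (∀ s', s' ≤ s + w → (n : ℝ) ^ κ < (T^[s'] n : ℕ)) ∧ (1 - ε) * bs n w ≤ Dw w (T^[s] n)) ∧
      ∃ s, (∀ s', s' ≤ s + w → (n : ℝ) ^ κ < (T^[s'] n : ℕ)) ∧ Dw w (T^[s] n) ≤ -((1 - ε) * bs n w)) 1 := by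
  have hlog : Tendsto (fun N : ℕ => Real.log (N : ℝ)) atTop atTop :=
    Real.tendsto_log_atTop.comp tendsto_natCast_atTop_atTop
  have hβ : 0 < 1 - α2 := by linarith
  have h3 : 1 < Real.log 3 := by
    rw [Real.lt_log_iff_exp_lt (by norm_num)]
    have := Real.exp_one_lt_d9
    linarith
  have e1 : ∀ᶠ X : ℝ in atTop, 3 * X ^ α2 ≤ κ * X := by
    have h1 : ∀ᶠ X : ℝ in atTop, 3 / κ ≤ X ^ (1 - α2) := (tendsto_rpow_atTop hβ).eventually (eventually_ge_atTop _)
    filter_upwards [h1, eventually_gt_atTop (0 : ℝ)] with X h1 h2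
    rw [div_le_iff₀ hκ0] at h1
    calc 3 * X ^ α2 ≤ (X ^ (1 - α2) * κ) * X ^ α2 := mul_le_mul_of_nonneg_right h1 (by positivity)
      _ = κ * (X ^ (1 - α2) * X ^ α2) := by ring
      _ = κ * X := by
          rw [← Real.rpow_add h2]
          simp
  have e2 : ∀ᶠ X : ℝ in atTop, (4 / ε) ^ 2 ≤ X ^ α1 := (tendsto_rpow_atTop hα1).eventually (eventually_ge_atTop _)
  obtain ⟨n0, hn0⟩ := eventually_atTop.1 ((hlog.eventually (e1.and (e2.and (eventually_ge_atTop (1 : ℝ))))).and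
    (ll_tendsto.eventually (eventually_ge_atTop (1 / (1 - α2)))))
  refine hasD_mono_one (tail_dens (incr_law (e := ε / 2) hα1 hα12 hα2 (by positivity) (by linarith) hκ0 hκ1) n0) ?_
  rintro n hn ⟨⟨hLo, hUp⟩, hnn⟩ w hw1 hw2
  obtain ⟨⟨f1, f2, f3⟩, f4⟩ := hn0 n hnn
  set Λ := Real.log n with hΛ
  have hΛ0 : 0 < Λ := by linarith
  have hn0' : (0 : ℝ) < n := by exact_mod_cast hn
  have hw0 : (0 : ℝ) < w := lt_of_lt_of_le (by positivity) hw1
  have hL := log_ratio hΛ0 hw0 hw2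
  have hL1 : 1 ≤ Real.log (Λ / w) := by
    refine le_trans ?_ hL
    rw [div_le_iff₀ hβ] at f4
    linarith
  have hbw : 4 / ε ≤ bw Λ w := by
    unfold bw
    apply Real.le_sqrt_of_sq_le
    calc (4 / ε) ^ 2 ≤ Λ ^ α1 := f2
      _ ≤ w := hw1
      _ ≤ 2 * w * 1 := by linarith
      _ ≤ 2 * w * Real.log (Λ / w) := mul_le_mul_of_nonneg_left hL1 (by positivity)
  have hbs : 1 ≤ ε / 2 * bs n w := by
    rw [bs_eq, ← hΛ]
    have h5 : 1 / 2 * (4 / ε) ≤ Real.log 3 / 2 * bw Λ w := mul_le_mul (by linarith) hbw (by positivity) (by linarith)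
    calc (1 : ℝ) = ε / 2 * (1 / 2 * (4 / ε)) := by field_simp; norm_num
      _ ≤ _ := mul_le_mul_of_nonneg_left h5 (by positivity)
  have herr : ∀ s, (∀ s', s' ≤ s + w → (n : ℝ) ^ κ < (T^[s'] n : ℕ)) →
      |Dw w (T^[s] n) - Real.log 3 / 2 * Xw w (T^[s] n)| ≤ 1 := by
    intro s hs
    apply Dw_err (iter_pos hn s)
    refine le_trans ?_ (hs s (by omega)).le
    have h1 : (w : ℝ) ≤ 2 ^ w := by exact_mod_cast Nat.lt_two_pow_self.le
    calc (w : ℝ) * 4 ^ w ≤ 2 ^ w * 4 ^ w := mul_le_mul_of_nonneg_right h1 (by positivity)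
      _ = Real.exp (w * Real.log 8) := by
          rw [Real.exp_nat_mul, Real.exp_log (by norm_num), ← mul_pow]
          norm_num
      _ ≤ Real.exp (Λ * κ) := by
          apply Real.exp_le_exp.2
          have h8 : Real.log 8 ≤ 3 := by
            rw [show (8 : ℝ) = 2 ^ 3 by norm_num, Real.log_pow]
            have := Real.log_two_lt_d9
            push_cast
            linarith
          calc (w : ℝ) * Real.log 8 ≤ w * 3 := mul_le_mul_of_nonneg_left h8 hw0.le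
            _ ≤ Λ ^ α2 * 3 := by linarith
            _ ≤ Λ * κ := by linarith
      _ = (n : ℝ) ^ κ := by rw [Real.rpow_def_of_pos hn0']
  have hl3 : 0 < Real.log 3 / 2 := by linarith
  refine ⟨fun s hs => ?_, ?_, ?_⟩
  · have h1 := hLo w hw1 hw2 s hs
    have h2 := herr s hs
    have h5 : |Dw w (T^[s] n)| ≤ |Dw w (T^[s] n) - Real.log 3 / 2 * Xw w (T^[s] n)| + |Real.log 3 / 2 * Xw w (T^[s] n)| := by
      have := abs_add_le (Dw w (T^[s] n) - Real.log 3 / 2 * Xw w (T^[s] n)) (Real.log 3 / 2 * Xw w (T^[s] n))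
      rwa [sub_add_cancel] at this
    rw [abs_mul, abs_of_pos hl3] at h5
    have h6 : Real.log 3 / 2 * |Xw w (T^[s] n)| ≤ Real.log 3 / 2 * ((1 + ε / 2) * bw Λ w) :=
      mul_le_mul_of_nonneg_left h1 hl3.le
    have h7 : Real.log 3 / 2 * ((1 + ε / 2) * bw Λ w) = (1 + ε / 2) * bs n w := by
      rw [bs_eq]
      ring
    linarith
  · obtain ⟨s, hs1, hs2⟩ := hUp w hw1 hw2 1 (Or.inl rfl)
    refine ⟨s, hs1, ?_⟩
    have h2 := (abs_le.1 (herr s hs1)).1
    have h6 : Real.log 3 / 2 * ((1 - ε / 2) * bw Λ w) ≤ Real.log 3 / 2 * (1 * Xw w (T^[s] n)) :=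
      mul_le_mul_of_nonneg_left hs2 hl3.le
    have h7 : Real.log 3 / 2 * ((1 - ε / 2) * bw Λ w) = (1 - ε / 2) * bs n w := by
      rw [bs_eq]
      ring
    linarith
  · obtain ⟨s, hs1, hs2⟩ := hUp w hw1 hw2 (-1) (Or.inr rfl)
    refine ⟨s, hs1, ?_⟩
    have h2 := (abs_le.1 (herr s hs1)).2
    have h6 : Real.log 3 / 2 * ((1 - ε / 2) * bw Λ w) ≤ Real.log 3 / 2 * (-1 * Xw w (T^[s] n)) :=
      mul_le_mul_of_nonneg_left hs2 hl3.le
    have h7 : Real.log 3 / 2 * ((1 - ε / 2) * bw Λ w) = (1 - ε / 2) * bs n w := by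
      rw [bs_eq]
      ring
    linarith

end Pool.Agent.V11311.ER
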