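import Pool.Agent.V11311.ER.J

/-! Rare patterns along trajectories, part K: the longest stopping time. -/

set_option autoImplicit false

namespace Pool.Agent.V11311.ER

open Finset Filter Topology Pool.Agent.V11311.FP Pool.Agent.V11311.RC Pool.Agent.V11311.SL

open Pool.Agent.V11311.DV (fl fl_card mem_fl)

open Pool.Agent.Helper894.Collatz (T od er od_add iter_eq sum_pow_od)

open Pool.Agent.H377R2 (iter_pos)

/-- all stopping times are at most `c log log n` -/
def LoS (c κ : ℝ) (n : ℕ) : Prop :=
  ∀ s, (∀ s', s' ≤ s → (n : ℝ) ^ κ < (T^[s'] n : ℕ)) →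
    ∃ i : ℕ, 1 ≤ i ∧ (i : ℝ) ≤ c * Real.log (Real.log n) ∧ T^[s + i] n < T^[s] n

/-- some stopping time is larger than `c log log n` -/
def UpS (c κ : ℝ) (n : ℕ) : Prop :=
  ∃ s, (∀ s', s' ≤ s → (n : ℝ) ^ κ < (T^[s'] n : ℕ)) ∧
    ∀ i : ℕ, 1 ≤ i → (i : ℝ) ≤ c * Real.log (Real.log n) → T^[s] n ≤ T^[s + i] n

theorem Lv_lt {κ : ℝ} (hκ : 0 < κ) {N n z : ℕ} (h3 : Real.sqrt N ≤ n) (h : (n : ℝ) ^ κ < z) : Lv (κ / 2) N < z := by
  have h5 : (N : ℝ) ^ (κ / 2) ≤ (n : ℝ) ^ κ := by
    calc (N : ℝ) ^ (κ / 2) = (Real.sqrt N) ^ κ := by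
          rw [Real.sqrt_eq_rpow, ← Real.rpow_mul (by positivity)]
          congr 1
          ring
      _ ≤ (n : ℝ) ^ κ := Real.rpow_le_rpow (by positivity) h3 hκ.le
  have h6 : ((Lv (κ / 2) N : ℕ) : ℝ) < z := (Nat.floor_le (by positivity)).trans_lt (h5.trans_lt h)
  exact_mod_cast h6

theorem kU_le {c : ℝ} (hc : 0 < c) {N : ℕ} (hN : 1 ≤ Real.log (Real.log N)) :
    (kU c N : ℝ) ≤ c * (Real.log (Real.log N) - 1) := by
  unfold kU
  exact Nat.floor_le (by
    have : 0 ≤ Real.log (Real.log N) - 1 := by linarith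
    positivity)

theorem stop_rare {c κ : ℝ} (hc : 1 < rt tc * c) (hκ : 0 < κ) (ε : ℝ) (hε : 0 < ε) :
    ∀ᶠ N : ℕ in atTop, (cN (St (fun N m => ∀ i, 1 ≤ i → i ≤ kU c N → m ≤ T^[i] m) N (Lv κ N)) N : ℝ) ≤ ε * N := by
  have hr := rt_pos
  have hc0 : 0 < c := by
    by_contra hcon
    push Not at hcon
    nlinarith
  have hl1 : ∀ᶠ N : ℕ in atTop, (1 : ℝ) ≤ Real.log (Real.log N) := ll_tendsto.eventually (eventually_ge_atTop 1)
  refine St_rare (ι := ℕ) _ (fun N => {kU c N}) (fun p => p) (fun p => NC p) NC_per (C := c) ?_ ?_ ?_ hκ ε hε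
  · filter_upwards [hl1] with N hN p hp
    rw [mem_singleton] at hp
    subst hp
    refine (kU_le hc0 hN).trans ?_
    exact mul_le_mul_of_nonneg_left (by linarith) hc0.le
  · filter_upwards [hl1] with N hN m hm hP
    refine ⟨kU c N, mem_singleton_self _, ?_⟩
    intro i hi hik
    by_contra hcon
    push Not at hcon
    have hk := kU_le hc0 hN
    set k := kU c N with hkd
    have hΛ : 0 < Real.log N := by
      rcases lt_trichotomy (Real.log N) 0 with h | h | h
      · exact absurd h (not_lt.2 (Real.log_natCast_nonneg N))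
      · rw [h, Real.log_zero] at hN
        norm_num at hN
      · exact h
    have h1 : k * 4 ^ k < m := by
      have h2 : (k : ℝ) < 2 ^ k := by exact_mod_cast Nat.lt_two_pow_self
      have h3 : (k : ℝ) * 4 ^ k < m := by
        calc (k : ℝ) * 4 ^ k < 2 ^ k * 4 ^ k := mul_lt_mul_of_pos_right h2 (by positivity)
          _ = Real.exp (k * Real.log 8) := by
              rw [Real.exp_nat_mul, Real.exp_log (by norm_num), ← mul_pow]
              norm_num
          _ ≤ Real.exp (Real.log (Real.log N) * (3 * c)) := by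
              apply Real.exp_le_exp.2
              have h4 : Real.log 8 ≤ 3 := by
                rw [show (8 : ℝ) = 2 ^ 3 by norm_num, Real.log_pow]
                have := Real.log_two_lt_d9
                push_cast
                linarith
              have h5 : (0 : ℝ) ≤ k := Nat.cast_nonneg _
              calc (k : ℝ) * Real.log 8 ≤ k * 3 := mul_le_mul_of_nonneg_left h4 h5
                _ ≤ (c * (Real.log (Real.log N) - 1)) * 3 := by linarith
                _ ≤ _ := by nlinarith
          _ = Real.log N ^ (3 * c) := by rw [Real.rpow_def_of_pos hΛ]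
          _ ≤ m := hm
      exact_mod_cast h3
    exact absurd (lt_of_pow hik h1 hcon) (not_lt.2 (hP i hi hik))
  · have h1 := exp_kU hr hc
    refine squeeze_zero' ?_ ?_ h1
    · filter_upwards with N
      rw [sum_singleton]
      exact mul_nonneg (Real.log_natCast_nonneg N) (prq_nonneg _ _)
    · filter_upwards with N
      rw [sum_singleton]
      exact mul_le_mul_of_nonneg_left (NC_up _) (Real.log_natCast_nonneg N)

/-- **the longest stopping time** -/
theorem stop_law {e κ : ℝ} (he : 0 < e) (he1 : e < 1) (hκ : 0 < κ) (hκ1 : κ < 1) :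
    HasD (fun n => LoS ((1 + e) / rt tc) κ n ∧ UpS ((1 - e) / rt tc) κ n) 1 := by
  have hr := rt_pos
  set β := rt tc with hβ
  set c := (1 + e) / β with hc
  have hc0 : 0 < c := by positivity
  have hbc : β * c = 1 + e := by rw [hc]; field_simp
  set c' := (1 - e) / β with hc'
  have h1e : 0 < 1 - e := by linarith
  have hc'0 : 0 < c' := by positivity
  have hbc' : β * c' = 1 - e := by rw [hc']; field_simp
  have hlow : ∀ᶠ N : ℕ in atTop, Real.log N ^ (-(1 - e / 2)) ≤ prq (2 ^ kL c' N) (NC (kL c' N)) := by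
    have h1 := exp_kL (c := c') (r := β + β * (e / 2)) (e := e / 2) hc'0 (by positivity) (by nlinarith)
    have hk : Tendsto (fun N : ℕ => kL c' N) atTop atTop := by
      unfold kL
      exact (tendsto_add_atTop_nat 1).comp (tendsto_nat_floor_atTop.comp (ll_tendsto.const_mul_atTop hc'0))
    filter_upwards [h1, hk.eventually (NC_low (β * (e / 2)) (by positivity))] with N g1 g2
    exact g1.trans g2
  apply hasD_one
  intro ε hε
  filter_upwards [small_rare (ε / 3) (by positivity),
    blocks (e := e / 2) (κ := κ) (C := c' + 1) (by positivity) hκ hκ1 (kL c') (fun N => NC (kL c' N))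
      (fun N => NC_per _) (fun N => by unfold kL; omega) (kL_le hc'0) hlow (ε / 3) (by positivity),
    stop_rare (c := c) (κ := κ / 2) (by rw [hbc]; linarith) (by positivity) (ε / 3) (by positivity),
    ll_tendsto.eventually (eventually_ge_atTop 1), eventually_ge_atTop 3,
    (Real.tendsto_log_atTop.comp tendsto_natCast_atTop_atTop).eventually (eventually_ge_atTop 3)] with N h1 h2 h3 h4 h5 h6
  rw [Function.comp_apply] at h6
  have hNR : (3 : ℝ) ≤ N := by exact_mod_cast h5
  have h7 := cN_or3 (P := fun n => ¬ (LoS c κ n ∧ UpS c' κ n)) (A := fun n => (n : ℝ) < Real.sqrt N)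
    (B := fun n => Real.sqrt N ≤ n ∧ n ≤ N ∧
      ¬ ∃ s, (∀ s', s' ≤ s + kL c' N → (n : ℝ) ^ κ < (T^[s'] n : ℕ)) ∧ NC (kL c' N) (T^[s] n))
    (C := St (fun N m => ∀ i, 1 ≤ i → i ≤ kU c N → m ≤ T^[i] m) N (Lv (κ / 2) N)) (N := N)
    (fun n hn hnN hbad => by
      rcases lt_or_ge (n : ℝ) (Real.sqrt N) with h | h
      · exact Or.inl h
      · right
        obtain ⟨g1, g2⟩ := loglog h h5 h6
        rcases Classical.not_and_iff_not_or_not.1 hbad with h' | h'
        · right
          unfold LoS at h'
          push Not at h'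
          obtain ⟨s, hs1, hs2⟩ := h'
          refine ⟨s, fun s' hs' => Lv_lt hκ h (hs1 s' hs'), fun i hi hik => ?_⟩
          have g3 := hs2 i hi (by
            have g4 : (i : ℝ) ≤ kU c N := by exact_mod_cast hik
            exact g4.trans ((kU_le hc0 h4).trans (mul_le_mul_of_nonneg_left g1 hc0.le)))
          rwa [add_comm, Function.iterate_add_apply] at g3
        · left
          refine ⟨h, hnN, fun ⟨s, hs1, hs2⟩ => h' ⟨s, fun s' hs' => hs1 s' (by omega), fun i hi hik => ?_⟩⟩
          rw [add_comm, Function.iterate_add_apply]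
          refine ge_of_pow (hs2 i hi ?_)
          have hnR : (n : ℝ) ≤ N := by exact_mod_cast hnN
          have hn0 : (0 : ℝ) < n := by exact_mod_cast hn
          have g3 : Real.log (Real.log n) ≤ Real.log (Real.log N) := Real.log_le_log g2 (Real.log_le_log hn0 hnR)
          have g4 : (i : ℝ) < kL c' N := by
            unfold kL
            push_cast
            have g5 := Nat.lt_floor_add_one (c' * Real.log (Real.log N))
            have g6 : c' * Real.log (Real.log n) ≤ c' * Real.log (Real.log N) := mul_le_mul_of_nonneg_left g3 hc'0.le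
            linarith
          have g5 : i < kL c' N := by exact_mod_cast g4
          omega)
  linarith

end Pool.Agent.V11311.ER
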