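import Pool.Agent.V11311.ER.W5

/-! Small oscillations of trajectories, part 6: sizes. -/

set_option autoImplicit false

namespace Pool.Agent.V11311.ER

open Finset Filter Topology Pool.Agent.V11311.FP Pool.Agent.V11311.RC Pool.Agent.V11311.SL

open Pool.Agent.V11311.DV (fl fl_card mem_fl)

open Pool.Agent.Helper894.Collatz (T od er od_add iter_eq sum_pow_od period)

open Pool.Agent.H377R2 (iter_pos)

/-- the size of the smallest oscillations -/
noncomputable def rs (n w : ℕ) : ℝ := Real.log 3 / 2 * rr (Real.log n) w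

/-- **the smallest oscillations of typical trajectories** -/
theorem osc_law {α1 α2 ε κ : ℝ} (hα1 : 0 < α1) (hα12 : α1 ≤ α2) (hα2 : α2 < 1) (hε : 0 < ε) (hε1 : ε < 1)
    (hκ0 : 0 < κ) (hκ1 : κ < 1) : HasD (fun n => ∀ w : ℕ, Real.log n ^ α1 ≤ w → (w : ℝ) ≤ Real.log n ^ α2 →
      (∀ s, (∀ s', s' ≤ s + w → (n : ℝ) ^ κ < (T^[s'] n : ℕ)) → ∃ i, i ≤ w ∧ ∃ j, j ≤ w ∧
        (1 - ε) * rs n w < Dw j (T^[s] n) - Dw i (T^[s] n)) ∧
      (∃ s, (∀ s', s' ≤ s + w → (n : ℝ) ^ κ < (T^[s'] n : ℕ)) ∧ ∀ i, i ≤ w → ∀ j, j ≤ w →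
        Dw j (T^[s] n) - Dw i (T^[s] n) ≤ (1 + ε) * rs n w)) 1 := by
  have hlog : Tendsto (fun N : ℕ => Real.log (N : ℝ)) atTop atTop :=
    Real.tendsto_log_atTop.comp tendsto_natCast_atTop_atTop
  have hβ : 0 < 1 - α2 := by linarith
  have h3 : 1 < Real.log 3 := by
    rw [Real.lt_log_iff_exp_lt (by norm_num)]
    have := Real.exp_one_lt_d9
    linarith
  have e1 : ∀ᶠ X : ℝ in atTop, 3 * X ^ α2 ≤ κ * X := by
    have h1 : ∀ᶠ X : ℝ in atTop, 3 / κ ≤ X ^ (1 - α2) := (tendsto_rpow_atTop hβ).eventually (eventually_ge_atTop _)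
    filter_upwards [h1, eventually_gt_atTop (0 : ℝ)] with X h1 h2
    rw [div_le_iff₀ hκ0] at h1
    calc 3 * X ^ α2 ≤ (X ^ (1 - α2) * κ) * X ^ α2 := mul_le_mul_of_nonneg_right h1 (by positivity)
      _ = κ * (X ^ (1 - α2) * X ^ α2) := by ring
      _ = κ * X := by
          rw [← Real.rpow_add h2]
          simp
  have e2 : ∀ᶠ X : ℝ in atTop, 2 * (8 / ε) ^ 2 * Real.log X ≤ X ^ α1 := by
    have h1 : ∀ᶠ X : ℝ in atTop, ‖Real.log X‖ ≤ (1 / (2 * (8 / ε) ^ 2)) * ‖X ^ α1‖ :=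
      (isLittleO_log_rpow_atTop hα1).bound (by positivity)
    filter_upwards [h1, eventually_ge_atTop (1 : ℝ)] with X h1 h3
    rw [Real.norm_of_nonneg (Real.log_nonneg h3), Real.norm_of_nonneg (by positivity), one_div, inv_mul_eq_div,
      le_div_iff₀ (by positivity)] at h1
    linarith
  obtain ⟨n0, hn0⟩ := eventually_atTop.1 ((hlog.eventually (e1.and (e2.and (eventually_ge_atTop (1 : ℝ))))).and
    (ll_tendsto.eventually (eventually_ge_atTop (1 / (1 - α2)))))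
  refine hasD_mono_one (tail_dens (rng_law (e := ε / 2) hα1 hα12 hα2 (by positivity) (by linarith) hκ0 hκ1) n0) ?_
  rintro n hn ⟨⟨hLo, hUp⟩, hnn⟩ w hw1 hw2
  obtain ⟨⟨f1, f2, f3⟩, f4⟩ := hn0 n hnn
  set Λ := Real.log n with hΛ
  have hΛ0 : 0 < Λ := by linarith
  have hn0' : (0 : ℝ) < n := by exact_mod_cast hn
  have hw0 : (0 : ℝ) < w := lt_of_lt_of_le (by positivity) hw1
  have hw1' : (1 : ℝ) ≤ w := by
    have : 0 < w := by exact_mod_cast hw0
    exact_mod_cast this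
  have hL := log_ratio hΛ0 hw0 hw2
  have hL1 : 1 ≤ Real.log (Λ / w) := by
    refine le_trans ?_ hL
    rw [div_le_iff₀ hβ] at f4
    linarith
  have hL2 : Real.log (Λ / w) ≤ Real.log Λ := by
    apply Real.log_le_log (by positivity)
    exact div_le_self hΛ0.le hw1'
  have hrr : 8 / ε ≤ rr Λ w := by
    have k2 : 8 / ε ≤ Real.sqrt (w / (2 * Real.log (Λ / w))) := by
      apply Real.le_sqrt_of_sq_le
      rw [le_div_iff₀ (by positivity)]
      calc (8 / ε) ^ 2 * (2 * Real.log (Λ / w)) ≤ (8 / ε) ^ 2 * (2 * Real.log Λ) :=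
            mul_le_mul_of_nonneg_left (by linarith) (by positivity)
        _ = 2 * (8 / ε) ^ 2 * Real.log Λ := by ring
        _ ≤ Λ ^ α1 := f2
        _ ≤ w := hw1
    have hpi := Real.pi_gt_three
    have hsq : 0 ≤ Real.sqrt (w / (2 * Real.log (Λ / w))) := Real.sqrt_nonneg _
    have k3 : rr Λ w = Real.pi * Real.sqrt (w / (2 * Real.log (Λ / w))) := rfl
    rw [k3]
    nlinarith
  have hrs : 2 ≤ ε / 2 * rs n w := by
    unfold rs
    rw [← hΛ]
    have h5 : 1 / 2 * (8 / ε) ≤ Real.log 3 / 2 * rr Λ w := mul_le_mul (by linarith) hrr (by positivity) (by linarith)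
    calc (2 : ℝ) = ε / 2 * (1 / 2 * (8 / ε)) := by field_simp; norm_num
      _ ≤ _ := mul_le_mul_of_nonneg_left h5 (by positivity)
  have herr : ∀ s, (∀ s', s' ≤ s + w → (n : ℝ) ^ κ < (T^[s'] n : ℕ)) → ∀ i, i ≤ w →
      |Dw i (T^[s] n) - Real.log 3 / 2 * Xw i (T^[s] n)| ≤ 1 := by
    intro s hs i hi
    apply Dw_err (iter_pos hn s)
    refine le_trans ?_ (hs s (by omega)).le
    have h1 : (w : ℝ) ≤ 2 ^ w := by exact_mod_cast Nat.lt_two_pow_self.le
    calc (i : ℝ) * 4 ^ i ≤ w * 4 ^ w := by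
          apply mul_le_mul _ (pow_le_pow_right₀ (by norm_num) hi) (by positivity) (by positivity)
          exact_mod_cast hi
      _ ≤ 2 ^ w * 4 ^ w := mul_le_mul_of_nonneg_right h1 (by positivity)
      _ = Real.exp (w * Real.log 8) := by
          rw [Real.exp_nat_mul, Real.exp_log (by norm_num), ← mul_pow]
          norm_num
      _ ≤ Real.exp (Λ * κ) := by
          apply Real.exp_le_exp.2
          have h8 : Real.log 8 ≤ 3 := by
            rw [show (8 : ℝ) = 2 ^ 3 by norm_num, Real.log_pow]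
            have := Real.log_two_lt_d9
            push_cast
            linarith
          calc (w : ℝ) * Real.log 8 ≤ w * 3 := mul_le_mul_of_nonneg_left h8 hw0.le
            _ ≤ Λ ^ α2 * 3 := by linarith
            _ ≤ Λ * κ := by linarith
      _ = (n : ℝ) ^ κ := by rw [Real.rpow_def_of_pos hn0']
  have hl3 : 0 < Real.log 3 / 2 := by linarith
  refine ⟨fun s hs => ?_, ?_⟩
  · have h1 := hLo w hw1 hw2 s hs
    unfold Rg at h1
    push Not at h1
    obtain ⟨i, hi, j, hj, h2⟩ := h1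
    refine ⟨i, hi, j, hj, ?_⟩
    have k1 := (abs_le.1 (herr s hs i hi)).2
    have k2 := (abs_le.1 (herr s hs j hj)).1
    have h6 : Real.log 3 / 2 * ((1 - ε / 2) * rr Λ w) < Real.log 3 / 2 * (Xw j (T^[s] n) - Xw i (T^[s] n)) :=
      mul_lt_mul_of_pos_left h2 hl3
    have h7 : Real.log 3 / 2 * ((1 - ε / 2) * rr Λ w) = (1 - ε / 2) * rs n w := by
      unfold rs
      ring
    rw [mul_sub] at h6
    linarith
  · obtain ⟨s, hs1, hs2⟩ := hUp w hw1 hw2
    refine ⟨s, hs1, fun i hi j hj => ?_⟩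
    have k1 := (abs_le.1 (herr s hs1 i hi)).1
    have k2 := (abs_le.1 (herr s hs1 j hj)).2
    have h6 : Real.log 3 / 2 * (Xw j (T^[s] n) - Xw i (T^[s] n)) ≤ Real.log 3 / 2 * ((1 + ε / 2) * rr Λ w) :=
      mul_le_mul_of_nonneg_left (hs2 i hi j hj) hl3.le
    have h7 : Real.log 3 / 2 * ((1 + ε / 2) * rr Λ w) = (1 + ε / 2) * rs n w := by
      unfold rs
      ring
    rw [mul_sub] at h6
    linarith

end Pool.Agent.V11311.ER
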