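import Pool.Agent.V11311.SL.C

/-! Rare patterns along trajectories, part A: from the beginning of the trajectories to long parts. -/

set_option autoImplicit false

namespace Pool.Agent.V11311.ER

open Finset Filter Topology Pool.Agent.V11311.FP Pool.Agent.V11311.RC Pool.Agent.V11311.SL

open Pool.Agent.V11311.DV (fl fl_card mem_fl)

open Pool.Agent.Helper894.Collatz (T od er od_add iter_eq)

open Pool.Agent.V11311.GT (stabR)

theorem Fp_step {Y n z : ℕ} (hn : Y < n) : Fp Y n z ↔ Fp Y (T n) z := by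
  constructor
  · rintro ⟨t, h1, h2, h3⟩
    cases t with
    | zero =>
      simp only [Function.iterate_zero, id_eq] at h1
      omega
    | succ t =>
      refine ⟨t, by rwa [Function.iterate_succ_apply] at h1, h2, fun i hi => ?_⟩
      have := h3 (i + 1) (by omega)
      rwa [Function.iterate_succ_apply] at this
  · rintro ⟨t, h1, h2, h3⟩
    refine ⟨t + 1, by rwa [Function.iterate_succ_apply], h2, fun i hi => ?_⟩
    cases i with
    | zero => exact hn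
    | succ i =>
      rw [Function.iterate_succ_apply]
      exact h3 i (by omega)

theorem AP_Fp (Y : ℕ) (A : ℕ → Prop) : AP Y (fun n => ∃ z, Fp Y n z ∧ A z) := by
  intro n hn
  simp only [Fp_step hn]

/-- the level `N ^ a` -/
noncomputable def Lv (a : ℝ) (N : ℕ) : ℕ := ⌊(N : ℝ) ^ a⌋₊

theorem Lv_le {a b : ℝ} (h : a ≤ b) {N : ℕ} (hN : 1 ≤ N) : Lv a N ≤ Lv b N :=
  Nat.floor_le_floor (Real.rpow_le_rpow_of_exponent_le (by exact_mod_cast hN) h)

theorem Lv_tendsto {a : ℝ} (ha : 0 < a) : Tendsto (Lv a) atTop atTop :=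
  tendsto_nat_floor_atTop.comp ((tendsto_rpow_atTop ha).comp tendsto_natCast_atTop_atTop)

/-- the levels of one stage -/
theorem levels {a : ℝ} (ha : 0 < a) (ha1 : a ≤ 0.99) : ∀ᶠ N : ℕ in atTop,
    ((Lv a N : ℕ) : ℝ) ^ (1.005 : ℝ) ≤ N ∧ ⌈((Lv a N : ℕ) : ℝ) ^ (1.005 : ℝ)⌉₊ ≤ N ∧
    (N : ℝ) ^ (a / 2) ≤ ⌈((Lv a N : ℕ) : ℝ) ^ (1.005 : ℝ)⌉₊ ∧
    ⌊((⌈((Lv a N : ℕ) : ℝ) ^ (1.005 : ℝ)⌉₊ : ℕ) : ℝ) ^ (0.99 : ℝ)⌋₊ ≤ Lv (0.996 * a) N := by
  have e1 : ∀ᶠ X : ℝ in atTop, (2 : ℝ) ≤ X ^ (0.001 * a) :=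
    (tendsto_rpow_atTop (by positivity)).eventually (eventually_ge_atTop _)
  have e2 : ∀ᶠ X : ℝ in atTop, (2 : ℝ) ≤ X ^ (a / 2) :=
    (tendsto_rpow_atTop (by positivity)).eventually (eventually_ge_atTop _)
  filter_upwards [tendsto_natCast_atTop_atTop.eventually (e1.and (e2.and (eventually_ge_atTop (1 : ℝ))))] with N hN
  obtain ⟨h1, h2, h3⟩ := hN
  have hN0 : (0 : ℝ) < N := by linarith
  set Y := Lv a N with hY
  have hYa : (Y : ℝ) ≤ (N : ℝ) ^ a := Nat.floor_le (by positivity)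
  have hY0 : (0 : ℝ) ≤ Y := Nat.cast_nonneg _
  have h4 : (Y : ℝ) ^ (1.005 : ℝ) ≤ (N : ℝ) ^ (1.005 * a) := by
    calc (Y : ℝ) ^ (1.005 : ℝ) ≤ ((N : ℝ) ^ a) ^ (1.005 : ℝ) := Real.rpow_le_rpow hY0 hYa (by norm_num)
      _ = (N : ℝ) ^ (1.005 * a) := by rw [← Real.rpow_mul hN0.le, mul_comm]
  have h5 : (N : ℝ) ^ (1.005 * a) ≤ N := by
    calc (N : ℝ) ^ (1.005 * a) ≤ (N : ℝ) ^ (1 : ℝ) := Real.rpow_le_rpow_of_exponent_le h3 (by linarith)
      _ = N := Real.rpow_one _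
  have hYge : (N : ℝ) ^ (a / 2) ≤ Y := by
    have g1 : (N : ℝ) ^ a < Y + 1 := Nat.lt_floor_add_one _
    have g2 : (N : ℝ) ^ a = (N : ℝ) ^ (a / 2) * (N : ℝ) ^ (a / 2) := by
      rw [← Real.rpow_add hN0]
      congr 1
      ring
    have g3 : (0 : ℝ) < (N : ℝ) ^ (a / 2) := by positivity
    nlinarith
  have hY1 : (1 : ℝ) ≤ Y := by linarith
  have hYθ : (Y : ℝ) ≤ (Y : ℝ) ^ (1.005 : ℝ) := by
    calc (Y : ℝ) = (Y : ℝ) ^ (1 : ℝ) := (Real.rpow_one _).symm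
      _ ≤ _ := Real.rpow_le_rpow_of_exponent_le hY1 (by norm_num)
  refine ⟨h4.trans h5, ?_, ?_, ?_⟩
  · exact Nat.ceil_le.2 (h4.trans h5)
  · exact hYge.trans (hYθ.trans (Nat.le_ceil _))
  · apply Nat.floor_le_floor
    have g1 : ((⌈(Y : ℝ) ^ (1.005 : ℝ)⌉₊ : ℕ) : ℝ) ≤ 2 * (N : ℝ) ^ (1.005 * a) := by
      have := Nat.ceil_lt_add_one (show (0 : ℝ) ≤ (Y : ℝ) ^ (1.005 : ℝ) by positivity)
      have g2 : (1 : ℝ) ≤ (N : ℝ) ^ (1.005 * a) := Real.one_le_rpow h3 (by positivity)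
      linarith
    have g2 : ((⌈(Y : ℝ) ^ (1.005 : ℝ)⌉₊ : ℕ) : ℝ) ≤ (N : ℝ) ^ (1.006 * a) := by
      refine g1.trans ?_
      calc 2 * (N : ℝ) ^ (1.005 * a) ≤ (N : ℝ) ^ (0.001 * a) * (N : ℝ) ^ (1.005 * a) :=
            mul_le_mul_of_nonneg_right h1 (by positivity)
        _ = (N : ℝ) ^ (1.006 * a) := by
            rw [← Real.rpow_add hN0]
            congr 1
            ring
    calc ((⌈(Y : ℝ) ^ (1.005 : ℝ)⌉₊ : ℕ) : ℝ) ^ (0.99 : ℝ) ≤ ((N : ℝ) ^ (1.006 * a)) ^ (0.99 : ℝ) :=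
          Real.rpow_le_rpow (Nat.cast_nonneg _) g2 (by norm_num)
      _ = (N : ℝ) ^ (0.99594 * a) := by
          rw [← Real.rpow_mul hN0.le]
          congr 1
          ring
      _ ≤ (N : ℝ) ^ (0.996 * a) := Real.rpow_le_rpow_of_exponent_le h3 (by linarith)

/-- **rare patterns**: what is rare at the beginning of the trajectories is rare down to `N ^ κ` -/
theorem rare (B : ℕ → ℕ → ℕ → Prop) (mono : ∀ N Y Y' n, Y ≤ Y' → B N Y' n → B N Y n)
    (dec : ∀ N Y Y' n, 0 < n → Y' ≤ Y → B N Y' n → B N Y n ∨ ∃ z, Fp Y n z ∧ B N Y' z)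
    (ext : ∀ N Y Y' n z, 0 < n → Y' ≤ Y → Fp Y n z → B N Y' z → B N Y' n)
    (hc : ∀ κ : ℝ, 0 < κ → ∀ ε : ℝ, 0 < ε → ∀ᶠ N : ℕ in atTop, ∀ N' : ℕ, (N : ℝ) ^ κ ≤ N' → N' ≤ N →
      (cN (B N ⌊(N' : ℝ) ^ (0.99 : ℝ)⌋₊) N' : ℝ) ≤ ε * N') {κ : ℝ} (hκ : 0 < κ) (ε : ℝ) (hε : 0 < ε) :
    ∀ᶠ N : ℕ in atTop, (cN (B N (Lv κ N)) N : ℝ) ≤ ε * N := by
  classical
  have key : ∀ R : ℕ, ∀ ε : ℝ, 0 < ε → ∀ᶠ N : ℕ in atTop,
      (cN (B N (Lv (0.99 * 0.996 ^ R) N)) N : ℝ) ≤ ε * N := by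
    intro R
    induction R with
    | zero =>
      intro ε hε
      filter_upwards [hc (1 / 2) (by norm_num) ε hε, eventually_ge_atTop 1] with N hN hN1
      have h1 : (N : ℝ) ^ (1 / 2 : ℝ) ≤ N := by
        calc (N : ℝ) ^ (1 / 2 : ℝ) ≤ (N : ℝ) ^ (1 : ℝ) :=
              Real.rpow_le_rpow_of_exponent_le (by exact_mod_cast hN1) (by norm_num)
          _ = N := Real.rpow_one _
      have h2 := hN N h1 le_rfl
      rw [pow_zero, mul_one]
      exact h2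
    | succ R ih =>
      intro ε hε
      set a : ℝ := 0.99 * 0.996 ^ R with ha
      have ha0 : 0 < a := by positivity
      have ha1 : a ≤ 0.99 := by
        rw [ha]
        have : (0.996 : ℝ) ^ R ≤ 1 := pow_le_one₀ (by norm_num) (by norm_num)
        nlinarith
      have ha' : (0.99 : ℝ) * 0.996 ^ (R + 1) = 0.996 * a := by
        rw [ha, pow_succ]
        ring
      obtain ⟨Y0, hY0⟩ := stabR (show (1 : ℝ) < 1.005 by norm_num) (ε / 4) (by positivity)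
      filter_upwards [ih (ε / 4) (by positivity), levels ha0 ha1, hc (a / 2) (by positivity) (ε / 4) (by positivity),
        (Lv_tendsto ha0).eventually (eventually_ge_atTop Y0), eventually_ge_atTop 1] with N h1 h2 h3 h4 h5
      rw [ha']
      obtain ⟨l1, l2, l3, l4⟩ := h2
      set Y := Lv a N with hY
      set N' := ⌈((Y : ℕ) : ℝ) ^ (1.005 : ℝ)⌉₊ with hN'
      have hNR : (1 : ℝ) ≤ N := by exact_mod_cast h5
      have hN'0 : (0 : ℝ) < N' := lt_of_lt_of_le (by positivity) l3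
      have hYY : Lv (0.996 * a) N ≤ Y := Lv_le (by linarith) h5
      obtain ⟨D, -, hD⟩ := hY0 Y h4 _ (AP_Fp Y (B N (Lv (0.996 * a) N)))
      have k1 := hD N l1
      have k2 := hD N' (Nat.le_ceil _)
      have k3 : (cN (fun n => ∃ z, Fp Y n z ∧ B N (Lv (0.996 * a) N) z) N' : ℝ) ≤ ε / 4 * N' := by
        refine le_trans ?_ (h3 N' l3 l2)
        exact Nat.cast_le.2 (cN_mono (fun n hn ⟨z, hz1, hz2⟩ =>
          mono N _ _ n l4 (ext N Y _ n z hn hYY hz1 hz2)) N')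
      have k4 : (cN (B N (Lv (0.996 * a) N)) N : ℝ) ≤ cN (B N Y) N +
          cN (fun n => ∃ z, Fp Y n z ∧ B N (Lv (0.996 * a) N) z) N := by
        have : cN (B N (Lv (0.996 * a) N)) N ≤ cN (B N Y) N +
            cN (fun n => ∃ z, Fp Y n z ∧ B N (Lv (0.996 * a) N) z) N := by
          rw [← fl_card, ← fl_card, ← fl_card]
          refine (card_le_card ?_).trans (card_union_le _ _)
          intro n hn
          rw [mem_fl] at hn
          rw [mem_union, mem_fl, mem_fl]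
          rcases dec N Y _ n hn.1.1 hYY hn.2 with h | h
          · exact Or.inl ⟨hn.1, h⟩
          · exact Or.inr ⟨hn.1, h⟩
        exact_mod_cast this
      have k5 : (cN (fun n => ∃ z, Fp Y n z ∧ B N (Lv (0.996 * a) N) z) N' : ℝ) / N' ≤ ε / 4 := by
        rw [div_le_iff₀ hN'0]
        exact k3
      have k6 : (cN (fun n => ∃ z, Fp Y n z ∧ B N (Lv (0.996 * a) N) z) N : ℝ) / N ≤ 3 * (ε / 4) := by
        rw [abs_le] at k1 k2
        linarith [k1.2, k2.1]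
      rw [div_le_iff₀ (by linarith)] at k6
      linarith
  obtain ⟨R, hR⟩ := exists_pow_lt_of_lt_one (show (0 : ℝ) < κ by exact hκ) (show (0.996 : ℝ) < 1 by norm_num)
  filter_upwards [key R ε hε, eventually_ge_atTop 1] with N h1 h2
  refine le_trans ?_ h1
  refine Nat.cast_le.2 (cN_mono (fun n _ h => mono N _ _ n (Lv_le ?_ h2) h) N)
  have : (0 : ℝ) < 0.996 ^ R := by positivity
  linarith

end Pool.Agent.V11311.ER
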