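import Pool.Agent.V11311.ER.A

/-! Rare patterns along trajectories, part B: probabilities. -/

set_option autoImplicit false

namespace Pool.Agent.V11311.ER

open Finset Filter Topology Pool.Agent.V11311.FP Pool.Agent.V11311.RC Pool.Agent.V11311.SL

open Pool.Agent.V11311.DV (fl fl_card mem_fl)

open Pool.Agent.Helper894.Collatz (T od er od_add iter_eq sum_pow_od)

open Pool.Agent.H377R2 (iter_pos)

theorem prq_true {Q : ℕ} (hQ : 0 < Q) : prq Q (fun _ => True) = 1 := by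
  classical
  rw [prq_eq, filter_true, card_range]
  exact div_self (by positivity)

theorem prq_not {Q : ℕ} (hQ : 0 < Q) (A : ℕ → Prop) : prq Q (fun x => ¬ A x) = 1 - prq Q A := by
  classical
  rw [prq_eq, prq_eq, eq_sub_iff_add_eq, ← add_div, ← Nat.cast_add, add_comm, card_filter_add_card_filter_not,
    card_range]
  exact div_self (by positivity)

theorem prq_mono {Q : ℕ} {A B : ℕ → Prop} (h : ∀ x, A x → B x) : prq Q A ≤ prq Q B := by
  classical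
  rw [prq_eq, prq_eq]
  apply div_le_div_of_nonneg_right _ (Nat.cast_nonneg Q)
  exact_mod_cast card_le_card fun x hx => by
    rw [mem_filter] at hx ⊢
    exact ⟨hx.1, h x hx.2⟩

theorem Per.not {Q : ℕ} {A : ℕ → Prop} (h : Per Q A) : Per Q (fun x => ¬ A x) := fun x => not_congr (h x)

theorem Per.shift {i d : ℕ} {A : ℕ → Prop} (hA : Per (2 ^ d) A) : Per (2 ^ (i + d)) (fun x => A (T^[i] x)) := by
  have h := Per.and_iter (j := i) (q := 2 ^ d) (A := fun _ => True) (fun _ => Iff.rfl) hA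
  rw [← pow_add] at h
  simpa only [true_and] using h

theorem prq_shift {i d : ℕ} {A : ℕ → Prop} (hA : Per (2 ^ d) A) :
    prq (2 ^ (i + d)) (fun x => A (T^[i] x)) = prq (2 ^ d) A := by
  have h := prod_prq (j := i) (q := 2 ^ d) (A := fun _ => True) (by positivity)
    (Nat.Coprime.pow_left _ (by norm_num)) (fun _ => Iff.rfl) hA
  rw [prq_true (by positivity), one_mul, ← pow_add] at h
  simpa only [true_and] using h

theorem cN_shift {i d N : ℕ} {A : ℕ → Prop} (hA : Per (2 ^ d) A) (hN : 2 ^ (i + d) ≤ N) :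
    (cN (fun n => A (T^[i] n)) N : ℝ) ≤ 2 * N * prq (2 ^ d) A := by
  have h := cN_rare _ (Per.shift (i := i) hA) hN
  rw [← prq_pow, prq_shift hA] at h
  exact h

/-- large multipliers -/
def Mu (v : ℝ) (d x : ℕ) : Prop := v ≤ (3 : ℝ) ^ od d x / 2 ^ d

theorem Mu_per (v : ℝ) (d : ℕ) : Per (2 ^ d) (Mu v d) := by
  intro x
  unfold Mu
  rw [od_mod d x le_rfl]

theorem pr_Mu {v : ℝ} (hv : 0 < v) (d : ℕ) : prq (2 ^ d) (Mu v d) ≤ rh ^ d / Real.sqrt v := by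
  rw [prq_pow]
  have h := markov d (Mu v d) (1 / Real.sqrt v) (by positivity) (fun x hx => by
    unfold Mu at hx
    have h1 := Real.sqrt_le_sqrt hx
    rw [Real.sqrt_div (by positivity), ← sqrt_pow_eq 3 (by norm_num), ← sqrt_pow_eq 2 (by norm_num)] at h1
    rw [one_div_mul_eq_div, one_le_div (Real.sqrt_pos.2 hv)]
    exact h1)
  rwa [one_div_mul_eq_div] at h

theorem pr_Mu1 {v : ℝ} (hv : 0 < v) (d : ℕ) : prq (2 ^ d) (Mu v d) ≤ 1 / v := by
  classical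
  rw [prq_eq, div_le_div_iff₀ (by positivity) hv, one_mul]
  push_cast
  have h1 : (((range (2 ^ d)).filter (Mu v d)).card : ℝ) * v ≤ ∑ x ∈ range (2 ^ d), (3 : ℝ) ^ od d x / 2 ^ d := by
    calc (((range (2 ^ d)).filter (Mu v d)).card : ℝ) * v = ∑ x ∈ (range (2 ^ d)).filter (Mu v d), v := by
          rw [sum_const, nsmul_eq_mul]
      _ ≤ ∑ x ∈ (range (2 ^ d)).filter (Mu v d), (3 : ℝ) ^ od d x / 2 ^ d :=
          sum_le_sum fun x hx => (mem_filter.1 hx).2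
      _ ≤ _ := sum_le_sum_of_subset_of_nonneg (filter_subset _ _) (fun x _ _ => by positivity)
  refine h1.trans (le_of_eq ?_)
  rw [← sum_div, sum_pow_od, ← div_pow]
  norm_num

theorem rh_exp : rh ≤ Real.exp (-0.033) := by
  have h1 := rh_sq_le
  have h2 := rh_pos
  have h3 : (1 : ℝ) - 0.066 ≤ Real.exp (-0.066) := by
    have := Real.add_one_le_exp (-0.066 : ℝ)
    linarith
  have h4 : Real.exp (-0.033) ^ 2 = Real.exp (-0.066) := by
    rw [← Real.exp_nat_mul]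
    norm_num
  have h5 := Real.exp_pos (-0.033)
  by_contra hcon
  push Not at hcon
  nlinarith

/-- half of the logarithm -/
noncomputable def JH (N : ℕ) : ℕ := ⌊1 / 2 * Real.log N⌋₊

theorem JH_facts {N : ℕ} (hN : 1 ≤ N) : (JH N : ℝ) ≤ 1 / 2 * Real.log N ∧ 1 / 2 * Real.log N < JH N + 1 ∧
    (2 : ℝ) ^ JH N ≤ (N : ℝ) ^ (0.35 : ℝ) ∧ 2 ^ JH N ≤ N := by
  have hN0 : (1 : ℝ) ≤ N := by exact_mod_cast hN
  have hL : 0 ≤ Real.log N := Real.log_nonneg hN0
  have h1 : (JH N : ℝ) ≤ 1 / 2 * Real.log N := Nat.floor_le (by positivity)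
  have h2 : (2 : ℝ) ^ JH N ≤ (N : ℝ) ^ (0.35 : ℝ) := by
    have g1 : (2 : ℝ) ^ JH N = Real.exp (JH N * Real.log 2) := by
      rw [Real.exp_nat_mul, Real.exp_log (by norm_num)]
    rw [g1, Real.rpow_def_of_pos (by linarith)]
    apply Real.exp_le_exp.2
    have hl2 : Real.log 2 < 0.6932 := by have := Real.log_two_lt_d9; linarith
    have hl2' : 0 < Real.log 2 := Real.log_pos (by norm_num)
    have g2 : (JH N : ℝ) * Real.log 2 ≤ 1 / 2 * Real.log N * Real.log 2 := mul_le_mul_of_nonneg_right h1 hl2'.le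
    have g3 : 1 / 2 * Real.log N * Real.log 2 ≤ 1 / 2 * Real.log N * 0.7 :=
      mul_le_mul_of_nonneg_left (by linarith) (by positivity)
    linarith
  refine ⟨h1, Nat.lt_floor_add_one _, h2, ?_⟩
  have h3 : (N : ℝ) ^ (0.35 : ℝ) ≤ N := by
    calc (N : ℝ) ^ (0.35 : ℝ) ≤ (N : ℝ) ^ (1 : ℝ) := Real.rpow_le_rpow_of_exponent_le hN0 (by norm_num)
      _ = N := Real.rpow_one _
  exact_mod_cast h2.trans h3

/-- the additive error terms are small -/
theorem er_small : ∀ᶠ N : ℕ in atTop, 2 * ((JH N : ℝ) * 2 ^ JH N) ≤ (N : ℝ) ^ (0.99 : ℝ) - 1 := by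
  have e1 : ∀ᶠ X : ℝ in atTop, ‖Real.log X‖ ≤ 1 * ‖X ^ (1 / 10 : ℝ)‖ :=
    (isLittleO_log_rpow_atTop (by norm_num : (0 : ℝ) < 1 / 10)).bound one_pos
  have e2 : ∀ᶠ X : ℝ in atTop, (2 : ℝ) ≤ X ^ (0.5 : ℝ) :=
    (tendsto_rpow_atTop (by norm_num)).eventually (eventually_ge_atTop _)
  filter_upwards [tendsto_natCast_atTop_atTop.eventually (e1.and (e2.and (eventually_ge_atTop (3 : ℝ))))] with N hN
  obtain ⟨h1, h2, h3⟩ := hN
  have hN1 : 1 ≤ N := by exact_mod_cast (show (1 : ℝ) ≤ N by linarith)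
  have hN0 : (0 : ℝ) < N := by linarith
  have hL : 0 < Real.log N := Real.log_pos (by linarith)
  rw [Real.norm_of_nonneg hL.le, Real.norm_of_nonneg (by positivity), one_mul] at h1
  obtain ⟨g1, -, g3, -⟩ := JH_facts hN1
  have h4 : 2 * ((JH N : ℝ) * 2 ^ JH N) ≤ (N : ℝ) ^ (0.45 : ℝ) := by
    have h5 : 2 * (JH N : ℝ) ≤ (N : ℝ) ^ (1 / 10 : ℝ) := by linarith
    calc 2 * ((JH N : ℝ) * 2 ^ JH N) = 2 * (JH N : ℝ) * 2 ^ JH N := by ring
      _ ≤ (N : ℝ) ^ (1 / 10 : ℝ) * (N : ℝ) ^ (0.35 : ℝ) := mul_le_mul h5 g3 (by positivity) (by positivity)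
      _ = (N : ℝ) ^ (0.45 : ℝ) := by
          rw [← Real.rpow_add hN0]
          norm_num
  have h5 : (N : ℝ) ^ (0.5 : ℝ) * (N : ℝ) ^ (0.45 : ℝ) ≤ (N : ℝ) ^ (0.99 : ℝ) := by
    rw [← Real.rpow_add hN0]
    exact Real.rpow_le_rpow_of_exponent_le (by linarith) (by norm_num)
  have h6 : (1 : ℝ) ≤ (N : ℝ) ^ (0.45 : ℝ) := Real.one_le_rpow (by linarith) (by norm_num)
  nlinarith

theorem iter_upper (j n : ℕ) : (T^[j] n : ℝ) ≤ 3 ^ od j n / 2 ^ j * n + j * 2 ^ j := by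
  have h1 := iter_eq j n
  have h2 : (2 : ℝ) ^ j * (T^[j] n : ℕ) = 3 ^ od j n * n + er j n := by exact_mod_cast h1
  have h3 : (er j n : ℝ) ≤ j * 4 ^ j := by exact_mod_cast er_le j n
  have h4 : (4 : ℝ) ^ j = 2 ^ j * 2 ^ j := by
    rw [← mul_pow]
    norm_num
  have h5 : (2 : ℝ) ^ j * (T^[j] n : ℕ) ≤ 2 ^ j * (3 ^ od j n / 2 ^ j * n + j * 2 ^ j) := by
    rw [h2, mul_add, ← mul_assoc, mul_div_cancel₀ _ (by positivity)]
    rw [h4] at h3
    linarith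
  exact le_of_mul_le_mul_left h5 (by positivity)

/-- most trajectories descend -/
theorem descend (ε : ℝ) (hε : 0 < ε) : ∀ᶠ N : ℕ in atTop,
    (cN (fun n => ⌊(N : ℝ) ^ (0.99 : ℝ)⌋₊ < T^[JH N] n ∧ n ≤ N) N : ℝ) ≤ ε * N := by
  have e1 : ∀ᶠ X : ℝ in atTop, 4 * Real.exp 1 / ε ≤ X ^ (0.01 : ℝ) :=
    (tendsto_rpow_atTop (by norm_num)).eventually (eventually_ge_atTop _)
  filter_upwards [er_small, tendsto_natCast_atTop_atTop.eventually e1, eventually_ge_atTop 1] with N h1 h2 h3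
  have hN1 : (1 : ℝ) ≤ N := by exact_mod_cast h3
  have hN0 : (0 : ℝ) < N := by linarith
  obtain ⟨g1, g2, g3, g4⟩ := JH_facts h3
  set v : ℝ := (N : ℝ) ^ (-0.01 : ℝ) / 2 with hv
  have hv0 : 0 < v := by positivity
  have h4 : (cN (fun n => ⌊(N : ℝ) ^ (0.99 : ℝ)⌋₊ < T^[JH N] n ∧ n ≤ N) N : ℝ) ≤ cN (Mu v (JH N)) N := by
    refine Nat.cast_le.2 (cN_mono (fun n _ ⟨hn, hnN⟩ => ?_) N)
    have k1 := iter_upper (JH N) n
    have k2 : (N : ℝ) ^ (0.99 : ℝ) < (T^[JH N] n : ℕ) := by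
      have := Nat.lt_floor_add_one ((N : ℝ) ^ (0.99 : ℝ))
      have k3 : ((⌊(N : ℝ) ^ (0.99 : ℝ)⌋₊ : ℕ) : ℝ) + 1 ≤ (T^[JH N] n : ℕ) := by exact_mod_cast hn
      linarith
    have hnR : (n : ℝ) ≤ N := by exact_mod_cast hnN
    have k3 : (N : ℝ) ^ (0.99 : ℝ) / 2 ≤ 3 ^ od (JH N) n / 2 ^ JH N * N := by
      have k4 : (3 : ℝ) ^ od (JH N) n / 2 ^ JH N * n ≤ 3 ^ od (JH N) n / 2 ^ JH N * N :=
        mul_le_mul_of_nonneg_left hnR (by positivity)
      linarith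
    show v ≤ _
    have k5 : v * N = (N : ℝ) ^ (0.99 : ℝ) / 2 := by
      rw [hv]
      have : (N : ℝ) ^ (-0.01 : ℝ) * N = (N : ℝ) ^ (0.99 : ℝ) := by
        nth_rewrite 2 [← Real.rpow_one (N : ℝ)]
        rw [← Real.rpow_add hN0]
        norm_num
      rw [← this]
      ring
    rw [← k5] at k3
    exact le_of_mul_le_mul_right k3 hN0
  refine h4.trans ((cN_rare _ (Mu_per v (JH N)) g4).trans ?_)
  rw [← prq_pow]
  have h5 := pr_Mu hv0 (JH N)
  have h6 : rh ^ JH N ≤ Real.exp 1 * (N : ℝ) ^ (-0.016 : ℝ) := by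
    calc rh ^ JH N ≤ Real.exp (-0.033) ^ JH N := pow_le_pow_left₀ rh_pos.le rh_exp _
      _ = Real.exp (JH N * (-0.033)) := by rw [Real.exp_nat_mul]
      _ ≤ Real.exp (1 + Real.log N * (-0.016)) := by
          apply Real.exp_le_exp.2
          have hL : 0 ≤ Real.log N := Real.log_nonneg hN1
          linarith
      _ = Real.exp 1 * (N : ℝ) ^ (-0.016 : ℝ) := by rw [Real.exp_add, Real.rpow_def_of_pos hN0]
  have h7 : Real.sqrt v = (N : ℝ) ^ (-0.005 : ℝ) / Real.sqrt 2 := by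
    rw [hv, Real.sqrt_div (by positivity)]
    congr 1
    rw [Real.sqrt_eq_rpow, ← Real.rpow_mul hN0.le]
    norm_num
  have h8 : Real.sqrt 2 ≤ 2 := by
    rw [Real.sqrt_le_left (by norm_num)]
    norm_num
  have h9 : rh ^ JH N / Real.sqrt v ≤ 2 * Real.exp 1 * (N : ℝ) ^ (-0.011 : ℝ) := by
    rw [h7, div_div_eq_mul_div, div_le_iff₀ (by positivity)]
    have k1 : (2 : ℝ) * Real.exp 1 * (N : ℝ) ^ (-0.011 : ℝ) * (N : ℝ) ^ (-0.005 : ℝ)
        = 2 * (Real.exp 1 * (N : ℝ) ^ (-0.016 : ℝ)) := by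
      have : (N : ℝ) ^ (-0.016 : ℝ) = (N : ℝ) ^ (-0.011 : ℝ) * (N : ℝ) ^ (-0.005 : ℝ) := by
        rw [← Real.rpow_add hN0]
        norm_num
      rw [this]
      ring
    rw [k1, mul_comm]
    exact mul_le_mul h8 h6 (pow_nonneg rh_pos.le _) (by norm_num)
  have h10 : (N : ℝ) ^ (-0.011 : ℝ) ≤ ε / (4 * Real.exp 1) := by
    have k1 : (N : ℝ) ^ (-0.011 : ℝ) ≤ (N : ℝ) ^ (-0.01 : ℝ) := Real.rpow_le_rpow_of_exponent_le hN1 (by norm_num)
    refine k1.trans ?_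
    rw [Real.rpow_neg hN0.le, inv_le_comm₀ (by positivity) (by positivity), inv_div]
    exact h2
  calc 2 * (N : ℝ) * prq (2 ^ JH N) (Mu v (JH N)) ≤ 2 * N * (2 * Real.exp 1 * (ε / (4 * Real.exp 1))) := by
        apply mul_le_mul_of_nonneg_left _ (by positivity)
        refine h5.trans (h9.trans ?_)
        exact mul_le_mul_of_nonneg_left h10 (by positivity)
    _ = ε * N := by
        have := Real.exp_pos 1
        field_simp
        ring

end Pool.Agent.V11311.ER
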