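import Pool.Agent.V11311.ER.B

/-! Rare patterns along trajectories, part C: the largest climb, upper bound. -/

set_option autoImplicit false

namespace Pool.Agent.V11311.ER

open Finset Filter Topology Pool.Agent.V11311.FP Pool.Agent.V11311.RC Pool.Agent.V11311.SL

open Pool.Agent.V11311.DV (fl fl_card mem_fl)

open Pool.Agent.Helper894.Collatz (T od er od_add iter_eq sum_pow_od)

open Pool.Agent.H377R2 (iter_pos)

/-- the size of climbs that do not occur -/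
noncomputable def lam (e : ℝ) (N : ℕ) : ℝ := 2 + Real.log N ^ (1 + e)

theorem lam_ge (e : ℝ) (N : ℕ) : 2 ≤ lam e N := by
  unfold lam
  have : (0 : ℝ) ≤ Real.log N ^ (1 + e) := Real.rpow_nonneg (Real.log_natCast_nonneg N) _
  linarith

/-- a large climb before the first term `≤ Y` -/
def Cl (e : ℝ) (N Y n : ℕ) : Prop :=
  ∃ i j, i ≤ j ∧ (∀ s, s < j → Y < T^[s] n) ∧ lam e N * (T^[i] n : ℕ) < (T^[j] n : ℕ)

theorem Cl_mono (e : ℝ) (N Y Y' n : ℕ) (h : Y ≤ Y') (hB : Cl e N Y' n) : Cl e N Y n := by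
  obtain ⟨i, j, h1, h2, h3⟩ := hB
  exact ⟨i, j, h1, fun s hs => h.trans_lt (h2 s hs), h3⟩

theorem Cl_ext (e : ℝ) (N Y Y' n z : ℕ) (_ : 0 < n) (h : Y' ≤ Y) (hz : Fp Y n z) (hB : Cl e N Y' z) :
    Cl e N Y' n := by
  obtain ⟨i, j, h1, h2, h3⟩ := hB
  obtain ⟨t, ht1, ht2, ht3⟩ := hz
  refine ⟨i + t, j + t, by omega, fun s hs => ?_, ?_⟩
  · rcases Nat.lt_or_ge s t with h4 | h4
    · exact h.trans_lt (ht3 s h4)
    · obtain ⟨u, rfl⟩ := Nat.exists_eq_add_of_le' h4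
      rw [Function.iterate_add_apply, ht1]
      exact h2 u (by omega)
  · rw [Function.iterate_add_apply, Function.iterate_add_apply, ht1]
    exact h3

theorem Cl_dec (e : ℝ) (N Y Y' n : ℕ) (_ : 0 < n) (_ : Y' ≤ Y) (hB : Cl e N Y' n) :
    Cl e N Y n ∨ ∃ z, Fp Y n z ∧ Cl e N Y' z := by
  obtain ⟨i, j, h1, h2, h3⟩ := hB
  by_cases hc : ∀ s, s < j → Y < T^[s] n
  · exact Or.inl ⟨i, j, h1, hc, h3⟩
  · right
    push Not at hc
    classical
    have hex : ∃ s, T^[s] n ≤ Y := by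
      obtain ⟨s, -, hs⟩ := hc
      exact ⟨s, hs⟩
    set t := Nat.find hex with ht
    have ht1 : T^[t] n ≤ Y := Nat.find_spec hex
    have ht2 : ∀ s, s < t → Y < T^[s] n := fun s hs => not_le.1 (Nat.find_min hex hs)
    have htj : t < j := by
      obtain ⟨s, hs, hs2⟩ := hc
      exact (Nat.find_min' hex hs2).trans_lt hs
    refine ⟨T^[t] n, ⟨t, rfl, ht1, ht2⟩, i - t, j - t, by omega, fun s hs => ?_, ?_⟩
    · rw [← Function.iterate_add_apply]
      exact h2 _ (by omega)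
    · rw [← Function.iterate_add_apply, ← Function.iterate_add_apply, Nat.sub_add_cancel htj.le]
      rcases Nat.lt_or_ge i t with h4 | h4
      · have h5 : i - t + t = t := by omega
        rw [h5]
        refine lt_of_le_of_lt ?_ h3
        apply mul_le_mul_of_nonneg_left _ (by linarith [lam_ge e N])
        exact_mod_cast ht1.trans (ht2 i h4).le
      · rw [Nat.sub_add_cancel h4]
        exact h3

/-- the probability of a large climb, summed over its length -/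
theorem sum_Mu {v θ : ℝ} (hv : 1 ≤ v) (h0 : 0 < θ) (h1 : θ < 1) (J : ℕ) :
    ∑ d ∈ range J, prq (2 ^ d) (Mu v d) ≤ (1 / v) ^ (1 - θ) / (1 - rh ^ θ) := by
  have hr0 : 0 < rh ^ θ := Real.rpow_pos_of_pos rh_pos _
  have hr1 : rh ^ θ < 1 := Real.rpow_lt_one rh_pos.le rh_lt h0
  have hvp : 0 < v := by linarith
  calc ∑ d ∈ range J, prq (2 ^ d) (Mu v d) ≤ ∑ d ∈ range J, (1 / v) ^ (1 - θ) * (rh ^ θ) ^ d := by
        refine sum_le_sum fun d _ => ?_
        have g1 := pr_Mu1 hvp d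
        have g2 : prq (2 ^ d) (Mu v d) ≤ rh ^ d := by
          refine (pr_Mu hvp d).trans (div_le_self (pow_nonneg rh_pos.le _) ?_)
          rwa [Real.one_le_sqrt]
        have g0 : 0 ≤ prq (2 ^ d) (Mu v d) := prq_nonneg _ _
        rcases g0.eq_or_lt with g3 | g3
        · rw [← g3]
          positivity
        · calc prq (2 ^ d) (Mu v d) = prq (2 ^ d) (Mu v d) ^ (1 - θ) * prq (2 ^ d) (Mu v d) ^ θ := by
                rw [← Real.rpow_add g3]
                simp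
            _ ≤ (1 / v) ^ (1 - θ) * (rh ^ d) ^ θ :=
                mul_le_mul (Real.rpow_le_rpow g0 g1 (by linarith)) (Real.rpow_le_rpow g0 g2 h0.le) (by positivity)
                  (by positivity)
            _ = (1 / v) ^ (1 - θ) * (rh ^ θ) ^ d := by
                rw [← Real.rpow_natCast rh d, ← Real.rpow_natCast (rh ^ θ) d, ← Real.rpow_mul rh_pos.le,
                  ← Real.rpow_mul rh_pos.le, mul_comm (d : ℝ)]
    _ = (1 / v) ^ (1 - θ) * ∑ d ∈ range J, (rh ^ θ) ^ d := by rw [mul_sum]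
    _ ≤ (1 / v) ^ (1 - θ) * (1 - rh ^ θ)⁻¹ := by
        apply mul_le_mul_of_nonneg_left _ (by positivity)
        rw [← tsum_geometric_of_lt_one hr0.le hr1]
        exact (summable_geometric_of_lt_one hr0.le hr1).sum_le_tsum _ (fun _ _ => by positivity)
    _ = _ := (div_eq_mul_inv _ _).symm

/-- union bound -/
theorem cN_union {ι : Type*} (S : Finset ι) (A : ℕ → Prop) (E : ι → ℕ → Prop) (N : ℕ)
    (h : ∀ n, 0 < n → n ≤ N → A n → ∃ i ∈ S, E i n) : (cN A N : ℝ) ≤ ∑ i ∈ S, (cN (E i) N : ℝ) := by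
  classical
  have : cN A N ≤ ∑ i ∈ S, cN (E i) N := by
    rw [← fl_card]
    refine (card_le_card (t := S.biUnion fun i => fl (E i) N) ?_).trans (card_biUnion_le.trans (le_of_eq ?_))
    · intro n hn
      rw [mem_fl] at hn
      obtain ⟨i, hi, hE⟩ := h n hn.1.1 hn.1.2 hn.2
      rw [mem_biUnion]
      exact ⟨i, hi, by rw [mem_fl]; exact ⟨hn.1, hE⟩⟩
    · exact sum_congr rfl fun i _ => fl_card _ _
  exact_mod_cast this

/-- one climb -/
theorem climb_Mu {N' i j n : ℕ} {l : ℝ} (hl : 1 ≤ l) (hij : i ≤ j) (hj : j ≤ JH N')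
    (he : 2 * ((JH N' : ℝ) * 2 ^ JH N') ≤ (N' : ℝ) ^ (0.99 : ℝ) - 1)
    (h1 : ∀ s, s < j → ⌊(N' : ℝ) ^ (0.99 : ℝ)⌋₊ < T^[s] n) (h2 : l * (T^[i] n : ℕ) < (T^[j] n : ℕ)) :
    i < j ∧ Mu (l / 2) (j - i) (T^[i] n) := by
  have hne : i < j := by
    rcases hij.eq_or_lt with h | h
    · exfalso
      subst h
      have : (T^[i] n : ℝ) ≤ l * (T^[i] n : ℕ) := le_mul_of_one_le_left (Nat.cast_nonneg _) hl
      linarith
    · exact h
  refine ⟨hne, ?_⟩
  set m := T^[i] n with hm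
  set d := j - i with hd
  have h3 : T^[j] n = T^[d] m := by
    rw [hm, ← Function.iterate_add_apply]
    congr 2
    omega
  rw [h3] at h2
  have h4 := iter_upper d m
  have h5 : (N' : ℝ) ^ (0.99 : ℝ) < m := by
    have k1 := h1 i hne
    have k2 := Nat.lt_floor_add_one ((N' : ℝ) ^ (0.99 : ℝ))
    have k3 : ((⌊(N' : ℝ) ^ (0.99 : ℝ)⌋₊ : ℕ) : ℝ) + 1 ≤ m := by exact_mod_cast k1
    linarith
  have h6 : (d : ℝ) * 2 ^ d ≤ JH N' * 2 ^ JH N' := by
    have k1 : d ≤ JH N' := by omega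
    exact mul_le_mul (by exact_mod_cast k1) (pow_le_pow_right₀ (by norm_num) k1) (by positivity) (by positivity)
  have hm0 : (0 : ℝ) < m := lt_of_le_of_lt (by positivity) h5
  have h7 : l / 2 * (m : ℝ) < 3 ^ od d m / 2 ^ d * m := by
    have k1 : (m : ℝ) ≤ l * m := le_mul_of_one_le_left hm0.le hl
    have k2 : l * (m : ℝ) < 3 ^ od d m / 2 ^ d * m + d * 2 ^ d := lt_of_lt_of_le h2 h4
    linarith
  exact (lt_of_mul_lt_mul_right h7 hm0.le).le

/-- large climbs are rare at the beginning of the trajectories -/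
theorem Cl_hc {e : ℝ} (he : 0 < e) (κ : ℝ) (hκ : 0 < κ) (ε : ℝ) (hε : 0 < ε) : ∀ᶠ N : ℕ in atTop, ∀ N' : ℕ,
    (N : ℝ) ^ κ ≤ N' → N' ≤ N → (cN (Cl e N ⌊(N' : ℝ) ^ (0.99 : ℝ)⌋₊) N' : ℝ) ≤ ε * N' := by
  classical
  set θ : ℝ := (e / 2) / (1 + e) with hθ
  have hθ0 : 0 < θ := by positivity
  have hθ1 : θ < 1 := by
    rw [hθ, div_lt_one (by positivity)]
    linarith
  have hθ2 : (1 + e) * (1 - θ) = 1 + e / 2 := by
    rw [hθ]
    field_simp
    ring
  set C : ℝ := 1 / (1 - rh ^ θ) with hC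
  have hr1 : rh ^ θ < 1 := Real.rpow_lt_one rh_pos.le rh_lt hθ0
  have hC0 : 0 < C := by
    rw [hC]
    exact one_div_pos.2 (by linarith)
  obtain ⟨N0, hN0⟩ := eventually_atTop.1 ((descend (ε / 2) (by positivity)).and er_small)
  have e1 : ∀ᶠ X : ℝ in atTop, 8 * C / ε ≤ X ^ (e / 2) :=
    (tendsto_rpow_atTop (by positivity)).eventually (eventually_ge_atTop _)
  have e2 := (tendsto_rpow_atTop hκ).eventually (eventually_ge_atTop ((N0 : ℝ) + 1))
  have e3 := Real.tendsto_log_atTop.eventually (e1.and (eventually_ge_atTop (2 : ℝ)))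
  filter_upwards [tendsto_natCast_atTop_atTop.eventually (e2.and e3), eventually_ge_atTop 1] with N hN hN1 N' hN1' hN2'
  obtain ⟨f1, f2, f3⟩ := hN
  have hN'0 : N0 ≤ N' ∧ 1 ≤ N' := by
    have h1 : ((N0 + 1 : ℕ) : ℝ) ≤ N' := by
      push_cast
      linarith
    have h2 : N0 + 1 ≤ N' := by exact_mod_cast h1
    omega
  obtain ⟨g1, g2⟩ := hN0 N' hN'0.1
  obtain ⟨j1, j2, j3, j4⟩ := JH_facts hN'0.2
  have hN'R : (1 : ℝ) ≤ N' := by exact_mod_cast hN'0.2
  set L : ℝ := Real.log N with hL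
  have hLL : Real.log N' ≤ L := Real.log_le_log (by linarith) (by exact_mod_cast hN2')
  set v : ℝ := lam e N / 2 with hv
  have hv1 : 1 ≤ v := by
    rw [hv]
    linarith [lam_ge e N]
  set J := JH N' with hJ
  -- the set
  have k1 : (cN (Cl e N ⌊(N' : ℝ) ^ (0.99 : ℝ)⌋₊) N' : ℝ) ≤
      cN (fun n => ⌊(N' : ℝ) ^ (0.99 : ℝ)⌋₊ < T^[J] n ∧ n ≤ N') N' +
      ∑ p ∈ (range (J + 1) ×ˢ range (J + 1)).filter (fun p => p.1 + p.2 ≤ J),
        (cN (fun n => Mu v p.2 (T^[p.1] n)) N' : ℝ) := by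
    have h1 : (cN (Cl e N ⌊(N' : ℝ) ^ (0.99 : ℝ)⌋₊) N' : ℝ) ≤
        cN (fun n => ⌊(N' : ℝ) ^ (0.99 : ℝ)⌋₊ < T^[J] n ∧ n ≤ N') N' +
        cN (fun n => ∃ p ∈ (range (J + 1) ×ˢ range (J + 1)).filter (fun p => p.1 + p.2 ≤ J),
          Mu v p.2 (T^[p.1] n)) N' := by
      have : cN (Cl e N ⌊(N' : ℝ) ^ (0.99 : ℝ)⌋₊) N' ≤
        cN (fun n => ⌊(N' : ℝ) ^ (0.99 : ℝ)⌋₊ < T^[J] n ∧ n ≤ N') N' +
        cN (fun n => ∃ p ∈ (range (J + 1) ×ˢ range (J + 1)).filter (fun p => p.1 + p.2 ≤ J),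
          Mu v p.2 (T^[p.1] n)) N' := by
        rw [← fl_card, ← fl_card, ← fl_card]
        refine (card_le_card ?_).trans (card_union_le _ _)
        intro n hn
        rw [mem_fl] at hn
        rw [mem_union, mem_fl, mem_fl]
        obtain ⟨⟨hn0, hnN⟩, i, j, h1, h2, h3⟩ := hn
        by_cases hJn : ⌊(N' : ℝ) ^ (0.99 : ℝ)⌋₊ < T^[J] n
        · exact Or.inl ⟨⟨hn0, hnN⟩, hJn, hnN⟩
        · right
          have hjJ : j ≤ J := by
            by_contra hcon
            exact hJn (h2 J (by omega))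
          obtain ⟨l1, l2⟩ := climb_Mu (by linarith [lam_ge e N]) h1 hjJ g2 h2 h3
          refine ⟨⟨hn0, hnN⟩, (i, j - i), ?_, l2⟩
          rw [mem_filter, mem_product, mem_range, mem_range]
          refine ⟨⟨?_, ?_⟩, ?_⟩ <;> (try simp only) <;> omega
      exact_mod_cast this
    refine h1.trans ?_
    have h2 := cN_union ((range (J + 1) ×ˢ range (J + 1)).filter (fun p => p.1 + p.2 ≤ J))
      (fun n => ∃ p ∈ (range (J + 1) ×ˢ range (J + 1)).filter (fun p => p.1 + p.2 ≤ J),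
          Mu v p.2 (T^[p.1] n)) (fun p n => Mu v p.2 (T^[p.1] n)) N' (fun n _ _ h => h)
    linarith
  have k2 : ∑ p ∈ (range (J + 1) ×ˢ range (J + 1)).filter (fun p => p.1 + p.2 ≤ J),
        (cN (fun n => Mu v p.2 (T^[p.1] n)) N' : ℝ) ≤
      ∑ p ∈ range (J + 1) ×ˢ range (J + 1), 2 * (N' : ℝ) * prq (2 ^ p.2) (Mu v p.2) := by
    calc _ ≤ ∑ p ∈ (range (J + 1) ×ˢ range (J + 1)).filter (fun p => p.1 + p.2 ≤ J),
          2 * (N' : ℝ) * prq (2 ^ p.2) (Mu v p.2) := by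
          refine sum_le_sum fun p hp => ?_
          rw [mem_filter] at hp
          exact cN_shift (Mu_per v p.2) ((Nat.pow_le_pow_right (by norm_num) hp.2).trans j4)
      _ ≤ _ := sum_le_sum_of_subset_of_nonneg (filter_subset _ _) (fun p _ _ => by
          have := prq_nonneg (2 ^ p.2) (Mu v p.2)
          positivity)
  have k3 : ∑ p ∈ range (J + 1) ×ˢ range (J + 1), 2 * (N' : ℝ) * prq (2 ^ p.2) (Mu v p.2) =
      (J + 1) * (2 * N' * ∑ d ∈ range (J + 1), prq (2 ^ d) (Mu v d)) := by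
    have h1 : ∀ x ∈ range (J + 1), ∑ y ∈ range (J + 1), 2 * (N' : ℝ) * prq (2 ^ y) (Mu v y) =
        2 * N' * ∑ d ∈ range (J + 1), prq (2 ^ d) (Mu v d) := fun _ _ => (mul_sum _ _ _).symm
    rw [sum_product, sum_congr rfl h1, sum_const, card_range, nsmul_eq_mul]
    push_cast
    rfl
  have k4 : ∑ d ∈ range (J + 1), prq (2 ^ d) (Mu v d) ≤ 2 * L ^ (-(1 + e / 2)) * C := by
    refine (sum_Mu hv1 hθ0 hθ1 _).trans ?_
    rw [div_eq_mul_one_div, ← hC]
    apply mul_le_mul_of_nonneg_right _ hC0.le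
    have hL0 : 0 < L := by linarith
    have m1 : 1 / v ≤ 2 * L ^ (-(1 + e)) := by
      rw [Real.rpow_neg hL0.le, hv, div_le_iff₀ (by linarith)]
      have : L ^ (1 + e) ≤ lam e N := by
        unfold lam
        linarith
      have h0 : 0 < L ^ (1 + e) := by positivity
      rw [show 2 * (L ^ (1 + e))⁻¹ * (lam e N / 2) = (L ^ (1 + e))⁻¹ * lam e N by ring, inv_mul_eq_div,
        one_le_div h0]
      exact this
    calc (1 / v) ^ (1 - θ) ≤ (2 * L ^ (-(1 + e))) ^ (1 - θ) :=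
          Real.rpow_le_rpow (by positivity) m1 (by linarith)
      _ = 2 ^ (1 - θ) * L ^ (-(1 + e / 2)) := by
          rw [Real.mul_rpow (by norm_num) (by positivity), ← Real.rpow_mul hL0.le, neg_mul, hθ2]
      _ ≤ 2 * L ^ (-(1 + e / 2)) := by
          apply mul_le_mul_of_nonneg_right _ (by positivity)
          calc (2 : ℝ) ^ (1 - θ) ≤ 2 ^ (1 : ℝ) := Real.rpow_le_rpow_of_exponent_le (by norm_num) (by linarith)
            _ = 2 := Real.rpow_one _
  have k5 : (J : ℝ) + 1 ≤ L := by linarith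
  have hL0 : 0 < L := by linarith
  have k6 : ((J : ℝ) + 1) * (2 * N' * ∑ d ∈ range (J + 1), prq (2 ^ d) (Mu v d)) ≤ ε / 2 * N' := by
    calc ((J : ℝ) + 1) * (2 * N' * ∑ d ∈ range (J + 1), prq (2 ^ d) (Mu v d))
        ≤ L * (2 * N' * (2 * L ^ (-(1 + e / 2)) * C)) := by
          apply mul_le_mul k5 _ (by
            have : 0 ≤ ∑ d ∈ range (J + 1), prq (2 ^ d) (Mu v d) := sum_nonneg fun d _ => prq_nonneg _ _
            positivity) hL0.le
          exact mul_le_mul_of_nonneg_left k4 (by positivity)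
      _ = 4 * C * N' * (L * L ^ (-(1 + e / 2))) := by ring
      _ = 4 * C * N' * (L ^ (e / 2))⁻¹ := by
          congr 1
          nth_rewrite 1 [← Real.rpow_one L]
          rw [← Real.rpow_add hL0, ← Real.rpow_neg hL0.le]
          congr 1
          ring
      _ ≤ 4 * C * N' * (8 * C / ε)⁻¹ := by
          apply mul_le_mul_of_nonneg_left _ (by positivity)
          exact inv_anti₀ (by positivity) f2
      _ = ε / 2 * N' := by
          field_simp
          ring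
  linarith

theorem Cl_rare {e κ : ℝ} (he : 0 < e) (hκ : 0 < κ) (ε : ℝ) (hε : 0 < ε) :
    ∀ᶠ N : ℕ in atTop, (cN (Cl e N (Lv κ N)) N : ℝ) ≤ ε * N :=
  rare (Cl e) (Cl_mono e) (Cl_dec e) (Cl_ext e) (Cl_hc he) hκ ε hε

end Pool.Agent.V11311.ER
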