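import Pool.Agent.V11311.ER.C

/-! Rare patterns along trajectories, part D: many odd steps in a block. -/

set_option autoImplicit false

namespace Pool.Agent.V11311.ER

open Finset Filter Topology Pool.Agent.V11311.FP Pool.Agent.V11311.RC Pool.Agent.V11311.SL

open Pool.Agent.V11311.DV (fl fl_card mem_fl)

open Pool.Agent.Helper894.Collatz (T od er od_add iter_eq sum_pow_od)

open Pool.Agent.H377R2 (iter_pos)

theorem prq_or {Q : ℕ} {A B : ℕ → Prop} (h : ∀ x, A x → ¬ B x) :
    prq Q (fun x => A x ∨ B x) = prq Q A + prq Q B := by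
  classical
  rw [prq_eq, prq_eq, prq_eq, ← add_div, filter_or, card_union_of_disjoint, Nat.cast_add]
  rw [disjoint_filter]
  exact fun x _ => h x

theorem od_per (K j : ℕ) : Per (2 ^ K) (fun x => od K x = j) := by
  intro x
  simp only
  rw [od_mod K x le_rfl]

theorem prq_par (b : ℕ) (hb : b < 2) : prq (2 ^ 1) (fun x => x % 2 = b) = 1 / 2 := by
  classical
  rw [prq_eq]
  have : (range (2 ^ 1)).filter (fun x => x % 2 = b) = {b} := by
    ext x
    simp only [mem_filter, mem_range, mem_singleton]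
    omega
  rw [this, card_singleton]
  norm_num

theorem par_per (b : ℕ) : Per (2 ^ 1) (fun x => x % 2 = b) := by
  intro x
  simp only [pow_one, Nat.mod_mod]

/-- the number of odd steps is binomial -/
theorem od_prob (K j : ℕ) : prq (2 ^ K) (fun x => od K x = j) = K.choose j / 2 ^ K := by
  induction K generalizing j with
  | zero =>
    classical
    rw [prq_eq]
    cases j with
    | zero => simp [od]
    | succ j => simp [od]
  | succ K ih =>
    have key : ∀ (b i : ℕ), b < 2 → prq (2 ^ (K + 1)) (fun x => x % 2 = b ∧ od K (T^[1] x) = i) =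
        1 / 2 * (K.choose i / 2 ^ K) := by
      intro b i hb
      rw [show 2 ^ (K + 1) = 2 ^ 1 * 2 ^ K by ring]
      rw [prod_prq (by positivity) (Nat.Coprime.pow_left _ (by norm_num)) (par_per b) (od_per K i), prq_par b hb, ih]
    have hod : ∀ x, od (K + 1) x = od 1 x + od K (T^[1] x) := by
      intro x
      rw [add_comm K 1, od_add]
    have ho1 : ∀ x, od 1 x = x % 2 := by
      intro x
      simp [od]
    cases j with
    | zero =>
      have h1 : prq (2 ^ (K + 1)) (fun x => od (K + 1) x = 0) =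
          prq (2 ^ (K + 1)) (fun x => x % 2 = 0 ∧ od K (T^[1] x) = 0) := by
        congr 1
        funext x
        rw [hod, ho1]
        apply propext
        omega
      rw [h1, key 0 0 (by norm_num), Nat.choose_zero_right, Nat.choose_zero_right, pow_succ]
      field_simp
    | succ j =>
      have h1 : prq (2 ^ (K + 1)) (fun x => od (K + 1) x = j + 1) =
          prq (2 ^ (K + 1)) (fun x => (x % 2 = 0 ∧ od K (T^[1] x) = j + 1) ∨ (x % 2 = 1 ∧ od K (T^[1] x) = j)) := by
        congr 1
        funext x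
        rw [hod, ho1]
        apply propext
        omega
      rw [h1, prq_or (fun x h h' => by omega), key 0 (j + 1) (by norm_num), key 1 j (by norm_num),
        Nat.choose_succ_succ, pow_succ]
      push_cast
      field_simp
      ring

theorem choose_ratio (m : ℕ) : (4 * (m + 1)).choose (3 * (m + 1)) * ((3 * m + 1) * (3 * m + 2) * (3 * m + 3) * (m + 1)) =
    (4 * m).choose (3 * m) * ((4 * m + 1) * (4 * m + 2) * (4 * m + 3) * (4 * m + 4)) := by
  have h1 := Nat.add_one_mul_choose_eq (4 * m) (3 * m)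
  have h2 := Nat.add_one_mul_choose_eq (4 * m + 1) (3 * m + 1)
  have h3 := Nat.add_one_mul_choose_eq (4 * m + 2) (3 * m + 2)
  have h4 := Nat.choose_mul_succ_eq (4 * m + 3) (3 * m + 3)
  have e1 : 4 * m + 3 + 1 - (3 * m + 3) = m + 1 := by omega
  rw [e1] at h4
  have e2 : 4 * (m + 1) = 4 * m + 3 + 1 := by ring
  have e3 : 3 * (m + 1) = 3 * m + 3 := by ring
  rw [e2, e3]
  set c0 := (4 * m).choose (3 * m)
  set c1 := (4 * m + 1).choose (3 * m + 1)
  set c2 := (4 * m + 1 + 1).choose (3 * m + 1 + 1)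
  set c3 := (4 * m + 2 + 1).choose (3 * m + 2 + 1)
  set c4 := (4 * m + 3 + 1).choose (3 * m + 3)
  have h4' : c3 * (4 * m + 3 + 1) = c4 * (m + 1) := h4
  have h3' : (4 * m + 2 + 1) * c2 = c3 * (3 * m + 2 + 1) := h3
  calc c4 * ((3 * m + 1) * (3 * m + 2) * (3 * m + 3) * (m + 1))
      = (c4 * (m + 1)) * ((3 * m + 1) * (3 * m + 2) * (3 * m + 3)) := by ring
    _ = (c3 * (3 * m + 2 + 1)) * ((4 * m + 4) * (3 * m + 1) * (3 * m + 2)) := by rw [← h4']; ring
    _ = (c2 * (3 * m + 1 + 1)) * ((4 * m + 3) * (4 * m + 4) * (3 * m + 1)) := by rw [← h3']; ring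
    _ = (c1 * (3 * m + 1)) * ((4 * m + 2) * (4 * m + 3) * (4 * m + 4)) := by rw [← h2]; ring
    _ = _ := by rw [← h1]; ring

theorem choose_lower (m : ℕ) : 256 ^ m ≤ (4 * m).choose (3 * m) * 27 ^ m * (4 * m + 1) := by
  induction m with
  | zero => norm_num
  | succ m ih =>
    have h1 := choose_ratio m
    set c := (4 * m).choose (3 * m)
    set c' := (4 * (m + 1)).choose (3 * (m + 1))
    have h2 : 0 < (3 * m + 1) * (3 * m + 2) * (3 * m + 3) * (m + 1) := by positivity
    refine Nat.le_of_mul_le_mul_right ?_ h2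
    have h3 : 256 * ((3 * m + 1) * (3 * m + 2) * (3 * m + 3) * (m + 1)) ≤
        27 * (4 * (m + 1) + 1) * ((4 * m + 2) * (4 * m + 3) * (4 * m + 4)) := by
      ring_nf
      nlinarith [Nat.zero_le m, Nat.zero_le (m^2), Nat.zero_le (m^3), Nat.zero_le (m^4)]
    calc 256 ^ (m + 1) * ((3 * m + 1) * (3 * m + 2) * (3 * m + 3) * (m + 1))
        = 256 ^ m * (256 * ((3 * m + 1) * (3 * m + 2) * (3 * m + 3) * (m + 1))) := by ring
      _ ≤ (c * 27 ^ m * (4 * m + 1)) * (27 * (4 * (m + 1) + 1) * ((4 * m + 2) * (4 * m + 3) * (4 * m + 4))) :=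
          Nat.mul_le_mul ih h3
      _ = (c * ((4 * m + 1) * (4 * m + 2) * (4 * m + 3) * (4 * m + 4))) * (27 ^ m * 27 * (4 * (m + 1) + 1)) := by
          ring
      _ = (c' * ((3 * m + 1) * (3 * m + 2) * (3 * m + 3) * (m + 1))) * (27 ^ m * 27 * (4 * (m + 1) + 1)) := by
          rw [h1]
      _ = c' * 27 ^ (m + 1) * (4 * (m + 1) + 1) * ((3 * m + 1) * (3 * m + 2) * (3 * m + 3) * (m + 1)) := by
          ring

/-- many odd steps -/
theorem suc_prob (m : ℕ) : (16 / 27 : ℝ) ^ m / (4 * m + 1) ≤ prq (2 ^ (4 * m)) (fun x => od (4 * m) x = 3 * m) := by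
  rw [od_prob, div_le_div_iff₀ (by positivity) (by positivity), div_pow, div_mul_eq_mul_div, div_le_iff₀ (by positivity)]
  have h1 := choose_lower m
  have h2 : (256 : ℝ) ^ m ≤ (4 * m).choose (3 * m) * 27 ^ m * (4 * m + 1) := by exact_mod_cast h1
  have h3 : (16 : ℝ) ^ m * 2 ^ (4 * m) = 256 ^ m := by
    rw [pow_mul, ← mul_pow]
    norm_num
  rw [h3]
  linarith

/-- no success in `R` blocks -/
theorem no_suc (L : ℕ) {A : ℕ → Prop} (hA : Per (2 ^ L) A) (R : ℕ) :
    Per (2 ^ (L * R)) (fun x => ∀ r, r < R → ¬ A (T^[L * r] x)) ∧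
    prq (2 ^ (L * R)) (fun x => ∀ r, r < R → ¬ A (T^[L * r] x)) = (1 - prq (2 ^ L) A) ^ R := by
  induction R with
  | zero =>
    refine ⟨fun x => by simp, ?_⟩
    rw [pow_zero]
    have : (fun x => ∀ r, r < 0 → ¬ A (T^[L * r] x)) = fun _ => True := by
      funext x
      simp
    rw [this]
    exact prq_true (by positivity)
  | succ R ih =>
    have h0 : (fun x => ∀ r, r < R + 1 → ¬ A (T^[L * r] x)) =
        fun x => ¬ A x ∧ ∀ r, r < R → ¬ A (T^[L * r] (T^[L] x)) := by
      funext x
      apply propext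
      constructor
      · intro h
        refine ⟨by simpa using h 0 (by omega), fun r hr => ?_⟩
        have := h (r + 1) (by omega)
        rwa [mul_add, mul_one, Function.iterate_add_apply] at this
      · rintro ⟨h1, h2⟩ r hr
        cases r with
        | zero => simpa using h1
        | succ r =>
          rw [mul_add, mul_one, Function.iterate_add_apply]
          exact h2 r (by omega)
    rw [h0]
    have h1 : 2 ^ (L * (R + 1)) = 2 ^ L * 2 ^ (L * R) := by
      rw [← pow_add]
      congr 1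
      ring
    rw [h1]
    refine ⟨Per.and_iter (Per.not hA) ih.1, ?_⟩
    rw [prod_prq (by positivity) (Nat.Coprime.pow_left _ (by norm_num)) (Per.not hA) ih.1, ih.2,
      prq_not (by positivity), pow_succ, mul_comm]

end Pool.Agent.V11311.ER
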