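import Pool.Agent.V11311.ER.D
import Pool.Agent.V11311.SL.F

/-! Rare patterns along trajectories, part E: the largest climb. -/

set_option autoImplicit false

namespace Pool.Agent.V11311.ER

open Finset Filter Topology Pool.Agent.V11311.FP Pool.Agent.V11311.RC Pool.Agent.V11311.SL

open Pool.Agent.V11311.DV (fl fl_card mem_fl)

open Pool.Agent.Helper894.Collatz (T od er od_add iter_eq sum_pow_od)

open Pool.Agent.H377R2 (iter_pos)

theorem half_le (s n : ℕ) : (n : ℝ) / 2 ^ s ≤ (T^[s] n : ℕ) := by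
  refine le_trans ?_ (lower_val s n)
  rw [div_mul_eq_mul_div]
  apply div_le_div_of_nonneg_right _ (by positivity)
  exact le_mul_of_one_le_left (Nat.cast_nonneg _) (one_le_pow₀ (by norm_num))

/-- the terms of the beginning are above `n ^ κ` -/
theorem above {κ : ℝ} (hκ1 : κ < 1) {N n K : ℕ} (hn : 0 < n) (h1 : Real.sqrt N ≤ n) (hN : 3 ≤ N)
    (hK : (K : ℝ) ≤ (1 - κ) / 2 * Real.log N) (s : ℕ) (hs : s ≤ K) : (n : ℝ) ^ κ < (T^[s] n : ℕ) := by
  have hNR : (3 : ℝ) ≤ N := by exact_mod_cast hN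
  have hn0 : (0 : ℝ) < n := by exact_mod_cast hn
  have hL : 0 < Real.log N := Real.log_pos (by linarith)
  have hl2 : Real.log 2 < 1 := by have := Real.log_two_lt_d9; linarith
  have hl2' : 0 < Real.log 2 := Real.log_pos (by norm_num)
  have h2 : Real.log N / 2 ≤ Real.log n := by
    rw [← Real.log_sqrt (by positivity)]
    exact Real.log_le_log (Real.sqrt_pos.2 (by linarith)) h1
  have h3 : (2 : ℝ) ^ s < (n : ℝ) ^ (1 - κ) := by
    rw [Real.rpow_def_of_pos hn0, ← Real.exp_log (show (0 : ℝ) < 2 by norm_num), ← Real.exp_nat_mul]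
    apply Real.exp_lt_exp.2
    have g1 : (s : ℝ) ≤ K := by exact_mod_cast hs
    have g2 : (s : ℝ) * Real.log 2 ≤ (1 - κ) / 2 * Real.log N * Real.log 2 :=
      mul_le_mul_of_nonneg_right (g1.trans hK) hl2'.le
    have g3 : (1 - κ) / 2 * Real.log N * Real.log 2 < (1 - κ) / 2 * Real.log N * 1 :=
      mul_lt_mul_of_pos_left hl2 (by
        have : 0 < 1 - κ := by linarith
        positivity)
    have g4 : (1 - κ) * (Real.log N / 2) ≤ (1 - κ) * Real.log n := mul_le_mul_of_nonneg_left h2 (by linarith)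
    linarith
  refine lt_of_lt_of_le ?_ (half_le s n)
  rw [lt_div_iff₀ (by positivity)]
  calc (n : ℝ) ^ κ * 2 ^ s < (n : ℝ) ^ κ * (n : ℝ) ^ (1 - κ) := mul_lt_mul_of_pos_left h3 (by positivity)
    _ = n := by
        rw [← Real.rpow_add hn0]
        simp

/-- a climb by the factor `(log n)^(1-e)` -/
def Up (e κ : ℝ) (n : ℕ) : Prop :=
  ∃ i j, i ≤ j ∧ (∀ s, s ≤ j → (n : ℝ) ^ κ < (T^[s] n : ℕ)) ∧
    Real.log n ^ (1 - e) * (T^[i] n : ℕ) < (T^[j] n : ℕ)

theorem g_bd : 1 / 2 < Real.log (27 / 16) ∧ Real.log (27 / 16) < 1 := by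
  constructor
  · rw [Real.lt_log_iff_exp_lt (by norm_num)]
    have h1 : Real.exp (1 / 2) ^ 2 = Real.exp 1 := by
      rw [← Real.exp_nat_mul]
      norm_num
    have h2 := Real.exp_one_lt_d9
    have h3 := Real.exp_pos (1 / 2)
    by_contra hcon
    push Not at hcon
    nlinarith
  · rw [Real.log_lt_iff_lt_exp (by norm_num)]
    have := Real.exp_one_gt_d9
    linarith

theorem Up_rare {e κ : ℝ} (he : 0 < e) (he1 : e < 1) (hκ0 : 0 < κ) (hκ1 : κ < 1) (ε : ℝ) (hε : 0 < ε) :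
    ∀ᶠ N : ℕ in atTop, (cN (fun n => Real.sqrt N ≤ n ∧ n ≤ N ∧ ¬ Up e κ n) N : ℝ) ≤ ε * N := by
  obtain ⟨g1, g2⟩ := g_bd
  set g := Real.log (27 / 16) with hg
  have hc : 0 < (1 - κ) / 2 := by linarith
  -- conditions on Λ = log N
  have e1 : ∀ᶠ X : ℝ in atTop, 8 * Real.log X + 5 ≤ X ^ (e / 4) := by
    have h1 : ∀ᶠ X : ℝ in atTop, ‖Real.log X‖ ≤ (1 / 16) * ‖X ^ (e / 4)‖ :=
      (isLittleO_log_rpow_atTop (by positivity : (0 : ℝ) < e / 4)).bound (by norm_num)
    have h2 : ∀ᶠ X : ℝ in atTop, (10 : ℝ) ≤ X ^ (e / 4) :=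
      (tendsto_rpow_atTop (by positivity)).eventually (eventually_ge_atTop _)
    filter_upwards [h1, h2, eventually_ge_atTop (1 : ℝ)] with X h1 h2 h3
    rw [Real.norm_of_nonneg (Real.log_nonneg h3), Real.norm_of_nonneg (by positivity)] at h1
    linarith
  have e2 : ∀ᶠ X : ℝ in atTop, 4 / (1 - κ) ≤ X ^ (1 - e / 4) :=
    (tendsto_rpow_atTop (by linarith)).eventually (eventually_ge_atTop _)
  have e3 : ∀ᶠ X : ℝ in atTop, Real.log (2 / ε) * (27 / 16) * (4 / (1 - κ)) ≤ X ^ (e / 2) :=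
    (tendsto_rpow_atTop (by linarith)).eventually (eventually_ge_atTop _)
  have e4 := Real.tendsto_log_atTop.eventually (e1.and (e2.and (e3.and (eventually_ge_atTop (3 : ℝ)))))
  filter_upwards [tendsto_natCast_atTop_atTop.eventually e4, eventually_ge_atTop 3] with N hN hN3
  obtain ⟨f1, f2, f3, f4⟩ := hN
  set Λ := Real.log N with hΛ
  have hΛ0 : 0 < Λ := by linarith
  have hℓ : 0 < Real.log Λ := Real.log_pos (by linarith)
  set ℓ := Real.log Λ with hℓd
  set m : ℕ := ⌊(1 - e) * ℓ / g⌋₊ + 1 with hm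
  have hm1 : (m : ℝ) ≤ (1 - e) * ℓ / g + 1 := by
    rw [hm]
    push_cast
    have := Nat.floor_le (show 0 ≤ (1 - e) * ℓ / g by
      have : 0 < 1 - e := by linarith
      positivity)
    linarith
  have hm2 : (1 - e) * ℓ / g < m := by
    rw [hm]
    push_cast
    exact Nat.lt_floor_add_one _
  have hg0 : 0 < g := by linarith
  have hm3 : (1 - e) * ℓ < m * g := by rwa [div_lt_iff₀ hg0] at hm2
  have hm4 : (m : ℝ) * g ≤ (1 - e) * ℓ + g := by
    have := mul_le_mul_of_nonneg_right hm1 hg0.le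
    rwa [add_mul, one_mul, div_mul_cancel₀ _ hg0.ne'] at this
  have hm5 : 4 * (m : ℝ) + 1 ≤ Λ ^ (e / 4) := by
    refine le_trans ?_ f1
    have h1 : (1 - e) * ℓ / g ≤ 2 * ℓ := by
      rw [div_le_iff₀ hg0]
      nlinarith
    linarith
  have hm0 : 0 < m := by omega
  set L := 4 * m with hL
  have hLR : (L : ℝ) = 4 * m := by rw [hL]; push_cast; ring
  have hL0 : (0 : ℝ) < L := by
    rw [hLR]
    positivity
  set R : ℕ := ⌊(1 - κ) / 2 * Λ / L⌋₊ with hR
  have hR1 : ((L * R : ℕ) : ℝ) ≤ (1 - κ) / 2 * Λ := by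
    have h1 : (R : ℝ) ≤ (1 - κ) / 2 * Λ / L := Nat.floor_le (by positivity)
    rw [le_div_iff₀ hL0] at h1
    push_cast
    linarith
  have hR2 : (1 - κ) / 2 * Λ / L < R + 1 := Nat.lt_floor_add_one _
  have hNR : (3 : ℝ) ≤ N := by exact_mod_cast hN3
  -- lengths
  have hA := od_per (4 * m) (3 * m)
  obtain ⟨hP1, hP2⟩ := no_suc L hA R
  have hpow : 2 ^ (L * R) ≤ N := by
    · have h1 : (2 : ℝ) ^ (L * R) ≤ N := by
        rw [← Real.exp_log (show (0 : ℝ) < 2 by norm_num), ← Real.exp_nat_mul, ← Real.exp_log (show (0 : ℝ) < N by linarith)]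
        apply Real.exp_le_exp.2
        have hl2 : Real.log 2 < 1 := by have := Real.log_two_lt_d9; linarith
        have hl2' : 0 < Real.log 2 := Real.log_pos (by norm_num)
        have k1 : ((L * R : ℕ) : ℝ) * Real.log 2 ≤ (1 - κ) / 2 * Λ * 1 :=
          mul_le_mul hR1 hl2.le hl2'.le (by positivity)
        rw [← hΛ]
        nlinarith
      exact_mod_cast h1
  have hcn : (cN (fun n => Real.sqrt N ≤ n ∧ n ≤ N ∧ ¬ Up e κ n) N : ℝ) ≤
      cN (fun x => ∀ r, r < R → ¬ (od (4 * m) (T^[L * r] x) = 3 * m)) N := by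
    refine Nat.cast_le.2 (cN_mono (fun n hn ⟨h1, h1', h2⟩ r hr hs => h2 ?_) N)
    have hab := above hκ1 hn h1 hN3 hR1
    have hj : L * r + L ≤ L * R := by
      calc L * r + L = L * (r + 1) := by ring
        _ ≤ L * R := Nat.mul_le_mul_left _ hr
    refine ⟨L * r, L * r + L, by omega, fun s hs => hab s (by omega), ?_⟩
    have h3 : T^[L * r + L] n = T^[L] (T^[L * r] n) := by
      rw [add_comm, Function.iterate_add_apply]
    rw [h3]
    have h4 := lower_val L (T^[L * r] n)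
    rw [hL] at h4 ⊢
    rw [hs] at h4
    refine lt_of_lt_of_le ?_ h4
    have h5 : (0 : ℝ) < (T^[4 * m * r] n : ℕ) := by
      exact_mod_cast iter_pos hn _
    apply mul_lt_mul_of_pos_right _ h5
    have h6 : (3 : ℝ) ^ (3 * m) / 2 ^ (4 * m) = Real.exp (m * g) := by
      rw [pow_mul, pow_mul, ← div_pow, Real.exp_nat_mul, hg, Real.exp_log (by norm_num)]
      norm_num
    rw [h6]
    have hnR : (n : ℝ) ≤ N := by exact_mod_cast h1'
    have hn0 : (1 : ℝ) ≤ n := by exact_mod_cast hn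
    calc Real.log n ^ (1 - e) ≤ Λ ^ (1 - e) :=
          Real.rpow_le_rpow (Real.log_nonneg hn0) (Real.log_le_log (by linarith) hnR) (by linarith)
      _ = Real.exp ((1 - e) * ℓ) := by rw [Real.rpow_def_of_pos hΛ0, mul_comm]
      _ < Real.exp (m * g) := Real.exp_lt_exp.2 hm3
  refine hcn.trans ((cN_rare _ hP1 hpow).trans ?_)
  rw [← prq_pow, hP2]
  set q := prq (2 ^ L) (fun x => od (4 * m) x = 3 * m) with hq
  have hq1 : q ≤ 1 := prq_le_one _ _
  have hq0 : (16 / 27 : ℝ) ^ m / (4 * m + 1) ≤ q := suc_prob m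
  have hq2 : 16 / 27 * Λ ^ (-(1 - e) - e / 4) ≤ q := by
    refine le_trans ?_ hq0
    rw [le_div_iff₀ (by positivity)]
    have k1 : (16 / 27 : ℝ) ^ m = Real.exp (-(m * g)) := by
      rw [Real.exp_neg, Real.exp_nat_mul, hg, Real.exp_log (by norm_num), ← inv_pow]
      norm_num
    have k2 : 16 / 27 * Λ ^ (-(1 - e)) ≤ (16 / 27 : ℝ) ^ m := by
      rw [k1, Real.rpow_def_of_pos hΛ0]
      have k3 : (16 / 27 : ℝ) = Real.exp (-g) := by
        rw [Real.exp_neg, hg, Real.exp_log (by norm_num)]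
        norm_num
      nth_rewrite 1 [k3]
      rw [← Real.exp_add]
      apply Real.exp_le_exp.2
      rw [← hℓd]
      linarith
    calc 16 / 27 * Λ ^ (-(1 - e) - e / 4) * (4 * m + 1) ≤ 16 / 27 * Λ ^ (-(1 - e) - e / 4) * Λ ^ (e / 4) :=
          mul_le_mul_of_nonneg_left hm5 (by positivity)
      _ = 16 / 27 * Λ ^ (-(1 - e)) := by
          rw [mul_assoc, ← Real.rpow_add hΛ0]
          congr 2
          ring
      _ ≤ _ := k2
  have hR3 : (1 - κ) / 4 * Λ ^ (1 - e / 4) ≤ R := by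
    have k1 : (1 - κ) / 2 * Λ ^ (1 - e / 4) ≤ (1 - κ) / 2 * Λ / L := by
      rw [le_div_iff₀ hL0, hLR]
      have k2 : 4 * (m : ℝ) ≤ Λ ^ (e / 4) := by linarith
      calc (1 - κ) / 2 * Λ ^ (1 - e / 4) * (4 * m) ≤ (1 - κ) / 2 * Λ ^ (1 - e / 4) * Λ ^ (e / 4) :=
            mul_le_mul_of_nonneg_left k2 (by positivity)
        _ = (1 - κ) / 2 * Λ := by
            rw [mul_assoc, ← Real.rpow_add hΛ0]
            simp
    have k3 : 1 ≤ (1 - κ) / 4 * Λ ^ (1 - e / 4) := by
      have : 0 < 1 - κ := by linarith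
      calc (1 : ℝ) = (1 - κ) / 4 * (4 / (1 - κ)) := by field_simp
        _ ≤ _ := mul_le_mul_of_nonneg_left f2 (by positivity)
    linarith
  have hqR : Real.log (2 / ε) ≤ q * R := by
    calc Real.log (2 / ε) = 16 / 27 * ((1 - κ) / 4) * (Real.log (2 / ε) * (27 / 16) * (4 / (1 - κ))) := by
          have : (1 - κ) ≠ 0 := by linarith
          field_simp
      _ ≤ 16 / 27 * ((1 - κ) / 4) * Λ ^ (e / 2) := mul_le_mul_of_nonneg_left f3 (by
          have : 0 < 1 - κ := by linarith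
          positivity)
      _ = 16 / 27 * Λ ^ (-(1 - e) - e / 4) * ((1 - κ) / 4 * Λ ^ (1 - e / 4)) := by
          have : Λ ^ (e / 2) = Λ ^ (-(1 - e) - e / 4) * Λ ^ (1 - e / 4) := by
            rw [← Real.rpow_add hΛ0]
            congr 1
            ring
          rw [this]
          ring
      _ ≤ q * R := mul_le_mul hq2 hR3 (by
          have : 0 < 1 - κ := by linarith
          positivity) (prq_nonneg _ _)
  have hfin : (1 - q) ^ R ≤ ε / 2 := by
    calc (1 - q) ^ R ≤ Real.exp (-q) ^ R := by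
          apply pow_le_pow_left₀ (by linarith)
          have := Real.add_one_le_exp (-q)
          linarith
      _ = Real.exp (-(q * R)) := by
          rw [← Real.exp_nat_mul]
          congr 1
          ring
      _ ≤ Real.exp (-Real.log (2 / ε)) := Real.exp_le_exp.2 (by linarith)
      _ = ε / 2 := by
          rw [Real.exp_neg, Real.exp_log (by positivity), inv_div]
  calc 2 * (N : ℝ) * (1 - q) ^ R ≤ 2 * N * (ε / 2) := mul_le_mul_of_nonneg_left hfin (by positivity)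
    _ = ε * N := by ring

end Pool.Agent.V11311.ER
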