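import Pool.Agent.V11311.ER.F

/-! Rare patterns along trajectories, part G: entropy bounds. -/

set_option autoImplicit false

namespace Pool.Agent.V11311.ER

open Finset Filter Topology Pool.Agent.V11311.FP Pool.Agent.V11311.RC Pool.Agent.V11311.SL

open Pool.Agent.V11311.DV (fl fl_card mem_fl)

open Pool.Agent.Helper894.Collatz (T od er od_add iter_eq sum_pow_od)

open Pool.Agent.H377R2 (iter_pos)

theorem prq_union {ι : Type*} (S : Finset ι) (A : ℕ → Prop) (E : ι → ℕ → Prop) (Q : ℕ)
    (h : ∀ n, A n → ∃ i ∈ S, E i n) : prq Q A ≤ ∑ i ∈ S, prq Q (E i) := by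
  classical
  have h1 : ((range Q).filter A).card ≤ ∑ i ∈ S, ((range Q).filter (E i)).card := by
    refine (card_le_card (t := S.biUnion fun i => (range Q).filter (E i)) fun n hn => ?_).trans card_biUnion_le
    rw [mem_filter] at hn
    obtain ⟨i, hi, hE⟩ := h n hn.2
    rw [mem_biUnion]
    exact ⟨i, hi, by rw [mem_filter]; exact ⟨hn.1, hE⟩⟩
  rw [prq_eq]
  simp only [prq_eq]
  rw [← sum_div]
  apply div_le_div_of_nonneg_right _ (Nat.cast_nonneg Q)
  exact_mod_cast h1

/-- the rate of large deviations of the number of odd steps -/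
noncomputable def rt (θ : ℝ) : ℝ := Real.log 2 - Real.binEntropy θ

theorem exp_ent {θ : ℝ} (h0 : 0 < θ) (h1 : θ < 1) (k : ℕ) :
    Real.exp (k * Real.binEntropy θ) = (1 + θ / (1 - θ)) ^ k / (θ / (1 - θ)) ^ (θ * k) := by
  have h1θ : 0 < 1 - θ := by linarith
  set t := θ / (1 - θ) with ht
  have ht0 : 0 < t := by positivity
  have hpos : 0 < t ^ (θ * k) := by positivity
  rw [eq_div_iff hpos.ne']
  rw [Real.binEntropy_eq_negMulLog_add_negMulLog_one_sub]
  unfold Real.negMulLog
  have hl1 : Real.log t = Real.log θ - Real.log (1 - θ) := by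
    rw [ht, Real.log_div h0.ne' h1θ.ne']
  have hl2 : Real.log (1 + t) = - Real.log (1 - θ) := by
    have : 1 + t = (1 - θ)⁻¹ := by rw [ht]; field_simp; ring
    rw [this, Real.log_inv]
  rw [← Real.exp_log hpos, Real.log_rpow ht0, ← Real.exp_add]
  rw [← Real.exp_log (show 0 < (1 + t) ^ k by positivity), Real.log_pow]
  congr 1
  rw [hl1, hl2]
  ring

theorem od_le' (k x : ℕ) : od k x ≤ k := by
  unfold od
  calc ∑ i ∈ range k, (T^[i] x) % 2 ≤ ∑ _i ∈ range k, 1 := sum_le_sum fun i _ => by omega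
    _ = k := by simp

/-- Chernoff's bound -/
theorem chern {θ : ℝ} (h0 : 1 / 2 < θ) (h1 : θ ≤ 1) (k : ℕ) :
    prq (2 ^ k) (fun x => θ * k ≤ od k x) ≤ Real.exp (-(rt θ * k)) := by
  classical
  have hexp : Real.exp (-(rt θ * k)) = Real.exp (k * Real.binEntropy θ) / 2 ^ k := by
    rw [rt, show -((Real.log 2 - Real.binEntropy θ) * k) = k * Real.binEntropy θ - k * Real.log 2 by ring,
      Real.exp_sub, Real.exp_nat_mul (Real.log 2), Real.exp_log (by norm_num)]
  rw [hexp]
  rcases h1.lt_or_eq with h1 | h1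
  · have h1θ : 0 < 1 - θ := by linarith
    rw [exp_ent (by linarith) h1]
    set t := θ / (1 - θ) with ht
    have ht1 : 1 < t := by rw [ht, one_lt_div h1θ]; linarith
    have ht0 : 0 < t := by linarith
    refine (prq_union (range (k + 1)) _ (fun j x => θ * k ≤ j ∧ od k x = j) _ (fun x hx => ?_)).trans ?_
    · exact ⟨od k x, mem_range.2 (Nat.lt_succ_of_le (od_le' k x)), hx, rfl⟩
    · calc ∑ j ∈ range (k + 1), prq (2 ^ k) (fun x => θ * k ≤ j ∧ od k x = j)
          ≤ ∑ j ∈ range (k + 1), (t ^ j * k.choose j) / (2 ^ k * t ^ (θ * k)) := by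
            refine sum_le_sum fun j _ => ?_
            by_cases hj : θ * k ≤ j
            · refine (prq_mono (B := fun x => od k x = j) (fun x hx => hx.2)).trans ?_
              rw [od_prob, div_le_div_iff₀ (by positivity) (by positivity)]
              have : t ^ (θ * k) ≤ t ^ j := by
                rw [← Real.rpow_natCast]
                exact Real.rpow_le_rpow_of_exponent_le ht1.le hj
              calc (k.choose j : ℝ) * (2 ^ k * t ^ (θ * k)) ≤ k.choose j * (2 ^ k * t ^ j) := by
                    apply mul_le_mul_of_nonneg_left _ (Nat.cast_nonneg _)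
                    exact mul_le_mul_of_nonneg_left this (by positivity)
                _ = t ^ j * k.choose j * 2 ^ k := by ring
            · have : prq (2 ^ k) (fun x => θ * k ≤ j ∧ od k x = j) = 0 := by
                rw [prq_eq]
                rw [filter_false_of_mem]
                · simp
                · rintro x - ⟨h, -⟩
                  exact hj h
              rw [this]
              positivity
        _ = (1 + t) ^ k / t ^ (θ * k) / 2 ^ k := by
            rw [← sum_div]
            have h2 : ∑ j ∈ range (k + 1), t ^ j * (k.choose j : ℝ) = (1 + t) ^ k := by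
              rw [add_comm 1 t, add_pow]
              exact sum_congr rfl fun j _ => by rw [one_pow, mul_one]
            rw [h2, div_div, mul_comm (2 ^ k : ℝ)]
  · subst h1
    rw [Real.binEntropy_one, mul_zero, Real.exp_zero]
    refine (prq_mono (B := fun x => od k x = k) (fun x hx => ?_)).trans ?_
    · rw [one_mul] at hx
      have h2 : k ≤ od k x := by exact_mod_cast hx
      exact le_antisymm (od_le' k x) h2
    · rw [od_prob, Nat.choose_self, Nat.cast_one]

/-- the mode of the binomial distribution -/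
theorem mode_up {m j : ℕ} (hj : j < m) (d : ℕ) (hd : d ≤ j) :
    m.choose (j - d) * j ^ (j - d) * (m - j) ^ (m - (j - d)) ≤ m.choose j * j ^ j * (m - j) ^ (m - j) := by
  induction d with
  | zero => simp
  | succ d ih =>
    refine le_trans ?_ (ih (by omega))
    obtain ⟨i, hi⟩ : ∃ i, j - d = i + 1 := ⟨j - d - 1, by omega⟩
    have hi' : j - (d + 1) = i := by omega
    rw [hi, hi']
    have h1 := Nat.choose_succ_right_eq m i
    have h2 : m - i = m - (i + 1) + 1 := by omega
    obtain ⟨b, hb⟩ : ∃ b, m = j + b ∧ 0 < b := ⟨m - j, by omega, by omega⟩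
    obtain ⟨hb, hb0⟩ := hb
    have hmj : m - j = b := by omega
    rw [hmj, h2, pow_succ b, pow_succ j]
    refine Nat.le_of_mul_le_mul_right (c := i + 1) ?_ (by omega)
    have h3 : (i + 1) * b ≤ (m - i) * j := by
      obtain ⟨c, hc⟩ : ∃ c, j = i + 1 + c := ⟨j - (i + 1), by omega⟩
      have h4 : m - i = 1 + c + b := by omega
      rw [h4, hc]
      nlinarith [Nat.zero_le ((1 + c) * (i + 1 + c)), Nat.zero_le (b * c)]
    calc m.choose i * j ^ i * (b ^ (m - (i + 1)) * b) * (i + 1)
        = m.choose i * j ^ i * b ^ (m - (i + 1)) * ((i + 1) * b) := by ring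
      _ ≤ m.choose i * j ^ i * b ^ (m - (i + 1)) * ((m - i) * j) := Nat.mul_le_mul_left _ h3
      _ = (m.choose i * (m - i)) * (j ^ i * j) * b ^ (m - (i + 1)) := by ring
      _ = (m.choose (i + 1) * (i + 1)) * (j ^ i * j) * b ^ (m - (i + 1)) := by rw [← h1]
      _ = _ := by ring

theorem mode_down {m j : ℕ} (hj : j < m) (hj0 : 0 < j) (d : ℕ) (hd : j + d ≤ m) :
    m.choose (j + d) * j ^ (j + d) * (m - j) ^ (m - (j + d)) ≤ m.choose j * j ^ j * (m - j) ^ (m - j) := by
  induction d with
  | zero => simp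
  | succ d ih =>
    refine le_trans ?_ (ih (by omega))
    set i := j + d with hi
    have hi' : j + (d + 1) = i + 1 := by omega
    rw [hi']
    have h1 := Nat.choose_succ_right_eq m i
    have h2 : m - i = m - (i + 1) + 1 := by omega
    obtain ⟨b, hb⟩ : ∃ b, m = j + b ∧ 0 < b := ⟨m - j, by omega, by omega⟩
    obtain ⟨hb, hb0⟩ := hb
    have hmj : m - j = b := by omega
    rw [hmj, h2, pow_succ b, pow_succ j]
    refine Nat.le_of_mul_le_mul_right (c := i + 1) ?_ (by omega)
    have h3 : (m - i) * j ≤ (i + 1) * b := by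
      obtain ⟨c, hc⟩ : ∃ c, b = c + d := ⟨b - d, by omega⟩
      have h4 : m - i = c := by omega
      rw [h4, hc, hi]
      nlinarith [Nat.zero_le (j * d), Nat.zero_le (c * (d + 1)), Nat.zero_le ((d + 1) * d)]
    calc m.choose (i + 1) * (j ^ i * j) * b ^ (m - (i + 1)) * (i + 1)
        = (m.choose (i + 1) * (i + 1)) * (j ^ i * j) * b ^ (m - (i + 1)) := by ring
      _ = (m.choose i * (m - i)) * (j ^ i * j) * b ^ (m - (i + 1)) := by rw [h1]
      _ = m.choose i * j ^ i * b ^ (m - (i + 1)) * ((m - i) * j) := by ring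
      _ ≤ m.choose i * j ^ i * b ^ (m - (i + 1)) * ((i + 1) * b) := Nat.mul_le_mul_left _ h3
      _ = _ := by ring

theorem mode_bd {m j : ℕ} (hj : j < m) (hj0 : 0 < j) :
    m ^ m ≤ (m + 1) * (m.choose j * j ^ j * (m - j) ^ (m - j)) := by
  have h1 : m ^ m = ∑ i ∈ range (m + 1), j ^ i * (m - j) ^ (m - i) * m.choose i := by
    conv_lhs => rw [show m ^ m = (j + (m - j)) ^ m by rw [Nat.add_sub_cancel' hj.le]]
    rw [add_pow]
    exact sum_congr rfl fun i _ => by simp
  rw [h1]
  calc ∑ i ∈ range (m + 1), j ^ i * (m - j) ^ (m - i) * m.choose i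
      ≤ ∑ _i ∈ range (m + 1), m.choose j * j ^ j * (m - j) ^ (m - j) := by
        refine sum_le_sum fun i hi => ?_
        rw [mem_range] at hi
        have h2 : j ^ i * (m - j) ^ (m - i) * m.choose i = m.choose i * j ^ i * (m - j) ^ (m - i) := by ring
        rw [h2]
        rcases Nat.le_total i j with h | h
        · have := mode_up hj (j - i) (by omega)
          rwa [Nat.sub_sub_self h] at this
        · have := mode_down hj hj0 (i - j) (by omega)
          rwa [Nat.add_sub_cancel' h] at this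
    _ = _ := by rw [sum_const, card_range, smul_eq_mul]

/-- lower bound for binomial coefficients -/
theorem choose_ent {m j : ℕ} (hj : j < m) (hj0 : 0 < j) :
    Real.exp (m * Real.binEntropy (j / m)) ≤ (m + 1) * m.choose j := by
  have h1 := mode_bd hj hj0
  have hm : (0 : ℝ) < m := by
    have : 0 < m := by omega
    exact_mod_cast this
  have hjR : (0 : ℝ) < j := by exact_mod_cast hj0
  obtain ⟨b, hb⟩ : ∃ b, m = j + b ∧ 0 < b := ⟨m - j, by omega, by omega⟩
  obtain ⟨hb, hb0⟩ := hb
  have hmj : m - j = b := by omega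
  rw [hmj] at h1
  have hbR : (0 : ℝ) < b := by exact_mod_cast hb0
  have hmR : (m : ℝ) = j + b := by rw [hb]; push_cast; ring
  have h2 : (m : ℝ) ^ m ≤ (m + 1) * (m.choose j * j ^ j * b ^ b) := by exact_mod_cast h1
  have h3 : Real.exp (m * Real.binEntropy (j / m)) * ((j : ℝ) ^ j * b ^ b) = (m : ℝ) ^ m := by
    have e1 : (j : ℝ) ^ j = Real.exp (j * Real.log j) := by rw [Real.exp_nat_mul, Real.exp_log hjR]
    have e2 : (b : ℝ) ^ b = Real.exp (b * Real.log b) := by rw [Real.exp_nat_mul, Real.exp_log hbR]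
    have e3 : (m : ℝ) ^ m = Real.exp (m * Real.log m) := by rw [Real.exp_nat_mul, Real.exp_log hm]
    rw [e1, e2, e3, ← Real.exp_add, ← Real.exp_add]
    congr 1
    rw [Real.binEntropy_eq_negMulLog_add_negMulLog_one_sub]
    unfold Real.negMulLog
    have e4 : 1 - (j : ℝ) / m = b / m := by
      rw [eq_div_iff hm.ne', sub_mul, div_mul_cancel₀ _ hm.ne', hmR]
      ring
    rw [e4, Real.log_div hjR.ne' hm.ne', Real.log_div hbR.ne' hm.ne']
    field_simp
    rw [hmR]
    ring
  rw [← h3] at h2
  have h4 : (0 : ℝ) < (j : ℝ) ^ j * b ^ b := by positivity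
  refine le_of_mul_le_mul_right ?_ h4
  calc Real.exp (m * Real.binEntropy (j / m)) * ((j : ℝ) ^ j * b ^ b) ≤ (m + 1) * (m.choose j * j ^ j * b ^ b) := h2
    _ = (m + 1) * m.choose j * ((j : ℝ) ^ j * b ^ b) := by ring

/-- lower bound for the tail -/
theorem tail_low {θ : ℝ} (h0 : 1 / 2 < θ) (h1 : θ ≤ 1) (δ : ℝ) (hδ : 0 < δ) : ∀ᶠ m : ℕ in atTop,
    Real.exp (-((rt θ + δ) * m)) ≤ m.choose ⌈θ * m⌉₊ / 2 ^ m := by
  have hexp : ∀ m : ℕ, Real.exp (-((rt θ + δ) * m)) = Real.exp (m * (Real.binEntropy θ - δ)) / 2 ^ m := by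
    intro m
    rw [rt, show -((Real.log 2 - Real.binEntropy θ + δ) * m) = m * (Real.binEntropy θ - δ) - m * Real.log 2 by ring,
      Real.exp_sub, Real.exp_nat_mul (Real.log 2), Real.exp_log (by norm_num)]
  rcases h1.lt_or_eq with h1 | h1
  · have t1 : Tendsto (fun m : ℕ => ((⌈θ * m⌉₊ : ℕ) : ℝ) / m) atTop (𝓝 θ) :=
      (tendsto_nat_ceil_mul_div_atTop (by linarith)).comp tendsto_natCast_atTop_atTop
    have t2 := (Real.binEntropy_continuous.tendsto θ).comp t1
    have e1 := t2.eventually (lt_mem_nhds (show Real.binEntropy θ - δ / 2 < Real.binEntropy θ by linarith))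
    have e2 := t1.eventually (gt_mem_nhds h1)
    have e3 : ∀ᶠ m : ℕ in atTop, (m : ℝ) + 1 ≤ Real.exp (δ / 2 * m) := by
      have : ∀ᶠ x : ℝ in atTop, x + 1 ≤ Real.exp (δ / 2 * x) := by
        have h2 : ∀ᶠ x : ℝ in atTop, ‖x‖ ≤ (1 / 2) * ‖Real.exp (δ / 2 * x)‖ :=
          ((isLittleO_pow_exp_pos_mul_atTop 1 (by positivity : 0 < δ / 2)).bound (show (0 : ℝ) < 1 / 2 by norm_num)).mono
            (fun x hx => by simpa using hx)
        have h3 : ∀ᶠ x : ℝ in atTop, 2 ≤ Real.exp (δ / 2 * x) :=
          (Real.tendsto_exp_atTop.comp (tendsto_id.const_mul_atTop (by positivity : 0 < δ / 2))).eventually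
            (eventually_ge_atTop 2)
        filter_upwards [h2, h3, eventually_ge_atTop 0] with x h2 h3 h4
        rw [Real.norm_of_nonneg h4, Real.norm_of_nonneg (Real.exp_pos _).le] at h2
        linarith
      exact tendsto_natCast_atTop_atTop.eventually this
    filter_upwards [e1, e2, e3, eventually_gt_atTop 0] with m f1 f2 f3 f4
    have hm : (0 : ℝ) < m := by exact_mod_cast f4
    simp only [Function.comp_apply] at f1
    rw [div_lt_one hm] at f2
    have g1 : ⌈θ * m⌉₊ < m := by exact_mod_cast f2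
    have g2 : 0 < ⌈θ * m⌉₊ := Nat.ceil_pos.2 (by
      have : 0 < θ := by linarith
      positivity)
    have g3 := choose_ent g1 g2
    rw [hexp]
    apply div_le_div_of_nonneg_right _ (by positivity)
    have g4 : Real.exp (m * (Real.binEntropy θ - δ)) * Real.exp (δ / 2 * m) ≤
        (m.choose ⌈θ * m⌉₊ : ℝ) * Real.exp (δ / 2 * m) := by
      calc Real.exp (m * (Real.binEntropy θ - δ)) * Real.exp (δ / 2 * m)
          = Real.exp (m * (Real.binEntropy θ - δ / 2)) := by
            rw [← Real.exp_add]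
            congr 1
            ring
        _ ≤ Real.exp (m * Real.binEntropy (((⌈θ * m⌉₊ : ℕ) : ℝ) / m)) :=
            Real.exp_le_exp.2 (mul_le_mul_of_nonneg_left f1.le hm.le)
        _ ≤ (m + 1) * m.choose ⌈θ * m⌉₊ := g3
        _ ≤ Real.exp (δ / 2 * m) * m.choose ⌈θ * m⌉₊ := mul_le_mul_of_nonneg_right f3 (Nat.cast_nonneg _)
        _ = _ := mul_comm _ _
    exact le_of_mul_le_mul_right g4 (Real.exp_pos _)
  · subst h1
    filter_upwards with m
    rw [one_mul, Nat.ceil_natCast, Nat.choose_self, hexp, Real.binEntropy_one, Nat.cast_one]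
    apply div_le_div_of_nonneg_right _ (by positivity)
    rw [Real.exp_le_one_iff]
    have : (0 : ℝ) ≤ m := Nat.cast_nonneg m
    nlinarith

end Pool.Agent.V11311.ER
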