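import Pool.Agent.V11311.ER.G

/-! Rare patterns along trajectories, part H: the longest stopping time. -/

set_option autoImplicit false

namespace Pool.Agent.V11311.ER

open Finset Filter Topology Pool.Agent.V11311.FP Pool.Agent.V11311.RC Pool.Agent.V11311.SL

open Pool.Agent.V11311.DV (fl fl_card mem_fl)

open Pool.Agent.Helper894.Collatz (T od er od_add iter_eq sum_pow_od)

open Pool.Agent.H377R2 (iter_pos)

/-- `log 2 / log 3` -/
noncomputable def tc : ℝ := Real.log 2 / Real.log 3

theorem tc_gt : 1 / 2 < tc := by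
  have h3 : 0 < Real.log 3 := Real.log_pos (by norm_num)
  rw [tc, div_lt_div_iff₀ (by norm_num) h3, one_mul]
  have : Real.log 4 = Real.log 2 * 2 := by
    rw [show (4 : ℝ) = 2 ^ 2 by norm_num, Real.log_pow]
    push_cast
    ring
  rw [← this]
  exact Real.log_lt_log (by norm_num) (by norm_num)

theorem tc_lt : tc < 1 := by
  have h3 : 0 < Real.log 3 := Real.log_pos (by norm_num)
  rw [tc, div_lt_one h3]
  exact Real.log_lt_log (by norm_num) (by norm_num)

theorem tc_iff (i j : ℕ) : tc * i ≤ j ↔ 2 ^ i ≤ 3 ^ j := by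
  have h3 : 0 < Real.log 3 := Real.log_pos (by norm_num)
  rw [tc, div_mul_eq_mul_div, div_le_iff₀ h3]
  constructor
  · intro h
    have : Real.log ((2 : ℝ) ^ i) ≤ Real.log (3 ^ j) := by
      rw [Real.log_pow, Real.log_pow]
      linarith
    rw [Real.log_le_log_iff (by positivity) (by positivity)] at this
    exact_mod_cast this
  · intro h
    have h' : ((2 : ℝ) ^ i) ≤ (3 ^ j) := by exact_mod_cast h
    have := Real.log_le_log (by positivity) h'
    rw [Real.log_pow, Real.log_pow] at this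
    linarith

theorem NC_per (k : ℕ) : Per (2 ^ k) (NC k) := NC_mod k

theorem NC_up (k : ℕ) : prq (2 ^ k) (NC k) ≤ Real.exp (-(rt tc * k)) := by
  refine (prq_mono (B := fun x => tc * k ≤ od k x) (fun x hx => ?_)).trans (chern tc_gt tc_lt.le k)
  rw [tc_iff]
  rcases Nat.eq_zero_or_pos k with h | h
  · subst h
    simp [od]
  · exact hx k h le_rfl

/-- concatenation of blocks -/
theorem all_suc (L : ℕ) {A : ℕ → Prop} (hA : Per (2 ^ L) A) (R : ℕ) :
    Per (2 ^ (L * R)) (fun x => ∀ r, r < R → A (T^[L * r] x)) ∧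
    prq (2 ^ (L * R)) (fun x => ∀ r, r < R → A (T^[L * r] x)) = prq (2 ^ L) A ^ R := by
  have h := no_suc L (Per.not hA) R
  simp only [not_not] at h
  rw [prq_not (by positivity), sub_sub_cancel] at h
  exact h

theorem od_full {k x : ℕ} (h : od k x = k) {i : ℕ} (hi : i ≤ k) : od i x = i := by
  obtain ⟨c, rfl⟩ := Nat.exists_eq_add_of_le hi
  rw [od_add] at h
  have h1 := od_le' i x
  have h2 := od_le' c (T^[i] x)
  omega

theorem od_full_per (k : ℕ) : Per (2 ^ k) (fun x => od k x = k) := od_per k k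

/-- `od` of a concatenation of blocks -/
theorem od_blocks {m j x : ℕ} : ∀ r : ℕ, (∀ s, s < r → od m (T^[m * s] x) = j) → od (m * r) x = j * r := by
  intro r
  induction r with
  | zero => simp [od]
  | succ r ih =>
    intro h
    rw [mul_add, mul_one, od_add, ih (fun s hs => h s (by omega)), h r (by omega)]
    ring

/-- a construction of long stopping times -/
theorem NC_cons {m j R x : ℕ} (hm : 0 < m) (hj : 2 ^ m ≤ 3 ^ j) (h1 : od (2 * m) x = 2 * m)
    (h2 : ∀ r, r < R → od m (T^[m * r] (T^[2 * m] x)) = j) : NC (2 * m + m * R) x := by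
  intro i _ hi2
  rcases Nat.lt_or_ge i (2 * m) with h | h
  · rw [od_full h1 h.le]
    exact Nat.pow_le_pow_left (by norm_num) i
  · obtain ⟨c, rfl⟩ := Nat.exists_eq_add_of_le h
    rw [od_add, h1]
    have hc : c ≤ m * R := by omega
    set r := c / m with hr
    have hrR : r ≤ R := by
      rw [hr]
      calc c / m ≤ m * R / m := Nat.div_le_div_right hc
        _ = R := Nat.mul_div_cancel_left R hm
    have hcm : c = m * r + c % m := (Nat.div_add_mod c m).symm
    have hod : j * r ≤ od c (T^[2 * m] x) := by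
      rw [hcm, od_add, od_blocks r (fun s hs => h2 s (by omega))]
      exact Nat.le_add_right _ _
    have hmod : c % m < m := Nat.mod_lt _ hm
    calc 2 ^ (2 * m + c) ≤ 2 ^ (3 * m + m * r) := Nat.pow_le_pow_right (by norm_num) (by omega)
      _ = 8 ^ m * (2 ^ m) ^ r := by
          rw [pow_add, pow_mul 2 3 m, pow_mul 2 m r]
          norm_num
      _ ≤ 9 ^ m * (3 ^ j) ^ r := Nat.mul_le_mul (Nat.pow_le_pow_left (by norm_num) m) (Nat.pow_le_pow_left hj r)
      _ = 3 ^ (2 * m + j * r) := by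
          rw [pow_add, pow_mul 3 2 m, pow_mul 3 j r]
          norm_num
      _ ≤ 3 ^ (2 * m + od c (T^[2 * m] x)) := Nat.pow_le_pow_right (by norm_num) (by omega)

theorem NC_anti {k k' x : ℕ} (h : k ≤ k') (hx : NC k' x) : NC k x := fun i h1 h2 => hx i h1 (h2.trans h)

theorem prq_NC_anti {k k' : ℕ} (h : k ≤ k') : prq (2 ^ k') (NC k') ≤ prq (2 ^ k) (NC k) := by
  obtain ⟨c, rfl⟩ := Nat.exists_eq_add_of_le' h
  rw [← prq_shift (i := 0) (NC_per k)]
  have h1 := prod_prq (j := k) (q := 2 ^ c) (A := NC k) (B := fun _ => True) (by positivity)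
    (Nat.Coprime.pow_left _ (by norm_num)) (NC_per k) (fun _ => Iff.rfl)
  rw [prq_true (by positivity), mul_one, ← pow_add, add_comm k c] at h1
  rw [zero_add, Function.iterate_zero]
  simp only [id_eq]
  rw [← h1]
  exact prq_mono fun x hx => ⟨NC_anti (by omega) hx, trivial⟩

theorem NC_low (δ : ℝ) (hδ : 0 < δ) : ∀ᶠ k : ℕ in atTop, Real.exp (-((rt tc + δ) * k)) ≤ prq (2 ^ k) (NC k) := by
  obtain ⟨m, hm1, hm2⟩ := ((tail_low tc_gt tc_lt.le (δ / 2) (by positivity)).and (eventually_gt_atTop 0)).exists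
  set j := ⌈tc * m⌉₊ with hj
  have hj2 : 2 ^ m ≤ 3 ^ j := (tc_iff m j).1 (Nat.le_ceil _)
  rw [← od_prob] at hm1
  set q := prq (2 ^ m) (fun x => od m x = j) with hq
  have hmR : (0 : ℝ) < m := by exact_mod_cast hm2
  -- bound for all k
  have key : ∀ k : ℕ, (1 / 4 : ℝ) ^ m * Real.exp (-((rt tc + δ / 2) * k)) ≤ prq (2 ^ k) (NC k) := by
    intro k
    set R := k / m with hR
    have hk : k ≤ 2 * m + m * R := by
      have h1 : k = m * R + k % m := (Nat.div_add_mod k m).symm
      have h2 : k % m < m := Nat.mod_lt _ hm2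
      omega
    have hR2 : (m : ℝ) * R ≤ k := by
      have : m * R ≤ k := Nat.mul_div_le k m
      exact_mod_cast this
    refine le_trans ?_ (prq_NC_anti hk)
    obtain ⟨a1, a2⟩ := all_suc m (od_per m j) R
    have h1 := prod_prq (j := 2 * m) (q := 2 ^ (m * R)) (by positivity) (Nat.Coprime.pow_left _ (by norm_num))
      (od_full_per (2 * m)) a1
    rw [a2, ← pow_add] at h1
    have h2 : prq (2 ^ (2 * m + m * R)) (fun x => od (2 * m) x = 2 * m ∧
        ∀ r, r < R → od m (T^[m * r] (T^[2 * m] x)) = j) ≤ prq (2 ^ (2 * m + m * R)) (NC (2 * m + m * R)) :=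
      prq_mono fun x hx => NC_cons hm2 hj2 hx.1 hx.2
    refine le_trans ?_ h2
    rw [h1, od_prob, Nat.choose_self, Nat.cast_one]
    have h3 : (1 / 4 : ℝ) ^ m = 1 / 2 ^ (2 * m) := by
      rw [pow_mul, ← one_div_pow]
      norm_num
    rw [h3]
    apply mul_le_mul_of_nonneg_left _ (by positivity)
    calc Real.exp (-((rt tc + δ / 2) * k)) ≤ Real.exp (-((rt tc + δ / 2) * m)) ^ R := by
          rw [← Real.exp_nat_mul]
          apply Real.exp_le_exp.2
          have h4 : 0 ≤ rt tc := by
            unfold rt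
            linarith [Real.binEntropy_le_log_two (p := tc)]
          nlinarith
      _ ≤ q ^ R := pow_le_pow_left₀ (Real.exp_pos _).le hm1 R
  have e1 : ∀ᶠ k : ℕ in atTop, (4 : ℝ) ^ m ≤ Real.exp (δ / 2 * k) :=
    (Real.tendsto_exp_atTop.comp ((tendsto_id.const_mul_atTop (by positivity : 0 < δ / 2)).comp
      tendsto_natCast_atTop_atTop)).eventually (eventually_ge_atTop _)
  filter_upwards [e1] with k hk
  refine le_trans ?_ (key k)
  rw [show Real.exp (-((rt tc + δ) * k)) = Real.exp (-(δ / 2 * k)) * Real.exp (-((rt tc + δ / 2) * k)) by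
    rw [← Real.exp_add]; congr 1; ring]
  apply mul_le_mul_of_nonneg_right _ (Real.exp_pos _).le
  rw [Real.exp_neg, one_div, inv_pow]
  exact inv_anti₀ (by positivity) hk

theorem rt_pos : 0 < rt tc := by
  unfold rt
  have h1 := Real.binEntropy_lt_log_two (p := tc) |>.2 (by
    have := tc_gt
    intro h
    rw [h] at this
    norm_num at this)
  linarith

end Pool.Agent.V11311.ER
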