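import Pool.Agent.V11311.ER.H

/-! Rare patterns along trajectories, part I: patterns which start above the level. -/

set_option autoImplicit false

namespace Pool.Agent.V11311.ER

open Finset Filter Topology Pool.Agent.V11311.FP Pool.Agent.V11311.RC Pool.Agent.V11311.SL

open Pool.Agent.V11311.DV (fl fl_card mem_fl)

open Pool.Agent.Helper894.Collatz (T od er od_add iter_eq sum_pow_od)

open Pool.Agent.H377R2 (iter_pos)

/-- a term with the property `P N` before the first term `≤ Y` -/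
def St (P : ℕ → ℕ → Prop) (N Y n : ℕ) : Prop := ∃ s, (∀ s', s' ≤ s → Y < T^[s'] n) ∧ P N (T^[s] n)

theorem St_mono (P : ℕ → ℕ → Prop) (N Y Y' n : ℕ) (h : Y ≤ Y') (hB : St P N Y' n) : St P N Y n := by
  obtain ⟨s, h1, h2⟩ := hB
  exact ⟨s, fun s' hs => h.trans_lt (h1 s' hs), h2⟩

theorem St_ext (P : ℕ → ℕ → Prop) (N Y Y' n z : ℕ) (_ : 0 < n) (h : Y' ≤ Y) (hz : Fp Y n z) (hB : St P N Y' z) :
    St P N Y' n := by
  obtain ⟨s, h1, h2⟩ := hB
  obtain ⟨t, ht1, ht2, ht3⟩ := hz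
  refine ⟨s + t, fun s' hs => ?_, ?_⟩
  · rcases Nat.lt_or_ge s' t with h4 | h4
    · exact h.trans_lt (ht3 s' h4)
    · obtain ⟨u, rfl⟩ := Nat.exists_eq_add_of_le' h4
      rw [Function.iterate_add_apply, ht1]
      exact h1 u (by omega)
  · rw [Function.iterate_add_apply, ht1]
    exact h2

theorem St_dec (P : ℕ → ℕ → Prop) (N Y Y' n : ℕ) (_ : 0 < n) (_ : Y' ≤ Y) (hB : St P N Y' n) :
    St P N Y n ∨ ∃ z, Fp Y n z ∧ St P N Y' z := by
  obtain ⟨s, h1, h2⟩ := hB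
  by_cases hc : ∀ s', s' ≤ s → Y < T^[s'] n
  · exact Or.inl ⟨s, hc, h2⟩
  · right
    push Not at hc
    classical
    have hex : ∃ s, T^[s] n ≤ Y := by
      obtain ⟨s, -, hs⟩ := hc
      exact ⟨s, hs⟩
    set t := Nat.find hex with ht
    have ht1 : T^[t] n ≤ Y := Nat.find_spec hex
    have ht2 : ∀ s, s < t → Y < T^[s] n := fun s hs => not_le.1 (Nat.find_min hex hs)
    have htj : t ≤ s := by
      obtain ⟨s', hs, hs2⟩ := hc
      exact (Nat.find_min' hex hs2).trans hs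
    refine ⟨T^[t] n, ⟨t, rfl, ht1, ht2⟩, s - t, fun s' hs => ?_, ?_⟩
    · rw [← Function.iterate_add_apply]
      exact h1 _ (by omega)
    · rw [← Function.iterate_add_apply, Nat.sub_add_cancel htj]
      exact h2

/-- a criterion for rare patterns: `P N m` holds only if one of finitely many properties `A N p` of the
parities of `m` holds, with the lengths `len N p` -/
theorem St_rare {ι : Type*} (P : ℕ → ℕ → Prop) (S : ℕ → Finset ι) (len : ι → ℕ) (A : ι → ℕ → Prop)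
    (hper : ∀ p, Per (2 ^ len p) (A p)) {C : ℝ} (hlen : ∀ᶠ N : ℕ in atTop, ∀ p ∈ S N, (len p : ℝ) ≤ C * Real.log (Real.log N))
    (hPA : ∀ᶠ N : ℕ in atTop, ∀ m : ℕ, Real.log N ^ (3 * C) ≤ m → P N m → ∃ p ∈ S N, A p m)
    (hsum : Tendsto (fun N : ℕ => Real.log N * ∑ p ∈ S N, prq (2 ^ len p) (A p)) atTop (𝓝 0))
    {κ : ℝ} (hκ : 0 < κ) (ε : ℝ) (hε : 0 < ε) :
    ∀ᶠ N : ℕ in atTop, (cN (St P N (Lv κ N)) N : ℝ) ≤ ε * N := by
  classical
  refine rare (St P) (St_mono P) (St_dec P) (St_ext P) ?_ hκ ε hε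
  intro κ hκ ε hε
  obtain ⟨N0, hN0⟩ := eventually_atTop.1 (descend (ε / 2) (by positivity))
  have e1 : ∀ᶠ X : ℝ in atTop, ‖Real.log X ^ (3 * |C|)‖ ≤ 1 * ‖X ^ (κ / 2)‖ :=
    (isLittleO_log_rpow_rpow_atTop (3 * |C|) (by positivity : (0 : ℝ) < κ / 2)).bound one_pos
  have e2 := (tendsto_rpow_atTop hκ).eventually (eventually_ge_atTop ((N0 : ℝ) + 1))
  have e3 := hsum.eventually (gt_mem_nhds (show (0 : ℝ) < ε / 4 by positivity))
  filter_upwards [tendsto_natCast_atTop_atTop.eventually (e1.and (e2.and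
    (Real.tendsto_log_atTop.eventually (eventually_ge_atTop (3 : ℝ))))), e3, hlen, hPA, eventually_ge_atTop 1]
    with N h1 h2 h3 h4 h5 N' hN1 hN2
  obtain ⟨f1, f2, f3⟩ := h1
  have hNR : (1 : ℝ) ≤ N := by exact_mod_cast h5
  have hN'0 : N0 ≤ N' ∧ 1 ≤ N' := by
    have g1 : ((N0 + 1 : ℕ) : ℝ) ≤ N' := by
      push_cast
      linarith
    have g2 : N0 + 1 ≤ N' := by exact_mod_cast g1
    omega
  have hN'R : (1 : ℝ) ≤ N' := by exact_mod_cast hN'0.2
  have g1 := hN0 N' hN'0.1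
  obtain ⟨j1, j2, j3, j4⟩ := JH_facts hN'0.2
  set Λ := Real.log N with hΛ
  have hΛ0 : 0 < Λ := by linarith
  have hℓ : 1 < Real.log Λ := by
    rw [Real.lt_log_iff_exp_lt hΛ0]
    have := Real.exp_one_lt_d9
    linarith
  rw [Real.norm_of_nonneg (by positivity), Real.norm_of_nonneg (by positivity), one_mul] at f1
  have hpowC : Λ ^ (3 * C) ≤ (N : ℝ) ^ (κ / 2) := by
    refine le_trans (Real.rpow_le_rpow_of_exponent_le (by linarith) ?_) f1
    linarith [le_abs_self C]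
  have hN'half : (N : ℝ) ^ (κ / 2) ≤ (N' : ℝ) ^ (1 / 2 : ℝ) := by
    calc (N : ℝ) ^ (κ / 2) = ((N : ℝ) ^ κ) ^ (1 / 2 : ℝ) := by
          rw [← Real.rpow_mul (by linarith)]
          congr 1
          ring
      _ ≤ _ := Real.rpow_le_rpow (by positivity) hN1 (by norm_num)
  have hlog : Real.log N' ≤ Λ := Real.log_le_log (by linarith) (by exact_mod_cast hN2)
  -- powers of two
  have hlen2 : ∀ p ∈ S N, (2 : ℝ) ^ len p ≤ (N' : ℝ) ^ (1 / 2 : ℝ) := by
    intro p hp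
    refine le_trans ?_ (le_trans hpowC hN'half)
    have g2 := h3 p hp
    have hl2 : Real.log 2 < 1 := by have := Real.log_two_lt_d9; linarith
    have hl2' : 0 < Real.log 2 := Real.log_pos (by norm_num)
    have g3 : (0 : ℝ) ≤ len p := Nat.cast_nonneg _
    calc (2 : ℝ) ^ len p = Real.exp (len p * Real.log 2) := by rw [Real.exp_nat_mul, Real.exp_log (by norm_num)]
      _ ≤ Real.exp (Real.log Λ * (3 * C)) := by
          apply Real.exp_le_exp.2
          have g4 : 0 ≤ C * Real.log Λ := g3.trans g2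
          nlinarith
      _ = Λ ^ (3 * C) := by rw [Real.rpow_def_of_pos hΛ0]
  have hJlen : ∀ p ∈ S N, ∀ s ∈ range (JH N'), 2 ^ (s + len p) ≤ N' := by
    intro p hp s hs
    rw [mem_range] at hs
    have k1 : ((2 : ℝ) ^ (s + len p)) ≤ N' := by
      rw [pow_add]
      calc (2 : ℝ) ^ s * 2 ^ len p ≤ 2 ^ JH N' * 2 ^ len p :=
            mul_le_mul_of_nonneg_right (pow_le_pow_right₀ (by norm_num) hs.le) (by positivity)
        _ ≤ (N' : ℝ) ^ (0.35 : ℝ) * (N' : ℝ) ^ (1 / 2 : ℝ) := mul_le_mul j3 (hlen2 p hp) (by positivity) (by positivity)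
        _ = (N' : ℝ) ^ (0.85 : ℝ) := by
            rw [← Real.rpow_add (by linarith)]
            norm_num
        _ ≤ (N' : ℝ) ^ (1 : ℝ) := Real.rpow_le_rpow_of_exponent_le hN'R (by norm_num)
        _ = N' := Real.rpow_one _
    exact_mod_cast k1
  have k1 : (cN (St P N ⌊(N' : ℝ) ^ (0.99 : ℝ)⌋₊) N' : ℝ) ≤
      cN (fun n => ⌊(N' : ℝ) ^ (0.99 : ℝ)⌋₊ < T^[JH N'] n ∧ n ≤ N') N' +
      (cN (fun n => ∃ q ∈ range (JH N') ×ˢ S N, A q.2 (T^[q.1] n)) N' +
       cN (fun _ => False) N') := by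
    apply cN_or3
    intro n hn hnN hst
    obtain ⟨s, hs1, hs2⟩ := hst
    by_cases hsJ : JH N' ≤ s
    · exact Or.inl ⟨hs1 _ hsJ, hnN⟩
    · right; left
      have hm : Λ ^ (3 * C) ≤ (T^[s] n : ℕ) := by
        have k2 : (N' : ℝ) ^ (0.99 : ℝ) < (T^[s] n : ℕ) := by
          have := Nat.lt_floor_add_one ((N' : ℝ) ^ (0.99 : ℝ))
          have k3 : ((⌊(N' : ℝ) ^ (0.99 : ℝ)⌋₊ : ℕ) : ℝ) + 1 ≤ (T^[s] n : ℕ) := by exact_mod_cast hs1 s le_rfl
          linarith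
        have k4 : (N' : ℝ) ^ (1 / 2 : ℝ) ≤ (N' : ℝ) ^ (0.99 : ℝ) :=
          Real.rpow_le_rpow_of_exponent_le hN'R (by norm_num)
        linarith
      obtain ⟨p, hp1, hp2⟩ := h4 _ hm hs2
      exact ⟨(s, p), mem_product.2 ⟨mem_range.2 (not_le.1 hsJ), hp1⟩, hp2⟩
  have k2 : (cN (fun _ => False) N' : ℝ) = 0 := by
    rw [← fl_card]
    have : fl (fun _ => False) N' = ∅ := by
      ext n
      rw [mem_fl]
      simp
    rw [this]
    simp
  have k3 := cN_union (range (JH N') ×ˢ S N) (fun n => ∃ q ∈ range (JH N') ×ˢ S N, A q.2 (T^[q.1] n))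
    (fun q n => A q.2 (T^[q.1] n)) N' (fun n _ _ h => h)
  have k4 : ∑ q ∈ range (JH N') ×ˢ S N, (cN (fun n => A q.2 (T^[q.1] n)) N' : ℝ) ≤
      JH N' * (2 * N' * ∑ p ∈ S N, prq (2 ^ len p) (A p)) := by
    calc _ ≤ ∑ q ∈ range (JH N') ×ˢ S N, 2 * (N' : ℝ) * prq (2 ^ len q.2) (A q.2) := by
          refine sum_le_sum fun q hq => ?_
          rw [mem_product] at hq
          exact cN_shift (hper q.2) (hJlen q.2 hq.2 q.1 hq.1)
      _ = _ := by
          have m1 : ∀ x ∈ range (JH N'), ∑ y ∈ S N, 2 * (N' : ℝ) * prq (2 ^ len y) (A y) =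
              2 * N' * ∑ p ∈ S N, prq (2 ^ len p) (A p) := fun _ _ => (mul_sum _ _ _).symm
          rw [sum_product, sum_congr rfl m1, sum_const, card_range, nsmul_eq_mul]
  have hs0 : 0 ≤ ∑ p ∈ S N, prq (2 ^ len p) (A p) := sum_nonneg fun p _ => prq_nonneg _ _
  have k5 : (JH N' : ℝ) * (2 * N' * ∑ p ∈ S N, prq (2 ^ len p) (A p)) ≤ ε / 2 * N' := by
    have m1 : (JH N' : ℝ) ≤ Λ := by linarith
    calc (JH N' : ℝ) * (2 * N' * ∑ p ∈ S N, prq (2 ^ len p) (A p))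
        ≤ Λ * (2 * N' * ∑ p ∈ S N, prq (2 ^ len p) (A p)) := mul_le_mul_of_nonneg_right m1 (by positivity)
      _ = 2 * N' * (Λ * ∑ p ∈ S N, prq (2 ^ len p) (A p)) := by ring
      _ ≤ 2 * N' * (ε / 4) := mul_le_mul_of_nonneg_left h2.le (by positivity)
      _ = ε / 2 * N' := by ring
  linarith

end Pool.Agent.V11311.ER
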