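import Pool.Agent.V11311.ER.I

/-! Rare patterns along trajectories, part J: patterns which do occur; the longest stopping time. -/

set_option autoImplicit false

namespace Pool.Agent.V11311.ER

open Finset Filter Topology Pool.Agent.V11311.FP Pool.Agent.V11311.RC Pool.Agent.V11311.SL

open Pool.Agent.V11311.DV (fl fl_card mem_fl)

open Pool.Agent.Helper894.Collatz (T od er od_add iter_eq sum_pow_od)

open Pool.Agent.H377R2 (iter_pos)

/-- patterns of probability at least `(log N)^(-(1-e))` occur -/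
theorem blocks {e κ C : ℝ} (he : 0 < e) (hκ0 : 0 < κ) (hκ1 : κ < 1) (L : ℕ → ℕ) (A : ℕ → ℕ → Prop)
    (hper : ∀ N, Per (2 ^ L N) (A N)) (hL1 : ∀ N, 1 ≤ L N)
    (hL : ∀ᶠ N : ℕ in atTop, (L N : ℝ) ≤ C * Real.log (Real.log N))
    (hq : ∀ᶠ N : ℕ in atTop, Real.log N ^ (-(1 - e)) ≤ prq (2 ^ L N) (A N)) (ε : ℝ) (hε : 0 < ε) :
    ∀ᶠ N : ℕ in atTop, (cN (fun n => Real.sqrt N ≤ n ∧ n ≤ N ∧
      ¬ ∃ s, (∀ s', s' ≤ s + L N → (n : ℝ) ^ κ < (T^[s'] n : ℕ)) ∧ A N (T^[s] n)) N : ℝ) ≤ ε * N := by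
  have hc : 0 < 1 - κ := by linarith
  have e1 : ∀ᶠ X : ℝ in atTop, C * Real.log X ≤ X ^ (e / 2) := by
    have h1 : ∀ᶠ X : ℝ in atTop, ‖Real.log X‖ ≤ (1 / (|C| + 1)) * ‖X ^ (e / 2)‖ :=
      (isLittleO_log_rpow_atTop (by positivity : (0 : ℝ) < e / 2)).bound (by positivity)
    filter_upwards [h1, eventually_ge_atTop (1 : ℝ)] with X h1 h3
    rw [Real.norm_of_nonneg (Real.log_nonneg h3), Real.norm_of_nonneg (by positivity), one_div_mul_eq_div,
      le_div_iff₀ (by positivity)] at h1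
    have h4 : 0 ≤ Real.log X := Real.log_nonneg h3
    have h5 := le_abs_self C
    nlinarith
  have e2 : ∀ᶠ X : ℝ in atTop, (4 / (1 - κ)) * (Real.log (2 / ε) + 1) ≤ X ^ (e / 2) :=
    (tendsto_rpow_atTop (by positivity)).eventually (eventually_ge_atTop _)
  have e4 := Real.tendsto_log_atTop.eventually (e1.and (e2.and (eventually_ge_atTop (3 : ℝ))))
  filter_upwards [tendsto_natCast_atTop_atTop.eventually e4, hL, hq, eventually_ge_atTop 3] with N hN hLN hqN hN3
  obtain ⟨f1, f2, f4⟩ := hN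
  set Λ := Real.log N with hΛ
  have hΛ0 : 0 < Λ := by linarith
  set q := prq (2 ^ L N) (A N) with hqd
  have hL0 : (0 : ℝ) < L N := by exact_mod_cast hL1 N
  have hq1 : q ≤ 1 := prq_le_one _ _
  have hq0 : 0 ≤ q := prq_nonneg _ _
  set R : ℕ := ⌊(1 - κ) / 2 * Λ / L N⌋₊ with hR
  have hR1 : ((L N * R : ℕ) : ℝ) ≤ (1 - κ) / 2 * Λ := by
    have h1 : (R : ℝ) ≤ (1 - κ) / 2 * Λ / L N := Nat.floor_le (by positivity)
    rw [le_div_iff₀ hL0] at h1
    push_cast
    linarith
  have hR2 : (1 - κ) / 2 * Λ / L N < R + 1 := Nat.lt_floor_add_one _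
  have hNR : (3 : ℝ) ≤ N := by exact_mod_cast hN3
  obtain ⟨hP1, hP2⟩ := no_suc (L N) (hper N) R
  have hpow : 2 ^ (L N * R) ≤ N := by
    have h1 : (2 : ℝ) ^ (L N * R) ≤ N := by
      rw [← Real.exp_log (show (0 : ℝ) < 2 by norm_num), ← Real.exp_nat_mul, ← Real.exp_log (show (0 : ℝ) < N by linarith)]
      apply Real.exp_le_exp.2
      have hl2 : Real.log 2 < 1 := by have := Real.log_two_lt_d9; linarith
      have hl2' : 0 < Real.log 2 := Real.log_pos (by norm_num)
      have k1 : ((L N * R : ℕ) : ℝ) * Real.log 2 ≤ (1 - κ) / 2 * Λ * 1 :=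
        mul_le_mul hR1 hl2.le hl2'.le (by positivity)
      rw [← hΛ]
      nlinarith
    exact_mod_cast h1
  have hcn : (cN (fun n => Real.sqrt N ≤ n ∧ n ≤ N ∧
      ¬ ∃ s, (∀ s', s' ≤ s + L N → (n : ℝ) ^ κ < (T^[s'] n : ℕ)) ∧ A N (T^[s] n)) N : ℝ) ≤
      cN (fun x => ∀ r, r < R → ¬ A N (T^[L N * r] x)) N := by
    refine Nat.cast_le.2 (cN_mono (fun n hn ⟨h1, h1', h2⟩ r hr hs => h2 ?_) N)
    have hab := above hκ1 hn h1 hN3 hR1
    have hj : L N * r + L N ≤ L N * R := by
      calc L N * r + L N = L N * (r + 1) := by ring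
        _ ≤ L N * R := Nat.mul_le_mul_left _ hr
    exact ⟨L N * r, fun s' hs' => hab s' (by omega), hs⟩
  refine hcn.trans ((cN_rare _ hP1 hpow).trans ?_)
  rw [← prq_pow, hP2]
  have hqR : Real.log (2 / ε) ≤ q * R := by
    have m1 : (L N : ℝ) ≤ Λ ^ (e / 2) := hLN.trans f1
    have m2 : (1 - κ) / 2 * Λ ^ (1 - e / 2) ≤ (1 - κ) / 2 * Λ / L N := by
      rw [le_div_iff₀ hL0]
      calc (1 - κ) / 2 * Λ ^ (1 - e / 2) * L N ≤ (1 - κ) / 2 * Λ ^ (1 - e / 2) * Λ ^ (e / 2) :=
            mul_le_mul_of_nonneg_left m1 (by positivity)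
        _ = (1 - κ) / 2 * Λ := by
            rw [mul_assoc, ← Real.rpow_add hΛ0]
            simp
    have m3 : q * ((1 - κ) / 2 * Λ ^ (1 - e / 2)) ≤ q * (R + 1) := mul_le_mul_of_nonneg_left (by linarith) hq0
    have m4 : (1 - κ) / 2 * Λ ^ (e / 2) ≤ q * ((1 - κ) / 2 * Λ ^ (1 - e / 2)) := by
      calc (1 - κ) / 2 * Λ ^ (e / 2) = Λ ^ (-(1 - e)) * ((1 - κ) / 2 * Λ ^ (1 - e / 2)) := by
            have : Λ ^ (e / 2) = Λ ^ (-(1 - e)) * Λ ^ (1 - e / 2) := by
              rw [← Real.rpow_add hΛ0]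
              congr 1
              ring
            rw [this]
            ring
        _ ≤ _ := mul_le_mul_of_nonneg_right hqN (by positivity)
    have m5 : (1 - κ) / 2 * ((4 / (1 - κ)) * (Real.log (2 / ε) + 1)) ≤ (1 - κ) / 2 * Λ ^ (e / 2) :=
      mul_le_mul_of_nonneg_left f2 (by positivity)
    have m6 : (1 - κ) / 2 * ((4 / (1 - κ)) * (Real.log (2 / ε) + 1)) = 2 * (Real.log (2 / ε) + 1) := by
      field_simp
      ring
    by_cases h0 : 0 ≤ Real.log (2 / ε)
    · nlinarith
    · push Not at h0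
      exact h0.le.trans (by positivity)
  have hfin : (1 - q) ^ R ≤ ε / 2 := by
    calc (1 - q) ^ R ≤ Real.exp (-q) ^ R := by
          apply pow_le_pow_left₀ (by linarith)
          have := Real.add_one_le_exp (-q)
          linarith
      _ = Real.exp (-(q * R)) := by
          rw [← Real.exp_nat_mul]
          congr 1
          ring
      _ ≤ Real.exp (-Real.log (2 / ε)) := Real.exp_le_exp.2 (by linarith)
      _ = ε / 2 := by
          rw [Real.exp_neg, Real.exp_log (by positivity), inv_div]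
  calc 2 * (N : ℝ) * (1 - q) ^ R ≤ 2 * N * (ε / 2) := mul_le_mul_of_nonneg_left hfin (by positivity)
    _ = ε * N := by ring

/-- from `N` to `n`: lengths `c * log log` -/
theorem loglog {N n : ℕ} (h1 : Real.sqrt N ≤ n) (hN : 3 ≤ N) (hL : 3 ≤ Real.log N) :
    Real.log (Real.log N) - 1 ≤ Real.log (Real.log n) ∧ 0 < Real.log n := by
  have h2 := log_half h1 (by omega)
  have h3 : Real.log (Real.log N / 2) ≤ Real.log (Real.log n) := Real.log_le_log (by linarith) h2
  rw [Real.log_div (by linarith) (by norm_num)] at h3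
  have hl2 : Real.log 2 < 1 := by have := Real.log_two_lt_d9; linarith
  exact ⟨by linarith, by linarith⟩

/-- the length of patterns that do occur -/
noncomputable def kL (c : ℝ) (N : ℕ) : ℕ := ⌊c * Real.log (Real.log N)⌋₊ + 1

/-- the length of patterns that do not occur -/
noncomputable def kU (c : ℝ) (N : ℕ) : ℕ := ⌊c * (Real.log (Real.log N) - 1)⌋₊

theorem ll_tendsto : Tendsto (fun N : ℕ => Real.log (Real.log N)) atTop atTop :=
  Real.tendsto_log_atTop.comp (Real.tendsto_log_atTop.comp tendsto_natCast_atTop_atTop)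

theorem kL_le {c : ℝ} (hc : 0 < c) : ∀ᶠ N : ℕ in atTop, (kL c N : ℝ) ≤ (c + 1) * Real.log (Real.log N) := by
  filter_upwards [ll_tendsto.eventually (eventually_ge_atTop 1)] with N hN
  unfold kL
  push_cast
  have := Nat.floor_le (show 0 ≤ c * Real.log (Real.log N) by positivity)
  linarith

/-- the probability of patterns that do occur -/
theorem exp_kL {c r e : ℝ} (hc : 0 < c) (hr : 0 ≤ r) (he : r * c < 1 - e) : ∀ᶠ N : ℕ in atTop,
    Real.log N ^ (-(1 - e)) ≤ Real.exp (-(r * kL c N)) := by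
  filter_upwards [ll_tendsto.eventually (eventually_ge_atTop (r / (1 - e - r * c))),
    ll_tendsto.eventually (eventually_ge_atTop 1),
    (Real.tendsto_log_atTop.comp tendsto_natCast_atTop_atTop).eventually (eventually_gt_atTop 0)] with N h1 h2 h3
  rw [Function.comp_apply] at h3
  rw [Real.rpow_def_of_pos h3]
  apply Real.exp_le_exp.2
  unfold kL
  push_cast
  have h4 := Nat.floor_le (show 0 ≤ c * Real.log (Real.log N) by positivity)
  rw [div_le_iff₀ (by linarith)] at h1
  nlinarith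

theorem exp_kU {c r : ℝ} (hr : 0 < r) (hcr : 1 < r * c) :
    Tendsto (fun N : ℕ => Real.log N * Real.exp (-(r * kU c N))) atTop (𝓝 0) := by
  have h1 : Tendsto (fun N : ℕ => Real.exp (r * c + r) * (Real.log N) ^ (-(r * c - 1))) atTop (𝓝 0) := by
    have h2 := (tendsto_rpow_neg_atTop (show 0 < r * c - 1 by linarith)).comp
      (Real.tendsto_log_atTop.comp tendsto_natCast_atTop_atTop)
    have h3 := h2.const_mul (Real.exp (r * c + r))
    rw [mul_zero] at h3
    exact h3
  refine squeeze_zero' ?_ ?_ h1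
  · filter_upwards [(Real.tendsto_log_atTop.comp tendsto_natCast_atTop_atTop).eventually (eventually_gt_atTop 0)]
      with N hN
    rw [Function.comp_apply] at hN
    positivity
  · filter_upwards [(Real.tendsto_log_atTop.comp tendsto_natCast_atTop_atTop).eventually (eventually_gt_atTop 0)]
      with N hN
    rw [Function.comp_apply] at hN
    have h4 := Nat.lt_floor_add_one (c * (Real.log (Real.log N) - 1))
    have h5 : Real.exp (-(r * kU c N)) ≤ Real.exp (r * c + r) * Real.log N ^ (-(r * c)) := by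
      rw [Real.rpow_def_of_pos hN, ← Real.exp_add]
      apply Real.exp_le_exp.2
      unfold kU
      nlinarith
    calc Real.log N * Real.exp (-(r * kU c N)) ≤ Real.log N * (Real.exp (r * c + r) * Real.log N ^ (-(r * c))) :=
          mul_le_mul_of_nonneg_left h5 hN.le
      _ = Real.exp (r * c + r) * (Real.log N ^ (1 : ℝ) * Real.log N ^ (-(r * c))) := by
          rw [Real.rpow_one]
          ring
      _ = _ := by
          rw [← Real.rpow_add hN]
          congr 2
          ring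

end Pool.Agent.V11311.ER
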