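import Pool.Agent.V11311.ER.K

/-! Rare patterns along trajectories, part L: Chernoff's bound for blocks. -/

set_option autoImplicit false

namespace Pool.Agent.V11311.ER

open Finset Filter Topology Pool.Agent.V11311.FP Pool.Agent.V11311.RC Pool.Agent.V11311.SL

open Pool.Agent.V11311.DV (fl fl_card mem_fl)

open Pool.Agent.Helper894.Collatz (T od er od_add iter_eq sum_pow_od period)

open Pool.Agent.H377R2 (iter_pos)

/-- independence, for functions -/
theorem sum_split {j q : ℕ} (hq : 0 < q) (h3 : Nat.Coprime q 3) {f g : ℕ → ℝ} (hf : ∀ x, f (x % 2 ^ j) = f x)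
    (hg : ∀ x, g (x + q) = g x) :
    ∑ x ∈ range (2 ^ j * q), f x * g (T^[j] x) = (∑ x ∈ range (2 ^ j), f x) * ∑ y ∈ range q, g y := by
  rw [split_sum, sum_mul]
  apply sum_congr rfl
  intro x hx
  have h2 : ∀ t ∈ range q, f (x + 2 ^ j * t) * g (T^[j] (x + 2 ^ j * t)) = f x * g (3 ^ od j x * t + T^[j] x) := by
    intro t _
    rw [(period j x t).1, add_comm (T^[j] x), ← hf (x + 2 ^ j * t), Nat.add_mul_mod_self_left, hf]
  have h7 := Pool.Agent.V11311.PL.sum_affine (F := g) hq hg (h3.symm.pow_left (od j x)) (T^[j] x)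
  rw [sum_congr rfl h2, ← mul_sum]
  exact congrArg _ h7

/-- the number of occurrences of `A` at the times `0, k, ..., (b-1) k` -/
noncomputable def Zc (k : ℕ) (A : ℕ → Prop) (b x : ℕ) : ℕ := by
  classical
  exact ((range b).filter fun i => A (T^[k * i] x)).card

theorem Zc_eq (k : ℕ) (A : ℕ → Prop) [DecidablePred A] (b x : ℕ) :
    Zc k A b x = ((range b).filter fun i => A (T^[k * i] x)).card := by
  unfold Zc
  congr

theorem Zc_succ (k : ℕ) (A : ℕ → Prop) [DecidablePred A] (b x : ℕ) :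
    Zc k A (b + 1) x = (if A x then 1 else 0) + Zc k A b (T^[k] x) := by
  rw [Zc_eq, Zc_eq, card_filter, card_filter, sum_range_succ', add_comm]
  congr 1
  apply sum_congr rfl
  intro i _
  rw [mul_add, mul_one, Function.iterate_add_apply]

theorem Zc_per {k : ℕ} {A : ℕ → Prop} (hA : Per (2 ^ k) A) (b : ℕ) (x : ℕ) : Zc k A b (x % 2 ^ (k * b)) = Zc k A b x := by
  classical
  rw [Zc_eq, Zc_eq]
  congr 1
  apply filter_congr
  intro i hi
  rw [mem_range] at hi
  have h1 := Per.shift (i := k * i) hA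
  have h2 : k * i + k ≤ k * b := by
    calc k * i + k = k * (i + 1) := by ring
      _ ≤ k * b := Nat.mul_le_mul_left _ hi
  have h3 : 2 ^ (k * i + k) ∣ 2 ^ (k * b) := pow_dvd_pow 2 h2
  have h4 := h1 (x % 2 ^ (k * b))
  rw [Nat.mod_mod_of_dvd _ h3, h1 x] at h4
  exact h4.symm

theorem Zc_add {k : ℕ} {A : ℕ → Prop} (hA : Per (2 ^ k) A) (b : ℕ) (x : ℕ) :
    Zc k A b (x + 2 ^ (k * b)) = Zc k A b x := by
  rw [← Zc_per hA b (x + 2 ^ (k * b)), Nat.add_mod_right, Zc_per hA]

/-- exponential moments -/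
theorem Zc_exp {k : ℕ} {A : ℕ → Prop} (hA : Per (2 ^ k) A) (u : ℝ) (b : ℕ) :
    ∑ x ∈ range (2 ^ (k * b)), u ^ Zc k A b x = (2 ^ k * (1 + prq (2 ^ k) A * (u - 1))) ^ b := by
  classical
  induction b with
  | zero => simp [Zc_eq]
  | succ b ih =>
    have h1 : 2 ^ (k * (b + 1)) = 2 ^ k * 2 ^ (k * b) := by
      rw [← pow_add]
      congr 1
      ring
    have h2 : ∀ x, u ^ Zc k A (b + 1) x = (if A x then u else 1) * u ^ Zc k A b (T^[k] x) := by
      intro x
      rw [Zc_succ, pow_add]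
      by_cases h : A x
      · rw [if_pos h, if_pos h, pow_one]
      · rw [if_neg h, if_neg h, pow_zero]
    rw [h1, sum_congr rfl fun x _ => h2 x]
    have h3 := sum_split (j := k) (q := 2 ^ (k * b)) (by positivity) (Nat.Coprime.pow_left _ (by norm_num))
      (f := fun x => if A x then u else 1) (g := fun x => u ^ Zc k A b x)
      (fun x => by
        by_cases h : A x
        · rw [if_pos h, if_pos ((hA x).2 h)]
        · rw [if_neg h, if_neg (fun h' => h ((hA x).1 h'))])
      (fun x => by rw [Zc_add hA])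
    rw [h3, ih, pow_succ, mul_comm]
    congr 1
    have h4 : ∀ x, (if A x then u else (1 : ℝ)) = 1 + (u - 1) * (if A x then 1 else 0) := by
      intro x
      by_cases h : A x
      · rw [if_pos h, if_pos h]; ring
      · rw [if_neg h, if_neg h]; ring
    rw [sum_congr rfl fun x _ => h4 x, sum_add_distrib, ← mul_sum, sum_boole, sum_const, card_range, prq_eq]
    push_cast
    field_simp
    ring

/-- Markov's inequality -/
theorem markovE {Q : ℕ} (A : ℕ → Prop) (F : ℕ → ℝ) (hF : ∀ x, 0 ≤ F x) (h : ∀ x, A x → 1 ≤ F x) :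
    prq Q A ≤ (∑ x ∈ range Q, F x) / Q := by
  classical
  rw [prq_eq]
  apply div_le_div_of_nonneg_right _ (Nat.cast_nonneg Q)
  calc (((range Q).filter A).card : ℝ) = ∑ x ∈ (range Q).filter A, 1 := by simp
    _ ≤ ∑ x ∈ (range Q).filter A, F x := sum_le_sum fun x hx => h x (mem_filter.1 hx).2
    _ ≤ _ := sum_le_sum_of_subset_of_nonneg (filter_subset _ _) fun x _ _ => hF x

theorem Zc_tail {k : ℕ} {A : ℕ → Prop} (hA : Per (2 ^ k) A) (l z : ℝ) (b : ℕ) :
    prq (2 ^ (k * b)) (fun x => l * z ≤ l * Zc k A b x) ≤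
      Real.exp (prq (2 ^ k) A * b * (Real.exp l - 1) - l * z) := by
  have h1 := markovE (Q := 2 ^ (k * b)) (fun x => l * z ≤ l * Zc k A b x)
    (fun x => Real.exp l ^ Zc k A b x * Real.exp (-(l * z))) (fun x => by positivity) (fun x hx => by
      rw [← Real.exp_nat_mul, ← Real.exp_add]
      rw [show (1 : ℝ) = Real.exp 0 by rw [Real.exp_zero]]
      apply Real.exp_le_exp.2
      have hx' : l * z ≤ l * Zc k A b x := hx
      linarith)
  refine h1.trans ?_
  rw [← sum_mul, Zc_exp hA, mul_pow, ← pow_mul]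
  push_cast
  have h2 : (2 : ℝ) ^ (k * b) * (1 + prq (2 ^ k) A * (Real.exp l - 1)) ^ b * Real.exp (-(l * z)) / 2 ^ (k * b)
      = (1 + prq (2 ^ k) A * (Real.exp l - 1)) ^ b * Real.exp (-(l * z)) := by
    field_simp
  rw [h2]
  have h3 : (1 + prq (2 ^ k) A * (Real.exp l - 1)) ^ b ≤ Real.exp (prq (2 ^ k) A * b * (Real.exp l - 1)) := by
    calc (1 + prq (2 ^ k) A * (Real.exp l - 1)) ^ b ≤ Real.exp (prq (2 ^ k) A * (Real.exp l - 1)) ^ b := by
          apply pow_le_pow_left₀
          · have g1 := prq_le_one (2 ^ k) A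
            have g2 := prq_nonneg (2 ^ k) A
            have g3 := Real.exp_pos l
            nlinarith
          · have := Real.add_one_le_exp (prq (2 ^ k) A * (Real.exp l - 1))
            linarith
      _ = Real.exp (prq (2 ^ k) A * b * (Real.exp l - 1)) := by
          rw [← Real.exp_nat_mul]
          congr 1
          ring
  calc (1 + prq (2 ^ k) A * (Real.exp l - 1)) ^ b * Real.exp (-(l * z))
      ≤ Real.exp (prq (2 ^ k) A * b * (Real.exp l - 1)) * Real.exp (-(l * z)) :=
        mul_le_mul_of_nonneg_right h3 (Real.exp_pos _).le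
    _ = _ := by rw [← Real.exp_add]; congr 1

/-- the number of occurrences deviates from its mean -/
def Dv (k : ℕ) (A : ℕ → Prop) (b : ℕ) (δ : ℝ) (x : ℕ) : Prop :=
  δ * (prq (2 ^ k) A * b) < |(Zc k A b x : ℝ) - prq (2 ^ k) A * b|

theorem Dv_per {k : ℕ} {A : ℕ → Prop} (hA : Per (2 ^ k) A) (b : ℕ) (δ : ℝ) : Per (2 ^ (k * b)) (Dv k A b δ) := by
  intro x
  unfold Dv
  rw [Zc_per hA]

/-- **Chernoff's bound** -/
theorem Dv_pr {k : ℕ} {A : ℕ → Prop} (hA : Per (2 ^ k) A) (b : ℕ) {δ : ℝ} (hδ : 0 < δ) (hδ1 : δ ≤ 1) :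
    prq (2 ^ (k * b)) (Dv k A b δ) ≤ 2 * Real.exp (-(δ ^ 2 / 4 * (prq (2 ^ k) A * b))) := by
  set p := prq (2 ^ k) A with hp
  have hp0 : 0 ≤ p := prq_nonneg _ _
  have hpb : 0 ≤ p * b := by positivity
  have key : ∀ l : ℝ, |l| ≤ 1 → Real.exp l - 1 ≤ l + l ^ 2 := by
    intro l hl
    have h1 := Real.abs_exp_sub_one_sub_id_le hl
    have h2 := (abs_le.1 h1).2
    linarith
  have h1 := Zc_tail hA (δ / 2) ((1 + δ) * (p * b)) b
  have h2 := Zc_tail hA (-(δ / 2)) ((1 - δ) * (p * b)) b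
  have k1 := key (δ / 2) (by rw [abs_le]; constructor <;> linarith)
  have k2 := key (-(δ / 2)) (by rw [abs_le]; constructor <;> linarith)
  have e1 : Real.exp (p * b * (Real.exp (δ / 2) - 1) - δ / 2 * ((1 + δ) * (p * b))) ≤
      Real.exp (-(δ ^ 2 / 4 * (p * b))) := by
    apply Real.exp_le_exp.2
    have := mul_le_mul_of_nonneg_left k1 hpb
    nlinarith
  have e2 : Real.exp (p * b * (Real.exp (-(δ / 2)) - 1) - -(δ / 2) * ((1 - δ) * (p * b))) ≤
      Real.exp (-(δ ^ 2 / 4 * (p * b))) := by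
    apply Real.exp_le_exp.2
    have := mul_le_mul_of_nonneg_left k2 hpb
    nlinarith
  have h3 : prq (2 ^ (k * b)) (Dv k A b δ) ≤
      prq (2 ^ (k * b)) (fun x => δ / 2 * ((1 + δ) * (p * b)) ≤ δ / 2 * Zc k A b x) +
      prq (2 ^ (k * b)) (fun x => -(δ / 2) * ((1 - δ) * (p * b)) ≤ -(δ / 2) * Zc k A b x) := by
    have g := prq_union (Finset.univ : Finset Bool) (Dv k A b δ)
      (fun i x => if i then δ / 2 * ((1 + δ) * (p * b)) ≤ δ / 2 * Zc k A b x
        else -(δ / 2) * ((1 - δ) * (p * b)) ≤ -(δ / 2) * Zc k A b x) (2 ^ (k * b)) (fun x hx => by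
          unfold Dv at hx
          rw [← hp, lt_abs] at hx
          rcases hx with hx | hx
          · refine ⟨true, mem_univ _, ?_⟩
            simp only [if_true]
            apply mul_le_mul_of_nonneg_left _ (by positivity)
            linarith
          · refine ⟨false, mem_univ _, ?_⟩
            simp only [Bool.false_eq_true, if_false]
            have : (Zc k A b x : ℝ) ≤ (1 - δ) * (p * b) := by linarith
            nlinarith)
    refine g.trans (le_of_eq ?_)
    rw [Fintype.sum_bool]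
    simp only [if_true, Bool.false_eq_true, if_false]
  calc prq (2 ^ (k * b)) (Dv k A b δ) ≤ _ := h3
    _ ≤ Real.exp (-(δ ^ 2 / 4 * (p * b))) + Real.exp (-(δ ^ 2 / 4 * (p * b))) :=
        add_le_add (h1.trans e1) (h2.trans e2)
    _ = _ := by ring

end Pool.Agent.V11311.ER
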