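import Pool.Agent.V11311.ER.L

/-! Rare patterns along trajectories, part M: windows. -/

set_option autoImplicit false

namespace Pool.Agent.V11311.ER

open Finset Filter Topology Pool.Agent.V11311.FP Pool.Agent.V11311.RC Pool.Agent.V11311.SL

open Pool.Agent.V11311.DV (fl fl_card mem_fl)

open Pool.Agent.Helper894.Collatz (T od er od_add iter_eq sum_pow_od period)

open Pool.Agent.H377R2 (iter_pos)

/-- a criterion for rare patterns of length `o(log N)` -/
theorem St_rare2 {ι : Type*} (P : ℕ → ℕ → Prop) (S : ℕ → Finset ι) (len : ℕ → ι → ℕ) (A : ℕ → ι → ℕ → Prop)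
    (hper : ∀ N p, Per (2 ^ len N p) (A N p))
    (hlen : ∀ κ : ℝ, 0 < κ → ∀ᶠ N : ℕ in atTop, ∀ p ∈ S N, (2 : ℝ) ^ len N p ≤ (N : ℝ) ^ κ)
    (hPA : ∀ᶠ N : ℕ in atTop, ∀ m : ℕ, P N m → ∃ p ∈ S N, A N p m)
    (hsum : Tendsto (fun N : ℕ => Real.log N * ∑ p ∈ S N, prq (2 ^ len N p) (A N p)) atTop (𝓝 0))
    {κ : ℝ} (hκ : 0 < κ) (ε : ℝ) (hε : 0 < ε) :
    ∀ᶠ N : ℕ in atTop, (cN (St P N (Lv κ N)) N : ℝ) ≤ ε * N := by
  classical
  refine rare (St P) (St_mono P) (St_dec P) (St_ext P) ?_ hκ ε hε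
  intro κ hκ ε hε
  obtain ⟨N0, hN0⟩ := eventually_atTop.1 (descend (ε / 2) (by positivity))
  have e2 := (tendsto_rpow_atTop hκ).eventually (eventually_ge_atTop ((N0 : ℝ) + 1))
  have e3 := hsum.eventually (gt_mem_nhds (show (0 : ℝ) < ε / 4 by positivity))
  filter_upwards [tendsto_natCast_atTop_atTop.eventually (e2.and
    (Real.tendsto_log_atTop.eventually (eventually_ge_atTop (3 : ℝ)))), e3, hlen (κ / 2) (by positivity), hPA,
    eventually_ge_atTop 1] with N h1 h2 h3 h4 h5 N' hN1 hN2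
  obtain ⟨f2, f3⟩ := h1
  have hNR : (1 : ℝ) ≤ N := by exact_mod_cast h5
  have hN'0 : N0 ≤ N' ∧ 1 ≤ N' := by
    have g1 : ((N0 + 1 : ℕ) : ℝ) ≤ N' := by
      push_cast
      linarith
    have g2 : N0 + 1 ≤ N' := by exact_mod_cast g1
    omega
  have hN'R : (1 : ℝ) ≤ N' := by exact_mod_cast hN'0.2
  have g1 := hN0 N' hN'0.1
  obtain ⟨j1, j2, j3, j4⟩ := JH_facts hN'0.2
  set Λ := Real.log N with hΛ
  have hΛ0 : 0 < Λ := by linarith
  have hN'half : (N : ℝ) ^ (κ / 2) ≤ (N' : ℝ) ^ (1 / 2 : ℝ) := by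
    calc (N : ℝ) ^ (κ / 2) = ((N : ℝ) ^ κ) ^ (1 / 2 : ℝ) := by
          rw [← Real.rpow_mul (by linarith)]
          congr 1
          ring
      _ ≤ _ := Real.rpow_le_rpow (by positivity) hN1 (by norm_num)
  have hlog : Real.log N' ≤ Λ := Real.log_le_log (by linarith) (by exact_mod_cast hN2)
  -- powers of two
  have hlen2 : ∀ p ∈ S N, (2 : ℝ) ^ len N p ≤ (N' : ℝ) ^ (1 / 2 : ℝ) := fun p hp => (h3 p hp).trans hN'half
  have hJlen : ∀ p ∈ S N, ∀ s ∈ range (JH N'), 2 ^ (s + len N p) ≤ N' := by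
    intro p hp s hs
    rw [mem_range] at hs
    have k1 : ((2 : ℝ) ^ (s + len N p)) ≤ N' := by
      rw [pow_add]
      calc (2 : ℝ) ^ s * 2 ^ len N p ≤ 2 ^ JH N' * 2 ^ len N p :=
            mul_le_mul_of_nonneg_right (pow_le_pow_right₀ (by norm_num) hs.le) (by positivity)
        _ ≤ (N' : ℝ) ^ (0.35 : ℝ) * (N' : ℝ) ^ (1 / 2 : ℝ) := mul_le_mul j3 (hlen2 p hp) (by positivity) (by positivity)
        _ = (N' : ℝ) ^ (0.85 : ℝ) := by
            rw [← Real.rpow_add (by linarith)]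
            norm_num
        _ ≤ (N' : ℝ) ^ (1 : ℝ) := Real.rpow_le_rpow_of_exponent_le hN'R (by norm_num)
        _ = N' := Real.rpow_one _
    exact_mod_cast k1
  have k1 : (cN (St P N ⌊(N' : ℝ) ^ (0.99 : ℝ)⌋₊) N' : ℝ) ≤
      cN (fun n => ⌊(N' : ℝ) ^ (0.99 : ℝ)⌋₊ < T^[JH N'] n ∧ n ≤ N') N' +
      (cN (fun n => ∃ q ∈ range (JH N') ×ˢ S N, A N q.2 (T^[q.1] n)) N' +
       cN (fun _ => False) N') := by
    apply cN_or3
    intro n hn hnN hst
    obtain ⟨s, hs1, hs2⟩ := hst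
    by_cases hsJ : JH N' ≤ s
    · exact Or.inl ⟨hs1 _ hsJ, hnN⟩
    · right; left
      obtain ⟨p, hp1, hp2⟩ := h4 _ hs2
      exact ⟨(s, p), mem_product.2 ⟨mem_range.2 (not_le.1 hsJ), hp1⟩, hp2⟩
  have k2 : (cN (fun _ => False) N' : ℝ) = 0 := by
    rw [← fl_card]
    have : fl (fun _ => False) N' = ∅ := by
      ext n
      rw [mem_fl]
      simp
    rw [this]
    simp
  have k3 := cN_union (range (JH N') ×ˢ S N) (fun n => ∃ q ∈ range (JH N') ×ˢ S N, A N q.2 (T^[q.1] n))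
    (fun q n => A N q.2 (T^[q.1] n)) N' (fun n _ _ h => h)
  have k4 : ∑ q ∈ range (JH N') ×ˢ S N, (cN (fun n => A N q.2 (T^[q.1] n)) N' : ℝ) ≤
      JH N' * (2 * N' * ∑ p ∈ S N, prq (2 ^ len N p) (A N p)) := by
    calc _ ≤ ∑ q ∈ range (JH N') ×ˢ S N, 2 * (N' : ℝ) * prq (2 ^ len N q.2) (A N q.2) := by
          refine sum_le_sum fun q hq => ?_
          rw [mem_product] at hq
          exact cN_shift (hper N q.2) (hJlen q.2 hq.2 q.1 hq.1)
      _ = _ := by
          have m1 : ∀ x ∈ range (JH N'), ∑ y ∈ S N, 2 * (N' : ℝ) * prq (2 ^ len N y) (A N y) =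
              2 * N' * ∑ p ∈ S N, prq (2 ^ len N p) (A N p) := fun _ _ => (mul_sum _ _ _).symm
          rw [sum_product, sum_congr rfl m1, sum_const, card_range, nsmul_eq_mul]
  have hs0 : 0 ≤ ∑ p ∈ S N, prq (2 ^ len N p) (A N p) := sum_nonneg fun p _ => prq_nonneg _ _
  have k5 : (JH N' : ℝ) * (2 * N' * ∑ p ∈ S N, prq (2 ^ len N p) (A N p)) ≤ ε / 2 * N' := by
    have m1 : (JH N' : ℝ) ≤ Λ := by linarith
    calc (JH N' : ℝ) * (2 * N' * ∑ p ∈ S N, prq (2 ^ len N p) (A N p))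
        ≤ Λ * (2 * N' * ∑ p ∈ S N, prq (2 ^ len N p) (A N p)) := mul_le_mul_of_nonneg_right m1 (by positivity)
      _ = 2 * N' * (Λ * ∑ p ∈ S N, prq (2 ^ len N p) (A N p)) := by ring
      _ ≤ 2 * N' * (ε / 4) := mul_le_mul_of_nonneg_left h2.le (by positivity)
      _ = ε / 2 * N' := by ring
  linarith

/-- the number of the first `w` terms with the property `A` -/
noncomputable def Vc (A : ℕ → Prop) (w x : ℕ) : ℕ := by
  classical
  exact ((range w).filter fun i => A (T^[i] x)).card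

theorem Vc_eq (A : ℕ → Prop) [DecidablePred A] (w x : ℕ) : Vc A w x = ((range w).filter fun i => A (T^[i] x)).card := by
  unfold Vc
  congr

theorem Vc_add (A : ℕ → Prop) (v w x : ℕ) : Vc A (v + w) x = Vc A v x + Vc A w (T^[v] x) := by
  classical
  rw [Vc_eq, Vc_eq, Vc_eq, card_filter, card_filter, card_filter, sum_range_add]
  congr 1
  apply sum_congr rfl
  intro i _
  rw [add_comm v i, Function.iterate_add_apply]

theorem Vc_mono (A : ℕ → Prop) {v w : ℕ} (h : v ≤ w) (x : ℕ) : Vc A v x ≤ Vc A w x := by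
  obtain ⟨c, rfl⟩ := Nat.exists_eq_add_of_le h
  rw [Vc_add]
  exact Nat.le_add_right _ _

theorem Vc_le_shift (A : ℕ → Prop) {u v w : ℕ} (h : u + v ≤ w) (x : ℕ) : Vc A v (T^[u] x) ≤ Vc A w x := by
  have h1 := Vc_mono A h x
  rw [Vc_add] at h1
  omega

theorem Vc_block (A : ℕ → Prop) (k b x : ℕ) : Vc A (k * b) x = ∑ a ∈ range k, Zc k A b (T^[a] x) := by
  classical
  have h1 : ∀ a, Zc k A b (T^[a] x) = ∑ j ∈ range b, if A (T^[k * j + a] x) then 1 else 0 := by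
    intro a
    rw [Zc_eq, card_filter]
    apply sum_congr rfl
    intro j _
    rw [Function.iterate_add_apply]
  rw [sum_congr rfl fun a _ => h1 a, sum_comm]
  induction b with
  | zero => simp [Vc_eq]
  | succ b ih =>
    rw [mul_add, mul_one, Vc_add, ih (fun a => by
      rw [Zc_eq, card_filter]
      apply sum_congr rfl
      intro j _
      rw [Function.iterate_add_apply]), sum_range_succ]
    congr 1
    rw [Vc_eq, card_filter]
    apply sum_congr rfl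
    intro a _
    rw [← Function.iterate_add_apply, add_comm a]

/-- a good block -/
def Gd (A : ℕ → Prop) (k b : ℕ) (δ : ℝ) (x : ℕ) : Prop :=
  |(Vc A (k * b) x : ℝ) - prq (2 ^ k) A * (k * b)| ≤ δ * (prq (2 ^ k) A * (k * b))

theorem Gd_of {A : ℕ → Prop} {k b : ℕ} {δ : ℝ} {x : ℕ} (h : ∀ a, a < k → ¬ Dv k A b δ (T^[a] x)) : Gd A k b δ x := by
  unfold Gd
  rw [Vc_block]
  push_cast
  have h1 : ∑ a ∈ range k, (Zc k A b (T^[a] x) : ℝ) - prq (2 ^ k) A * (k * b) =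
      ∑ a ∈ range k, ((Zc k A b (T^[a] x) : ℝ) - prq (2 ^ k) A * b) := by
    rw [sum_sub_distrib, sum_const, card_range, nsmul_eq_mul]
    ring
  rw [h1]
  calc |∑ a ∈ range k, ((Zc k A b (T^[a] x) : ℝ) - prq (2 ^ k) A * b)|
      ≤ ∑ a ∈ range k, |(Zc k A b (T^[a] x) : ℝ) - prq (2 ^ k) A * b| := abs_sum_le_sum_abs _ _
    _ ≤ ∑ _a ∈ range k, δ * (prq (2 ^ k) A * b) := sum_le_sum fun a ha => not_lt.1 (h a (mem_range.1 ha))
    _ = _ := by
        rw [sum_const, card_range, nsmul_eq_mul]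
        ring

/-- windows consist of good blocks -/
theorem window {A : ℕ → Prop} {L : ℕ} (hL : 0 < L) {p δ : ℝ} (hp : 0 ≤ p) (hδ : 0 < δ) (hδ1 : δ ≤ 1) {x w : ℕ} (hw : L ≤ w)
    (hg : ∀ s, s + L ≤ w → |(Vc A L (T^[s] x) : ℝ) - p * L| ≤ δ / 2 * (p * L)) (hη : (L : ℝ) ≤ δ / 8 * w) :
    |(Vc A w x : ℝ) - p * w| ≤ δ * (p * w) := by
  set q := w / L with hq
  have hmod : w = L * q + w % L := (Nat.div_add_mod w L).symm
  have hlt : w % L < L := Nat.mod_lt _ hL
  -- full blocks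
  have key : ∀ i : ℕ, L * i ≤ w → |(Vc A (L * i) x : ℝ) - p * (L * i)| ≤ δ / 2 * (p * (L * i)) := by
    intro i
    induction i with
    | zero => intro _; simp [Vc_eq]
    | succ i ih =>
      intro hi
      have h1 := ih (by
        rw [mul_add, mul_one] at hi
        omega)
      have h2 := hg (L * i) (by rw [mul_add, mul_one] at hi; exact hi)
      rw [mul_add, mul_one, Vc_add]
      push_cast
      calc |(Vc A (L * i) x : ℝ) + Vc A L (T^[L * i] x) - p * (L * (i + 1))|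
          = |((Vc A (L * i) x : ℝ) - p * (L * i)) + ((Vc A L (T^[L * i] x) : ℝ) - p * L)| := by
            congr 1
            ring
        _ ≤ |(Vc A (L * i) x : ℝ) - p * (L * i)| + |(Vc A L (T^[L * i] x) : ℝ) - p * L| := abs_add_le _ _
        _ ≤ δ / 2 * (p * (L * i)) + δ / 2 * (p * L) := add_le_add h1 h2
        _ = _ := by ring
  have h1 := key q (Nat.mul_div_le w L)
  have h2 := hg (w - L) (by omega)
  have h3 : Vc A w x = Vc A (L * q) x + Vc A (w % L) (T^[L * q] x) := by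
    rw [← Vc_add, ← hmod]
  have h4 : Vc A (w % L) (T^[L * q] x) ≤ Vc A L (T^[w - L] x) := by
    have h5 : T^[L * q] x = T^[L - w % L] (T^[w - L] x) := by
      rw [← Function.iterate_add_apply]
      congr 1
      have : L * q = w - w % L := by omega
      rw [this]
      congr 1
      omega
    rw [h5]
    exact Vc_le_shift A (by omega) _
  have hqR : (w : ℝ) - L ≤ L * q := by
    have : w ≤ L * q + L := by omega
    have : (w : ℝ) ≤ L * q + L := by exact_mod_cast this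
    linarith
  have hqR2 : (L : ℝ) * q ≤ w := by
    have : L * q ≤ w := Nat.mul_div_le w L
    exact_mod_cast this
  have h4R : (Vc A (w % L) (T^[L * q] x) : ℝ) ≤ Vc A L (T^[w - L] x) := by exact_mod_cast h4
  have h40 : (0 : ℝ) ≤ Vc A (w % L) (T^[L * q] x) := Nat.cast_nonneg _
  rw [h3]
  push_cast
  rw [abs_le] at h1 h2 ⊢
  have hL0 : (0 : ℝ) < L := by exact_mod_cast hL
  have hw0 : (0 : ℝ) ≤ w := Nat.cast_nonneg _
  have m1 : p * ((w : ℝ) - L) ≤ p * (L * q) := mul_le_mul_of_nonneg_left hqR hp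
  have m2 : p * ((L : ℝ) * q) ≤ p * w := mul_le_mul_of_nonneg_left hqR2 hp
  have m3 : p * (L : ℝ) ≤ p * (δ / 8 * w) := mul_le_mul_of_nonneg_left hη hp
  have m4 : 0 ≤ p * (w : ℝ) := mul_nonneg hp hw0
  have m5 : 0 ≤ p * (L : ℝ) := mul_nonneg hp hL0.le
  have m6 : δ / 2 * (p * ((L : ℝ) * q)) ≤ δ / 2 * (p * w) := mul_le_mul_of_nonneg_left m2 (by positivity)
  have m7 : δ / 2 * (p * (L : ℝ)) ≤ 1 / 2 * (p * L) := mul_le_mul_of_nonneg_right (by linarith) m5
  have m8 : p * (L : ℝ) ≤ δ * (p * w) / 8 := by linarith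
  have m9 : 0 ≤ δ * (p * (w : ℝ)) := by positivity
  constructor
  · linarith [h1.1]
  · linarith [h1.2, h2.2]

end Pool.Agent.V11311.ER
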