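import Pool.Agent.V11311.ER.M

/-! Rare patterns along trajectories, part N: equidistribution modulo powers of two in short windows. -/

set_option autoImplicit false

namespace Pool.Agent.V11311.ER

open Finset Filter Topology Pool.Agent.V11311.FP Pool.Agent.V11311.RC Pool.Agent.V11311.SL

open Pool.Agent.V11311.DV (fl fl_card mem_fl)

open Pool.Agent.Helper894.Collatz (T od er od_add iter_eq sum_pow_od period)

open Pool.Agent.H377R2 (iter_pos)

/-- the residue class `r` modulo `2 ^ k` -/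
def Cr (k r y : ℕ) : Prop := y % 2 ^ k = r

theorem Cr_per (k r : ℕ) : Per (2 ^ k) (Cr k r) := by
  intro x
  unfold Cr
  rw [Nat.mod_mod]

theorem Cr_prq {k r : ℕ} (hr : r < 2 ^ k) : prq (2 ^ k) (Cr k r) = 1 / 2 ^ k := by
  classical
  rw [prq_eq]
  have : (range (2 ^ k)).filter (Cr k r) = {r} := by
    ext x
    simp only [mem_filter, mem_range, mem_singleton, Cr]
    constructor
    · rintro ⟨h1, h2⟩
      rwa [Nat.mod_eq_of_lt h1] at h2
    · rintro rfl
      exact ⟨hr, Nat.mod_eq_of_lt hr⟩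
  rw [this, card_singleton]
  push_cast
  rfl

/-- the number of blocks -/
noncomputable def bb (C : ℝ) (N k : ℕ) : ℕ := ⌈C * 2 ^ k * Real.log (Real.log N)⌉₊

/-- the bound for the modulus -/
noncomputable def KK (N : ℕ) : ℕ := ⌊2 * Real.log (Real.log N)⌋₊ + 1

/-- the indices -/
noncomputable def SS (e : ℝ) (N : ℕ) : Finset (ℕ × ℕ × ℕ) := by
  classical
  exact ((range (KK N)) ×ˢ ((range (2 ^ KK N)) ×ˢ (range (KK N)))).filter
    (fun p => 1 ≤ p.1 ∧ (2 : ℝ) ^ p.1 ≤ Real.log N ^ (1 - e) ∧ p.2.1 < 2 ^ p.1 ∧ p.2.2 < p.1)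

theorem mem_SS {e : ℝ} {N : ℕ} {p : ℕ × ℕ × ℕ} (hp : p ∈ SS e N) :
    1 ≤ p.1 ∧ (2 : ℝ) ^ p.1 ≤ Real.log N ^ (1 - e) ∧ p.2.1 < 2 ^ p.1 ∧ p.2.2 < p.1 ∧ p.1 < KK N := by
  classical
  unfold SS at hp
  rw [mem_filter, mem_product, mem_range] at hp
  exact ⟨hp.2.1, hp.2.2.1, hp.2.2.2.1, hp.2.2.2.2, hp.1.1⟩

theorem SS_card (e : ℝ) (N : ℕ) : ((SS e N).card : ℝ) ≤ 8 ^ KK N := by
  classical
  have h1 : (SS e N).card ≤ KK N * (2 ^ KK N * KK N) := by
    unfold SS
    refine (card_filter_le _ _).trans ?_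
    rw [card_product, card_product, card_range, card_range]
  have h2 : KK N * (2 ^ KK N * KK N) ≤ 8 ^ KK N := by
    have h3 : KK N ≤ 2 ^ KK N := Nat.lt_two_pow_self.le
    calc KK N * (2 ^ KK N * KK N) ≤ 2 ^ KK N * (2 ^ KK N * 2 ^ KK N) :=
          Nat.mul_le_mul h3 (Nat.mul_le_mul_left _ h3)
      _ = 8 ^ KK N := by
          rw [← mul_pow, ← mul_pow]
          norm_num
  exact_mod_cast h1.trans h2

theorem KK_le {N : ℕ} (h : 1 ≤ Real.log (Real.log N)) : (KK N : ℝ) ≤ 2 * Real.log (Real.log N) + 1 := by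
  unfold KK
  push_cast
  have := Nat.floor_le (show 0 ≤ 2 * Real.log (Real.log N) by linarith)
  linarith

theorem lt_KK {e : ℝ} (he : 0 < e) {N k : ℕ} (h : 1 ≤ Real.log (Real.log N)) (hk : (2 : ℝ) ^ k ≤ Real.log N ^ (1 - e)) :
    k < KK N := by
  have hΛ : 1 ≤ Real.log N := by
    by_contra hcon
    push Not at hcon
    have := Real.log_nonpos (Real.log_natCast_nonneg N) hcon.le
    linarith
  have h1 : (2 : ℝ) ^ k ≤ Real.log N := by
    refine hk.trans ?_
    calc Real.log N ^ (1 - e) ≤ Real.log N ^ (1 : ℝ) := Real.rpow_le_rpow_of_exponent_le hΛ (by linarith)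
      _ = _ := Real.rpow_one _
  have h2 := Real.log_le_log (by positivity) h1
  rw [Real.log_pow] at h2
  have h3 : (1 / 2 : ℝ) ≤ Real.log 2 := by have := Real.log_two_gt_d9; linarith
  have h4 : (k : ℝ) ≤ 2 * Real.log (Real.log N) := by
    have : (0 : ℝ) ≤ k := Nat.cast_nonneg _
    nlinarith
  unfold KK
  exact Nat.lt_succ_of_le (Nat.le_floor h4)

/-- a bad window -/
def Bd (C δ e : ℝ) (N m : ℕ) : Prop :=
  ∃ k r, 1 ≤ k ∧ (2 : ℝ) ^ k ≤ Real.log N ^ (1 - e) ∧ r < 2 ^ k ∧ ¬ Gd (Cr k r) k (bb C N k) δ m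

theorem Bd_rare {C δ e κ : ℝ} (he : 0 < e) (he1 : e < 1) (hδ : 0 < δ) (hδ1 : δ ≤ 1) (hC : C = 24 / δ ^ 2)
    (hκ : 0 < κ) (ε : ℝ) (hε : 0 < ε) :
    ∀ᶠ N : ℕ in atTop, (cN (St (Bd C δ e) N (Lv κ N)) N : ℝ) ≤ ε * N := by
  have hC0 : 0 < C := by rw [hC]; positivity
  have hl1 : ∀ᶠ N : ℕ in atTop, (1 : ℝ) ≤ Real.log (Real.log N) := ll_tendsto.eventually (eventually_ge_atTop 1)
  have hlog : Tendsto (fun N : ℕ => Real.log (N : ℝ)) atTop atTop :=
    Real.tendsto_log_atTop.comp tendsto_natCast_atTop_atTop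
  refine St_rare2 (ι := ℕ × ℕ × ℕ) _ (SS e) (fun N p => p.2.2 + p.1 * bb C N p.1)
    (fun N p m => Dv p.1 (Cr p.1 p.2.1) (bb C N p.1) δ (T^[p.2.2] m)) ?_ ?_ ?_ ?_ hκ ε hε
  · intro N p
    exact Per.shift (Dv_per (Cr_per _ _) _ _)
  · intro κ hκ
    have e1 : ∀ᶠ X : ℝ in atTop, Real.log X ≤ X ^ (e / 4) := by
      filter_upwards [(isLittleO_log_rpow_atTop (by positivity : (0 : ℝ) < e / 4)).bound one_pos,
        eventually_ge_atTop (1 : ℝ)] with X h1 h3
      rwa [Real.norm_of_nonneg (Real.log_nonneg h3), Real.norm_of_nonneg (by positivity), one_mul] at h1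
    have e2 : ∀ᶠ X : ℝ in atTop, (12 + 9 * C) / κ ≤ X ^ (e / 2) :=
      (tendsto_rpow_atTop (by positivity)).eventually (eventually_ge_atTop _)
    filter_upwards [hl1, hlog.eventually (e1.and (e2.and (eventually_ge_atTop (3 : ℝ))))] with N h1 h2 p hp
    obtain ⟨f1, f2, f3⟩ := h2
    obtain ⟨g1, g2, g3, g4, g5⟩ := mem_SS hp
    set Λ := Real.log N with hΛ
    set ℓ := Real.log Λ with hℓ
    have hΛ0 : 0 < Λ := by linarith
    have hN0 : (0 : ℝ) < N := by
      by_contra hcon
      push Not at hcon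
      have : (N : ℝ) = 0 := le_antisymm hcon (Nat.cast_nonneg _)
      rw [hΛ, this, Real.log_zero] at hΛ0
      exact lt_irrefl _ hΛ0
    have k1 : (p.1 : ℝ) ≤ 3 * ℓ := by
      have m1 : (p.1 : ℝ) ≤ KK N := by exact_mod_cast g5.le
      have m2 := KK_le h1
      linarith
    have k2 : (bb C N p.1 : ℝ) ≤ C * 2 ^ p.1 * ℓ + 1 := (Nat.ceil_lt_add_one (by positivity)).le
    have k3 : (bb C N p.1 : ℝ) ≤ C * Λ ^ (1 - e) * ℓ + 1 := by
      refine k2.trans ?_
      have : C * 2 ^ p.1 * ℓ ≤ C * Λ ^ (1 - e) * ℓ :=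
        mul_le_mul_of_nonneg_right (mul_le_mul_of_nonneg_left g2 hC0.le) (by linarith)
      linarith
    have hℓ2 : ℓ * ℓ ≤ Λ ^ (e / 2) := by
      calc ℓ * ℓ ≤ Λ ^ (e / 4) * Λ ^ (e / 4) := mul_le_mul f1 f1 (by linarith) (by positivity)
        _ = Λ ^ (e / 2) := by rw [← Real.rpow_add hΛ0]; congr 1; ring
    have k4 : ((p.2.2 + p.1 * bb C N p.1 : ℕ) : ℝ) ≤ κ * Λ := by
      push_cast
      have m1 : (p.2.2 : ℝ) ≤ 3 * ℓ := by
        have : (p.2.2 : ℝ) ≤ p.1 := by exact_mod_cast g4.le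
        linarith
      have m2 : (p.1 : ℝ) * bb C N p.1 ≤ 3 * ℓ * (C * Λ ^ (1 - e) * ℓ + 1) :=
        mul_le_mul k1 k3 (Nat.cast_nonneg _) (by linarith)
      have m3 : (1 : ℝ) ≤ Λ ^ (1 - e) := Real.one_le_rpow (by linarith) (by linarith)
      have m4 : ℓ ≤ ℓ * ℓ := by nlinarith
      have m5 : Λ ^ (1 - e) * Λ ^ (e / 2) * Λ ^ (e / 2) = Λ := by
        rw [← Real.rpow_add hΛ0, ← Real.rpow_add hΛ0]
        have : 1 - e + e / 2 + e / 2 = 1 := by ring
        rw [this, Real.rpow_one]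
      calc (p.2.2 : ℝ) + p.1 * bb C N p.1 ≤ 3 * ℓ + 3 * ℓ * (C * Λ ^ (1 - e) * ℓ + 1) := add_le_add m1 m2
        _ = 6 * ℓ + 3 * C * (Λ ^ (1 - e) * (ℓ * ℓ)) := by ring
        _ ≤ 6 * (Λ ^ (1 - e) * (ℓ * ℓ)) + 3 * C * (Λ ^ (1 - e) * (ℓ * ℓ)) := by
            have : ℓ ≤ Λ ^ (1 - e) * (ℓ * ℓ) := by nlinarith
            linarith
        _ = (6 + 3 * C) * (Λ ^ (1 - e) * (ℓ * ℓ)) := by ring
        _ ≤ (6 + 3 * C) * (Λ ^ (1 - e) * Λ ^ (e / 2)) := by
            apply mul_le_mul_of_nonneg_left _ (by positivity)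
            exact mul_le_mul_of_nonneg_left hℓ2 (by positivity)
        _ ≤ (κ * Λ ^ (e / 2)) * (Λ ^ (1 - e) * Λ ^ (e / 2)) := by
            apply mul_le_mul_of_nonneg_right _ (by positivity)
            rw [div_le_iff₀ hκ] at f2
            linarith
        _ = κ * (Λ ^ (1 - e) * Λ ^ (e / 2) * Λ ^ (e / 2)) := by ring
        _ = κ * Λ := by rw [m5]
    calc (2 : ℝ) ^ (p.2.2 + p.1 * bb C N p.1) = Real.exp (((p.2.2 + p.1 * bb C N p.1 : ℕ) : ℝ) * Real.log 2) := by
          rw [Real.exp_nat_mul, Real.exp_log (by norm_num)]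
      _ ≤ Real.exp (Λ * κ) := by
          apply Real.exp_le_exp.2
          have hl2 : Real.log 2 < 1 := by have := Real.log_two_lt_d9; linarith
          have hl2' : 0 < Real.log 2 := Real.log_pos (by norm_num)
          have m0 : (0 : ℝ) ≤ ((p.2.2 + p.1 * bb C N p.1 : ℕ) : ℝ) := Nat.cast_nonneg _
          nlinarith
      _ = (N : ℝ) ^ κ := by rw [Real.rpow_def_of_pos hN0]
  · filter_upwards [hl1] with N h1 m hm
    classical
    obtain ⟨k, r, g1, g2, g3, g4⟩ := hm
    have g5 : ∃ a, a < k ∧ Dv k (Cr k r) (bb C N k) δ (T^[a] m) := by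
      by_contra hcon
      push Not at hcon
      exact g4 (Gd_of hcon)
    obtain ⟨a, ha1, ha2⟩ := g5
    refine ⟨(k, r, a), ?_, ha2⟩
    have hk := lt_KK he h1 g2
    unfold SS
    rw [mem_filter, mem_product, mem_product, mem_range, mem_range, mem_range]
    exact ⟨⟨hk, g3.trans_le (Nat.pow_le_pow_right (by norm_num) hk.le), ha1.trans hk⟩, g1, g2, g3, ha1⟩
  · have h1 : Tendsto (fun N : ℕ => (16 * Real.exp 3) * (Real.log N) ^ (-(0.8 : ℝ))) atTop (𝓝 0) := by
      have h2 := (tendsto_rpow_neg_atTop (show (0 : ℝ) < 0.8 by norm_num)).comp hlog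
      have h3 := h2.const_mul (16 * Real.exp 3)
      rw [mul_zero] at h3
      exact h3
    refine squeeze_zero' ?_ ?_ h1
    · filter_upwards with N
      exact mul_nonneg (Real.log_natCast_nonneg N) (sum_nonneg fun p _ => prq_nonneg _ _)
    · filter_upwards [hl1, hlog.eventually (eventually_ge_atTop (3 : ℝ))] with N g1 g2
      set Λ := Real.log N with hΛ
      set ℓ := Real.log Λ with hℓ
      have hΛ0 : 0 < Λ := by linarith
      have k1 : ∑ p ∈ SS e N, prq (2 ^ (p.2.2 + p.1 * bb C N p.1))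
          (fun m => Dv p.1 (Cr p.1 p.2.1) (bb C N p.1) δ (T^[p.2.2] m)) ≤ 8 ^ KK N * (2 * Λ ^ (-6 : ℝ)) := by
        calc _ ≤ ∑ _p ∈ SS e N, 2 * Λ ^ (-6 : ℝ) := by
              refine sum_le_sum fun p hp => ?_
              obtain ⟨m1, m2, m3, m4, m5⟩ := mem_SS hp
              have m6 := prq_shift (i := p.2.2) (Dv_per (Cr_per p.1 p.2.1) (bb C N p.1) δ)
              rw [m6]
              refine (Dv_pr (Cr_per p.1 p.2.1) (bb C N p.1) hδ hδ1).trans ?_
              apply mul_le_mul_of_nonneg_left _ (by norm_num)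
              rw [Cr_prq m3, Real.rpow_def_of_pos hΛ0]
              apply Real.exp_le_exp.2
              have m7 : C * 2 ^ p.1 * ℓ ≤ bb C N p.1 := Nat.le_ceil _
              have m8 : C * ℓ ≤ 1 / 2 ^ p.1 * bb C N p.1 := by
                rw [one_div, inv_mul_eq_div, le_div_iff₀ (by positivity)]
                linarith
              have m9 : δ ^ 2 / 4 * (C * ℓ) ≤ δ ^ 2 / 4 * (1 / 2 ^ p.1 * bb C N p.1) :=
                mul_le_mul_of_nonneg_left m8 (by positivity)
              have m10 : δ ^ 2 / 4 * (C * ℓ) = 6 * ℓ := by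
                rw [hC]
                field_simp
                ring
              linarith
          _ = (SS e N).card * (2 * Λ ^ (-6 : ℝ)) := by rw [sum_const, nsmul_eq_mul]
          _ ≤ _ := mul_le_mul_of_nonneg_right (SS_card e N) (by positivity)
      have k2 : (8 : ℝ) ^ KK N ≤ 8 * (Real.exp 3 * Λ ^ (4.2 : ℝ)) := by
        have m1 := KK_le g1
        have m2 : Real.log 8 ≤ 2.1 := by
          rw [show (8 : ℝ) = 2 ^ 3 by norm_num, Real.log_pow]
          have := Real.log_two_lt_d9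
          push_cast
          linarith
        have m3 : 0 < Real.log 8 := Real.log_pos (by norm_num)
        calc (8 : ℝ) ^ KK N = Real.exp (KK N * Real.log 8) := by rw [Real.exp_nat_mul, Real.exp_log (by norm_num)]
          _ ≤ Real.exp (3 + ℓ * 4.2) := by
              apply Real.exp_le_exp.2
              have : (0 : ℝ) ≤ KK N := Nat.cast_nonneg _
              nlinarith
          _ = Real.exp 3 * Λ ^ (4.2 : ℝ) := by rw [Real.exp_add, Real.rpow_def_of_pos hΛ0]
          _ ≤ _ := by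
              have : 0 < Real.exp 3 * Λ ^ (4.2 : ℝ) := by positivity
              linarith
      refine (mul_le_mul_of_nonneg_left (k1.trans (mul_le_mul_of_nonneg_right k2 (by positivity))) hΛ0.le).trans
        (le_of_eq ?_)
      calc Λ * (8 * (Real.exp 3 * Λ ^ (4.2 : ℝ)) * (2 * Λ ^ (-6 : ℝ)))
          = 16 * Real.exp 3 * (Λ ^ (1 : ℝ) * Λ ^ (4.2 : ℝ) * Λ ^ (-6 : ℝ)) := by
            rw [Real.rpow_one]
            ring
        _ = 16 * Real.exp 3 * Λ ^ (-(0.8 : ℝ)) := by
            rw [← Real.rpow_add hΛ0, ← Real.rpow_add hΛ0]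
            norm_num

/-- equidistribution in windows of the trajectory of `n` above `n ^ κ` -/
def Eq (C δ e κ : ℝ) (n : ℕ) : Prop :=
  ∀ k s w : ℕ, 1 ≤ k → (2 : ℝ) ^ k ≤ Real.log n ^ (1 - e) → C * k * 2 ^ k * Real.log (Real.log n) ≤ w →
    (∀ s', s' < s + w → (n : ℝ) ^ κ < (T^[s'] n : ℕ)) →
    ∀ r, r < 2 ^ k → |(Vc (Cr k r) w (T^[s] n) : ℝ) - w / 2 ^ k| ≤ δ * (w / 2 ^ k)

/-- **equidistribution modulo powers of two in short windows** -/
theorem window_law {δ : ℝ} (hδ : 0 < δ) (hδ1 : δ ≤ 1) : ∃ C : ℝ, 0 < C ∧ ∀ e κ : ℝ, 0 < e → e < 1 → 0 < κ →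
    HasD (Eq C δ e κ) 1 := by
  set C' : ℝ := 24 / (δ / 2) ^ 2 with hC'
  have hC'0 : 0 < C' := by positivity
  have hC'24 : 24 ≤ C' := by
    rw [hC', le_div_iff₀ (by positivity)]
    nlinarith
  refine ⟨32 * C' / δ, by positivity, fun e κ he he1 hκ => ?_⟩
  apply hasD_one
  intro ε hε
  filter_upwards [small_rare (ε / 2) (by positivity),
    Bd_rare (C := C') (δ := δ / 2) (e := e) (κ := κ / 2) he he1 (by positivity) (by linarith) hC' (by positivity) (ε / 2)
      (by positivity),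
    ll_tendsto.eventually (eventually_ge_atTop 2), eventually_ge_atTop 3,
    (Real.tendsto_log_atTop.comp tendsto_natCast_atTop_atTop).eventually (eventually_ge_atTop 3)] with N h1 h2 h4 h5 h6
  rw [Function.comp_apply] at h6
  have hNR : (3 : ℝ) ≤ N := by exact_mod_cast h5
  have h7 := cN_or3 (P := fun n => ¬ Eq (32 * C' / δ) δ e κ n) (A := fun n => (n : ℝ) < Real.sqrt N)
    (B := fun _ => False) (C := St (Bd C' (δ / 2) e) N (Lv (κ / 2) N)) (N := N)
    (fun n hn hnN hbad => by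
      rcases lt_or_ge (n : ℝ) (Real.sqrt N) with h | h
      · exact Or.inl h
      · right; right
        obtain ⟨g1, g2⟩ := loglog h h5 h6
        unfold Eq at hbad
        push Not at hbad
        obtain ⟨k, s, w, b1, b2, b3, b4, r, b5, b6⟩ := hbad
        have hnR : (n : ℝ) ≤ N := by exact_mod_cast hnN
        have hn0 : (0 : ℝ) < n := by exact_mod_cast hn
        have b2' : (2 : ℝ) ^ k ≤ Real.log N ^ (1 - e) :=
          b2.trans (Real.rpow_le_rpow g2.le (Real.log_le_log hn0 hnR) (by linarith))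
        set L := k * bb C' N k with hL
        have hbb : 1 ≤ bb C' N k := by
          unfold bb
          exact Nat.ceil_pos.2 (by
            have : 0 < Real.log (Real.log N) := by linarith
            positivity)
        have hL0 : 0 < L := Nat.mul_pos (by omega) (by omega)
        have hLw : (L : ℝ) ≤ δ / 8 * w := by
          have m1 : (bb C' N k : ℝ) ≤ C' * 2 ^ k * Real.log (Real.log N) + 1 := (Nat.ceil_lt_add_one (by
            have : 0 < Real.log (Real.log N) := by linarith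
            positivity)).le
          have m2 : (1 : ℝ) ≤ C' * 2 ^ k * Real.log (Real.log N) := by
            have : (1 : ℝ) ≤ 2 ^ k := one_le_pow₀ (by norm_num)
            have : (1 : ℝ) ≤ C' * 2 ^ k := by nlinarith
            nlinarith
          have hk0 : (0 : ℝ) < k := by exact_mod_cast b1
          have m3 : (L : ℝ) ≤ k * (2 * (C' * 2 ^ k * Real.log (Real.log N))) := by
            rw [hL]
            push_cast
            exact mul_le_mul_of_nonneg_left (by linarith) hk0.le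
          have m4 : Real.log (Real.log N) ≤ 2 * Real.log (Real.log n) := by linarith
          have m5 : (k : ℝ) * (2 * (C' * 2 ^ k * Real.log (Real.log N))) ≤
              k * (2 * (C' * 2 ^ k * (2 * Real.log (Real.log n)))) := by
            apply mul_le_mul_of_nonneg_left _ hk0.le
            apply mul_le_mul_of_nonneg_left _ (by norm_num)
            exact mul_le_mul_of_nonneg_left m4 (by positivity)
          have m6 : (k : ℝ) * (2 * (C' * 2 ^ k * (2 * Real.log (Real.log n)))) =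
              δ / 8 * (32 * C' / δ * k * 2 ^ k * Real.log (Real.log n)) := by
            field_simp
            ring
          have m7 : δ / 8 * (32 * C' / δ * k * 2 ^ k * Real.log (Real.log n)) ≤ δ / 8 * w :=
            mul_le_mul_of_nonneg_left b3 (by positivity)
          linarith
        have hLw' : L ≤ w := by
          have : (L : ℝ) ≤ w := by
            have : (0 : ℝ) ≤ w := Nat.cast_nonneg _
            nlinarith
          exact_mod_cast this
        -- some base window is bad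
        by_contra hcon
        have hgood : ∀ u, u + L ≤ w → |(Vc (Cr k r) L (T^[u] (T^[s] n)) : ℝ) - 1 / 2 ^ k * L| ≤
            δ / 2 / 1 * (1 / 2 ^ k * L) := by
          intro u hu
          by_contra hc2
          apply hcon
          refine ⟨u + s, fun s' hs' => Lv_lt hκ h (b4 s' (by omega)), k, r, b1, b2', b5, ?_⟩
          intro hG
          apply hc2
          unfold Gd at hG
          rw [Cr_prq b5, Function.iterate_add_apply] at hG
          rw [div_one, hL]
          push_cast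
          exact hG
        have hfin := window hL0 (p := 1 / 2 ^ k) (by positivity) hδ hδ1 hLw' (fun u hu => by
          have := hgood u hu
          rwa [div_one] at this) hLw
        rw [one_div_mul_eq_div] at hfin
        exact absurd hfin (not_le.2 b6))
  have h8 : (cN (fun _ => False) N : ℝ) = 0 := by
    rw [← fl_card]
    have : fl (fun _ => False) N = ∅ := by
      ext n
      rw [mem_fl]
      simp
    rw [this]
    simp
  linarith

end Pool.Agent.V11311.ER
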