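import Pool.Agent.V11311.ER.Q

/-! Common blocks of two trajectories, part 1: the number of terms above `n ^ κ`. -/

set_option autoImplicit false

namespace Pool.Agent.V11311.ER

open Finset Filter Topology Pool.Agent.V11311.FP Pool.Agent.V11311.RC Pool.Agent.V11311.SL

open Pool.Agent.V11311.DV (fl fl_card mem_fl)

open Pool.Agent.Helper894.Collatz (T od er od_add iter_eq sum_pow_od period)

open Pool.Agent.H377R2 (iter_pos)

theorem rho_bd : (3 : ℝ) ^ (0.55 : ℝ) / 2 ≤ Real.exp (-0.08) := by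
  have h3 : Real.log 3 ≤ 1.1 := by
    rw [Real.log_le_iff_le_exp (by norm_num)]
    have h1 : Real.exp 1.1 = Real.exp 1 * Real.exp 0.1 := by rw [← Real.exp_add]; norm_num
    have h2 := Real.exp_one_gt_d9
    have h4 := Real.quadratic_le_exp_of_nonneg (show (0 : ℝ) ≤ 0.1 by norm_num)
    rw [h1]
    have h5 : (1.105 : ℝ) ≤ Real.exp 0.1 := by
      refine le_trans ?_ h4
      norm_num
    nlinarith [Real.exp_pos 0.1]
  have hl2 := Real.log_two_gt_d9
  rw [Real.rpow_def_of_pos (by norm_num), div_le_iff₀ (by norm_num)]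
  calc Real.exp (Real.log 3 * 0.55) ≤ Real.exp (-0.08 + Real.log 2) := Real.exp_le_exp.2 (by linarith)
    _ = Real.exp (-0.08) * 2 := by rw [Real.exp_add, Real.exp_log (by norm_num)]

/-- one window -/
theorem contr {w m : ℕ} (hw : 24 ≤ w) (hod : (od w m : ℝ) ≤ 0.55 * w) (hm : (w : ℝ) * 2 ^ w ≤ Real.exp (-(0.08 * w)) * m) :
    (T^[w] m : ℝ) ≤ Real.exp (-(0.05 * w)) * m := by
  have h1 := iter_upper w m
  have hm0 : (0 : ℝ) ≤ m := Nat.cast_nonneg _
  have h2 : (3 : ℝ) ^ od w m / 2 ^ w ≤ Real.exp (-(0.08 * w)) := by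
    calc (3 : ℝ) ^ od w m / 2 ^ w ≤ (3 : ℝ) ^ (0.55 * (w : ℝ)) / 2 ^ w := by
          apply div_le_div_of_nonneg_right _ (by positivity)
          rw [← Real.rpow_natCast]
          exact Real.rpow_le_rpow_of_exponent_le (by norm_num) hod
      _ = ((3 : ℝ) ^ (0.55 : ℝ) / 2) ^ w := by
          rw [div_pow, ← Real.rpow_natCast ((3 : ℝ) ^ (0.55 : ℝ)) w, ← Real.rpow_mul (by norm_num)]
      _ ≤ Real.exp (-0.08) ^ w := pow_le_pow_left₀ (by positivity) rho_bd w
      _ = Real.exp (-(0.08 * w)) := by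
          rw [← Real.exp_nat_mul]
          congr 1
          ring
  have h3 : (T^[w] m : ℝ) ≤ 2 * Real.exp (-(0.08 * w)) * m := by
    have := mul_le_mul_of_nonneg_right h2 hm0
    linarith
  refine h3.trans (mul_le_mul_of_nonneg_right ?_ hm0)
  have hwR : (24 : ℝ) ≤ w := by exact_mod_cast hw
  calc 2 * Real.exp (-(0.08 * w)) ≤ Real.exp 0.72 * Real.exp (-(0.08 * w)) := by
        apply mul_le_mul_of_nonneg_right _ (Real.exp_pos _).le
        have : Real.log 2 ≤ 0.72 := by have := Real.log_two_lt_d9; linarith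
        rw [Real.log_le_iff_le_exp (by norm_num)] at this
        exact this
    _ = Real.exp (0.72 - 0.08 * w) := by rw [← Real.exp_add]; congr 1
    _ ≤ _ := Real.exp_le_exp.2 (by linarith)

/-- the number of terms above `n ^ κ` -/
theorem short_law {κ : ℝ} (hκ : 0 < κ) :
    HasD (fun n => ∀ t : ℕ, (∀ t', t' ≤ t → (n : ℝ) ^ κ < (T^[t'] n : ℕ)) → (t : ℝ) ≤ 21 * Real.log n) 1 := by
  obtain ⟨C, hC0, hC⟩ := window_law (δ := 1 / 10) (by norm_num) (by norm_num)
  have hlog : Tendsto (fun N : ℕ => Real.log (N : ℝ)) atTop atTop :=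
    Real.tendsto_log_atTop.comp tendsto_natCast_atTop_atTop
  set D : ℝ := 2 * C + 1 with hD
  have e1 : ∀ᶠ X : ℝ in atTop, D * Real.log X ≤ X := by
    filter_upwards [Real.isLittleO_log_id_atTop.bound (show 0 < 1 / D by positivity),
      eventually_ge_atTop (1 : ℝ)] with X h1 h3
    rw [Real.norm_of_nonneg (Real.log_nonneg h3), id, Real.norm_of_nonneg (by linarith), one_div_mul_eq_div,
      le_div_iff₀ (by positivity)] at h1
    linarith
  have e2 : ∀ᶠ X : ℝ in atTop, 2 * (D * Real.log X) ≤ κ * X := by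
    filter_upwards [Real.isLittleO_log_id_atTop.bound (show 0 < κ / (2 * D) by positivity),
      eventually_ge_atTop (1 : ℝ)] with X h1 h3
    rw [Real.norm_of_nonneg (Real.log_nonneg h3), id, Real.norm_of_nonneg (by linarith), div_mul_eq_mul_div,
      le_div_iff₀ (by positivity)] at h1
    linarith
  have e3 : ∀ᶠ X : ℝ in atTop, (2 : ℝ) ≤ X ^ (1 - 1 / 2 : ℝ) :=
    (tendsto_rpow_atTop (by norm_num)).eventually (eventually_ge_atTop _)
  obtain ⟨n0, hn0⟩ := eventually_atTop.1 ((hlog.eventually (e1.and (e2.and (e3.and (eventually_ge_atTop (3 : ℝ)))))).and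
    ((ll_tendsto.eventually (eventually_ge_atTop (24 / (2 * C)))).and
      ((ll_tendsto.eventually (eventually_ge_atTop 1)).and (eventually_ge_atTop 3))))
  refine hasD_mono_one (tail_dens (hC (1 / 2) κ (by norm_num) (by norm_num) hκ) n0) ?_
  rintro n hn ⟨hE, hnn⟩ t ht
  obtain ⟨⟨f1, f2, f3, f4⟩, f5, f6, f7⟩ := hn0 n hnn
  set Λ := Real.log n with hΛ
  set ℓ := Real.log Λ with hℓ
  have hΛ0 : 0 < Λ := by linarith
  have hn0' : (0 : ℝ) < n := by exact_mod_cast hn
  set w := ⌈C * (1 : ℕ) * 2 ^ 1 * ℓ⌉₊ with hw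
  have hw1 : C * (1 : ℕ) * 2 ^ 1 * ℓ ≤ w := Nat.le_ceil _
  have hw2 : (w : ℝ) ≤ D * ℓ := by
    have : (w : ℝ) ≤ C * (1 : ℕ) * 2 ^ 1 * ℓ + 1 := (Nat.ceil_lt_add_one (by positivity)).le
    rw [hD]
    push_cast at this
    linarith
  have hw24 : 24 ≤ w := by
    have : (24 : ℝ) ≤ w := by
      rw [div_le_iff₀ (by positivity)] at f5
      push_cast at hw1
      linarith
    exact_mod_cast this
  -- the error term
  have herr : ∀ m : ℕ, (n : ℝ) ^ κ < m → (w : ℝ) * 2 ^ w ≤ Real.exp (-(0.08 * w)) * m := by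
    intro m hm
    have h1 : (w : ℝ) * 2 ^ w ≤ Real.exp (1.5 * w) := by
      have h2 : (w : ℝ) ≤ 2 ^ w := by exact_mod_cast Nat.lt_two_pow_self.le
      calc (w : ℝ) * 2 ^ w ≤ 2 ^ w * 2 ^ w := mul_le_mul_of_nonneg_right h2 (by positivity)
        _ = Real.exp (w * Real.log 4) := by
            rw [Real.exp_nat_mul, Real.exp_log (by norm_num), ← mul_pow]
            norm_num
        _ ≤ Real.exp (1.5 * w) := by
            apply Real.exp_le_exp.2
            have h4 : Real.log 4 ≤ 1.5 := by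
              rw [show (4 : ℝ) = 2 ^ 2 by norm_num, Real.log_pow]
              have := Real.log_two_lt_d9
              push_cast
              linarith
            have : (0 : ℝ) ≤ w := Nat.cast_nonneg _
            nlinarith
    have h2 : Real.exp (1.58 * w) ≤ (n : ℝ) ^ κ := by
      rw [Real.rpow_def_of_pos hn0']
      apply Real.exp_le_exp.2
      have : (0 : ℝ) ≤ w := Nat.cast_nonneg _
      nlinarith
    calc (w : ℝ) * 2 ^ w ≤ Real.exp (1.5 * w) := h1
      _ = Real.exp (-(0.08 * w)) * Real.exp (1.58 * w) := by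
          rw [← Real.exp_add]
          congr 1
          ring
      _ ≤ Real.exp (-(0.08 * w)) * m := mul_le_mul_of_nonneg_left (h2.trans hm.le) (Real.exp_pos _).le
  -- the descent
  have key : ∀ q : ℕ, w * q ≤ t → (T^[w * q] n : ℝ) ≤ Real.exp (-(0.05 * (w * q))) * n := by
    intro q
    induction q with
    | zero => intro _; simp
    | succ q ih =>
      intro hq
      have hq' : w * q + w ≤ t := by rw [mul_add, mul_one] at hq; exact hq
      have h1 := ih (by omega)
      have h2 := hE 1 (w * q) w le_rfl (by rw [pow_one]; exact f3) hw1 (fun s' hs' => ht s' (by omega)) 1 (by norm_num)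
      rw [Vc_odd] at h2
      have h3 : (od w (T^[w * q] n) : ℝ) ≤ 0.55 * w := by
        have := (abs_le.1 h2).2
        rw [pow_one] at this
        linarith
      have h4 := contr hw24 h3 (herr _ (ht (w * q) (by omega)))
      rw [mul_add, mul_one, add_comm (w * q) w, Function.iterate_add_apply]
      refine h4.trans ?_
      calc Real.exp (-(0.05 * w)) * (T^[w * q] n : ℝ) ≤ Real.exp (-(0.05 * w)) * (Real.exp (-(0.05 * (w * q))) * n) :=
            mul_le_mul_of_nonneg_left h1 (Real.exp_pos _).le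
        _ = _ := by
            rw [← mul_assoc, ← Real.exp_add]
            congr 2
            push_cast
            ring
  have h1 := key (t / w) (Nat.mul_div_le t w)
  have h2 := ht (w * (t / w)) (Nat.mul_div_le t w)
  have h3 : (1 : ℝ) ≤ (n : ℝ) ^ κ := Real.one_le_rpow (by exact_mod_cast hn) hκ.le
  have h4 : 1 < Real.exp (-(0.05 * (w * (t / w : ℕ)))) * n := by
    push_cast at h1 ⊢
    linarith
  have h5 : 0.05 * ((w : ℝ) * (t / w : ℕ)) < Λ := by
    rw [Real.exp_neg, inv_mul_eq_div, one_lt_div (Real.exp_pos _)] at h4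
    rw [hΛ, Real.lt_log_iff_exp_lt hn0']
    exact h4
  have h6 : (t : ℝ) ≤ w * (t / w : ℕ) + w := by
    have h7 : t = w * (t / w) + t % w := (Nat.div_add_mod t w).symm
    have h8 : t % w < w := Nat.mod_lt _ (by omega)
    have h9 : t ≤ w * (t / w) + w := by omega
    exact_mod_cast h9
  have h7 : (w : ℝ) ≤ Λ := hw2.trans f1
  linarith

end Pool.Agent.V11311.ER
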