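import Pool.Agent.V11311.ER.R1

/-! Common blocks of two trajectories, part 2: hitting sets of residue classes. -/

set_option autoImplicit false

namespace Pool.Agent.V11311.ER

open Finset Filter Topology Pool.Agent.V11311.FP Pool.Agent.V11311.RC Pool.Agent.V11311.SL

open Pool.Agent.V11311.DV (fl fl_card mem_fl)

open Pool.Agent.Helper894.Collatz (T od er od_add iter_eq sum_pow_od period)

open Pool.Agent.H377R2 (iter_pos)

/-- `⌈c log_2 log N⌉` -/
noncomputable def kc (c : ℝ) (N : ℕ) : ℕ := ⌈c * Real.log (Real.log N) / Real.log 2⌉₊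

/-- `⌊c log_2 log N⌋` -/
noncomputable def kf (c : ℝ) (N : ℕ) : ℕ := ⌊c * Real.log (Real.log N) / Real.log 2⌋₊

theorem kc_ge {c : ℝ} {N : ℕ} (h : 0 < Real.log N) : Real.log N ^ c ≤ 2 ^ kc c N := by
  have hl2 : 0 < Real.log 2 := Real.log_pos (by norm_num)
  have h1 : c * Real.log (Real.log N) / Real.log 2 ≤ kc c N := Nat.le_ceil _
  rw [div_le_iff₀ hl2] at h1
  calc Real.log N ^ c = Real.exp (c * Real.log (Real.log N)) := by rw [Real.rpow_def_of_pos h, mul_comm]
    _ ≤ Real.exp (kc c N * Real.log 2) := Real.exp_le_exp.2 h1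
    _ = 2 ^ kc c N := by rw [Real.exp_nat_mul, Real.exp_log (by norm_num)]

theorem kc_le {c : ℝ} {N : ℕ} (hc : 0 ≤ c) (h : 1 ≤ Real.log N) : (2 : ℝ) ^ kc c N ≤ 2 * Real.log N ^ c := by
  have hl2 : 0 < Real.log 2 := Real.log_pos (by norm_num)
  have h0 : 0 ≤ Real.log (Real.log N) := Real.log_nonneg h
  have h1 : (kc c N : ℝ) ≤ c * Real.log (Real.log N) / Real.log 2 + 1 := (Nat.ceil_lt_add_one (by positivity)).le
  have h2 : (kc c N : ℝ) * Real.log 2 ≤ c * Real.log (Real.log N) + Real.log 2 := by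
    calc (kc c N : ℝ) * Real.log 2 ≤ (c * Real.log (Real.log N) / Real.log 2 + 1) * Real.log 2 :=
          mul_le_mul_of_nonneg_right h1 hl2.le
      _ = _ := by field_simp
  calc (2 : ℝ) ^ kc c N = Real.exp (kc c N * Real.log 2) := by rw [Real.exp_nat_mul, Real.exp_log (by norm_num)]
    _ ≤ Real.exp (c * Real.log (Real.log N) + Real.log 2) := Real.exp_le_exp.2 h2
    _ = 2 * Real.log N ^ c := by
        rw [Real.exp_add, Real.exp_log (by norm_num), Real.rpow_def_of_pos (by linarith), mul_comm c, mul_comm]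

theorem kf_le {c : ℝ} {N : ℕ} (hc : 0 ≤ c) (h : 1 ≤ Real.log N) : (2 : ℝ) ^ kf c N ≤ Real.log N ^ c := by
  have hl2 : 0 < Real.log 2 := Real.log_pos (by norm_num)
  have h0 : 0 ≤ Real.log (Real.log N) := Real.log_nonneg h
  have h1 : (kf c N : ℝ) ≤ c * Real.log (Real.log N) / Real.log 2 := Nat.floor_le (by positivity)
  rw [le_div_iff₀ hl2] at h1
  calc (2 : ℝ) ^ kf c N = Real.exp (kf c N * Real.log 2) := by rw [Real.exp_nat_mul, Real.exp_log (by norm_num)]
    _ ≤ Real.exp (c * Real.log (Real.log N)) := Real.exp_le_exp.2 h1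
    _ = Real.log N ^ c := by rw [Real.rpow_def_of_pos (by linarith), mul_comm c]

theorem kf_ge {c : ℝ} {N : ℕ} (h : 0 < Real.log N) : Real.log N ^ c ≤ 2 * 2 ^ kf c N := by
  have hl2 : 0 < Real.log 2 := Real.log_pos (by norm_num)
  have h1 : c * Real.log (Real.log N) / Real.log 2 < kf c N + 1 := Nat.lt_floor_add_one _
  rw [div_lt_iff₀ hl2] at h1
  calc Real.log N ^ c = Real.exp (c * Real.log (Real.log N)) := by rw [Real.rpow_def_of_pos h, mul_comm]
    _ ≤ Real.exp (kf c N * Real.log 2 + Real.log 2) := Real.exp_le_exp.2 (by linarith)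
    _ = 2 * 2 ^ kf c N := by
        rw [Real.exp_add, Real.exp_nat_mul, Real.exp_log (by norm_num)]
        ring

theorem Cr_prq_le (k r : ℕ) : prq (2 ^ k) (Cr k r) ≤ 1 / 2 ^ k := by
  classical
  rcases Nat.lt_or_ge r (2 ^ k) with h | h
  · exact (Cr_prq h).le
  · have : prq (2 ^ k) (Cr k r) = 0 := by
      rw [prq_eq, filter_false_of_mem]
      · simp
      · intro x _ hx
        unfold Cr at hx
        have := Nat.mod_lt x (show 0 < 2 ^ k by positivity)
        omega
    rw [this]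
    positivity

/-- sets of `O(log N)` residue classes modulo `(log N) ^ c`, `c > 2`, are rarely hit -/
theorem hit_rare {c κ : ℝ} (hc : 2 < c) (hκ : 0 < κ) (ε : ℝ) (hε : 0 < ε) : ∀ᶠ N : ℕ in atTop, ∀ R : Finset ℕ,
    (R.card : ℝ) ≤ 22 * Real.log N → (cN (St (fun _ m => m % 2 ^ kc c N ∈ R) N (Lv κ N)) N : ℝ) ≤ ε * N := by
  classical
  set bad : ℕ → Finset ℕ → Prop := fun N R => (R.card : ℝ) ≤ 22 * Real.log N ∧
    ¬ (cN (St (fun _ m => m % 2 ^ kc c N ∈ R) N (Lv κ N)) N : ℝ) ≤ ε * N with hbad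
  set Rf : ℕ → Finset ℕ := fun N => if h : ∃ R, bad N R then h.choose else ∅ with hRf
  have hcard : ∀ N, ((Rf N).card : ℝ) ≤ 22 * Real.log N := by
    intro N
    rw [hRf]
    simp only
    by_cases h : ∃ R, bad N R
    · rw [dif_pos h]
      exact h.choose_spec.1
    · rw [dif_neg h]
      simp only [card_empty, Nat.cast_zero]
      have := Real.log_natCast_nonneg N
      positivity
  have hlog : Tendsto (fun N : ℕ => Real.log (N : ℝ)) atTop atTop :=
    Real.tendsto_log_atTop.comp tendsto_natCast_atTop_atTop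
  have key := St_rare2 (ι := ℕ) (fun N m => m % 2 ^ kc c N ∈ Rf N) Rf (fun N _ => kc c N)
    (fun N r => Cr (kc c N) r) (fun N r => Cr_per _ _) ?_ ?_ ?_ hκ ε hε
  · filter_upwards [key] with N hN R hR
    by_contra hcon
    have hex : ∃ R, bad N R := ⟨R, hR, hcon⟩
    have h1 : Rf N = hex.choose := by
      rw [hRf]
      simp only
      rw [dif_pos hex]
    apply hex.choose_spec.2
    rw [← h1]
    exact hN
  · intro κ' hκ'
    have e1 : ∀ᶠ X : ℝ in atTop, ‖Real.log X ^ c‖ ≤ (1 / 2) * ‖X ^ κ'‖ :=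
      (isLittleO_log_rpow_rpow_atTop c hκ').bound (by norm_num)
    filter_upwards [tendsto_natCast_atTop_atTop.eventually (e1.and (eventually_ge_atTop (1 : ℝ))),
      hlog.eventually (eventually_ge_atTop 1)] with N h1 h2 p _
    obtain ⟨h1, h3⟩ := h1
    rw [Real.norm_of_nonneg (by positivity), Real.norm_of_nonneg (by positivity)] at h1
    have := kc_le (by linarith : (0 : ℝ) ≤ c) h2
    linarith
  · filter_upwards with N m hm
    exact ⟨m % 2 ^ kc c N, hm, rfl⟩
  · have h1 : Tendsto (fun N : ℕ => 22 * (Real.log N) ^ (-(c - 2))) atTop (𝓝 0) := by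
      have h2 := (tendsto_rpow_neg_atTop (show (0 : ℝ) < c - 2 by linarith)).comp hlog
      have h3 := h2.const_mul 22
      rw [mul_zero] at h3
      exact h3
    refine squeeze_zero' ?_ ?_ h1
    · filter_upwards with N
      exact mul_nonneg (Real.log_natCast_nonneg N) (sum_nonneg fun p _ => prq_nonneg _ _)
    · filter_upwards [hlog.eventually (eventually_ge_atTop 1)] with N h2
      have hΛ0 : 0 < Real.log N := by linarith
      have h3 : ∑ r ∈ Rf N, prq (2 ^ kc c N) (Cr (kc c N) r) ≤ 22 * Real.log N * Real.log N ^ (-c) := by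
        calc _ ≤ ∑ _r ∈ Rf N, (1 : ℝ) / 2 ^ kc c N := sum_le_sum fun r _ => Cr_prq_le _ _
          _ = (Rf N).card * (1 / 2 ^ kc c N) := by rw [sum_const, nsmul_eq_mul]
          _ ≤ 22 * Real.log N * Real.log N ^ (-c) := by
              apply mul_le_mul (hcard N) _ (by positivity) (by positivity)
              rw [Real.rpow_neg hΛ0.le, one_div]
              exact inv_anti₀ (by positivity) (kc_ge hΛ0)
      calc Real.log N * ∑ r ∈ Rf N, prq (2 ^ kc c N) (Cr (kc c N) r)
          ≤ Real.log N * (22 * Real.log N * Real.log N ^ (-c)) := mul_le_mul_of_nonneg_left h3 hΛ0.le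
        _ = 22 * (Real.log N ^ (1 : ℝ) * Real.log N ^ (1 : ℝ) * Real.log N ^ (-c)) := by
            rw [Real.rpow_one]
            ring
        _ = _ := by
            rw [← Real.rpow_add hΛ0, ← Real.rpow_add hΛ0]
            congr 2
            ring

/-- the terms of the beginning are above `N ^ κ` -/
theorem above2 {κ : ℝ} (hκ1 : κ < 1) {N n K : ℕ} (h1 : (N : ℝ) ^ ((1 + κ) / 2) ≤ n) (hN : 3 ≤ N)
    (hK : (K : ℝ) ≤ (1 - κ) / 2 * Real.log N) (s : ℕ) (hs : s ≤ K) : Lv κ N < T^[s] n := by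
  have hNR : (3 : ℝ) ≤ N := by exact_mod_cast hN
  have hN0 : (0 : ℝ) < N := by linarith
  have hL : 0 < Real.log N := Real.log_pos (by linarith)
  have hl2 : Real.log 2 < 1 := by have := Real.log_two_lt_d9; linarith
  have hl2' : 0 < Real.log 2 := Real.log_pos (by norm_num)
  have h3 : (2 : ℝ) ^ s < (N : ℝ) ^ ((1 - κ) / 2) := by
    have g1 : (s : ℝ) ≤ K := by exact_mod_cast hs
    have g2 : (s : ℝ) * Real.log 2 ≤ (1 - κ) / 2 * Real.log N * Real.log 2 :=
      mul_le_mul_of_nonneg_right (g1.trans hK) hl2'.le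
    have g3 : (1 - κ) / 2 * Real.log N * Real.log 2 < (1 - κ) / 2 * Real.log N * 1 :=
      mul_lt_mul_of_pos_left hl2 (by
        have : 0 < 1 - κ := by linarith
        positivity)
    calc (2 : ℝ) ^ s = Real.exp (s * Real.log 2) := by rw [Real.exp_nat_mul, Real.exp_log (by norm_num)]
      _ < Real.exp (Real.log N * ((1 - κ) / 2)) := Real.exp_lt_exp.2 (by linarith)
      _ = _ := by rw [Real.rpow_def_of_pos hN0]
  have h4 : (N : ℝ) ^ κ < (T^[s] n : ℕ) := by
    refine lt_of_lt_of_le ?_ (half_le s n)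
    rw [lt_div_iff₀ (by positivity)]
    calc (N : ℝ) ^ κ * 2 ^ s < (N : ℝ) ^ κ * (N : ℝ) ^ ((1 - κ) / 2) := mul_lt_mul_of_pos_left h3 (by positivity)
      _ = (N : ℝ) ^ ((1 + κ) / 2) := by
          rw [← Real.rpow_add hN0]
          congr 1
          ring
      _ ≤ n := h1
  have h5 : ((Lv κ N : ℕ) : ℝ) < (T^[s] n : ℕ) := (Nat.floor_le (by positivity)).trans_lt h4
  exact_mod_cast h5

theorem small_rare2 {κ : ℝ} (hκ1 : κ < 1) (ε : ℝ) (hε : 0 < ε) :
    ∀ᶠ N : ℕ in atTop, (cN (fun n => (n : ℝ) < (N : ℝ) ^ ((1 + κ) / 2)) N : ℝ) ≤ ε * N := by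
  classical
  have e1 : ∀ᶠ X : ℝ in atTop, 1 / ε ≤ X ^ ((1 - κ) / 2) :=
    (tendsto_rpow_atTop (by linarith)).eventually (eventually_ge_atTop _)
  filter_upwards [tendsto_natCast_atTop_atTop.eventually e1, eventually_ge_atTop 1] with N h1 h2
  have hN0 : (0 : ℝ) < N := by exact_mod_cast h2
  have h3 : cN (fun n => (n : ℝ) < (N : ℝ) ^ ((1 + κ) / 2)) N ≤ ⌊(N : ℝ) ^ ((1 + κ) / 2)⌋₊ := by
    rw [← fl_card]
    calc _ ≤ (Icc 1 ⌊(N : ℝ) ^ ((1 + κ) / 2)⌋₊).card := card_le_card fun n hn => by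
          rw [mem_fl] at hn
          rw [mem_Icc]
          exact ⟨hn.1.1, Nat.le_floor hn.2.le⟩
      _ = _ := by rw [Nat.card_Icc, Nat.add_sub_cancel]
  have h4 : (cN (fun n => (n : ℝ) < (N : ℝ) ^ ((1 + κ) / 2)) N : ℝ) ≤ (N : ℝ) ^ ((1 + κ) / 2) :=
    (Nat.cast_le.2 h3).trans (Nat.floor_le (by positivity))
  refine h4.trans ?_
  rw [div_le_iff₀ hε] at h1
  have h5 : (N : ℝ) ^ ((1 + κ) / 2) * (N : ℝ) ^ ((1 - κ) / 2) = N := by
    rw [← Real.rpow_add hN0]
    have : (1 + κ) / 2 + (1 - κ) / 2 = 1 := by ring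
    rw [this, Real.rpow_one]
  have h6 : (0 : ℝ) < (N : ℝ) ^ ((1 + κ) / 2) := by positivity
  nlinarith

/-- the number of blocks -/
noncomputable def RR (κ c : ℝ) (N : ℕ) : ℕ := ⌊(1 - κ) / 2 * Real.log N / kf c N⌋₊

/-- the residues at the multiples of `k` -/
def im (k R m : ℕ) : Finset ℕ := (range R).image fun t => T^[k * t] m % 2 ^ k

theorem im_card (k R m : ℕ) : R ≤ (im k R m).card +
    ((range R ×ˢ range R).filter fun p => p.1 < p.2 ∧ T^[k * p.1] m % 2 ^ k = T^[k * p.2] m % 2 ^ k).card := by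
  classical
  set f : ℕ → ℕ := fun t => T^[k * t] m % 2 ^ k with hf
  set B := (range R).filter fun t' => ∃ t < t', f t = f t' with hB
  have h1 : B.card ≤ ((range R ×ˢ range R).filter fun p => p.1 < p.2 ∧ f p.1 = f p.2).card := by
    have h2 : B ⊆ ((range R ×ˢ range R).filter fun p => p.1 < p.2 ∧ f p.1 = f p.2).image Prod.snd := by
      intro t' ht'
      rw [hB, mem_filter, mem_range] at ht'
      obtain ⟨h3, t, h4, h5⟩ := ht'
      rw [mem_image]
      refine ⟨(t, t'), ?_, rfl⟩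
      rw [mem_filter, mem_product, mem_range, mem_range]
      exact ⟨⟨h4.trans h3, h3⟩, h4, h5⟩
    exact (card_le_card h2).trans card_image_le
  have h2 : ((range R) \ B).card ≤ (im k R m).card := by
    have h3 : ((range R) \ B).image f ⊆ im k R m := by
      intro y hy
      rw [mem_image] at hy
      obtain ⟨t, ht, rfl⟩ := hy
      unfold im
      rw [mem_image]
      exact ⟨t, (Finset.mem_sdiff.1 ht).1, rfl⟩
    rw [← card_image_of_injOn (s := (range R) \ B) (f := f)]
    · exact card_le_card h3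
    · intro a ha b hb hab
      rw [mem_coe, Finset.mem_sdiff, hB, mem_filter] at ha hb
      by_contra hne
      rcases lt_or_gt_of_ne hne with h | h
      · exact hb.2 ⟨hb.1, a, h, hab⟩
      · exact ha.2 ⟨ha.1, b, h, hab.symm⟩
  have h3 : R ≤ ((range R) \ B).card + B.card := by
    have := card_sdiff_add_card_eq_card (s := B) (t := range R) (filter_subset _ _)
    rw [card_range] at this
    omega
  have h4 : ((range R ×ˢ range R).filter fun p => p.1 < p.2 ∧ f p.1 = f p.2).card =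
      ((range R ×ˢ range R).filter fun p => p.1 < p.2 ∧ T^[k * p.1] m % 2 ^ k = T^[k * p.2] m % 2 ^ k).card := by
    congr 1
  rw [← h4]
  omega

/-- the probability of a collision -/
theorem coll_prq {k d : ℕ} (hd : 1 ≤ d) :
    Per (2 ^ (k * d + k)) (fun y => y % 2 ^ k = T^[k * d] y % 2 ^ k) ∧
    prq (2 ^ (k * d + k)) (fun y => y % 2 ^ k = T^[k * d] y % 2 ^ k) ≤ 1 / 2 ^ k := by
  classical
  have hper : ∀ r, Per (2 ^ (k * d)) (Cr k r) := by
    intro r x
    unfold Cr
    have : 2 ^ k ∣ 2 ^ (k * d) := pow_dvd_pow 2 (Nat.le_mul_of_pos_right k hd)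
    rw [Nat.mod_mod_of_dvd _ this]
  have hprq : ∀ r, prq (2 ^ (k * d)) (Cr k r) ≤ 1 / 2 ^ k := by
    intro r
    obtain ⟨e, rfl⟩ : ∃ e, d = e + 1 := ⟨d - 1, by omega⟩
    have h1 := prod_prq (j := k) (q := 2 ^ (k * e)) (A := Cr k r) (B := fun _ => True) (by positivity)
      (Nat.Coprime.pow_left _ (by norm_num)) (Cr_per k r) (fun _ => Iff.rfl)
    rw [prq_true (by positivity), mul_one, ← pow_add] at h1
    have h2 : k * (e + 1) = k + k * e := by ring
    rw [h2]
    simp only [and_true] at h1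
    have h3 : (fun x => Cr k r x) = Cr k r := rfl
    rw [h3] at h1
    rw [h1]
    exact Cr_prq_le k r
  constructor
  · intro x
    simp only
    have h1 : 2 ^ k ∣ 2 ^ (k * d + k) := pow_dvd_pow 2 (Nat.le_add_left _ _)
    rw [Nat.mod_mod_of_dvd _ h1]
    have h2 := Per.shift (i := k * d) (Cr_per k (T^[k * d] x % 2 ^ k)) x
    have h3 : T^[k * d] (x % 2 ^ (k * d + k)) % 2 ^ k = T^[k * d] x % 2 ^ k := h2.2 rfl
    rw [h3]
  · refine (prq_union (range (2 ^ k)) _ (fun r y => Cr k r y ∧ Cr k r (T^[k * d] y)) _ (fun y hy => ?_)).trans ?_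
    · exact ⟨y % 2 ^ k, mem_range.2 (Nat.mod_lt _ (by positivity)), rfl, hy.symm⟩
    · calc ∑ r ∈ range (2 ^ k), prq (2 ^ (k * d + k)) (fun y => Cr k r y ∧ Cr k r (T^[k * d] y))
          ≤ ∑ _r ∈ range (2 ^ k), (1 / 2 ^ k * (1 / 2 ^ k) : ℝ) := by
            refine sum_le_sum fun r _ => ?_
            rw [pow_add, prod_prq (by positivity) (Nat.Coprime.pow_left _ (by norm_num)) (hper r) (Cr_per k r)]
            exact mul_le_mul (hprq r) (Cr_prq_le k r) (prq_nonneg _ _) (by positivity)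
        _ = 1 / 2 ^ k := by
            rw [sum_const, card_range, nsmul_eq_mul]
            push_cast
            field_simp

end Pool.Agent.V11311.ER
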