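import Pool.Agent.V11311.ER.R2

/-! Common blocks of two trajectories, part 3: typical sets of residue classes are hit. -/

set_option autoImplicit false

namespace Pool.Agent.V11311.ER

open Finset Filter Topology Pool.Agent.V11311.FP Pool.Agent.V11311.RC Pool.Agent.V11311.SL

open Pool.Agent.V11311.DV (fl fl_card mem_fl)

open Pool.Agent.Helper894.Collatz (T od er od_add iter_eq sum_pow_od period)

open Pool.Agent.H377R2 (iter_pos)

/-- the number of collisions -/
def coll (k R m : ℕ) : ℕ :=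
  ((range R ×ˢ range R).filter fun p => p.1 < p.2 ∧ T^[k * p.1] m % 2 ^ k = T^[k * p.2] m % 2 ^ k).card

theorem coll_sum {k R N : ℕ} (hN : 2 ^ (k * R) ≤ N) :
    ∑ m ∈ Icc 1 N, (coll k R m : ℝ) ≤ (R : ℝ) ^ 2 * (2 * N * (1 / 2 ^ k)) := by
  classical
  have h1 : ∑ m ∈ Icc 1 N, (coll k R m : ℝ) = ∑ p ∈ range R ×ˢ range R,
      (cN (fun m => p.1 < p.2 ∧ T^[k * p.1] m % 2 ^ k = T^[k * p.2] m % 2 ^ k) N : ℝ) := by
    have h2 : ∀ m, (coll k R m : ℝ) = ∑ p ∈ range R ×ˢ range R,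
        if p.1 < p.2 ∧ T^[k * p.1] m % 2 ^ k = T^[k * p.2] m % 2 ^ k then (1 : ℝ) else 0 := by
      intro m
      unfold coll
      rw [card_filter]
      push_cast
      rfl
    rw [sum_congr rfl fun m _ => h2 m, sum_comm]
    apply sum_congr rfl
    intro p _
    rw [← fl_card]
    have h3 : (fl (fun m => p.1 < p.2 ∧ T^[k * p.1] m % 2 ^ k = T^[k * p.2] m % 2 ^ k) N) =
        (Icc 1 N).filter (fun m => p.1 < p.2 ∧ T^[k * p.1] m % 2 ^ k = T^[k * p.2] m % 2 ^ k) := by
      ext m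
      rw [mem_fl, mem_filter, mem_Icc]
    rw [h3, card_filter]
    push_cast
    rfl
  rw [h1]
  calc ∑ p ∈ range R ×ˢ range R, (cN (fun m => p.1 < p.2 ∧ T^[k * p.1] m % 2 ^ k = T^[k * p.2] m % 2 ^ k) N : ℝ)
      ≤ ∑ _p ∈ range R ×ˢ range R, 2 * (N : ℝ) * (1 / 2 ^ k) := by
        refine sum_le_sum fun p hp => ?_
        rw [mem_product, mem_range, mem_range] at hp
        rcases Nat.lt_or_ge p.1 p.2 with h | h
        · obtain ⟨d, hd⟩ : ∃ d, p.2 = p.1 + d := ⟨p.2 - p.1, by omega⟩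
          have hd1 : 1 ≤ d := by omega
          obtain ⟨c1, c2⟩ := coll_prq (k := k) hd1
          have h3 : 2 ^ (k * p.1 + (k * d + k)) ≤ N := by
            refine (Nat.pow_le_pow_right (by norm_num) ?_).trans hN
            calc k * p.1 + (k * d + k) = k * (p.1 + d + 1) := by ring
              _ ≤ k * R := Nat.mul_le_mul_left _ (by omega)
          have h4 := cN_shift c1 h3
          have h5 : (cN (fun m => p.1 < p.2 ∧ T^[k * p.1] m % 2 ^ k = T^[k * p.2] m % 2 ^ k) N : ℝ) ≤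
              cN (fun n => T^[k * p.1] n % 2 ^ k = T^[k * d] (T^[k * p.1] n) % 2 ^ k) N := by
            refine Nat.cast_le.2 (cN_mono (fun m _ hm => ?_) N)
            rw [hm.2, ← Function.iterate_add_apply]
            congr 3
            rw [hd]
            ring
          refine h5.trans (h4.trans ?_)
          exact mul_le_mul_of_nonneg_left c2 (by positivity)
        · have h5 : (cN (fun m => p.1 < p.2 ∧ T^[k * p.1] m % 2 ^ k = T^[k * p.2] m % 2 ^ k) N : ℝ) ≤ 0 := by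
            have h6 : cN (fun m => p.1 < p.2 ∧ T^[k * p.1] m % 2 ^ k = T^[k * p.2] m % 2 ^ k) N = 0 := by
              rw [← fl_card, card_eq_zero, eq_empty_iff_forall_notMem]
              intro m hm
              rw [mem_fl] at hm
              omega
            rw [h6]
            simp
          exact h5.trans (by positivity)
    _ = (R : ℝ) ^ 2 * (2 * N * (1 / 2 ^ k)) := by
        rw [sum_const, card_product, card_range, nsmul_eq_mul]
        push_cast
        ring

theorem RR_le {κ c : ℝ} {N : ℕ} (hκ1 : κ < 1) (hk : 1 ≤ kf c N) :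
    ((kf c N * RR κ c N : ℕ) : ℝ) ≤ (1 - κ) / 2 * Real.log N := by
  have hk0 : (0 : ℝ) < kf c N := by exact_mod_cast hk
  have hc : 0 < 1 - κ := by linarith
  have h1 : (RR κ c N : ℝ) ≤ (1 - κ) / 2 * Real.log N / kf c N :=
    Nat.floor_le (div_nonneg (mul_nonneg (by linarith) (Real.log_natCast_nonneg N)) hk0.le)
  rw [le_div_iff₀ hk0] at h1
  push_cast
  linarith

theorem pow_RR {κ c : ℝ} {N : ℕ} (hκ0 : 0 < κ) (hκ1 : κ < 1) (hk : 1 ≤ kf c N) (hN : 1 ≤ N) :
    2 ^ (kf c N * RR κ c N) ≤ N := by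
  have h1 := RR_le hκ1 hk
  have hNR : (0 : ℝ) < N := by exact_mod_cast hN
  have h2 : (2 : ℝ) ^ (kf c N * RR κ c N) ≤ N := by
    calc (2 : ℝ) ^ (kf c N * RR κ c N) = Real.exp (((kf c N * RR κ c N : ℕ) : ℝ) * Real.log 2) := by
          rw [Real.exp_nat_mul, Real.exp_log (by norm_num)]
      _ ≤ Real.exp (Real.log N) := by
          apply Real.exp_le_exp.2
          have hl2 : Real.log 2 < 1 := by have := Real.log_two_lt_d9; linarith
          have hl2' : 0 < Real.log 2 := Real.log_pos (by norm_num)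
          have hL := Real.log_natCast_nonneg N
          have h3 : (0 : ℝ) ≤ ((kf c N * RR κ c N : ℕ) : ℝ) := Nat.cast_nonneg _
          nlinarith
      _ = N := Real.exp_log hNR
  exact_mod_cast h2

theorem kf_tendsto {c : ℝ} (hc : 0 < c) : Tendsto (fun N : ℕ => kf c N) atTop atTop := by
  unfold kf
  have hl2 : 0 < Real.log 2 := Real.log_pos (by norm_num)
  exact tendsto_nat_floor_atTop.comp ((ll_tendsto.const_mul_atTop hc).atTop_div_const hl2)

/-- the typical number of residue classes -/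
theorem coll_rare {c κ : ℝ} (hc : 1 < c) (hκ0 : 0 < κ) (hκ1 : κ < 1) (ε : ℝ) (hε : 0 < ε) : ∀ᶠ N : ℕ in atTop,
    (cN (fun m => ¬ (RR κ c N : ℝ) / 2 ≤ (im (kf c N) (RR κ c N) m).card) N : ℝ) ≤ ε * N := by
  classical
  have hlog : Tendsto (fun N : ℕ => Real.log (N : ℝ)) atTop atTop :=
    Real.tendsto_log_atTop.comp tendsto_natCast_atTop_atTop
  have e1 : ∀ᶠ X : ℝ in atTop, 8 / ε ≤ X ^ (c - 1) :=
    (tendsto_rpow_atTop (by linarith)).eventually (eventually_ge_atTop _)
  filter_upwards [hlog.eventually (e1.and (eventually_ge_atTop (1 : ℝ))), eventually_ge_atTop 1,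
    (kf_tendsto (show 0 < c by linarith)).eventually (eventually_ge_atTop 1)] with N h1 hN hk
  obtain ⟨f1, f2⟩ := h1
  set R := RR κ c N with hR
  set k := kf c N with hkd
  rcases Nat.eq_zero_or_pos R with h0 | h0
  · have h6 : cN (fun m => ¬ (R : ℝ) / 2 ≤ (im k R m).card) N = 0 := by
      rw [← fl_card, card_eq_zero, eq_empty_iff_forall_notMem]
      intro m hm
      rw [mem_fl, h0] at hm
      apply hm.2
      push_cast
      rw [zero_div]
      positivity
    rw [h6]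
    push_cast
    positivity
  have hR0 : (0 : ℝ) < R := by exact_mod_cast h0
  have h2 := coll_sum (k := k) (R := R) (pow_RR hκ0 hκ1 hk hN)
  have h3 : (cN (fun m => ¬ (R : ℝ) / 2 ≤ (im k R m).card) N : ℝ) * (R / 2) ≤ ∑ m ∈ Icc 1 N, (coll k R m : ℝ) := by
    rw [← fl_card, ← nsmul_eq_mul, ← sum_const]
    calc ∑ _m ∈ fl (fun m => ¬ (R : ℝ) / 2 ≤ (im k R m).card) N, (R : ℝ) / 2
        ≤ ∑ m ∈ fl (fun m => ¬ (R : ℝ) / 2 ≤ (im k R m).card) N, (coll k R m : ℝ) := by
          refine sum_le_sum fun m hm => ?_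
          rw [mem_fl] at hm
          have h4 := im_card k R m
          have h5 : (R : ℝ) ≤ (im k R m).card + coll k R m := by
            unfold coll
            exact_mod_cast h4
          have h6 := not_le.1 hm.2
          linarith
      _ ≤ _ := by
          apply sum_le_sum_of_subset_of_nonneg
          · intro m hm
            rw [mem_fl] at hm
            rw [mem_Icc]
            exact hm.1
          · exact fun _ _ _ => Nat.cast_nonneg _
  have hΛ0 : 0 < Real.log N := by linarith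
  have h7 : (R : ℝ) ≤ Real.log N := by
    have g1 := RR_le hκ1 hk
    push_cast at g1
    have g2 : (1 : ℝ) ≤ k := by exact_mod_cast hk
    have g3 : (R : ℝ) ≤ k * R := le_mul_of_one_le_left hR0.le g2
    nlinarith
  have h8 : (1 : ℝ) / 2 ^ k ≤ 2 * Real.log N ^ (-c) := by
    have := kf_ge (c := c) hΛ0
    rw [Real.rpow_neg hΛ0.le, div_le_iff₀ (by positivity), mul_assoc, inv_mul_eq_div, ← mul_div_assoc,
      le_div_iff₀ (by positivity)]
    linarith
  have h9 : (cN (fun m => ¬ (R : ℝ) / 2 ≤ (im k R m).card) N : ℝ) ≤ 4 * R * N * (1 / 2 ^ k) := by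
    have g := h3.trans h2
    have g2 : (R : ℝ) ^ 2 * (2 * N * (1 / 2 ^ k)) = 4 * R * N * (1 / 2 ^ k) * (R / 2) := by ring
    rw [g2] at g
    exact le_of_mul_le_mul_right g (by positivity)
  calc (cN (fun m => ¬ (R : ℝ) / 2 ≤ (im k R m).card) N : ℝ) ≤ 4 * R * N * (1 / 2 ^ k) := h9
    _ ≤ 4 * Real.log N * N * (2 * Real.log N ^ (-c)) := by
        apply mul_le_mul _ h8 (by positivity) (by positivity)
        exact mul_le_mul_of_nonneg_right (mul_le_mul_of_nonneg_left h7 (by norm_num)) (Nat.cast_nonneg N)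
    _ = 8 * N * (Real.log N ^ (1 : ℝ) * Real.log N ^ (-c)) := by
        rw [Real.rpow_one]
        ring
    _ = 8 * N * (Real.log N ^ (c - 1))⁻¹ := by
        rw [← Real.rpow_add hΛ0, ← Real.rpow_neg hΛ0.le]
        congr 2
        ring
    _ ≤ 8 * N * (8 / ε)⁻¹ := by
        apply mul_le_mul_of_nonneg_left _ (by positivity)
        exact inv_anti₀ (by positivity) f1
    _ = ε * N := by
        field_simp

/-- large sets of residue classes are hit -/
theorem match_rare {c κ : ℝ} (hc : 1 < c) (hc2 : c < 2) (hκ0 : 0 < κ) (hκ1 : κ < 1) (ε : ℝ) (hε : 0 < ε) :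
    ∀ᶠ N : ℕ in atTop, ∀ S : Finset ℕ, (∀ r ∈ S, r < 2 ^ kf c N) → (RR κ c N : ℝ) / 2 ≤ S.card →
    (cN (fun n => (N : ℝ) ^ ((1 + κ) / 2) ≤ n ∧
      ¬ ∃ s, (∀ s', s' ≤ s → Lv κ N < T^[s'] n) ∧ T^[s] n % 2 ^ kf c N ∈ S) N : ℝ) ≤ ε * N := by
  classical
  have hlog : Tendsto (fun N : ℕ => Real.log (N : ℝ)) atTop atTop :=
    Real.tendsto_log_atTop.comp tendsto_natCast_atTop_atTop
  have hl2 : 0 < Real.log 2 := Real.log_pos (by norm_num)
  have hcκ : 0 < (1 - κ) := by linarith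
  -- Λ^{2-c} / k^2 → ∞
  have e1 : ∀ᶠ X : ℝ in atTop, c * Real.log X / Real.log 2 ≤ X ^ ((2 - c) / 4) := by
    have h1 : ∀ᶠ X : ℝ in atTop, ‖Real.log X‖ ≤ (Real.log 2 / c) * ‖X ^ ((2 - c) / 4)‖ :=
      (isLittleO_log_rpow_atTop (show (0 : ℝ) < (2 - c) / 4 by linarith)).bound (by positivity)
    filter_upwards [h1, eventually_ge_atTop (1 : ℝ)] with X h1 h3
    rw [Real.norm_of_nonneg (Real.log_nonneg h3), Real.norm_of_nonneg (by positivity), div_mul_eq_mul_div,
      le_div_iff₀ (by linarith)] at h1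
    rw [div_le_iff₀ hl2]
    linarith
  have e2 : ∀ᶠ X : ℝ in atTop, 32 / (1 - κ) ^ 2 * (|Real.log (2 / ε)| + 1) ≤ X ^ ((2 - c) / 2) :=
    (tendsto_rpow_atTop (by linarith)).eventually (eventually_ge_atTop _)
  have e3 : ∀ᶠ X : ℝ in atTop, 4 / (1 - κ) ≤ X ^ (1 - (2 - c) / 4) :=
    (tendsto_rpow_atTop (by linarith)).eventually (eventually_ge_atTop _)
  filter_upwards [hlog.eventually (e1.and (e2.and (e3.and (eventually_ge_atTop (1 : ℝ))))), eventually_ge_atTop 3,
    (kf_tendsto (show 0 < c by linarith)).eventually (eventually_ge_atTop 1)] with N h1 hN hk S hS1 hS2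
  obtain ⟨f1, f2, f3, f4⟩ := h1
  set Λ := Real.log N with hΛ
  have hΛ0 : 0 < Λ := by linarith
  set R := RR κ c N with hR
  set k := kf c N with hkd
  have hk0 : (0 : ℝ) < k := by exact_mod_cast hk
  have hkle : (k : ℝ) ≤ Λ ^ ((2 - c) / 4) := by
    refine (Nat.floor_le ?_).trans f1
    have := Real.log_nonneg f4
    positivity
  have hR1 := RR_le (N := N) hκ1 hk
  have hR2 : (1 - κ) / 2 * Λ / k < R + 1 := Nat.lt_floor_add_one _
  have hA : Per (2 ^ k) (fun y => y % 2 ^ k ∈ S) := by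
    intro x
    simp only
    rw [Nat.mod_mod]
  obtain ⟨hP1, hP2⟩ := no_suc k hA R
  have hq : prq (2 ^ k) (fun y => y % 2 ^ k ∈ S) = S.card / 2 ^ k := by
    rw [prq_eq]
    have : (range (2 ^ k)).filter (fun y => y % 2 ^ k ∈ S) = S := by
      ext x
      rw [mem_filter, mem_range]
      constructor
      · rintro ⟨g1, g2⟩
        rwa [Nat.mod_eq_of_lt g1] at g2
      · intro g
        exact ⟨hS1 x g, by rw [Nat.mod_eq_of_lt (hS1 x g)]; exact g⟩
    rw [this]
    push_cast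
    rfl
  have hcn : (cN (fun n => (N : ℝ) ^ ((1 + κ) / 2) ≤ n ∧
      ¬ ∃ s, (∀ s', s' ≤ s → Lv κ N < T^[s'] n) ∧ T^[s] n % 2 ^ k ∈ S) N : ℝ) ≤
      cN (fun x => ∀ r, r < R → ¬ T^[k * r] x % 2 ^ k ∈ S) N := by
    refine Nat.cast_le.2 (cN_mono (fun n hn ⟨g1, g2⟩ r hr hs => g2 ?_) N)
    have hj : k * r ≤ k * R := Nat.mul_le_mul_left _ hr.le
    exact ⟨k * r, fun s' hs' => above2 hκ1 g1 hN hR1 s' (hs'.trans hj), hs⟩
  refine hcn.trans ((cN_rare _ hP1 (pow_RR hκ0 hκ1 hk (by omega))).trans ?_)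
  rw [← prq_pow, hP2, hq]
  set q : ℝ := S.card / 2 ^ k with hqd
  have hq1 : q ≤ 1 := by
    rw [← hq]
    exact prq_le_one _ _
  have hq0 : 0 ≤ q := by positivity
  have hqR : Real.log (2 / ε) ≤ q * R := by
    have m1 : (1 - κ) / 4 * Λ ^ (1 - (2 - c) / 4) ≤ R := by
      have k1 : (1 - κ) / 2 * Λ ^ (1 - (2 - c) / 4) ≤ (1 - κ) / 2 * Λ / k := by
        rw [le_div_iff₀ hk0]
        calc (1 - κ) / 2 * Λ ^ (1 - (2 - c) / 4) * k ≤ (1 - κ) / 2 * Λ ^ (1 - (2 - c) / 4) * Λ ^ ((2 - c) / 4) :=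
              mul_le_mul_of_nonneg_left hkle (by positivity)
          _ = (1 - κ) / 2 * Λ := by
              rw [mul_assoc, ← Real.rpow_add hΛ0]
              simp
      have k2 : 1 ≤ (1 - κ) / 4 * Λ ^ (1 - (2 - c) / 4) := by
        calc (1 : ℝ) = (1 - κ) / 4 * (4 / (1 - κ)) := by field_simp
          _ ≤ _ := mul_le_mul_of_nonneg_left f3 (by positivity)
      linarith
    have hR0 : (0 : ℝ) ≤ R := Nat.cast_nonneg _
    have m2 : (2 : ℝ) ^ k ≤ Λ ^ c := kf_le (by linarith) f4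
    have m3 : (R : ℝ) / 2 * (Λ ^ c)⁻¹ ≤ q := by
      rw [hqd, div_eq_mul_inv (S.card : ℝ)]
      exact mul_le_mul hS2 (inv_anti₀ (by positivity) m2) (by positivity) (by positivity)
    have m4 : (1 - κ) ^ 2 / 32 * Λ ^ ((2 - c) / 2) ≤ q * R := by
      calc (1 - κ) ^ 2 / 32 * Λ ^ ((2 - c) / 2)
          = ((1 - κ) / 4 * Λ ^ (1 - (2 - c) / 4)) / 2 * (Λ ^ c)⁻¹ * ((1 - κ) / 4 * Λ ^ (1 - (2 - c) / 4)) := by
            have : Λ ^ ((2 - c) / 2) = Λ ^ (1 - (2 - c) / 4) * Λ ^ (1 - (2 - c) / 4) * (Λ ^ c)⁻¹ := by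
              rw [← Real.rpow_neg hΛ0.le, ← Real.rpow_add hΛ0, ← Real.rpow_add hΛ0]
              congr 1
              ring
            rw [this]
            ring
        _ ≤ (R / 2 * (Λ ^ c)⁻¹) * R := by
            apply mul_le_mul _ m1 (by positivity) (by positivity)
            apply mul_le_mul_of_nonneg_right _ (by positivity)
            linarith
        _ ≤ q * R := mul_le_mul_of_nonneg_right m3 hR0
    have m5 : |Real.log (2 / ε)| + 1 ≤ (1 - κ) ^ 2 / 32 * Λ ^ ((2 - c) / 2) := by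
      calc |Real.log (2 / ε)| + 1 = (1 - κ) ^ 2 / 32 * (32 / (1 - κ) ^ 2 * (|Real.log (2 / ε)| + 1)) := by
            field_simp
        _ ≤ _ := mul_le_mul_of_nonneg_left f2 (by positivity)
    linarith [le_abs_self (Real.log (2 / ε))]
  have hfin : (1 - q) ^ R ≤ ε / 2 := by
    calc (1 - q) ^ R ≤ Real.exp (-q) ^ R := by
          apply pow_le_pow_left₀ (by linarith)
          have := Real.add_one_le_exp (-q)
          linarith
      _ = Real.exp (-(q * R)) := by
          rw [← Real.exp_nat_mul]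
          congr 1
          ring
      _ ≤ Real.exp (-Real.log (2 / ε)) := Real.exp_le_exp.2 (by linarith)
      _ = ε / 2 := by
          rw [Real.exp_neg, Real.exp_log (by positivity), inv_div]
  calc 2 * (N : ℝ) * (1 - q) ^ R ≤ 2 * N * (ε / 2) := mul_le_mul_of_nonneg_left hfin (by positivity)
    _ = ε * N := by ring

end Pool.Agent.V11311.ER
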