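import Pool.Agent.V11311.ER.R1

/-! Increments of trajectories, part 1: moderate deviations. -/

set_option autoImplicit false

namespace Pool.Agent.V11311.ER

open Finset Filter Topology Pool.Agent.V11311.FP Pool.Agent.V11311.RC Pool.Agent.V11311.SL

open Pool.Agent.V11311.DV (fl fl_card mem_fl)

open Pool.Agent.Helper894.Collatz (T od er od_add iter_eq sum_pow_od period)

open Pool.Agent.H377R2 (iter_pos)

/-- the walk -/
def Xw (k x : ℕ) : ℝ := 2 * (od k x : ℝ) - k

theorem Xw_add (u w x : ℕ) : Xw (u + w) x = Xw u x + Xw w (T^[u] x) := by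
  unfold Xw
  rw [od_add]
  push_cast
  ring

theorem Xw_mod {k K x : ℕ} (h : k ≤ K) : Xw k (x % 2 ^ K) = Xw k x := by
  unfold Xw
  rw [od_mod K x h]

/-- the maximum of the walk -/
def Mw (σ : ℝ) (w : ℕ) (y : ℝ) (x : ℕ) : Prop := ∃ k, k ≤ w ∧ y ≤ σ * Xw k x

theorem Mw_per (σ : ℝ) (w : ℕ) (y : ℝ) : Per (2 ^ w) (Mw σ w y) := by
  intro x
  unfold Mw
  constructor
  · rintro ⟨k, h1, h2⟩
    exact ⟨k, h1, by rwa [Xw_mod h1] at h2⟩
  · rintro ⟨k, h1, h2⟩
    exact ⟨k, h1, by rwa [Xw_mod h1]⟩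

theorem Xw_one (x : ℕ) : Xw 1 x = 2 * ((x % 2 : ℕ) : ℝ) - 1 := by
  unfold Xw od
  simp

/-- Doob's inequality -/
theorem Mw_pr {σ : ℝ} (hσ : σ = 1 ∨ σ = -1) (l : ℝ) (hl : 0 ≤ l) (w : ℕ) : ∀ y : ℝ,
    prq (2 ^ w) (Mw σ w y) ≤ Real.exp (-(l * y)) * Real.cosh l ^ w := by
  classical
  induction w with
  | zero =>
    intro y
    simp only [pow_zero, mul_one]
    rcases lt_or_ge 0 y with h | h
    · have : prq 1 (Mw σ 0 y) = 0 := by
        rw [prq_eq, filter_false_of_mem]
        · simp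
        · rintro x - ⟨k, h1, h2⟩
          have hk : k = 0 := by omega
          subst hk
          unfold Xw at h2
          simp [od] at h2
          linarith
      rw [this]
      exact (Real.exp_pos _).le
    · refine (prq_le_one _ _).trans (Real.one_le_exp ?_)
      nlinarith
  | succ w ih =>
    intro y
    rcases lt_or_ge 0 y with h | h
    · have h1 : prq (2 ^ (w + 1)) (Mw σ (w + 1) y) ≤
          prq (2 ^ (1 + w)) (fun x => (x % 2 = 0 ∧ Mw σ w (y + σ) (T^[1] x)) ∨ (x % 2 = 1 ∧ Mw σ w (y - σ) (T^[1] x))) := by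
        rw [add_comm 1 w]
        apply prq_mono
        rintro x ⟨k, hk1, hk2⟩
        rcases Nat.eq_zero_or_pos k with h0 | h0
        · subst h0
          unfold Xw at hk2
          simp [od] at hk2
          linarith
        · obtain ⟨k', rfl⟩ : ∃ k', k = 1 + k' := ⟨k - 1, by omega⟩
          rw [Xw_add, Xw_one] at hk2
          rcases Nat.mod_two_eq_zero_or_one x with h2 | h2
          · left
            refine ⟨h2, k', by omega, ?_⟩
            rw [h2] at hk2
            push_cast at hk2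
            linarith
          · right
            refine ⟨h2, k', by omega, ?_⟩
            rw [h2] at hk2
            push_cast at hk2
            linarith
      have h2 : ∀ b, b < 2 → ∀ z : ℝ, prq (2 ^ (1 + w)) (fun x => x % 2 = b ∧ Mw σ w z (T^[1] x)) =
          1 / 2 * prq (2 ^ w) (Mw σ w z) := by
        intro b hb z
        rw [pow_add]
        rw [prod_prq (by positivity) (Nat.Coprime.pow_left _ (by norm_num)) (par_per b) (Mw_per σ w z), prq_par b hb]
      rw [prq_or (fun x g g' => by omega), h2 0 (by norm_num), h2 1 (by norm_num)] at h1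
      refine h1.trans ?_
      have h3 := ih (y + σ)
      have h4 := ih (y - σ)
      have h5 : Real.exp (-(l * y)) * Real.cosh l ^ (w + 1) =
          1 / 2 * (Real.exp (-(l * (y + σ))) * Real.cosh l ^ w) + 1 / 2 * (Real.exp (-(l * (y - σ))) * Real.cosh l ^ w) := by
        have e1 : Real.exp (-(l * (y + σ))) + Real.exp (-(l * (y - σ))) = Real.exp (-(l * y)) * (2 * Real.cosh l) := by
          have a1 : Real.exp (-(l * y)) * Real.exp l = Real.exp (-(l * y) + l) := (Real.exp_add _ _).symm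
          have a2 : Real.exp (-(l * y)) * Real.exp (-l) = Real.exp (-(l * y) + -l) := (Real.exp_add _ _).symm
          have a3 : Real.exp (-(l * y)) * (2 * Real.cosh l) = Real.exp (-(l * y) + l) + Real.exp (-(l * y) + -l) := by
            rw [Real.cosh_eq, ← a1, ← a2]
            ring
          rw [a3]
          rcases hσ with h6 | h6
          · rw [h6, add_comm, show -(l * (y - 1)) = -(l * y) + l by ring, show -(l * (y + 1)) = -(l * y) + -l by ring]
          · rw [h6, show -(l * (y + -1)) = -(l * y) + l by ring, show -(l * (y - -1)) = -(l * y) + -l by ring]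
        rw [← mul_add, ← add_mul, e1, pow_succ]
        ring
      rw [h5]
      linarith
    · refine (prq_le_one _ _).trans ?_
      have h1 : 1 ≤ Real.exp (-(l * y)) := Real.one_le_exp (by nlinarith)
      have h2 : 1 ≤ Real.cosh l ^ (w + 1) := one_le_pow₀ (Real.one_le_cosh l)
      nlinarith

theorem Mw_pr2 {σ : ℝ} (hσ : σ = 1 ∨ σ = -1) {w : ℕ} {y v : ℝ} (hy : 0 ≤ y) (hv : 0 < v) (hw : (w : ℝ) ≤ v) :
    prq (2 ^ w) (Mw σ w y) ≤ Real.exp (-(y ^ 2 / (2 * v))) := by
  have h1 := Mw_pr hσ (y / v) (by positivity) w y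
  refine h1.trans ?_
  calc Real.exp (-(y / v * y)) * Real.cosh (y / v) ^ w
      ≤ Real.exp (-(y / v * y)) * Real.exp ((y / v) ^ 2 / 2) ^ w := by
        apply mul_le_mul_of_nonneg_left _ (Real.exp_pos _).le
        exact pow_le_pow_left₀ (Real.cosh_pos _).le (Real.cosh_le_exp_half_sq _) w
    _ = Real.exp (-(y / v * y) + w * ((y / v) ^ 2 / 2)) := by
        rw [← Real.exp_nat_mul, ← Real.exp_add]
    _ ≤ Real.exp (-(y ^ 2 / (2 * v))) := by
        apply Real.exp_le_exp.2
        have h2 : (w : ℝ) * ((y / v) ^ 2 / 2) ≤ v * ((y / v) ^ 2 / 2) := mul_le_mul_of_nonneg_right hw (by positivity)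
        have h3 : v * ((y / v) ^ 2 / 2) = y ^ 2 / (2 * v) := by field_simp
        have h4 : y / v * y = 2 * (y ^ 2 / (2 * v)) := by field_simp
        linarith

/-- the central binomial coefficient -/
theorem central {m : ℕ} (hm : 1 ≤ m) : (16 : ℝ) ^ m ≤ 4 * m * ((2 * m).choose m : ℝ) ^ 2 := by
  induction m, hm using Nat.le_induction with
  | base => norm_num [Nat.choose]
  | succ m hm ih =>
    have h1 : (m + 1) * (2 * (m + 1)).choose (m + 1) = 2 * (2 * m + 1) * (2 * m).choose m := by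
      have := Nat.succ_mul_centralBinom_succ m
      unfold Nat.centralBinom at this
      exact this
    have h2 : ((m : ℝ) + 1) * ((2 * (m + 1)).choose (m + 1) : ℝ) = 2 * (2 * m + 1) * ((2 * m).choose m : ℝ) := by
      exact_mod_cast h1
    set c : ℝ := ((2 * m).choose m : ℝ) with hc
    set c' : ℝ := ((2 * (m + 1)).choose (m + 1) : ℝ) with hc'
    have hm0 : (1 : ℝ) ≤ m := by exact_mod_cast hm
    have h3 : ((m : ℝ) + 1) ^ 2 * c' ^ 2 = 4 * (2 * m + 1) ^ 2 * c ^ 2 := by
      calc ((m : ℝ) + 1) ^ 2 * c' ^ 2 = (((m : ℝ) + 1) * c') ^ 2 := by ring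
        _ = _ := by rw [h2]; ring
    have h4 : (0 : ℝ) < ((m : ℝ) + 1) * m := by positivity
    refine le_of_mul_le_mul_left ?_ h4
    push_cast
    calc ((m : ℝ) + 1) * m * 16 ^ (m + 1) = 16 * m * (m + 1) * 16 ^ m := by ring
      _ ≤ 16 * m * (m + 1) * (4 * m * c ^ 2) := mul_le_mul_of_nonneg_left ih (by positivity)
      _ ≤ 4 * m * (4 * (2 * m + 1) ^ 2 * c ^ 2) := by
          have : 0 ≤ m * c ^ 2 := by positivity
          nlinarith
      _ = ((m : ℝ) + 1) * m * (4 * ((m : ℝ) + 1) * c' ^ 2) := by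
          rw [← h3]
          ring

theorem one_sub_exp {z : ℝ} (h0 : 0 ≤ z) (h1 : z ≤ 1 / 2) : Real.exp (-(z + z ^ 2)) ≤ 1 - z := by
  rw [Real.exp_neg, inv_le_comm₀ (Real.exp_pos _) (by linarith)]
  have h2 := Real.quadratic_le_exp_of_nonneg (show 0 ≤ z + z ^ 2 by positivity)
  refine le_trans ?_ h2
  rw [inv_eq_one_div, div_le_iff₀ (by linarith)]
  have h3 : (0 : ℝ) ≤ z ^ 2 * (1 - z - z ^ 2 - z ^ 3) := by
    have : z ^ 2 ≤ 1 / 4 := by nlinarith
    have : z ^ 3 ≤ 1 / 8 := by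
      calc z ^ 3 ≤ (1 / 2) ^ 3 := pow_le_pow_left₀ h0 h1 3
        _ = 1 / 8 := by norm_num
    apply mul_nonneg (by positivity)
    linarith
  nlinarith

/-- the local bound -/
theorem local_low {m : ℕ} (hm : 1 ≤ m) (j : ℕ) (hj : 4 * j ≤ m) :
    Real.exp (-((j : ℝ) ^ 2 / m + 2 * j ^ 3 / m ^ 2)) * (2 * m).choose m ≤ (2 * m).choose (m + j) := by
  have hm0 : (0 : ℝ) < m := by exact_mod_cast hm
  induction j with
  | zero => simp
  | succ j ih =>
    have h1 := ih (by omega)
    have h2 := Nat.choose_succ_right_eq (2 * m) (m + j)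
    have h3 : 2 * m - (m + j) = m - j := by omega
    rw [h3] at h2
    have h4 : ((2 * m).choose (m + j + 1) : ℝ) * (m + j + 1) = (2 * m).choose (m + j) * (m - j) := by
      have : (((2 * m).choose (m + j + 1) * (m + j + 1) : ℕ) : ℝ) = (((2 * m).choose (m + j) * (m - j) : ℕ) : ℝ) := by
        exact_mod_cast h2
      push_cast [Nat.cast_sub (show j ≤ m by omega)] at this
      exact this
    set z : ℝ := (2 * j + 1) / m with hz
    have hjR : (4 : ℝ) * (j + 1) ≤ m := by exact_mod_cast hj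
    have hz0 : 0 ≤ z := by positivity
    have hz1 : z ≤ 1 / 2 := by
      rw [hz, div_le_iff₀ hm0]
      linarith
    have h5 := one_sub_exp hz0 hz1
    have hj0 : (0 : ℝ) ≤ j := Nat.cast_nonneg j
    have h6 : (1 - z) * ((m : ℝ) + j + 1) ≤ m - j := by
      have : z * ((m : ℝ) + j + 1) ≥ z * m := mul_le_mul_of_nonneg_left (by linarith) hz0
      have h7 : z * m = 2 * j + 1 := by rw [hz]; field_simp
      linarith
    have hc0 : (0 : ℝ) ≤ (2 * m).choose m := Nat.cast_nonneg _
    have h8 : Real.exp (-(((j + 1 : ℕ) : ℝ) ^ 2 / m + 2 * ((j + 1 : ℕ) : ℝ) ^ 3 / m ^ 2)) ≤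
        Real.exp (-((j : ℝ) ^ 2 / m + 2 * j ^ 3 / m ^ 2)) * Real.exp (-(z + z ^ 2)) := by
      rw [← Real.exp_add]
      apply Real.exp_le_exp.2
      have h9 : z + z ^ 2 ≤ (((j + 1 : ℕ) : ℝ) ^ 2 / m + 2 * ((j + 1 : ℕ) : ℝ) ^ 3 / m ^ 2) -
          ((j : ℝ) ^ 2 / m + 2 * j ^ 3 / m ^ 2) := by
        have e1 : (((j + 1 : ℕ) : ℝ) ^ 2 / m + 2 * ((j + 1 : ℕ) : ℝ) ^ 3 / m ^ 2) -
          ((j : ℝ) ^ 2 / m + 2 * j ^ 3 / m ^ 2) = z + (6 * j ^ 2 + 6 * j + 2) / m ^ 2 := by
          rw [hz]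
          push_cast
          field_simp
          ring
        have e2 : z ^ 2 = (4 * j ^ 2 + 4 * j + 1) / m ^ 2 := by
          rw [hz, div_pow]
          congr 1
          ring
        rw [e1, e2]
        have : (4 * (j : ℝ) ^ 2 + 4 * j + 1) / m ^ 2 ≤ (6 * j ^ 2 + 6 * j + 2) / m ^ 2 := by
          apply div_le_div_of_nonneg_right _ (by positivity)
          nlinarith
        linarith
      linarith
    have h9 : (0 : ℝ) < (m : ℝ) + j + 1 := by positivity
    have e3 : m + (j + 1) = m + j + 1 := by ring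
    rw [e3]
    refine le_of_mul_le_mul_right ?_ h9
    rw [h4]
    calc Real.exp (-(((j + 1 : ℕ) : ℝ) ^ 2 / m + 2 * ((j + 1 : ℕ) : ℝ) ^ 3 / m ^ 2)) * (2 * m).choose m * ((m : ℝ) + j + 1)
        ≤ (Real.exp (-((j : ℝ) ^ 2 / m + 2 * j ^ 3 / m ^ 2)) * Real.exp (-(z + z ^ 2))) * (2 * m).choose m *
            ((m : ℝ) + j + 1) := by
          apply mul_le_mul_of_nonneg_right _ h9.le
          exact mul_le_mul_of_nonneg_right h8 hc0
      _ = (Real.exp (-((j : ℝ) ^ 2 / m + 2 * j ^ 3 / m ^ 2)) * (2 * m).choose m) *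
            (Real.exp (-(z + z ^ 2)) * ((m : ℝ) + j + 1)) := by ring
      _ ≤ (2 * m).choose (m + j) * ((1 - z) * ((m : ℝ) + j + 1)) := by
          apply mul_le_mul h1 _ (by positivity) (Nat.cast_nonneg _)
          exact mul_le_mul_of_nonneg_right h5 h9.le
      _ ≤ (2 * m).choose (m + j) * (m - j) := mul_le_mul_of_nonneg_left h6 (Nat.cast_nonneg _)

end Pool.Agent.V11311.ER
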