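import Pool.Agent.V11311.ER.V1

/-! Increments of trajectories, part 2: the lower bound for moderate deviations. -/

set_option autoImplicit false

namespace Pool.Agent.V11311.ER

open Finset Filter Topology Pool.Agent.V11311.FP Pool.Agent.V11311.RC Pool.Agent.V11311.SL

open Pool.Agent.V11311.DV (fl fl_card mem_fl)

open Pool.Agent.Helper894.Collatz (T od er od_add iter_eq sum_pow_od period)

open Pool.Agent.H377R2 (iter_pos)

theorem prq_sum_le {ι : Type*} (S : Finset ι) (A : ℕ → Prop) (E : ι → ℕ → Prop) (Q : ℕ)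
    (hE : ∀ i ∈ S, ∀ x, E i x → A x) (hd : ∀ i ∈ S, ∀ j ∈ S, i ≠ j → ∀ x, E i x → ¬ E j x) :
    ∑ i ∈ S, prq Q (E i) ≤ prq Q A := by
  classical
  simp only [prq_eq]
  rw [← sum_div]
  apply div_le_div_of_nonneg_right _ (Nat.cast_nonneg Q)
  rw [← Nat.cast_sum, ← card_biUnion]
  · refine Nat.cast_le.2 (card_le_card ?_)
    intro x hx
    rw [mem_biUnion] at hx
    obtain ⟨i, hi, hx⟩ := hx
    rw [mem_filter] at hx ⊢
    exact ⟨hx.1, hE i hi x hx.2⟩
  · intro i hi j hj hij
    rw [Function.onFun, disjoint_filter]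
    exact fun x _ => hd i hi j hj hij x

theorem choose_anti {m i : ℕ} (hi : i ≤ m) : (2 * m).choose (m + i + 1) ≤ (2 * m).choose (m + i) := by
  have h := Nat.choose_succ_right_eq (2 * m) (m + i)
  have h2 : 2 * m - (m + i) = m - i := by omega
  rw [h2] at h
  have h3 : (2 * m).choose (m + i) * (m - i) ≤ (2 * m).choose (m + i) * (m + i + 1) :=
    Nat.mul_le_mul_left _ (by omega)
  rw [← h] at h3
  exact Nat.le_of_mul_le_mul_right h3 (by omega)

/-- the point probabilities -/
theorem point_low {w : ℕ} {σ : ℝ} (hσ : σ = 1 ∨ σ = -1) (j : ℕ) (hj : 1 ≤ j) (hjm : j ≤ w / 2) :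
    ((2 * (w / 2)).choose (w / 2 + j) : ℝ) / 4 ^ (w / 2) ≤
      prq (2 ^ w) (fun y => σ * Xw w y = 2 * ((w / 2 + j : ℕ) : ℝ) - w) := by
  set m := w / 2 with hm
  have hmw : m + j ≤ w := by omega
  have h1 : ((2 * m).choose (m + j) : ℝ) / 4 ^ m ≤ w.choose (m + j) / 2 ^ w := by
    rcases Nat.even_or_odd' w with ⟨c, hc | hc⟩
    · have : c = m := by omega
      rw [hc, this, pow_mul]
      norm_num
    · have : c = m := by omega
      rw [hc, this]
      obtain ⟨i, rfl⟩ : ∃ i, j = i + 1 := ⟨j - 1, by omega⟩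
      have h2 : (2 * m + 1).choose (m + (i + 1)) = (2 * m).choose (m + i) + (2 * m).choose (m + i + 1) := by
        rw [← add_assoc, Nat.choose_succ_succ]
      have h3 := choose_anti (m := m) (i := i) (by omega)
      have h4 : 2 * (2 * m).choose (m + (i + 1)) ≤ (2 * m + 1).choose (m + (i + 1)) := by
        rw [h2, ← add_assoc]
        omega
      have h5 : 2 * ((2 * m).choose (m + (i + 1)) : ℝ) ≤ (2 * m + 1).choose (m + (i + 1)) := by exact_mod_cast h4
      rw [pow_succ, pow_mul, div_le_div_iff₀ (by positivity) (by positivity)]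
      have h6 : (0 : ℝ) < 4 ^ m := by positivity
      norm_num
      nlinarith
  refine h1.trans (le_of_eq ?_)
  rcases hσ with h | h
  · have h2 : (fun y => σ * Xw w y = 2 * ((m + j : ℕ) : ℝ) - w) = fun y => od w y = m + j := by
      funext y
      apply propext
      rw [h]
      unfold Xw
      constructor
      · intro g
        have : (od w y : ℝ) = ((m + j : ℕ) : ℝ) := by linarith
        exact_mod_cast this
      · intro g
        rw [g]
        ring
    rw [h2, od_prob]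
  · have h2 : (fun y => σ * Xw w y = 2 * ((m + j : ℕ) : ℝ) - w) = fun y => od w y = w - (m + j) := by
      funext y
      apply propext
      rw [h]
      unfold Xw
      constructor
      · intro g
        have : ((od w y + (m + j) : ℕ) : ℝ) = w := by push_cast; push_cast at g; linarith
        have : od w y + (m + j) = w := by exact_mod_cast this
        omega
      · intro g
        have : ((od w y + (m + j) : ℕ) : ℝ) = w := by
          rw [g, Nat.sub_add_cancel hmw]
        push_cast at this ⊢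
        linarith
    rw [h2, od_prob, Nat.choose_symm hmw]

/-- **moderate deviations, lower bound** -/
theorem mod_low (δ : ℝ) (hδ : 0 < δ) : ∃ x0 : ℝ, 0 < x0 ∧ ∀ (w : ℕ) (x : ℝ), x0 ≤ x → x ^ 8 ≤ w → ∀ σ : ℝ,
    (σ = 1 ∨ σ = -1) → Real.exp (-((1 + δ) * x ^ 2 / 2)) ≤ prq (2 ^ w) (fun y => x * Real.sqrt w ≤ σ * Xw w y) := by
  refine ⟨16 / δ + 11, by positivity, ?_⟩
  intro w x hx hxw σ hσ
  have h16 : 0 < 16 / δ := by positivity
  have hx11 : 11 ≤ x := by linarith
  have hxδ : 16 ≤ δ * x := by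
    have : 16 / δ ≤ x := by linarith
    rw [div_le_iff₀ hδ] at this
    linarith
  set m := w / 2 with hm
  have hw2 : (w : ℝ) ≤ 2 * m + 1 := by
    have : w ≤ 2 * m + 1 := by omega
    exact_mod_cast this
  have hx8 : x ^ 8 ≤ 4 * m := by
    have h1 : (1 : ℝ) ≤ x ^ 8 := one_le_pow₀ (by linarith)
    have h2 : (4 : ℝ) ≤ x ^ 8 := by
      calc (4 : ℝ) ≤ 11 ^ 8 := by norm_num
        _ ≤ x ^ 8 := pow_le_pow_left₀ (by norm_num) hx11 8
    linarith
  set r := Real.sqrt m with hr
  have hr0 : 0 ≤ r := Real.sqrt_nonneg _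
  have hrm : r * r = m := Real.mul_self_sqrt (Nat.cast_nonneg m)
  have hrx : x ^ 4 ≤ 2 * r := by
    have e1 : (x ^ 4) ^ 2 = x ^ 8 := by ring
    have e2 : (2 * r) ^ 2 = 4 * (m : ℝ) := by rw [← hrm]; ring
    have h1 : (x ^ 4) ^ 2 ≤ (2 * r) ^ 2 := by
      rw [e1, e2]
      exact hx8
    exact le_of_sq_le_sq h1 (by positivity)
  have hx3 : (1331 : ℝ) ≤ x ^ 3 := by
    calc (1331 : ℝ) = 11 ^ 3 := by norm_num
      _ ≤ x ^ 3 := pow_le_pow_left₀ (by norm_num) hx11 3
  have hrx2 : 4 * x ≤ r := by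
    have h1 : x ^ 4 = x ^ 3 * x := by ring
    nlinarith
  have hr44 : 44 ≤ r := by linarith
  have hm1 : 1 ≤ m := by
    by_contra hcon
    have : m = 0 := by omega
    rw [hr, this] at hr44
    simp at hr44
    norm_num at hr44
  have hm0 : (0 : ℝ) < m := by exact_mod_cast hm1
  -- the points
  set j0 := ⌈(x * Real.sqrt w + 1) / 2⌉₊ with hj0
  set H := ⌈r⌉₊ with hH
  have hH1 : r ≤ H := Nat.le_ceil _
  have hH2 : (H : ℝ) ≤ r + 1 := (Nat.ceil_lt_add_one hr0).le
  have hj01 : (x * Real.sqrt w + 1) / 2 ≤ j0 := Nat.le_ceil _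
  have hj02 : (j0 : ℝ) ≤ (x * Real.sqrt w + 1) / 2 + 1 := (Nat.ceil_lt_add_one (by positivity)).le
  have hsw : Real.sqrt w ≤ Real.sqrt 2 * r + 1 := by
    rw [Real.sqrt_le_left (by positivity)]
    have h2 : Real.sqrt 2 * Real.sqrt 2 = 2 := Real.mul_self_sqrt (by norm_num)
    have h3 : 0 ≤ Real.sqrt 2 * r := by positivity
    calc (w : ℝ) ≤ 2 * m + 1 := hw2
      _ = (Real.sqrt 2 * Real.sqrt 2) * (r * r) + 1 := by rw [h2, hrm]
      _ ≤ (Real.sqrt 2 * r + 1) ^ 2 := by nlinarith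
  set K := x / Real.sqrt 2 + 3 with hK
  have hs2 : 1.414 ≤ Real.sqrt 2 ∧ Real.sqrt 2 ≤ 1.4143 := by
    constructor
    · apply Real.le_sqrt_of_sq_le
      norm_num
    · rw [Real.sqrt_le_left (by norm_num)]
      norm_num
  have hs2pos : 0 < Real.sqrt 2 := by linarith [hs2.1]
  have hJ : ((j0 + H : ℕ) : ℝ) ≤ K * r := by
    push_cast
    have h1 : x * Real.sqrt w ≤ x * (Real.sqrt 2 * r + 1) := mul_le_mul_of_nonneg_left hsw (by linarith)
    have h2 : x / Real.sqrt 2 = x * Real.sqrt 2 / 2 := by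
      rw [div_eq_div_iff hs2pos.ne' (by norm_num), mul_assoc, Real.mul_self_sqrt (by norm_num)]
    rw [hK, h2]
    nlinarith
  have hKx : K ≤ x := by
    rw [hK]
    have h1 : x / Real.sqrt 2 ≤ x / 1.414 := div_le_div_of_nonneg_left (by linarith) (by norm_num) hs2.1
    have h2 : x / 1.414 ≤ 0.7073 * x := by
      rw [div_le_iff₀ (by norm_num)]
      linarith
    linarith
  have hK0 : 0 < K := by positivity
  have hK2 : K ^ 2 ≤ x ^ 2 / 2 + 4.25 * x + 9 := by
    have h1 : (x / Real.sqrt 2) ^ 2 = x ^ 2 / 2 := by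
      rw [div_pow, Real.sq_sqrt (by norm_num)]
    have h2 : x / Real.sqrt 2 ≤ 0.7073 * x := by
      have h1 : x / Real.sqrt 2 ≤ x / 1.414 := div_le_div_of_nonneg_left (by linarith) (by norm_num) hs2.1
      have h2 : x / 1.414 ≤ 0.7073 * x := by
        rw [div_le_iff₀ (by norm_num)]
        linarith
      linarith
    rw [hK, add_sq, h1]
    linarith
  have hJm : 4 * (j0 + H) ≤ m := by
    have h1 : (4 : ℝ) * ((j0 + H : ℕ) : ℝ) ≤ m := by
      rw [← hrm]
      nlinarith
    exact_mod_cast h1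
  have hj0pos : 1 ≤ j0 := Nat.ceil_pos.2 (by positivity)
  -- the sum
  have hc := central hm1
  have hc2 : (4 : ℝ) ^ m ≤ 2 * r * (2 * m).choose m := by
    have h1 : ((4 : ℝ) ^ m) ^ 2 ≤ (2 * r * (2 * m).choose m) ^ 2 := by
      calc ((4 : ℝ) ^ m) ^ 2 = 16 ^ m := by rw [← pow_mul, mul_comm, pow_mul]; norm_num
        _ ≤ 4 * m * ((2 * m).choose m : ℝ) ^ 2 := hc
        _ = _ := by rw [← hrm]; ring
    exact le_of_sq_le_sq h1 (by positivity)
  set E := Real.exp (-(K ^ 2 + 1)) with hE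
  have hpt : ∀ j ∈ Ico j0 (j0 + H), E / (2 * r) ≤
      prq (2 ^ w) (fun y => σ * Xw w y = 2 * ((w / 2 + j : ℕ) : ℝ) - w) := by
    intro j hj
    rw [mem_Ico] at hj
    refine le_trans ?_ (point_low hσ j (by omega) (by omega))
    rw [← hm, le_div_iff₀ (by positivity)]
    have h1 := local_low hm1 j (by omega)
    refine le_trans ?_ h1
    have hjR : (j : ℝ) ≤ K * r := by
      have : (j : ℝ) ≤ ((j0 + H : ℕ) : ℝ) := by exact_mod_cast hj.2.le
      linarith
    have hj0' : (0 : ℝ) ≤ j := Nat.cast_nonneg j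
    have h2 : (j : ℝ) ^ 2 / m ≤ K ^ 2 := by
      rw [div_le_iff₀ hm0, ← hrm]
      calc (j : ℝ) ^ 2 ≤ (K * r) ^ 2 := pow_le_pow_left₀ hj0' hjR 2
        _ = K ^ 2 * (r * r) := by ring
    have h3 : 2 * (j : ℝ) ^ 3 / m ^ 2 ≤ 1 := by
      rw [div_le_one (by positivity), ← hrm]
      calc 2 * (j : ℝ) ^ 3 ≤ 2 * (K * r) ^ 3 := by
            have := pow_le_pow_left₀ hj0' hjR 3
            linarith
        _ = 2 * K ^ 3 * r ^ 3 := by ring
        _ ≤ 2 * x ^ 3 * r ^ 3 := by
            have := pow_le_pow_left₀ hK0.le hKx 3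
            apply mul_le_mul_of_nonneg_right _ (by positivity)
            linarith
        _ ≤ r * r ^ 3 := by
            apply mul_le_mul_of_nonneg_right _ (by positivity)
            have : x ^ 4 = x ^ 3 * x := by ring
            nlinarith
        _ = (r * r) ^ 2 := by ring
    have h4 : E ≤ Real.exp (-((j : ℝ) ^ 2 / m + 2 * j ^ 3 / m ^ 2)) := Real.exp_le_exp.2 (by linarith)
    calc E / (2 * r) * 4 ^ m ≤ E / (2 * r) * (2 * r * (2 * m).choose m) :=
          mul_le_mul_of_nonneg_left hc2 (by positivity)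
      _ = E * (2 * m).choose m := by
          have : r ≠ 0 := by linarith
          field_simp
      _ ≤ _ := mul_le_mul_of_nonneg_right h4 (Nat.cast_nonneg _)
  have hsum := prq_sum_le (Ico j0 (j0 + H)) (fun y => x * Real.sqrt w ≤ σ * Xw w y)
    (fun j y => σ * Xw w y = 2 * ((w / 2 + j : ℕ) : ℝ) - w) (2 ^ w) (fun j hj y hy => by
      rw [mem_Ico] at hj
      have h1 : (j0 : ℝ) ≤ j := by exact_mod_cast hj.1
      rw [hy, ← hm]
      push_cast
      linarith) (fun i _ j _ hij y hi hj => by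
      apply hij
      rw [hi] at hj
      have : ((w / 2 + i : ℕ) : ℝ) = ((w / 2 + j : ℕ) : ℝ) := by linarith
      have : w / 2 + i = w / 2 + j := by exact_mod_cast this
      omega)
  refine le_trans ?_ hsum
  refine le_trans ?_ (sum_le_sum hpt)
  rw [sum_const, Nat.card_Ico, nsmul_eq_mul]
  have h1 : ((j0 + H - j0 : ℕ) : ℝ) = H := by
    congr 1
    omega
  rw [h1]
  have h2 : E / 2 ≤ H * (E / (2 * r)) := by
    rw [mul_div_assoc', le_div_iff₀ (by linarith)]
    have : 0 < E := Real.exp_pos _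
    nlinarith
  refine le_trans ?_ h2
  have h3 : Real.exp (-1) ≤ 1 / 2 := by
    rw [Real.exp_neg, one_div]
    apply inv_anti₀ (by norm_num)
    have := Real.exp_one_gt_d9
    linarith
  calc Real.exp (-((1 + δ) * x ^ 2 / 2)) ≤ E * Real.exp (-1) := by
        rw [hE, ← Real.exp_add]
        apply Real.exp_le_exp.2
        nlinarith
    _ ≤ E * (1 / 2) := mul_le_mul_of_nonneg_left h3 (Real.exp_pos _).le
    _ = E / 2 := by ring

end Pool.Agent.V11311.ER
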