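import Pool.Agent.V11311.ER.V2

/-! Increments of trajectories, part 3: the upper bound. -/

set_option autoImplicit false

namespace Pool.Agent.V11311.ER

open Finset Filter Topology Pool.Agent.V11311.FP Pool.Agent.V11311.RC Pool.Agent.V11311.SL

open Pool.Agent.V11311.DV (fl fl_card mem_fl)

open Pool.Agent.Helper894.Collatz (T od er od_add iter_eq sum_pow_od period)

open Pool.Agent.H377R2 (iter_pos)

/-- a criterion for rare patterns of length `o(log N)`, with a grid -/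
theorem St_rare3 {ι : Type*} (P : ℕ → ℕ → Prop) (S : ℕ → Finset ι) (len g : ℕ → ι → ℕ) (A : ℕ → ι → ℕ → Prop)
    (hper : ∀ N p, Per (2 ^ len N p) (A N p))
    (hlen : ∀ κ : ℝ, 0 < κ → ∀ᶠ N : ℕ in atTop, ∀ p ∈ S N, (2 : ℝ) ^ len N p ≤ (N : ℝ) ^ κ)
    (hg : ∀ N p, 1 ≤ g N p)
    (hPA : ∀ᶠ N : ℕ in atTop, ∀ m : ℕ, P N m → ∃ p ∈ S N, ∀ y u, u < g N p → T^[u] y = m → A N p y)
    (hsum : Tendsto (fun N : ℕ => ∑ p ∈ S N, (Real.log N / g N p + 1) * prq (2 ^ len N p) (A N p)) atTop (𝓝 0))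
    {κ : ℝ} (hκ : 0 < κ) (ε : ℝ) (hε : 0 < ε) :
    ∀ᶠ N : ℕ in atTop, (cN (St P N (Lv κ N)) N : ℝ) ≤ ε * N := by
  classical
  refine rare (St P) (St_mono P) (St_dec P) (St_ext P) ?_ hκ ε hε
  intro κ hκ ε hε
  obtain ⟨N0, hN0⟩ := eventually_atTop.1 (descend (ε / 2) (by positivity))
  have e2 := (tendsto_rpow_atTop hκ).eventually (eventually_ge_atTop ((N0 : ℝ) + 1))
  have e3 := hsum.eventually (gt_mem_nhds (show (0 : ℝ) < ε / 4 by positivity))
  filter_upwards [tendsto_natCast_atTop_atTop.eventually (e2.and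
    (Real.tendsto_log_atTop.eventually (eventually_ge_atTop (3 : ℝ)))), e3, hlen (κ / 2) (by positivity), hPA,
    eventually_ge_atTop 1] with N h1 h2 h3 h4 h5 N' hN1 hN2
  obtain ⟨f2, f3⟩ := h1
  have hNR : (1 : ℝ) ≤ N := by exact_mod_cast h5
  have hN'0 : N0 ≤ N' ∧ 1 ≤ N' := by
    have g1 : ((N0 + 1 : ℕ) : ℝ) ≤ N' := by
      push_cast
      linarith
    have g2 : N0 + 1 ≤ N' := by exact_mod_cast g1
    omega
  have hN'R : (1 : ℝ) ≤ N' := by exact_mod_cast hN'0.2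
  have g1 := hN0 N' hN'0.1
  obtain ⟨j1, j2, j3, j4⟩ := JH_facts hN'0.2
  set Λ := Real.log N with hΛ
  have hΛ0 : 0 < Λ := by linarith
  have hN'half : (N : ℝ) ^ (κ / 2) ≤ (N' : ℝ) ^ (1 / 2 : ℝ) := by
    calc (N : ℝ) ^ (κ / 2) = ((N : ℝ) ^ κ) ^ (1 / 2 : ℝ) := by
          rw [← Real.rpow_mul (by linarith)]
          congr 1
          ring
      _ ≤ _ := Real.rpow_le_rpow (by positivity) hN1 (by norm_num)
  have hlog : Real.log N' ≤ Λ := Real.log_le_log (by linarith) (by exact_mod_cast hN2)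
  -- powers of two
  have hlen2 : ∀ p ∈ S N, (2 : ℝ) ^ len N p ≤ (N' : ℝ) ^ (1 / 2 : ℝ) := fun p hp => (h3 p hp).trans hN'half
  have hJlen : ∀ p ∈ S N, ∀ s, s ≤ JH N' → 2 ^ (s + len N p) ≤ N' := by
    intro p hp s hs
    have k1 : ((2 : ℝ) ^ (s + len N p)) ≤ N' := by
      rw [pow_add]
      calc (2 : ℝ) ^ s * 2 ^ len N p ≤ 2 ^ JH N' * 2 ^ len N p :=
            mul_le_mul_of_nonneg_right (pow_le_pow_right₀ (by norm_num) hs) (by positivity)
        _ ≤ (N' : ℝ) ^ (0.35 : ℝ) * (N' : ℝ) ^ (1 / 2 : ℝ) := mul_le_mul j3 (hlen2 p hp) (by positivity) (by positivity)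
        _ = (N' : ℝ) ^ (0.85 : ℝ) := by
            rw [← Real.rpow_add (by linarith)]
            norm_num
        _ ≤ (N' : ℝ) ^ (1 : ℝ) := Real.rpow_le_rpow_of_exponent_le hN'R (by norm_num)
        _ = N' := Real.rpow_one _
    exact_mod_cast k1
  have k1 : (cN (St P N ⌊(N' : ℝ) ^ (0.99 : ℝ)⌋₊) N' : ℝ) ≤
      cN (fun n => ⌊(N' : ℝ) ^ (0.99 : ℝ)⌋₊ < T^[JH N'] n ∧ n ≤ N') N' +
      (cN (fun n => ∃ p ∈ S N, ∃ i ∈ range (JH N' / g N p + 1), A N p (T^[g N p * i] n)) N' +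
       cN (fun _ => False) N') := by
    apply cN_or3
    intro n hn hnN hst
    obtain ⟨s, hs1, hs2⟩ := hst
    by_cases hsJ : JH N' ≤ s
    · exact Or.inl ⟨hs1 _ hsJ, hnN⟩
    · right; left
      push Not at hsJ
      obtain ⟨p, hp1, hp2⟩ := h4 _ hs2
      refine ⟨p, hp1, s / g N p, ?_, ?_⟩
      · rw [mem_range, Nat.lt_succ_iff]
        exact Nat.div_le_div_right hsJ.le
      · apply hp2 _ (s % g N p) (Nat.mod_lt _ (hg N p))
        rw [← Function.iterate_add_apply, Nat.mod_add_div]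
  have k2 : (cN (fun _ => False) N' : ℝ) = 0 := by
    rw [← fl_card]
    have : fl (fun _ => False) N' = ∅ := by
      ext n
      rw [mem_fl]
      simp
    rw [this]
    simp
  have k3 := cN_union (S N) (fun n => ∃ p ∈ S N, ∃ i ∈ range (JH N' / g N p + 1), A N p (T^[g N p * i] n))
    (fun p n => ∃ i ∈ range (JH N' / g N p + 1), A N p (T^[g N p * i] n)) N' (fun n _ _ h => h)
  have k4 : ∑ p ∈ S N, (cN (fun n => ∃ i ∈ range (JH N' / g N p + 1), A N p (T^[g N p * i] n)) N' : ℝ) ≤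
      ∑ p ∈ S N, 2 * N' * ((Λ / g N p + 1) * prq (2 ^ len N p) (A N p)) := by
    refine sum_le_sum fun p hp => ?_
    have m1 := cN_union (range (JH N' / g N p + 1)) (fun n => ∃ i ∈ range (JH N' / g N p + 1), A N p (T^[g N p * i] n))
      (fun i n => A N p (T^[g N p * i] n)) N' (fun n _ _ h => h)
    refine m1.trans ?_
    calc ∑ i ∈ range (JH N' / g N p + 1), (cN (fun n => A N p (T^[g N p * i] n)) N' : ℝ)
        ≤ ∑ _i ∈ range (JH N' / g N p + 1), 2 * (N' : ℝ) * prq (2 ^ len N p) (A N p) := by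
          refine sum_le_sum fun i hi => ?_
          rw [mem_range, Nat.lt_succ_iff] at hi
          apply cN_shift (hper N p) (hJlen p hp _ _)
          calc g N p * i ≤ g N p * (JH N' / g N p) := Nat.mul_le_mul_left _ hi
            _ ≤ JH N' := Nat.mul_div_le _ _
      _ = ((JH N' / g N p + 1 : ℕ) : ℝ) * (2 * (N' : ℝ) * prq (2 ^ len N p) (A N p)) := by
          rw [sum_const, card_range, nsmul_eq_mul]
      _ ≤ (Λ / g N p + 1) * (2 * (N' : ℝ) * prq (2 ^ len N p) (A N p)) := by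
          apply mul_le_mul_of_nonneg_right _ (by
            have := prq_nonneg (2 ^ len N p) (A N p)
            positivity)
          push_cast
          have m2 : ((JH N' / g N p : ℕ) : ℝ) ≤ (JH N' : ℝ) / g N p := Nat.cast_div_le
          have m3 : (JH N' : ℝ) / g N p ≤ Λ / g N p :=
            div_le_div_of_nonneg_right (by linarith) (Nat.cast_nonneg _)
          linarith
      _ = _ := by ring
  have k5 : ∑ p ∈ S N, 2 * (N' : ℝ) * ((Λ / g N p + 1) * prq (2 ^ len N p) (A N p)) ≤ ε / 2 * N' := by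
    rw [← mul_sum]
    calc 2 * (N' : ℝ) * ∑ p ∈ S N, (Λ / g N p + 1) * prq (2 ^ len N p) (A N p) ≤ 2 * N' * (ε / 4) :=
          mul_le_mul_of_nonneg_left h2.le (by positivity)
      _ = ε / 2 * N' := by ring
  linarith

theorem per_le {a b : ℕ} (h : a ≤ b) {A : ℕ → Prop} (hA : Per (2 ^ a) A) : Per (2 ^ b) A := by
  intro x
  rw [← hA, Nat.mod_mod_of_dvd _ (pow_dvd_pow 2 h), hA]

theorem prq_le_pow {a b : ℕ} (h : a ≤ b) {A : ℕ → Prop} (hA : Per (2 ^ a) A) : prq (2 ^ b) A = prq (2 ^ a) A := by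
  obtain ⟨c, rfl⟩ := Nat.exists_eq_add_of_le h
  have h1 := prod_prq (j := a) (q := 2 ^ c) (A := A) (B := fun _ => True) (by positivity)
    (Nat.Coprime.pow_left _ (by norm_num)) hA (fun _ => Iff.rfl)
  rw [prq_true (by positivity), mul_one, ← pow_add] at h1
  simpa only [and_true] using h1

theorem per_or {Q : ℕ} {A B : ℕ → Prop} (hA : Per Q A) (hB : Per Q B) : Per Q (fun x => A x ∨ B x) :=
  fun x => or_congr (hA x) (hB x)

theorem prq_or_le {Q : ℕ} {A B : ℕ → Prop} : prq Q (fun x => A x ∨ B x) ≤ prq Q A + prq Q B := by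
  have g := prq_union (Finset.univ : Finset Bool) (fun x => A x ∨ B x) (fun i x => if i then A x else B x) Q
    (fun x hx => by
      rcases hx with hx | hx
      · exact ⟨true, mem_univ _, by simpa using hx⟩
      · exact ⟨false, mem_univ _, by simpa using hx⟩)
  refine g.trans (le_of_eq ?_)
  rw [Fintype.sum_bool]
  simp only [if_true, Bool.false_eq_true, if_false]

/-- the size of the increments in windows of length `w` -/
noncomputable def bw (Λ w : ℝ) : ℝ := Real.sqrt (2 * w * Real.log (Λ / w))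

/-- the comparison events: large maxima -/
def Am (δ e Λ v : ℝ) (y : ℕ) : Prop :=
  (Mw 1 ⌊(1 + 3 * δ) * v⌋₊ ((1 + e / 2) * Real.sqrt (2 * v * ((1 - δ) * Real.log (Λ / v)))) y ∨
    Mw (-1) ⌊(1 + 3 * δ) * v⌋₊ ((1 + e / 2) * Real.sqrt (2 * v * ((1 - δ) * Real.log (Λ / v)))) y) ∨
  (Mw 1 ⌈δ * v⌉₊ (e / 2 * Real.sqrt (2 * v * ((1 - δ) * Real.log (Λ / v)))) y ∨
    Mw (-1) ⌈δ * v⌉₊ (e / 2 * Real.sqrt (2 * v * ((1 - δ) * Real.log (Λ / v)))) y)

theorem Am_facts {δ e Λ v : ℝ} (he : 0 < e) (he1 : e ≤ 1) (hδ : δ = e ^ 2 / 32) (hv : 1 / δ ≤ v) (hvΛ : 1 ≤ Real.log (Λ / v)) :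
    Per (2 ^ ⌊(1 + 3 * δ) * v⌋₊) (Am δ e Λ v) ∧
    prq (2 ^ ⌊(1 + 3 * δ) * v⌋₊) (Am δ e Λ v) ≤ 4 * Real.exp (-((1 + e / 2) * Real.log (Λ / v))) := by
  have hδ0 : 0 < δ := by rw [hδ]; positivity
  have hδ1 : δ ≤ e / 32 := by rw [hδ]; nlinarith
  have hδ32 : δ ≤ 1 / 32 := by linarith
  have hv0 : 0 < v := lt_of_lt_of_le (by positivity) hv
  have hδv : 1 ≤ δ * v := by
    rw [div_le_iff₀ hδ0] at hv
    linarith
  set L := Real.log (Λ / v) with hL
  set B := Real.sqrt (2 * v * ((1 - δ) * L)) with hB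
  have hB0 : 0 ≤ B := Real.sqrt_nonneg _
  have hB2 : B ^ 2 = 2 * v * ((1 - δ) * L) := by
    rw [hB, Real.sq_sqrt]
    have : 0 < 1 - δ := by linarith
    have : 0 < L := by linarith
    positivity
  set K1 := ⌊(1 + 3 * δ) * v⌋₊ with hK1
  set K2 := ⌈δ * v⌉₊ with hK2
  have hK1v : (K1 : ℝ) ≤ (1 + 3 * δ) * v := Nat.floor_le (by positivity)
  have hK2v : (K2 : ℝ) ≤ 2 * δ * v := by
    have := (Nat.ceil_lt_add_one (show 0 ≤ δ * v by positivity)).le
    linarith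
  have hK21 : K2 ≤ K1 := by
    rw [hK1]
    apply Nat.le_floor
    have : 2 * δ * v ≤ (1 + 3 * δ) * v := by nlinarith
    linarith
  have hp1 : ∀ σ y, Per (2 ^ K1) (Mw σ K1 y) := fun σ y => Mw_per σ K1 y
  have hp2 : ∀ σ y, Per (2 ^ K1) (Mw σ K2 y) := fun σ y => per_le hK21 (Mw_per σ K2 y)
  refine ⟨per_or (per_or (hp1 _ _) (hp1 _ _)) (per_or (hp2 _ _) (hp2 _ _)), ?_⟩
  have b1 : ∀ σ : ℝ, (σ = 1 ∨ σ = -1) → prq (2 ^ K1) (Mw σ K1 ((1 + e / 2) * B)) ≤ Real.exp (-((1 + e / 2) * L)) := by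
    intro σ hσ
    refine (Mw_pr2 hσ (by positivity) (by positivity) hK1v).trans (Real.exp_le_exp.2 ?_)
    apply neg_le_neg
    rw [le_div_iff₀ (by positivity), mul_pow, hB2]
    have h1 : (1 + 3 * δ) ≤ (1 + e / 2) * (1 - δ) := by nlinarith
    have h2 : 0 ≤ (1 + e / 2) * L * (2 * v) := by
      have : 0 < L := by linarith
      positivity
    calc (1 + e / 2) * L * (2 * ((1 + 3 * δ) * v)) = (1 + e / 2) * L * (2 * v) * (1 + 3 * δ) := by ring
      _ ≤ (1 + e / 2) * L * (2 * v) * ((1 + e / 2) * (1 - δ)) := mul_le_mul_of_nonneg_left h1 h2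
      _ = _ := by ring
  have b2 : ∀ σ : ℝ, (σ = 1 ∨ σ = -1) → prq (2 ^ K1) (Mw σ K2 (e / 2 * B)) ≤ Real.exp (-((1 + e / 2) * L)) := by
    intro σ hσ
    rw [prq_le_pow hK21 (Mw_per σ K2 _)]
    refine (Mw_pr2 hσ (by positivity) (by positivity) hK2v).trans (Real.exp_le_exp.2 ?_)
    apply neg_le_neg
    rw [le_div_iff₀ (by positivity), mul_pow, hB2]
    have h1 : (e / 2) ^ 2 = 8 * δ := by rw [hδ]; ring
    rw [h1]
    have hL0 : 0 < L := by linarith
    have h2 : (1 + e / 2) * 4 ≤ 16 * (1 - δ) := by nlinarith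
    calc (1 + e / 2) * L * (2 * (2 * δ * v)) = (1 + e / 2) * 4 * (L * δ * v) := by ring
      _ ≤ 16 * (1 - δ) * (L * δ * v) := mul_le_mul_of_nonneg_right h2 (by positivity)
      _ = _ := by ring
  have t1 := b1 1 (Or.inl rfl)
  have t2 := b1 (-1) (Or.inr rfl)
  have t3 := b2 1 (Or.inl rfl)
  have t4 := b2 (-1) (Or.inr rfl)
  have u1 := prq_or_le (Q := 2 ^ K1) (A := Mw 1 K1 ((1 + e / 2) * B)) (B := Mw (-1) K1 ((1 + e / 2) * B))
  have u2 := prq_or_le (Q := 2 ^ K1) (A := Mw 1 K2 (e / 2 * B)) (B := Mw (-1) K2 (e / 2 * B))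
  have u3 := prq_or_le (Q := 2 ^ K1) (A := fun y => Mw 1 K1 ((1 + e / 2) * B) y ∨ Mw (-1) K1 ((1 + e / 2) * B) y)
    (B := fun y => Mw 1 K2 (e / 2 * B) y ∨ Mw (-1) K2 (e / 2 * B) y)
  calc prq (2 ^ K1) (Am δ e Λ v) ≤ _ := u3
    _ ≤ _ := by linarith

/-- a large increment yields a large maximum -/
theorem Am_of {δ e Λ v : ℝ} (he : 0 < e) (he1 : e ≤ 1) (hδ : δ = e ^ 2 / 32) (hv : 1 / δ ≤ v) (hvΛ : 1 ≤ Real.log (Λ / v))
    (hΛ : 0 < Λ) {w u y : ℕ} (hw1 : v ≤ w) (hw2 : (w : ℝ) ≤ (1 + δ) * v) (hu : u < ⌈δ * v⌉₊)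
    (h : (1 + e) * bw Λ w ≤ |Xw w (T^[u] y)|) : Am δ e Λ v y := by
  have hδ0 : 0 < δ := by rw [hδ]; positivity
  have hδ1 : δ ≤ e / 32 := by rw [hδ]; nlinarith
  have hδ32 : δ ≤ 1 / 32 := by linarith
  have hv0 : 0 < v := lt_of_lt_of_le (by positivity) hv
  have hw0 : (0 : ℝ) < w := by linarith
  set L := Real.log (Λ / v) with hL
  set B := Real.sqrt (2 * v * ((1 - δ) * L)) with hB
  have hB0 : 0 ≤ B := Real.sqrt_nonneg _
  have hu' : (u : ℝ) < δ * v := Nat.lt_ceil.1 hu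
  have hBw : B ≤ bw Λ w := by
    rw [hB, bw]
    apply Real.sqrt_le_sqrt
    have h1 : (1 - δ) * L ≤ Real.log (Λ / w) := by
      have h2 : Real.log (Λ / ((1 + δ) * v)) ≤ Real.log (Λ / w) := by
        apply Real.log_le_log (by positivity)
        exact div_le_div_of_nonneg_left hΛ.le hw0 hw2
      have h3 : Real.log (Λ / ((1 + δ) * v)) = L - Real.log (1 + δ) := by
        rw [hL, Real.log_div hΛ.ne' (by positivity), Real.log_div hΛ.ne' hv0.ne', Real.log_mul (by positivity) hv0.ne']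
        ring
      have h4 : Real.log (1 + δ) ≤ δ := by
        have := Real.log_le_sub_one_of_pos (show 0 < 1 + δ by positivity)
        linarith
      nlinarith
    have h5 : 0 ≤ (1 - δ) * L := by
      have : 0 < 1 - δ := by linarith
      have : 0 < L := by linarith
      positivity
    calc 2 * v * ((1 - δ) * L) ≤ 2 * w * ((1 - δ) * L) := mul_le_mul_of_nonneg_right (by linarith) h5
      _ ≤ 2 * w * Real.log (Λ / w) := mul_le_mul_of_nonneg_left h1 (by positivity)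
  have hX : Xw w (T^[u] y) = Xw (u + w) y - Xw u y := by
    rw [Xw_add]
    ring
  have h1 : (1 + e) * B ≤ |Xw (u + w) y - Xw u y| := by
    rw [← hX]
    exact (mul_le_mul_of_nonneg_left hBw (by linarith)).trans h
  have h2 : |Xw (u + w) y - Xw u y| ≤ |Xw (u + w) y| + |Xw u y| := abs_sub _ _
  have hk1 : u + w ≤ ⌊(1 + 3 * δ) * v⌋₊ := by
    apply Nat.le_floor
    push_cast
    nlinarith
  have hk2 : u ≤ ⌈δ * v⌉₊ := hu.le
  by_cases h3 : (1 + e / 2) * B ≤ |Xw (u + w) y|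
  · left
    rcases le_total 0 (Xw (u + w) y) with h4 | h4
    · left
      refine ⟨u + w, hk1, ?_⟩
      rw [abs_of_nonneg h4] at h3
      linarith
    · right
      refine ⟨u + w, hk1, ?_⟩
      rw [abs_of_nonpos h4] at h3
      linarith
  · right
    push Not at h3
    have h5 : e / 2 * B ≤ |Xw u y| := by linarith
    rcases le_total 0 (Xw u y) with h4 | h4
    · left
      refine ⟨u, hk2, ?_⟩
      rw [abs_of_nonneg h4] at h5
      linarith
    · right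
      refine ⟨u, hk2, ?_⟩
      rw [abs_of_nonpos h4] at h5
      linarith

end Pool.Agent.V11311.ER
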