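import Pool.Agent.V11311.ER.V3

/-! Increments of trajectories, part 4: the upper bound. -/

set_option autoImplicit false

namespace Pool.Agent.V11311.ER

open Finset Filter Topology Pool.Agent.V11311.FP Pool.Agent.V11311.RC Pool.Agent.V11311.SL

open Pool.Agent.V11311.DV (fl fl_card mem_fl)

open Pool.Agent.Helper894.Collatz (T od er od_add iter_eq sum_pow_od period)

open Pool.Agent.H377R2 (iter_pos)

/-- a large increment -/
def PI (α1 α2 e : ℝ) (N m : ℕ) : Prop :=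
  ∃ w : ℕ, Real.log N ^ α1 / 2 ≤ w ∧ (w : ℝ) ≤ Real.log N ^ α2 ∧ (1 + e) * bw (Real.log N) w ≤ |Xw w m|

/-- the grid -/
noncomputable def SV (δ α2 : ℝ) (N : ℕ) : Finset ℕ := by
  classical
  exact (range (⌊Real.log (Real.log N) / Real.log (1 + δ)⌋₊ + 1)).filter
    (fun a : ℕ => 1 / δ ≤ (1 + δ) ^ a ∧ (1 + δ) ^ a ≤ Real.log N ^ α2)

theorem mem_SV {δ α2 : ℝ} {N a : ℕ} : a ∈ SV δ α2 N ↔ a < ⌊Real.log (Real.log N) / Real.log (1 + δ)⌋₊ + 1 ∧
    1 / δ ≤ (1 + δ) ^ a ∧ (1 + δ) ^ a ≤ Real.log N ^ α2 := by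
  classical
  unfold SV
  rw [mem_filter, mem_range]

theorem log_ratio {α2 Λ v : ℝ} (hΛ : 0 < Λ) (hv : 0 < v) (h : v ≤ Λ ^ α2) :
    (1 - α2) * Real.log Λ ≤ Real.log (Λ / v) := by
  have h1 : Λ ^ (1 - α2) ≤ Λ / v := by
    rw [le_div_iff₀ hv]
    calc Λ ^ (1 - α2) * v ≤ Λ ^ (1 - α2) * Λ ^ α2 := mul_le_mul_of_nonneg_left h (by positivity)
      _ = Λ := by
          rw [← Real.rpow_add hΛ]
          simp
  have h2 := Real.log_le_log (by positivity) h1
  rwa [Real.log_rpow hΛ] at h2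

theorem incr_rare {α1 α2 e κ : ℝ} (hα1 : 0 < α1) (hα2 : α2 < 1) (he : 0 < e) (he1 : e ≤ 1)
    (hκ : 0 < κ) (ε : ℝ) (hε : 0 < ε) :
    ∀ᶠ N : ℕ in atTop, (cN (St (PI α1 α2 e) N (Lv κ N)) N : ℝ) ≤ ε * N := by
  set δ : ℝ := e ^ 2 / 32 with hδ
  have hδ0 : 0 < δ := by positivity
  have hδ1 : δ ≤ e / 32 := by rw [hδ]; nlinarith
  have hδ32 : δ ≤ 1 / 32 := by linarith
  have hlog : Tendsto (fun N : ℕ => Real.log (N : ℝ)) atTop atTop :=
    Real.tendsto_log_atTop.comp tendsto_natCast_atTop_atTop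
  have hl1δ : 0 < Real.log (1 + δ) := Real.log_pos (by linarith)
  have hβ : 0 < 1 - α2 := by linarith
  have hratio : ∀ᶠ N : ℕ in atTop, ∀ v : ℝ, 0 < v → v ≤ Real.log N ^ α2 → 1 ≤ Real.log (Real.log N / v) := by
    filter_upwards [ll_tendsto.eventually (eventually_ge_atTop (1 / (1 - α2))), hlog.eventually (eventually_gt_atTop 0)]
      with N h1 h2 v hv hv2
    refine le_trans ?_ (log_ratio h2 hv hv2)
    rw [div_le_iff₀ hβ] at h1
    linarith
  refine St_rare3 (ι := ℕ) _ (SV δ α2) (fun _ a => ⌊(1 + 3 * δ) * (1 + δ) ^ a⌋₊) (fun _ a => ⌈δ * (1 + δ) ^ a⌉₊)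
    (fun N a y => a ∈ SV δ α2 N ∧ 1 ≤ Real.log (Real.log N / (1 + δ) ^ a) ∧ Am δ e (Real.log N) ((1 + δ) ^ a) y)
    ?_ ?_ ?_ ?_ ?_ hκ ε hε
  · intro N a x
    simp only
    refine and_congr_right fun h1 => and_congr_right fun h2 => ?_
    exact (Am_facts he he1 hδ (mem_SV.1 h1).2.1 h2).1 x
  · intro κ' hκ'
    have e1 : ∀ᶠ X : ℝ in atTop, 2 / κ' ≤ X ^ (1 - α2) :=
      (tendsto_rpow_atTop hβ).eventually (eventually_ge_atTop _)
    filter_upwards [hlog.eventually (e1.and (eventually_ge_atTop (1 : ℝ)))] with N h1 a ha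
    obtain ⟨h1, h2⟩ := h1
    obtain ⟨-, -, h3⟩ := mem_SV.1 ha
    set Λ := Real.log N with hΛ
    have hΛ0 : 0 < Λ := by linarith
    have hN0 : (0 : ℝ) < N := by
      by_contra hcon
      push Not at hcon
      have : (N : ℝ) = 0 := le_antisymm hcon (Nat.cast_nonneg _)
      rw [hΛ, this, Real.log_zero] at hΛ0
      exact lt_irrefl _ hΛ0
    have k1 : ((⌊(1 + 3 * δ) * (1 + δ) ^ a⌋₊ : ℕ) : ℝ) ≤ κ' * Λ := by
      have g1 : ((⌊(1 + 3 * δ) * (1 + δ) ^ a⌋₊ : ℕ) : ℝ) ≤ (1 + 3 * δ) * (1 + δ) ^ a := Nat.floor_le (by positivity)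
      have g2 : (1 + 3 * δ) * (1 + δ) ^ a ≤ 2 * Λ ^ α2 := mul_le_mul (by linarith) h3 (by positivity) (by norm_num)
      rw [div_le_iff₀ hκ'] at h1
      calc ((⌊(1 + 3 * δ) * (1 + δ) ^ a⌋₊ : ℕ) : ℝ) ≤ 2 * Λ ^ α2 := g1.trans g2
        _ ≤ (Λ ^ (1 - α2) * κ') * Λ ^ α2 := mul_le_mul_of_nonneg_right h1 (by positivity)
        _ = κ' * (Λ ^ (1 - α2) * Λ ^ α2) := by ring
        _ = κ' * Λ := by
            rw [← Real.rpow_add hΛ0]
            simp
    calc (2 : ℝ) ^ ⌊(1 + 3 * δ) * (1 + δ) ^ a⌋₊ = Real.exp ((⌊(1 + 3 * δ) * (1 + δ) ^ a⌋₊ : ℕ) * Real.log 2) := by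
          rw [Real.exp_nat_mul, Real.exp_log (by norm_num)]
      _ ≤ Real.exp (Λ * κ') := by
          apply Real.exp_le_exp.2
          have hl2 : Real.log 2 < 1 := by have := Real.log_two_lt_d9; linarith
          have hl2' : 0 < Real.log 2 := Real.log_pos (by norm_num)
          have m0 : (0 : ℝ) ≤ ((⌊(1 + 3 * δ) * (1 + δ) ^ a⌋₊ : ℕ) : ℝ) := Nat.cast_nonneg _
          nlinarith
      _ = (N : ℝ) ^ κ' := by rw [Real.rpow_def_of_pos hN0]
  · intro N a
    exact Nat.ceil_pos.2 (by positivity)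
  · have e1 : ∀ᶠ X : ℝ in atTop, 4 / δ ≤ X ^ α1 := (tendsto_rpow_atTop hα1).eventually (eventually_ge_atTop _)
    filter_upwards [hratio, hlog.eventually (e1.and (eventually_ge_atTop (1 : ℝ)))] with N h1 h2 m hm
    obtain ⟨f1, f2⟩ := h2
    obtain ⟨w, hw1, hw2, hw3⟩ := hm
    set Λ := Real.log N with hΛ
    have hΛ0 : 0 < Λ := by linarith
    have hδ4 : 128 ≤ 4 / δ := by
      rw [le_div_iff₀ hδ0]
      linarith
    have hw0 : (1 : ℝ) ≤ w := by linarith
    obtain ⟨a, ha1, ha2⟩ := exists_nat_pow_near hw0 (show 1 < 1 + δ by linarith)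
    have hv0 : 0 < (1 + δ) ^ a := by positivity
    have haS : a ∈ SV δ α2 N := by
      rw [mem_SV]
      refine ⟨?_, ?_, ha1.trans hw2⟩
      · rw [Nat.lt_succ_iff]
        apply Nat.le_floor
        rw [le_div_iff₀ hl1δ, ← Real.log_pow, ← hΛ]
        apply Real.log_le_log hv0
        refine ha1.trans (hw2.trans ?_)
        calc Λ ^ α2 ≤ Λ ^ (1 : ℝ) := Real.rpow_le_rpow_of_exponent_le f2 hα2.le
          _ = Λ := Real.rpow_one _
      · rw [pow_succ] at ha2
        have g1 : (w : ℝ) ≤ 2 * (1 + δ) ^ a := by nlinarith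
        have g2 : 4 / δ = 4 * (1 / δ) := by ring
        rw [g2] at f1
        linarith
    refine ⟨a, haS, fun y u hu hy => ⟨haS, h1 _ hv0 (mem_SV.1 haS).2.2, ?_⟩⟩
    rw [← hy] at hw3
    have ha3 : (w : ℝ) ≤ (1 + δ) * (1 + δ) ^ a := by
      rw [pow_succ] at ha2
      linarith
    exact Am_of he he1 hδ (mem_SV.1 haS).2.1 (h1 _ hv0 (mem_SV.1 haS).2.2) hΛ0 ha1 ha3 hu hw3
  · -- the sum
    have e1 : ∀ᶠ X : ℝ in atTop, Real.log X / Real.log (1 + δ) + 1 ≤ X ^ ((1 - α2) * e / 4) := by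
      have h1 : ∀ᶠ X : ℝ in atTop, ‖Real.log X‖ ≤ (Real.log (1 + δ) / 2) * ‖X ^ ((1 - α2) * e / 4)‖ :=
        (isLittleO_log_rpow_atTop (show (0 : ℝ) < (1 - α2) * e / 4 by positivity)).bound (by positivity)
      have h2 : ∀ᶠ X : ℝ in atTop, 2 ≤ X ^ ((1 - α2) * e / 4) :=
        (tendsto_rpow_atTop (by positivity)).eventually (eventually_ge_atTop _)
      filter_upwards [h1, h2, eventually_ge_atTop (1 : ℝ)] with X h1 h2 h3
      rw [Real.norm_of_nonneg (Real.log_nonneg h3), Real.norm_of_nonneg (by positivity)] at h1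
      have h4 : Real.log X / Real.log (1 + δ) ≤ X ^ ((1 - α2) * e / 4) / 2 := by
        rw [div_le_iff₀ hl1δ]
        linarith
      linarith
    have h1 : Tendsto (fun N : ℕ => (8 / δ) * (Real.log N) ^ (-((1 - α2) * e / 4))) atTop (𝓝 0) := by
      have h2 := (tendsto_rpow_neg_atTop (show (0 : ℝ) < (1 - α2) * e / 4 by positivity)).comp hlog
      have h3 := h2.const_mul (8 / δ)
      rw [mul_zero] at h3
      exact h3
    refine squeeze_zero' ?_ ?_ h1
    · filter_upwards with N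
      refine sum_nonneg fun p _ => mul_nonneg ?_ (prq_nonneg _ _)
      have := Real.log_natCast_nonneg N
      positivity
    · filter_upwards [hratio, hlog.eventually (e1.and (eventually_ge_atTop (1 : ℝ)))] with N h2 h3
      obtain ⟨f1, f2⟩ := h3
      set Λ := Real.log N with hΛ
      have hΛ0 : 0 < Λ := by linarith
      have key : ∀ a ∈ SV δ α2 N, (Λ / (⌈δ * (1 + δ) ^ a⌉₊ : ℕ) + 1) * prq (2 ^ ⌊(1 + 3 * δ) * (1 + δ) ^ a⌋₊)
          (fun y => a ∈ SV δ α2 N ∧ 1 ≤ Real.log (Λ / (1 + δ) ^ a) ∧ Am δ e Λ ((1 + δ) ^ a) y) ≤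
          (8 / δ) * Λ ^ (-((1 - α2) * e / 2)) := by
        intro a ha
        obtain ⟨m1, m2, m3⟩ := mem_SV.1 ha
        set v : ℝ := (1 + δ) ^ a with hv
        have hv0 : 0 < v := by positivity
        have hL := h2 v hv0 m3
        obtain ⟨-, g1⟩ := Am_facts (Λ := Λ) he he1 hδ m2 hL
        have hδv : 1 ≤ δ * v := by
          rw [div_le_iff₀ hδ0] at m2
          linarith
        have hvΛ : v ≤ Λ := by
          refine m3.trans ?_
          calc Λ ^ α2 ≤ Λ ^ (1 : ℝ) := Real.rpow_le_rpow_of_exponent_le f2 hα2.le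
            _ = Λ := Real.rpow_one _
        have g2 : Λ / (⌈δ * v⌉₊ : ℕ) + 1 ≤ 2 * (Λ / (δ * v)) := by
          have k1 : Λ / (⌈δ * v⌉₊ : ℕ) ≤ Λ / (δ * v) :=
            div_le_div_of_nonneg_left hΛ0.le (by positivity) (Nat.le_ceil _)
          have k2 : 1 ≤ Λ / (δ * v) := by
            rw [le_div_iff₀ (by positivity)]
            nlinarith
          linarith
        have g3 : prq (2 ^ ⌊(1 + 3 * δ) * v⌋₊) (fun y => a ∈ SV δ α2 N ∧ 1 ≤ Real.log (Λ / v) ∧ Am δ e Λ v y) ≤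
            4 * Real.exp (-((1 + e / 2) * Real.log (Λ / v))) :=
          (prq_mono fun y hy => hy.2.2).trans g1
        have g4 : Real.exp (-((1 + e / 2) * Real.log (Λ / v))) = (v / Λ) * (v / Λ) ^ (e / 2) := by
          have k1 : Real.log (Λ / v) = -Real.log (v / Λ) := by
            rw [← Real.log_inv, inv_div]
          rw [k1, show -((1 + e / 2) * -Real.log (v / Λ)) = Real.log (v / Λ) + Real.log (v / Λ) * (e / 2) by ring,
            Real.exp_add, Real.exp_log (by positivity), Real.rpow_def_of_pos (by positivity)]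
        have g5 : (v / Λ) ^ (e / 2) ≤ Λ ^ (-((1 - α2) * e / 2)) := by
          have k1 : v / Λ ≤ Λ ^ (-(1 - α2)) := by
            rw [div_le_iff₀ hΛ0]
            calc v ≤ Λ ^ α2 := m3
              _ = Λ ^ (-(1 - α2)) * Λ := by
                  nth_rewrite 3 [← Real.rpow_one Λ]
                  rw [← Real.rpow_add hΛ0]
                  congr 1
                  ring
          calc (v / Λ) ^ (e / 2) ≤ (Λ ^ (-(1 - α2))) ^ (e / 2) := Real.rpow_le_rpow (by positivity) k1 (by positivity)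
            _ = Λ ^ (-((1 - α2) * e / 2)) := by
                rw [← Real.rpow_mul hΛ0.le]
                congr 1
                ring
        calc (Λ / (⌈δ * v⌉₊ : ℕ) + 1) * prq (2 ^ ⌊(1 + 3 * δ) * v⌋₊)
              (fun y => a ∈ SV δ α2 N ∧ 1 ≤ Real.log (Λ / v) ∧ Am δ e Λ v y)
            ≤ 2 * (Λ / (δ * v)) * (4 * Real.exp (-((1 + e / 2) * Real.log (Λ / v)))) :=
              mul_le_mul g2 g3 (prq_nonneg _ _) (by positivity)
          _ = 8 / δ * (v / Λ) ^ (e / 2) := by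
              rw [g4]
              field_simp
              ring
          _ ≤ _ := mul_le_mul_of_nonneg_left g5 (by positivity)
      calc _ ≤ ∑ _a ∈ SV δ α2 N, (8 / δ) * Λ ^ (-((1 - α2) * e / 2)) := sum_le_sum key
        _ = (SV δ α2 N).card * ((8 / δ) * Λ ^ (-((1 - α2) * e / 2))) := by rw [sum_const, nsmul_eq_mul]
        _ ≤ Λ ^ ((1 - α2) * e / 4) * ((8 / δ) * Λ ^ (-((1 - α2) * e / 2))) := by
            apply mul_le_mul_of_nonneg_right _ (by positivity)
            have k1 : (SV δ α2 N).card ≤ ⌊Real.log (Real.log N) / Real.log (1 + δ)⌋₊ + 1 := by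
              classical
              unfold SV
              exact (card_filter_le _ _).trans (by rw [card_range])
            have k2 : ((⌊Real.log Λ / Real.log (1 + δ)⌋₊ : ℕ) : ℝ) ≤ Real.log Λ / Real.log (1 + δ) :=
              Nat.floor_le (div_nonneg (Real.log_nonneg f2) hl1δ.le)
            have k3 : ((SV δ α2 N).card : ℝ) ≤ (⌊Real.log Λ / Real.log (1 + δ)⌋₊ : ℕ) + 1 := by exact_mod_cast k1
            linarith
        _ = (8 / δ) * (Λ ^ ((1 - α2) * e / 4) * Λ ^ (-((1 - α2) * e / 2))) := by ring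
        _ = _ := by
            rw [← Real.rpow_add hΛ0]
            congr 2
            ring

end Pool.Agent.V11311.ER
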