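import Pool.Agent.V11311.ER.V4

/-! Increments of trajectories, part 5: the lower bound, conclusion. -/

set_option autoImplicit false

namespace Pool.Agent.V11311.ER

open Finset Filter Topology Pool.Agent.V11311.FP Pool.Agent.V11311.RC Pool.Agent.V11311.SL

open Pool.Agent.V11311.DV (fl fl_card mem_fl)

open Pool.Agent.Helper894.Collatz (T od er od_add iter_eq sum_pow_od period)

open Pool.Agent.H377R2 (iter_pos)

/-- the event of one window -/
def Wn (σ e Λ : ℝ) (w y : ℕ) : Prop := (1 - e) * bw Λ w ≤ σ * Xw w y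

theorem Wn_per (σ e Λ : ℝ) (w : ℕ) : Per (2 ^ w) (Wn σ e Λ w) := by
  intro x
  unfold Wn
  rw [Xw_mod le_rfl]

/-- the probability of one window -/
theorem Wn_pr {α1 α2 e : ℝ} (hα1 : 0 < α1) (hα2 : α2 < 1) (he : 0 < e) (he1 : e < 1) :
    ∀ᶠ Λ : ℝ in atTop, ∀ w : ℕ, Λ ^ α1 / 2 ≤ w → (w : ℝ) ≤ Λ ^ α2 → ∀ σ : ℝ, (σ = 1 ∨ σ = -1) →
    ((w : ℝ) / Λ) ^ (1 - e) ≤ prq (2 ^ w) (Wn σ e Λ w) := by
  obtain ⟨x0, hx0, hx⟩ := mod_low e he
  have h1e : 0 < 1 - e := by linarith
  have hβ : 0 < 1 - α2 := by linarith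
  have e1 : ∀ᶠ X : ℝ in atTop, x0 ^ 2 / (2 * (1 - e) ^ 2 * (1 - α2)) ≤ Real.log X :=
    Real.tendsto_log_atTop.eventually (eventually_ge_atTop _)
  have e2 : ∀ᶠ X : ℝ in atTop, (4 * Real.log X) ^ 4 ≤ X ^ α1 / 2 := by
    have h1 : ∀ᶠ X : ℝ in atTop, ‖Real.log X‖ ≤ (1 / 8) * ‖X ^ (α1 / 4)‖ :=
      (isLittleO_log_rpow_atTop (show (0 : ℝ) < α1 / 4 by positivity)).bound (by norm_num)
    filter_upwards [h1, eventually_ge_atTop (1 : ℝ)] with X h1 h3
    have hl := Real.log_nonneg h3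
    rw [Real.norm_of_nonneg hl, Real.norm_of_nonneg (by positivity)] at h1
    calc (4 * Real.log X) ^ 4 ≤ (X ^ (α1 / 4) / 2) ^ 4 := pow_le_pow_left₀ (by positivity) (by linarith) 4
      _ = (X ^ (α1 / 4)) ^ 4 / 16 := by ring
      _ = X ^ α1 / 16 := by
          rw [← Real.rpow_natCast, ← Real.rpow_mul (by linarith)]
          congr 2
          push_cast
          ring
      _ ≤ X ^ α1 / 2 := by
          have : 0 < X ^ α1 := by positivity
          linarith
  have e3 : ∀ᶠ X : ℝ in atTop, (1 : ℝ) ≤ Real.log X := Real.tendsto_log_atTop.eventually (eventually_ge_atTop _)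
  filter_upwards [e1, e2, e3, eventually_ge_atTop (1 : ℝ)] with Λ f1 f2 f3 f4 w hw1 hw2 σ hσ
  have hΛ0 : 0 < Λ := by linarith
  have hw0 : (0 : ℝ) < w := lt_of_lt_of_le (by positivity) hw1
  have hw1' : (1 : ℝ) ≤ w := by
    have : 0 < w := by exact_mod_cast hw0
    exact_mod_cast this
  set L := Real.log (Λ / w) with hL
  have hL1 : (1 - α2) * Real.log Λ ≤ L := log_ratio hΛ0 hw0 hw2
  have hL0 : 0 < L := lt_of_lt_of_le (by positivity) hL1
  have hL2 : L ≤ Real.log Λ := by
    apply Real.log_le_log (by positivity)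
    exact div_le_self hΛ0.le hw1'
  set x := (1 - e) * Real.sqrt (2 * L) with hxd
  have hx2 : x ^ 2 = (1 - e) ^ 2 * (2 * L) := by rw [hxd, mul_pow, Real.sq_sqrt (by positivity)]
  have hx0' : 0 ≤ x := by positivity
  have hxx0 : x0 ≤ x := by
    apply le_of_sq_le_sq _ hx0'
    rw [hx2]
    rw [div_le_iff₀ (by positivity)] at f1
    have : (1 - e) ^ 2 * (2 * ((1 - α2) * Real.log Λ)) ≤ (1 - e) ^ 2 * (2 * L) :=
      mul_le_mul_of_nonneg_left (by linarith) (by positivity)
    linarith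
  have hx8 : x ^ 8 ≤ w := by
    have g1 : x ^ 8 = (x ^ 2) ^ 4 := by ring
    have g2 : x ^ 2 ≤ 4 * Real.log Λ := by
      rw [hx2]
      have : (1 - e) ^ 2 ≤ 1 := by nlinarith
      have : (1 - e) ^ 2 * (2 * L) ≤ 1 * (2 * L) := mul_le_mul_of_nonneg_right this (by positivity)
      linarith
    rw [g1]
    exact (pow_le_pow_left₀ (by positivity) g2 4).trans (f2.trans hw1)
  have h1 := hx w x hxx0 hx8 σ hσ
  have h2 : (fun y => x * Real.sqrt w ≤ σ * Xw w y) = Wn σ e Λ w := by
    funext y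
    unfold Wn bw
    have : x * Real.sqrt w = (1 - e) * Real.sqrt (2 * w * Real.log (Λ / w)) := by
      rw [hxd, mul_assoc, ← Real.sqrt_mul (by positivity), ← hL]
      congr 2
      ring
    rw [this]
  rw [h2] at h1
  refine le_trans ?_ h1
  rw [Real.rpow_def_of_pos (by positivity)]
  apply Real.exp_le_exp.2
  have h3 : Real.log (w / Λ) = -L := by
    rw [hL, ← Real.log_inv, inv_div]
  rw [h3, hx2]
  have h4 : (1 + e) * (1 - e) ^ 2 ≤ 1 - e := by
    have : (1 + e) * (1 - e) ^ 2 = (1 - e ^ 2) * (1 - e) := by ring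
    rw [this]
    have : (1 - e ^ 2) * (1 - e) ≤ 1 * (1 - e) := mul_le_mul_of_nonneg_right (by nlinarith) h1e.le
    linarith
  have h5 : (1 + e) * (1 - e) ^ 2 * L ≤ (1 - e) * L := mul_le_mul_of_nonneg_right h4 hL0.le
  linarith

/-- large increments occur in all windows -/
def UpI (α1 α2 e κ : ℝ) (n : ℕ) : Prop :=
  ∀ w : ℕ, Real.log n ^ α1 ≤ w → (w : ℝ) ≤ Real.log n ^ α2 → ∀ σ : ℝ, (σ = 1 ∨ σ = -1) →
    ∃ s, (∀ s', s' ≤ s + w → (n : ℝ) ^ κ < (T^[s'] n : ℕ)) ∧ (1 - e) * bw (Real.log n) w ≤ σ * Xw w (T^[s] n)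

/-- no increments are larger -/
def LoI (α1 α2 e κ : ℝ) (n : ℕ) : Prop :=
  ∀ w : ℕ, Real.log n ^ α1 ≤ w → (w : ℝ) ≤ Real.log n ^ α2 → ∀ s,
    (∀ s', s' ≤ s + w → (n : ℝ) ^ κ < (T^[s'] n : ℕ)) → |Xw w (T^[s] n)| ≤ (1 + e) * bw (Real.log n) w

theorem UpI_rare {α1 α2 e κ : ℝ} (hα1 : 0 < α1) (hα1' : α1 < 1) (hα2' : 0 ≤ α2) (hα2 : α2 < 1) (he : 0 < e) (he1 : e < 1)
    (hκ0 : 0 < κ) (hκ1 : κ < 1) (ε : ℝ) (hε : 0 < ε) :
    ∀ᶠ N : ℕ in atTop, (cN (fun n => Real.sqrt N ≤ n ∧ n ≤ N ∧ ¬ UpI α1 α2 e κ n) N : ℝ) ≤ ε * N := by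
  classical
  have hlog : Tendsto (fun N : ℕ => Real.log (N : ℝ)) atTop atTop :=
    Real.tendsto_log_atTop.comp tendsto_natCast_atTop_atTop
  have h1e : 0 < 1 - e := by linarith
  have hβ : 0 < 1 - α2 := by linarith
  set c0 := (1 - κ) / 2 with hc0
  have hc0p : 0 < c0 := by rw [hc0]; linarith
  have e1 : ∀ᶠ X : ℝ in atTop, 2 / c0 ≤ X ^ (1 - α2) := (tendsto_rpow_atTop hβ).eventually (eventually_ge_atTop _)
  have e2 : ∀ᶠ X : ℝ in atTop, Real.log (8 / ε) + 2 * Real.log X ≤ c0 / 2 * X ^ ((1 - α2) * e) := by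
    have h1 : ∀ᶠ X : ℝ in atTop, ‖Real.log X‖ ≤ (c0 / 8) * ‖X ^ ((1 - α2) * e)‖ :=
      (isLittleO_log_rpow_atTop (show (0 : ℝ) < (1 - α2) * e by positivity)).bound (by positivity)
    have h2 : ∀ᶠ X : ℝ in atTop, 4 / c0 * |Real.log (8 / ε)| ≤ X ^ ((1 - α2) * e) :=
      (tendsto_rpow_atTop (by positivity)).eventually (eventually_ge_atTop _)
    filter_upwards [h1, h2, eventually_ge_atTop (1 : ℝ)] with X h1 h2 h3
    rw [Real.norm_of_nonneg (Real.log_nonneg h3), Real.norm_of_nonneg (by positivity)] at h1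
    have h4 : |Real.log (8 / ε)| ≤ c0 / 4 * X ^ ((1 - α2) * e) := by
      calc |Real.log (8 / ε)| = c0 / 4 * (4 / c0 * |Real.log (8 / ε)|) := by field_simp
        _ ≤ _ := mul_le_mul_of_nonneg_left h2 (by positivity)
    linarith [le_abs_self (Real.log (8 / ε))]
  filter_upwards [hlog.eventually (Wn_pr hα1 hα2 he he1), hlog.eventually (e1.and (e2.and (eventually_ge_atTop (3 : ℝ)))),
    eventually_ge_atTop 3] with N hW h2 hN3
  obtain ⟨f1, f2, f3⟩ := h2
  set Λ := Real.log N with hΛ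
  have hΛ0 : 0 < Λ := by linarith
  have hNR : (3 : ℝ) ≤ N := by exact_mod_cast hN3
  set WS : Finset ℕ := (range (⌊Λ⌋₊ + 1)).filter (fun w : ℕ => Λ ^ α1 / 2 ≤ w ∧ (w : ℝ) ≤ Λ ^ α2) with hWS
  set R : ℕ → ℕ := fun w => ⌊c0 * Λ / w⌋₊ with hR
  have hwfacts : ∀ w ∈ WS, Λ ^ α1 / 2 ≤ w ∧ (w : ℝ) ≤ Λ ^ α2 ∧ (0 : ℝ) < w := by
    intro w hw
    rw [hWS, mem_filter] at hw
    exact ⟨hw.2.1, hw.2.2, lt_of_lt_of_le (by positivity) hw.2.1⟩
  have hRw : ∀ w ∈ WS, ((w * R w : ℕ) : ℝ) ≤ (1 - κ) / 2 * Λ := by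
    intro w hw
    obtain ⟨-, -, hw0⟩ := hwfacts w hw
    have h1 : (R w : ℝ) ≤ c0 * Λ / w := Nat.floor_le (by positivity)
    rw [le_div_iff₀ hw0] at h1
    push_cast
    rw [← hc0]
    linarith
  -- the exceptional set
  have hcn : (cN (fun n => Real.sqrt N ≤ n ∧ n ≤ N ∧ ¬ UpI α1 α2 e κ n) N : ℝ) ≤
      ∑ p ∈ WS ×ˢ ({1, -1} : Finset ℤ), (cN (fun x => ∀ r, r < R p.1 → ¬ Wn (p.2 : ℝ) e Λ p.1 (T^[p.1 * r] x)) N : ℝ) := by
    apply cN_union
    rintro n hn hnN ⟨g1, g2, g3⟩
    unfold UpI at g3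
    push Not at g3
    obtain ⟨w, g4, g5, σ, g6, g7⟩ := g3
    have hn0 : (0 : ℝ) < n := by exact_mod_cast hn
    have hnR : (n : ℝ) ≤ N := by exact_mod_cast hnN
    have hl1 := log_half g1 (by omega)
    have hl2 : Real.log n ≤ Λ := Real.log_le_log hn0 hnR
    have hln : 0 < Real.log n := by linarith
    have hw1 : Λ ^ α1 / 2 ≤ w := by
      refine le_trans ?_ g4
      calc Λ ^ α1 / 2 ≤ Λ ^ α1 / 2 ^ α1 := by
            apply div_le_div_of_nonneg_left (by positivity) (by positivity)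
            calc (2 : ℝ) ^ α1 ≤ 2 ^ (1 : ℝ) := Real.rpow_le_rpow_of_exponent_le (by norm_num) hα1'.le
              _ = 2 := Real.rpow_one _
        _ = (Λ / 2) ^ α1 := by rw [Real.div_rpow hΛ0.le (by norm_num)]
        _ ≤ _ := Real.rpow_le_rpow (by positivity) hl1 hα1.le
    · have hw2 : (w : ℝ) ≤ Λ ^ α2 := g5.trans (Real.rpow_le_rpow hln.le hl2 hα2')
      have hwΛ : (w : ℝ) ≤ Λ := by
        refine hw2.trans ?_
        calc Λ ^ α2 ≤ Λ ^ (1 : ℝ) := Real.rpow_le_rpow_of_exponent_le (by linarith) hα2.le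
          _ = Λ := Real.rpow_one _
      have hwS : w ∈ WS := by
        rw [hWS, mem_filter, mem_range, Nat.lt_succ_iff]
        exact ⟨Nat.le_floor hwΛ, hw1, hw2⟩
      obtain ⟨z, hz1, hz2⟩ : ∃ z : ℤ, z ∈ ({1, -1} : Finset ℤ) ∧ (z : ℝ) = σ := by
        rcases g6 with h | h
        · exact ⟨1, by simp, by rw [h]; simp⟩
        · exact ⟨-1, by simp, by rw [h]; simp⟩
      refine ⟨(w, z), mem_product.2 ⟨hwS, hz1⟩, ?_⟩
      intro r hr hW'
      simp only at hr hW'
      rw [hz2] at hW'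
      have hj : w * r + w ≤ w * R w := by
        calc w * r + w = w * (r + 1) := by ring
          _ ≤ w * R w := Nat.mul_le_mul_left _ hr
      have g8 := g7 (w * r) (fun s' hs' => above hκ1 hn g1 hN3 (hRw w hwS) s' (hs'.trans hj))
      have hbw : bw (Real.log n) w ≤ bw Λ w := by
        unfold bw
        apply Real.sqrt_le_sqrt
        have hw0 := (hwfacts w hwS).2.2
        apply mul_le_mul_of_nonneg_left _ (by positivity)
        exact Real.log_le_log (by positivity) (div_le_div_of_nonneg_right hl2 hw0.le)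
      have g9 : (1 - e) * bw (Real.log n) w ≤ (1 - e) * bw Λ w := mul_le_mul_of_nonneg_left hbw h1e.le
      unfold Wn at hW'
      linarith
  refine hcn.trans ?_
  have key : ∀ p ∈ WS ×ˢ ({1, -1} : Finset ℤ),
      (cN (fun x => ∀ r, r < R p.1 → ¬ Wn (p.2 : ℝ) e Λ p.1 (T^[p.1 * r] x)) N : ℝ) ≤ 2 * N * (ε / (8 * Λ ^ 2)) := by
    intro p hp
    rw [mem_product] at hp
    obtain ⟨hp1, hp2⟩ := hp
    obtain ⟨m1, m2, m3⟩ := hwfacts p.1 hp1
    have hσ : (p.2 : ℝ) = 1 ∨ (p.2 : ℝ) = -1 := by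
      rw [mem_insert, mem_singleton] at hp2
      rcases hp2 with h | h
      · left; rw [h]; simp
      · right; rw [h]; simp
    have hq := hW p.1 m1 m2 _ hσ
    obtain ⟨hP1, hP2⟩ := no_suc p.1 (Wn_per (p.2 : ℝ) e Λ p.1) (R p.1)
    have hpow : 2 ^ (p.1 * R p.1) ≤ N := by
      have h1 : (2 : ℝ) ^ (p.1 * R p.1) ≤ N := by
        calc (2 : ℝ) ^ (p.1 * R p.1) = Real.exp (((p.1 * R p.1 : ℕ) : ℝ) * Real.log 2) := by
              rw [Real.exp_nat_mul, Real.exp_log (by norm_num)]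
          _ ≤ Real.exp Λ := by
              apply Real.exp_le_exp.2
              have hl2 : Real.log 2 < 1 := by have := Real.log_two_lt_d9; linarith
              have hl2' : 0 < Real.log 2 := Real.log_pos (by norm_num)
              have h3 := hRw p.1 hp1
              have h4 : (0 : ℝ) ≤ ((p.1 * R p.1 : ℕ) : ℝ) := Nat.cast_nonneg _
              nlinarith
          _ = N := Real.exp_log (by linarith)
      exact_mod_cast h1
    refine (cN_rare _ hP1 hpow).trans ?_
    rw [← prq_pow, hP2]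
    set q := prq (2 ^ p.1) (Wn (p.2 : ℝ) e Λ p.1) with hqd
    have hq1 : q ≤ 1 := prq_le_one _ _
    have hq0 : 0 ≤ q := prq_nonneg _ _
    apply mul_le_mul_of_nonneg_left _ (by positivity)
    have hR1 : c0 * Λ / (2 * p.1) ≤ R p.1 := by
      have k1 : c0 * Λ / p.1 < R p.1 + 1 := Nat.lt_floor_add_one _
      have k2 : 2 ≤ c0 * Λ / p.1 := by
        rw [le_div_iff₀ m3]
        rw [div_le_iff₀ hc0p] at f1
        calc 2 * (p.1 : ℝ) ≤ (Λ ^ (1 - α2) * c0) * Λ ^ α2 := mul_le_mul f1 m2 m3.le (by positivity)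
          _ = c0 * (Λ ^ (1 - α2) * Λ ^ α2) := by ring
          _ = c0 * Λ := by
              rw [← Real.rpow_add hΛ0]
              simp
      have k3 : c0 * Λ / (2 * p.1) = c0 * Λ / p.1 / 2 := by
        rw [div_div, mul_comm 2 (p.1 : ℝ)]
      rw [k3]
      linarith
    have hqR : c0 / 2 * Λ ^ ((1 - α2) * e) ≤ q * R p.1 := by
      calc c0 / 2 * Λ ^ ((1 - α2) * e) ≤ c0 / 2 * (Λ / p.1) ^ e := by
            apply mul_le_mul_of_nonneg_left _ (by positivity)
            rw [Real.rpow_mul hΛ0.le]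
            apply Real.rpow_le_rpow (by positivity) _ he.le
            rw [le_div_iff₀ m3]
            calc Λ ^ (1 - α2) * p.1 ≤ Λ ^ (1 - α2) * Λ ^ α2 := mul_le_mul_of_nonneg_left m2 (by positivity)
              _ = Λ := by
                  rw [← Real.rpow_add hΛ0]
                  simp
        _ = ((p.1 : ℝ) / Λ) ^ (1 - e) * (c0 * Λ / (2 * p.1)) := by
            have k1 : ((p.1 : ℝ) / Λ) ^ (1 - e) = (p.1 : ℝ) / Λ * (Λ / p.1) ^ e := by
              rw [Real.rpow_sub (by positivity), Real.rpow_one, ← inv_div Λ (p.1 : ℝ), Real.inv_rpow (by positivity),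
                div_inv_eq_mul]
            rw [k1]
            field_simp
        _ ≤ q * R p.1 := mul_le_mul hq hR1 (by positivity) hq0
    calc (1 - q) ^ R p.1 ≤ Real.exp (-q) ^ R p.1 := by
          apply pow_le_pow_left₀ (by linarith)
          have := Real.add_one_le_exp (-q)
          linarith
      _ = Real.exp (-(q * R p.1)) := by
          rw [← Real.exp_nat_mul]
          congr 1
          ring
      _ ≤ Real.exp (-(Real.log (8 / ε) + 2 * Real.log Λ)) := Real.exp_le_exp.2 (by linarith)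
      _ = ε / (8 * Λ ^ 2) := by
          rw [Real.exp_neg, Real.exp_add, Real.exp_log (by positivity),
            show (2 : ℝ) * Real.log Λ = ((2 : ℕ) : ℝ) * Real.log Λ by norm_num, Real.exp_nat_mul,
            Real.exp_log hΛ0]
          field_simp
  refine (sum_le_sum key).trans ?_
  rw [sum_const, card_product, nsmul_eq_mul]
  have hc1 : (WS.card : ℝ) ≤ 2 * Λ := by
    have k1 : WS.card ≤ ⌊Λ⌋₊ + 1 := (card_filter_le _ _).trans (by rw [card_range])
    have k2 : ((⌊Λ⌋₊ : ℕ) : ℝ) ≤ Λ := Nat.floor_le hΛ0.le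
    have k3 : (WS.card : ℝ) ≤ (⌊Λ⌋₊ : ℕ) + 1 := by exact_mod_cast k1
    linarith
  have hc2 : (({1, -1} : Finset ℤ).card : ℝ) = 2 := by
    rw [card_pair (by norm_num)]
    norm_num
  push_cast
  rw [hc2]
  calc (WS.card : ℝ) * 2 * (2 * N * (ε / (8 * Λ ^ 2))) ≤ 2 * Λ * 2 * (2 * N * (ε / (8 * Λ ^ 2))) := by
        apply mul_le_mul_of_nonneg_right _ (by positivity)
        linarith
    _ = ε * N / Λ := by
        field_simp
        ring
    _ ≤ ε * N := div_le_self (by positivity) (by linarith)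

/-- **the increments of typical trajectories** -/
theorem incr_law {α1 α2 e κ : ℝ} (hα1 : 0 < α1) (hα12 : α1 ≤ α2) (hα2 : α2 < 1) (he : 0 < e) (he1 : e < 1)
    (hκ0 : 0 < κ) (hκ1 : κ < 1) : HasD (fun n => LoI α1 α2 e κ n ∧ UpI α1 α2 e κ n) 1 := by
  have hlog : Tendsto (fun N : ℕ => Real.log (N : ℝ)) atTop atTop :=
    Real.tendsto_log_atTop.comp tendsto_natCast_atTop_atTop
  have hβ : 0 < 1 - α2 := by linarith
  apply hasD_one
  intro ε hε
  filter_upwards [small_rare (ε / 3) (by positivity),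
    UpI_rare hα1 (by linarith) (by linarith) hα2 he he1 hκ0 hκ1 (ε / 3) (by positivity),
    incr_rare (α1 := α1) (α2 := α2) (e := e / 2) (κ := κ / 2) hα1 hα2 (by positivity) (by linarith) (by positivity)
      (ε / 3) (by positivity), eventually_ge_atTop 3, hlog.eventually (eventually_ge_atTop (3 : ℝ)),
    ll_tendsto.eventually (eventually_ge_atTop (4 / (e * (1 - α2))))] with N h1 h2 h3 hN3 hlogN hll
  set Λ := Real.log N with hΛ
  have hΛ0 : 0 < Λ := by linarith
  have h7 := cN_or3 (P := fun n => ¬ (LoI α1 α2 e κ n ∧ UpI α1 α2 e κ n)) (A := fun n => (n : ℝ) < Real.sqrt N)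
    (B := fun n => Real.sqrt N ≤ n ∧ n ≤ N ∧ ¬ UpI α1 α2 e κ n)
    (C := St (PI α1 α2 (e / 2)) N (Lv (κ / 2) N)) (N := N)
    (fun n hn hnN hbad => by
      rcases lt_or_ge (n : ℝ) (Real.sqrt N) with h | h
      · exact Or.inl h
      · right
        have hn0 : (0 : ℝ) < n := by exact_mod_cast hn
        have hnR : (n : ℝ) ≤ N := by exact_mod_cast hnN
        have hl1 := log_half h (by omega)
        have hl2 : Real.log n ≤ Λ := Real.log_le_log hn0 hnR
        have hln : 0 < Real.log n := by linarith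
        rcases Classical.not_and_iff_not_or_not.1 hbad with h' | h'
        · right
          unfold LoI at h'
          push Not at h'
          obtain ⟨w, g4, g5, s, g6, g7⟩ := h'
          have hw1 : Λ ^ α1 / 2 ≤ w := by
            refine le_trans ?_ g4
            calc Λ ^ α1 / 2 ≤ Λ ^ α1 / 2 ^ α1 := by
                  apply div_le_div_of_nonneg_left (by positivity) (by positivity)
                  calc (2 : ℝ) ^ α1 ≤ 2 ^ (1 : ℝ) := Real.rpow_le_rpow_of_exponent_le (by norm_num) (by linarith)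
                    _ = 2 := Real.rpow_one _
              _ = (Λ / 2) ^ α1 := by rw [Real.div_rpow hΛ0.le (by norm_num)]
              _ ≤ _ := Real.rpow_le_rpow (by positivity) hl1 hα1.le
          have hw2 : (w : ℝ) ≤ Λ ^ α2 := g5.trans (Real.rpow_le_rpow hln.le hl2 (by linarith))
          have hw0 : (0 : ℝ) < w := lt_of_lt_of_le (by positivity) hw1
          refine ⟨s, fun s' hs' => Lv_lt hκ0 h (g6 s' (by omega)), w, hw1, hw2, ?_⟩
          refine le_trans ?_ g7.le
          have hL := log_ratio hΛ0 hw0 hw2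
          set L := Real.log (Λ / w) with hLd
          have hL4 : 4 / e ≤ L := by
            refine le_trans ?_ hL
            have k1 : 4 / e = (1 - α2) * (4 / (e * (1 - α2))) := by field_simp
            rw [k1]
            exact mul_le_mul_of_nonneg_left hll hβ.le
          have hL0 : 0 < L := lt_of_lt_of_le (by positivity) hL4
          have hLn : L - 1 ≤ Real.log (Real.log n / w) := by
            have k1 : Real.log (Λ / 2 / w) ≤ Real.log (Real.log n / w) :=
              Real.log_le_log (by positivity) (div_le_div_of_nonneg_right hl1 hw0.le)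
            have k2 : Real.log (Λ / 2 / w) = L - Real.log 2 := by
              rw [hLd, Real.log_div (by positivity) hw0.ne', Real.log_div hΛ0.ne' (by norm_num),
                Real.log_div hΛ0.ne' hw0.ne']
              ring
            have hl2 : Real.log 2 < 1 := by have := Real.log_two_lt_d9; linarith
            linarith
          -- compare the square roots
          have k3 : (1 + e / 2) ^ 2 * L ≤ (1 + e) ^ 2 * Real.log (Real.log n / w) := by
            have k4 : (1 + e) ^ 2 * (L - 1) ≤ (1 + e) ^ 2 * Real.log (Real.log n / w) :=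
              mul_le_mul_of_nonneg_left hLn (by positivity)
            refine le_trans ?_ k4
            rw [div_le_iff₀ he] at hL4
            nlinarith
          have k5 : ((1 + e / 2) * bw Λ w) ^ 2 ≤ ((1 + e) * bw (Real.log n) w) ^ 2 := by
            unfold bw
            rw [mul_pow, mul_pow, Real.sq_sqrt (by positivity), Real.sq_sqrt (by
              have : 0 ≤ Real.log (Real.log n / w) := by
                have : 1 ≤ L := by
                  rw [div_le_iff₀ he] at hL4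
                  nlinarith
                linarith
              positivity)]
            calc (1 + e / 2) ^ 2 * (2 * w * Real.log (Λ / w)) = 2 * w * ((1 + e / 2) ^ 2 * L) := by ring
              _ ≤ 2 * w * ((1 + e) ^ 2 * Real.log (Real.log n / w)) := mul_le_mul_of_nonneg_left k3 (by positivity)
              _ = _ := by ring
          exact le_of_sq_le_sq k5 (by
            unfold bw
            positivity)
        · left
          exact ⟨h, hnN, h'⟩)
  linarith

end Pool.Agent.V11311.ER
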