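import Pool.Agent.V11311.ER.V6

/-! Small oscillations of trajectories, part 1: small deviations of the walk. -/

set_option autoImplicit false

namespace Pool.Agent.V11311.ER

open Finset Filter Topology Pool.Agent.V11311.FP Pool.Agent.V11311.RC Pool.Agent.V11311.SL

open Pool.Agent.V11311.DV (fl fl_card mem_fl)

open Pool.Agent.Helper894.Collatz (T od er od_add iter_eq sum_pow_od period)

open Pool.Agent.H377R2 (iter_pos)

/-- the walk from `y` stays in an interval -/
def Sy (a b : ℝ) (w : ℕ) (y : ℝ) (x : ℕ) : Prop := ∀ k, k ≤ w → a ≤ y + Xw k x ∧ y + Xw k x ≤ b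

theorem Sy_per (a b : ℝ) (w : ℕ) (y : ℝ) : Per (2 ^ w) (Sy a b w y) := by
  intro x
  unfold Sy
  constructor
  · intro h k hk
    have := h k hk
    rwa [Xw_mod hk] at this
  · intro h k hk
    rw [Xw_mod hk]
    exact h k hk

theorem Xw_zero (x : ℕ) : Xw 0 x = 0 := by
  unfold Xw od
  simp

theorem Sy_out {a b y : ℝ} {w : ℕ} (h : ¬ (a ≤ y ∧ y ≤ b)) : prq (2 ^ w) (Sy a b w y) = 0 := by
  classical
  rw [prq_eq, filter_false_of_mem]
  · simp
  · intro x _ hx
    have := hx 0 (Nat.zero_le _)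
    rw [Xw_zero, add_zero] at this
    exact h this

theorem Sy_succ {a b y : ℝ} {w x : ℕ} (h : a ≤ y ∧ y ≤ b) :
    Sy a b (w + 1) y x ↔ Sy a b w (y + Xw 1 x) (T^[1] x) := by
  unfold Sy
  constructor
  · intro g k hk
    have := g (1 + k) (by omega)
    rw [Xw_add] at this
    rwa [add_assoc]
  · intro g k hk
    rcases Nat.eq_zero_or_pos k with h0 | h0
    · subst h0
      rw [Xw_zero, add_zero]
      exact h
    · obtain ⟨k', rfl⟩ : ∃ k', k = 1 + k' := ⟨k - 1, by omega⟩
      have := g k' (by omega)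
      rw [add_assoc, ← Xw_add] at this
      exact this

theorem Sy_rec {a b y : ℝ} {w : ℕ} (h : a ≤ y ∧ y ≤ b) :
    prq (2 ^ (w + 1)) (Sy a b (w + 1) y) =
      1 / 2 * prq (2 ^ w) (Sy a b w (y - 1)) + 1 / 2 * prq (2 ^ w) (Sy a b w (y + 1)) := by
  have h1 : Sy a b (w + 1) y = fun x => (x % 2 = 0 ∧ Sy a b w (y - 1) (T^[1] x)) ∨ (x % 2 = 1 ∧ Sy a b w (y + 1) (T^[1] x)) := by
    funext x
    apply propext
    rw [Sy_succ h, Xw_one]
    rcases Nat.mod_two_eq_zero_or_one x with h2 | h2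
    · rw [h2]
      have e1 : y + (2 * ((0 : ℕ) : ℝ) - 1) = y - 1 := by push_cast; ring
      rw [e1]
      constructor
      · intro g
        exact Or.inl ⟨rfl, g⟩
      · rintro (⟨-, g⟩ | ⟨g, -⟩)
        · exact g
        · omega
    · rw [h2]
      have e1 : y + (2 * ((1 : ℕ) : ℝ) - 1) = y + 1 := by push_cast; ring
      rw [e1]
      constructor
      · intro g
        exact Or.inr ⟨rfl, g⟩
      · rintro (⟨g, -⟩ | ⟨-, g⟩)
        · omega
        · exact g
  have h2 : ∀ b', b' < 2 → ∀ z : ℝ, prq (2 ^ (1 + w)) (fun x => x % 2 = b' ∧ Sy a b w z (T^[1] x)) =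
      1 / 2 * prq (2 ^ w) (Sy a b w z) := by
    intro b' hb z
    rw [pow_add]
    rw [prod_prq (by positivity) (Nat.Coprime.pow_left _ (by norm_num)) (par_per b') (Sy_per a b w z), prq_par b' hb]
  rw [h1, add_comm w 1, prq_or (fun x g g' => by omega), h2 0 (by norm_num), h2 1 (by norm_num)]

/-- the eigenfunction -/
theorem cos_eig (c W y : ℝ) : 1 / 2 * Real.cos (Real.pi * (y - 1 - c) / W) + 1 / 2 * Real.cos (Real.pi * (y + 1 - c) / W) =
    Real.cos (Real.pi / W) * Real.cos (Real.pi * (y - c) / W) := by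
  have e1 : Real.pi * (y - 1 - c) / W = Real.pi * (y - c) / W - Real.pi / W := by ring
  have e2 : Real.pi * (y + 1 - c) / W = Real.pi * (y - c) / W + Real.pi / W := by ring
  rw [e1, e2, Real.cos_sub, Real.cos_add]
  ring

theorem Sy_up {c W ρ : ℝ} (hρ : 0 < ρ) (hW : ρ + 1 ≤ W / 2) (w : ℕ) : ∀ y : ℝ, |y - c| ≤ ρ + 1 →
    prq (2 ^ w) (Sy (c - ρ) (c + ρ) w y) * Real.cos (Real.pi * ρ / W) ≤
      Real.cos (Real.pi / W) ^ w * Real.cos (Real.pi * (y - c) / W) := by
  have hW0 : 0 < W := by linarith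
  have hpi := Real.pi_pos
  have hlam : 0 ≤ Real.cos (Real.pi / W) := by
    apply Real.cos_nonneg_of_neg_pi_div_two_le_of_le
    · have : 0 ≤ Real.pi / W := by positivity
      linarith
    · rw [div_le_div_iff₀ hW0 (by norm_num)]
      nlinarith
  have hh : ∀ y : ℝ, |y - c| ≤ ρ + 1 → 0 ≤ Real.cos (Real.pi * (y - c) / W) := by
    intro y hy
    obtain ⟨h1, h2⟩ := abs_le.1 (hy.trans hW)
    apply Real.cos_nonneg_of_neg_pi_div_two_le_of_le
    · rw [← neg_div, div_le_div_iff₀ (by norm_num) hW0]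
      nlinarith
    · rw [div_le_div_iff₀ hW0 (by norm_num)]
      nlinarith
  have hin : ∀ y : ℝ, (c - ρ ≤ y ∧ y ≤ c + ρ) ∨ ¬ (c - ρ ≤ y ∧ y ≤ c + ρ) := fun y => em _
  induction w with
  | zero =>
    intro y hy
    rcases hin y with h | h
    · have h1 : Real.cos (Real.pi * ρ / W) ≤ Real.cos (Real.pi * (y - c) / W) := by
        rw [← Real.cos_abs (Real.pi * (y - c) / W)]
        apply Real.cos_le_cos_of_nonneg_of_le_pi (abs_nonneg _)
        · rw [div_le_iff₀ hW0]
          nlinarith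
        · rw [abs_div, abs_mul, abs_of_pos hpi, abs_of_pos hW0]
          apply div_le_div_of_nonneg_right _ hW0.le
          apply mul_le_mul_of_nonneg_left _ hpi.le
          rw [abs_le]
          constructor <;> linarith
      have h2 : 0 ≤ Real.cos (Real.pi * ρ / W) := by
        have := hh (c + ρ) (by rw [add_sub_cancel_left, abs_of_pos hρ]; linarith)
        rwa [add_sub_cancel_left] at this
      calc prq (2 ^ 0) (Sy (c - ρ) (c + ρ) 0 y) * Real.cos (Real.pi * ρ / W) ≤ 1 * Real.cos (Real.pi * ρ / W) :=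
            mul_le_mul_of_nonneg_right (prq_le_one _ _) h2
        _ ≤ _ := by
            rw [pow_zero]
            linarith
    · rw [Sy_out h, zero_mul]
      exact mul_nonneg (pow_nonneg hlam _) (hh y hy)
  | succ w ih =>
    intro y hy
    rcases hin y with h | h
    · rw [Sy_rec h]
      have g1 := ih (y - 1) (by
        rw [abs_le]
        constructor <;> linarith)
      have g2 := ih (y + 1) (by
        rw [abs_le]
        constructor <;> linarith)
      have g3 := cos_eig c W y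
      calc (1 / 2 * prq (2 ^ w) (Sy (c - ρ) (c + ρ) w (y - 1)) + 1 / 2 * prq (2 ^ w) (Sy (c - ρ) (c + ρ) w (y + 1))) *
            Real.cos (Real.pi * ρ / W)
          = 1 / 2 * (prq (2 ^ w) (Sy (c - ρ) (c + ρ) w (y - 1)) * Real.cos (Real.pi * ρ / W)) +
            1 / 2 * (prq (2 ^ w) (Sy (c - ρ) (c + ρ) w (y + 1)) * Real.cos (Real.pi * ρ / W)) := by ring
        _ ≤ 1 / 2 * (Real.cos (Real.pi / W) ^ w * Real.cos (Real.pi * (y - 1 - c) / W)) +
            1 / 2 * (Real.cos (Real.pi / W) ^ w * Real.cos (Real.pi * (y + 1 - c) / W)) := by linarith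
        _ = Real.cos (Real.pi / W) ^ w * (1 / 2 * Real.cos (Real.pi * (y - 1 - c) / W) +
            1 / 2 * Real.cos (Real.pi * (y + 1 - c) / W)) := by ring
        _ = _ := by
            rw [g3, pow_succ]
            ring
    · rw [Sy_out h, zero_mul]
      exact mul_nonneg (pow_nonneg hlam _) (hh y hy)

theorem Sy_low {ρ : ℝ} (hρ : 1 ≤ ρ) (w : ℕ) : ∀ y : ℝ, |y| ≤ ρ + 1 →
    Real.cos (Real.pi / (2 * ρ)) ^ w * Real.cos (Real.pi * y / (2 * ρ)) ≤ prq (2 ^ w) (Sy (-ρ) ρ w y) := by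
  have hpi := Real.pi_pos
  have hρ0 : 0 < ρ := by linarith
  have hlam : 0 ≤ Real.cos (Real.pi / (2 * ρ)) := by
    apply Real.cos_nonneg_of_neg_pi_div_two_le_of_le
    · have : 0 ≤ Real.pi / (2 * ρ) := by positivity
      linarith
    · rw [div_le_div_iff₀ (by positivity) (by norm_num)]
      nlinarith
  have hout : ∀ y : ℝ, |y| ≤ ρ + 1 → ¬ (-ρ ≤ y ∧ y ≤ ρ) → Real.cos (Real.pi * y / (2 * ρ)) ≤ 0 := by
    intro y hy h
    have h1 : ρ < |y| := by
      by_contra hcon
      push Not at hcon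
      exact h (abs_le.1 hcon)
    rw [← Real.cos_abs, abs_div, abs_mul, abs_of_pos hpi, abs_of_pos (show 0 < 2 * ρ by positivity)]
    apply Real.cos_nonpos_of_pi_div_two_le_of_le
    · rw [div_le_div_iff₀ (by norm_num) (by positivity)]
      nlinarith
    · rw [div_le_iff₀ (by positivity)]
      nlinarith
  induction w with
  | zero =>
    intro y hy
    rw [pow_zero, one_mul]
    by_cases h : -ρ ≤ y ∧ y ≤ ρ
    · have : prq (2 ^ 0) (Sy (-ρ) ρ 0 y) = 1 := by
        have e1 : Sy (-ρ) ρ 0 y = fun _ => True := by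
          funext x
          apply propext
          refine ⟨fun _ => trivial, fun _ k hk => ?_⟩
          have hk0 : k = 0 := by omega
          subst hk0
          rw [Xw_zero, add_zero]
          exact h
        rw [e1]
        exact prq_true (by norm_num)
      rw [this]
      exact Real.cos_le_one _
    · rw [Sy_out h]
      exact hout y hy h
  | succ w ih =>
    intro y hy
    by_cases h : -ρ ≤ y ∧ y ≤ ρ
    · rw [Sy_rec h]
      have g1 := ih (y - 1) (by
        rw [abs_le]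
        constructor <;> linarith)
      have g2 := ih (y + 1) (by
        rw [abs_le]
        constructor <;> linarith)
      have g3 := cos_eig 0 (2 * ρ) y
      rw [sub_zero, sub_zero, sub_zero] at g3
      calc Real.cos (Real.pi / (2 * ρ)) ^ (w + 1) * Real.cos (Real.pi * y / (2 * ρ))
          = Real.cos (Real.pi / (2 * ρ)) ^ w * (Real.cos (Real.pi / (2 * ρ)) * Real.cos (Real.pi * y / (2 * ρ))) := by
            rw [pow_succ]
            ring
        _ = 1 / 2 * (Real.cos (Real.pi / (2 * ρ)) ^ w * Real.cos (Real.pi * (y - 1) / (2 * ρ))) +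
            1 / 2 * (Real.cos (Real.pi / (2 * ρ)) ^ w * Real.cos (Real.pi * (y + 1) / (2 * ρ))) := by
            rw [← g3]
            ring
        _ ≤ _ := by linarith
    · rw [Sy_out h]
      exact mul_nonpos_of_nonneg_of_nonpos (pow_nonneg hlam _) (hout y hy h)

theorem cos_up {δ z : ℝ} (hz1 : |z| ≤ 1) (hz : z ^ 2 ≤ δ) : Real.cos z ≤ Real.exp (-((1 - δ) * z ^ 2 / 2)) := by
  have h1 := (abs_le.1 (Real.cos_bound hz1)).2
  have h2 := Real.add_one_le_exp (-((1 - δ) * z ^ 2 / 2))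
  have h3 : |z| ^ 4 = z ^ 2 * z ^ 2 := by
    rw [show (4 : ℕ) = 2 * 2 by norm_num, pow_mul, sq_abs]
    ring
  rw [h3] at h1
  have h4 : z ^ 2 * z ^ 2 ≤ z ^ 2 * δ := mul_le_mul_of_nonneg_left hz (sq_nonneg z)
  nlinarith [sq_nonneg z]

theorem cos_low {δ z : ℝ} (hδ1 : δ ≤ 1) (hz : z ^ 2 / 2 ≤ δ / 2) : Real.exp (-((1 + δ) * z ^ 2 / 2)) ≤ Real.cos z := by
  refine le_trans ?_ (Real.one_sub_sq_div_two_le_cos)
  refine le_trans ?_ (one_sub_exp (z := z ^ 2 / 2) (by positivity) (by linarith))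
  apply Real.exp_le_exp.2
  have : z ^ 2 / 2 * (z ^ 2 / 2) ≤ z ^ 2 / 2 * (δ / 2) := mul_le_mul_of_nonneg_left hz (by positivity)
  nlinarith [sq_nonneg z]

end Pool.Agent.V11311.ER
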