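import Pool.Agent.V11311.ER.W1

/-! Small oscillations of trajectories, part 2: the range of the walk. -/

set_option autoImplicit false

namespace Pool.Agent.V11311.ER

open Finset Filter Topology Pool.Agent.V11311.FP Pool.Agent.V11311.RC Pool.Agent.V11311.SL

open Pool.Agent.V11311.DV (fl fl_card mem_fl)

open Pool.Agent.Helper894.Collatz (T od er od_add iter_eq sum_pow_od period)

open Pool.Agent.H377R2 (iter_pos)

/-- the range of the walk over `w` steps is at most `r` -/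
def Rg (w : ℕ) (r : ℝ) (x : ℕ) : Prop := ∀ i, i ≤ w → ∀ j, j ≤ w → Xw j x - Xw i x ≤ r

theorem Rg_per (w : ℕ) (r : ℝ) : Per (2 ^ w) (Rg w r) := by
  intro x
  unfold Rg
  constructor
  · intro h i hi j hj
    have := h i hi j hj
    rwa [Xw_mod hi, Xw_mod hj] at this
  · intro h i hi j hj
    rw [Xw_mod hi, Xw_mod hj]
    exact h i hi j hj

theorem Rg_mono {w : ℕ} {r r' : ℝ} (h : r ≤ r') {x : ℕ} (hx : Rg w r x) : Rg w r' x :=
  fun i hi j hj => (hx i hi j hj).trans h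

theorem Rg_sub {u v w x : ℕ} {r : ℝ} (h : u + v ≤ w) (hx : Rg w r x) : Rg v r (T^[u] x) := by
  intro i hi j hj
  have h1 := hx (u + i) (by omega) (u + j) (by omega)
  rw [Xw_add, Xw_add] at h1
  linarith

theorem Rg_of_Sy {w x : ℕ} {ρ : ℝ} (h : Sy (-ρ) ρ w 0 x) : Rg w (2 * ρ) x := by
  intro i hi j hj
  have h1 := h i hi
  have h2 := h j hj
  linarith [h1.1, h2.2]

theorem Rg_low {δ : ℝ} (hδ : 0 < δ) (hδ1 : δ ≤ 1) : ∃ r0 : ℝ, 0 < r0 ∧ ∀ (w : ℕ) (r : ℝ), r0 ≤ r →
    Real.exp (-((1 + δ) * (Real.pi ^ 2 * w / (2 * r ^ 2)))) ≤ prq (2 ^ w) (Rg w r) := by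
  refine ⟨4 / δ, by positivity, fun w r hr => ?_⟩
  have hpi := Real.pi_pos
  have hpi4 := Real.pi_lt_four
  have hr4 : 4 ≤ δ * r := by
    rw [div_le_iff₀ hδ] at hr
    linarith
  have hr4' : 4 ≤ r := by nlinarith
  have hr0 : 0 < r := by linarith
  have h1 := Sy_low (ρ := r / 2) (by linarith) w 0 (by rw [abs_zero]; linarith)
  rw [mul_zero, zero_div, Real.cos_zero, mul_one, show 2 * (r / 2) = r by ring] at h1
  have h2 : prq (2 ^ w) (Sy (-(r / 2)) (r / 2) w 0) ≤ prq (2 ^ w) (Rg w r) := by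
    apply prq_mono
    intro x hx
    have := Rg_of_Sy hx
    rwa [show 2 * (r / 2) = r by ring] at this
  refine le_trans ?_ (h1.trans h2)
  have h3 : (Real.pi / r) ^ 2 / 2 ≤ δ / 2 := by
    apply div_le_div_of_nonneg_right _ (by norm_num)
    rw [div_pow, div_le_iff₀ (by positivity)]
    nlinarith
  have h4 := cos_low hδ1 h3
  calc Real.exp (-((1 + δ) * (Real.pi ^ 2 * w / (2 * r ^ 2)))) = Real.exp (-((1 + δ) * (Real.pi / r) ^ 2 / 2)) ^ w := by
        rw [← Real.exp_nat_mul]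
        congr 1
        rw [div_pow]
        field_simp
    _ ≤ _ := pow_le_pow_left₀ (Real.exp_pos _).le h4 w

theorem Rg_up {δ : ℝ} (hδ : 0 < δ) (hδ1 : δ ≤ 1) : ∃ C r0 : ℝ, 0 < C ∧ 0 < r0 ∧ ∀ (w : ℕ) (r : ℝ), r0 ≤ r →
    prq (2 ^ w) (Rg w r) ≤ C * Real.exp (-((1 - 5 * δ) * (Real.pi ^ 2 * w / (2 * r ^ 2)))) := by
  have hpi := Real.pi_pos
  have hpi4 := Real.pi_lt_four
  set φ : ℝ := Real.pi * (1 + δ) / (2 * (1 + 2 * δ)) with hφ
  have hcos : 0 < Real.cos φ := by
    apply Real.cos_pos_of_mem_Ioo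
    constructor
    · have : 0 ≤ φ := by positivity
      linarith
    · rw [hφ, div_lt_div_iff₀ (by positivity) (by norm_num)]
      nlinarith
  refine ⟨((⌈1 / δ⌉₊ : ℕ) + 1) / Real.cos φ, 4 / δ, by positivity, by positivity, fun w r hr => ?_⟩
  have hr4 : 4 ≤ δ * r := by
    rw [div_le_iff₀ hδ] at hr
    linarith
  have hr4' : 4 ≤ r := by nlinarith
  have hr0 : 0 < r := by linarith
  -- the union bound
  have h1 : prq (2 ^ w) (Rg w r) ≤ ∑ k ∈ range (⌈1 / δ⌉₊ + 1),
      prq (2 ^ w) (Sy ((-(k * (δ * r)) + (1 + δ) * r / 2) - (1 + δ) * r / 2)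
        ((-(k * (δ * r)) + (1 + δ) * r / 2) + (1 + δ) * r / 2) w 0) := by
    apply prq_union
    intro x hx
    obtain ⟨i0, hi0, hi1⟩ := exists_min_image (range (w + 1)) (fun i => Xw i x) ⟨0, by simp⟩
    rw [mem_range] at hi0
    have h0 := hi1 0 (by simp)
    rw [Xw_zero] at h0
    have h2 := hx i0 (by omega) 0 (Nat.zero_le _)
    rw [Xw_zero] at h2
    set a := Xw i0 x with ha
    have hk1 := Nat.le_ceil (-a / (δ * r))
    have hk2 := Nat.ceil_lt_add_one (show 0 ≤ -a / (δ * r) by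
      apply div_nonneg _ (by positivity)
      linarith)
    rw [div_le_iff₀ (by positivity)] at hk1
    refine ⟨⌈-a / (δ * r)⌉₊, ?_, ?_⟩
    · rw [mem_range, Nat.lt_succ_iff]
      apply Nat.ceil_le_ceil
      rw [div_le_div_iff₀ (by positivity) hδ]
      nlinarith
    · intro k hk
      have h3 := hi1 k (by rw [mem_range]; omega)
      have h4 := hx i0 (by omega) k hk
      rw [← ha] at h4
      have h5 : ((⌈-a / (δ * r)⌉₊ : ℕ) : ℝ) * (δ * r) < -a + δ * r := by
        calc ((⌈-a / (δ * r)⌉₊ : ℕ) : ℝ) * (δ * r) < (-a / (δ * r) + 1) * (δ * r) :=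
              mul_lt_mul_of_pos_right hk2 (by positivity)
          _ = -a + δ * r := by field_simp
      constructor
      · linarith
      · linarith
  refine h1.trans ?_
  have h2 : ∀ k ∈ range (⌈1 / δ⌉₊ + 1), prq (2 ^ w) (Sy ((-(k * (δ * r)) + (1 + δ) * r / 2) - (1 + δ) * r / 2)
        ((-(k * (δ * r)) + (1 + δ) * r / 2) + (1 + δ) * r / 2) w 0) ≤
      Real.exp (-((1 - 5 * δ) * (Real.pi ^ 2 * w / (2 * r ^ 2)))) / Real.cos φ := by
    intro k hk
    rw [mem_range, Nat.lt_succ_iff] at hk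
    have hk1 : (k : ℝ) * δ ≤ 1 + δ := by
      have g1 : (k : ℝ) ≤ (⌈1 / δ⌉₊ : ℕ) := by exact_mod_cast hk
      have g2 := Nat.ceil_lt_add_one (show 0 ≤ 1 / δ by positivity)
      have g3 : (k : ℝ) ≤ 1 / δ + 1 := by linarith
      calc (k : ℝ) * δ ≤ (1 / δ + 1) * δ := mul_le_mul_of_nonneg_right g3 hδ.le
        _ = 1 + δ := by field_simp
    have g0 : 0 ≤ (k : ℝ) * (δ * r) := by positivity
    have g1 : (k : ℝ) * (δ * r) ≤ (1 + δ) * r := by nlinarith
    have h3 := Sy_up (c := -(k * (δ * r)) + (1 + δ) * r / 2) (W := (1 + 2 * δ) * r) (ρ := (1 + δ) * r / 2)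
      (by positivity) (by nlinarith) w 0 (by
        rw [abs_le]
        constructor <;> linarith)
    have e1 : Real.pi * ((1 + δ) * r / 2) / ((1 + 2 * δ) * r) = φ := by
      rw [hφ]
      field_simp
    rw [e1] at h3
    rw [le_div_iff₀ hcos]
    refine h3.trans ?_
    have hz1 : |Real.pi / ((1 + 2 * δ) * r)| ≤ 1 := by
      rw [abs_of_pos (by positivity), div_le_one (by positivity)]
      nlinarith
    have hz2 : (Real.pi / ((1 + 2 * δ) * r)) ^ 2 ≤ δ := by
      rw [div_pow, div_le_iff₀ (by positivity)]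
      have : 16 ≤ δ * r ^ 2 := by nlinarith
      have h5 : r ^ 2 ≤ ((1 + 2 * δ) * r) ^ 2 := by
        apply pow_le_pow_left₀ hr0.le
        nlinarith
      have h6 : δ * r ^ 2 ≤ δ * ((1 + 2 * δ) * r) ^ 2 := mul_le_mul_of_nonneg_left h5 hδ.le
      nlinarith
    have h4 := cos_up hz1 hz2
    have hc0 : 0 ≤ Real.cos (Real.pi / ((1 + 2 * δ) * r)) := by
      apply Real.cos_nonneg_of_neg_pi_div_two_le_of_le
      · have : 0 ≤ Real.pi / ((1 + 2 * δ) * r) := by positivity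
        linarith
      · rw [div_le_div_iff₀ (by positivity) (by norm_num)]
        have : 2 ≤ (1 + 2 * δ) * r := by nlinarith
        nlinarith
    calc Real.cos (Real.pi / ((1 + 2 * δ) * r)) ^ w * Real.cos (Real.pi * (0 - (-(k * (δ * r)) + (1 + δ) * r / 2)) / ((1 + 2 * δ) * r))
        ≤ Real.cos (Real.pi / ((1 + 2 * δ) * r)) ^ w * 1 :=
          mul_le_mul_of_nonneg_left (Real.cos_le_one _) (pow_nonneg hc0 _)
      _ ≤ Real.exp (-((1 - δ) * (Real.pi / ((1 + 2 * δ) * r)) ^ 2 / 2)) ^ w := by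
          rw [mul_one]
          exact pow_le_pow_left₀ hc0 h4 w
      _ = Real.exp (-((1 - δ) / (1 + 2 * δ) ^ 2 * (Real.pi ^ 2 * w / (2 * r ^ 2)))) := by
          rw [← Real.exp_nat_mul]
          congr 1
          field_simp
      _ ≤ _ := by
          apply Real.exp_le_exp.2
          apply neg_le_neg
          apply mul_le_mul_of_nonneg_right _ (by positivity)
          rw [le_div_iff₀ (by positivity)]
          nlinarith [mul_pos hδ hδ, mul_pos (mul_pos hδ hδ) hδ]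
  refine (sum_le_sum h2).trans ?_
  rw [sum_const, card_range, nsmul_eq_mul]
  apply le_of_eq
  push_cast
  ring

end Pool.Agent.V11311.ER
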