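import Pool.Agent.V11311.ER.W2

/-! Small oscillations of trajectories, part 3: no oscillations are smaller. -/

set_option autoImplicit false

namespace Pool.Agent.V11311.ER

open Finset Filter Topology Pool.Agent.V11311.FP Pool.Agent.V11311.RC Pool.Agent.V11311.SL

open Pool.Agent.V11311.DV (fl fl_card mem_fl)

open Pool.Agent.Helper894.Collatz (T od er od_add iter_eq sum_pow_od period)

open Pool.Agent.H377R2 (iter_pos)

/-- the size of the smallest ranges -/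
noncomputable def rr (Λ w : ℝ) : ℝ := Real.pi * Real.sqrt (w / (2 * Real.log (Λ / w)))

/-- a range which is too small -/
def PJ (α1 α2 e : ℝ) (N m : ℕ) : Prop :=
  ∃ w : ℕ, Real.log N ^ α1 / 2 ≤ w ∧ (w : ℝ) ≤ Real.log N ^ α2 ∧ Rg w ((1 - e) * rr (Real.log N) w) m

/-- the grid -/
noncomputable def SW (δ α1 α2 : ℝ) (N : ℕ) : Finset ℕ := by
  classical
  exact (range (⌊Real.log (Real.log N) / Real.log (1 + δ)⌋₊ + 1)).filter
    (fun a : ℕ => Real.log N ^ α1 / 4 ≤ (1 + δ) ^ a ∧ (1 + δ) ^ a ≤ Real.log N ^ α2)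

theorem mem_SW {δ α1 α2 : ℝ} {N a : ℕ} : a ∈ SW δ α1 α2 N ↔ a < ⌊Real.log (Real.log N) / Real.log (1 + δ)⌋₊ + 1 ∧
    Real.log N ^ α1 / 4 ≤ (1 + δ) ^ a ∧ (1 + δ) ^ a ≤ Real.log N ^ α2 := by
  classical
  unfold SW
  rw [mem_filter, mem_range]

/-- the bound in the comparison event -/
noncomputable def r3 (δ e Λ v : ℝ) : ℝ := (1 - e) * (Real.pi * Real.sqrt ((1 + δ) * v / (2 * ((1 - δ) * Real.log (Λ / v)))))

/-- the comparison events: small ranges -/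
def An (δ e Λ v : ℝ) (y : ℕ) : Prop := Rg (⌊v⌋₊ - ⌈δ * v⌉₊) (r3 δ e Λ v) (T^[⌈δ * v⌉₊] y)

theorem An_per (δ e Λ v : ℝ) : Per (2 ^ (⌈δ * v⌉₊ + (⌊v⌋₊ - ⌈δ * v⌉₊))) (An δ e Λ v) :=
  Per.shift (Rg_per _ _)

theorem An_of {δ e Λ v : ℝ} (hδ : 0 < δ) (hδ1 : δ ≤ 1 / 4) (he1 : e < 1) (hv : 4 / δ ≤ v) (hΛ : 0 < Λ)
    (hvΛ : 1 ≤ Real.log (Λ / v)) {w u y : ℕ} (hw1 : v ≤ w) (hw2 : (w : ℝ) ≤ (1 + δ) * v) (hu : u < ⌈δ * v⌉₊)
    (h : Rg w ((1 - e) * rr Λ w) (T^[u] y)) : An δ e Λ v y := by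
  have hv0 : 0 < v := lt_of_lt_of_le (by positivity) hv
  have hw0 : (0 : ℝ) < w := by linarith
  have h4 : 4 ≤ δ * v := by
    rw [div_le_iff₀ hδ] at hv
    linarith
  have hle : ⌈δ * v⌉₊ ≤ ⌊v⌋₊ := by
    apply Nat.le_floor
    have := Nat.ceil_lt_add_one (show 0 ≤ δ * v by positivity)
    have h5 : δ * v ≤ 1 / 4 * v := mul_le_mul_of_nonneg_right hδ1 hv0.le
    have h6 : 16 ≤ v := by nlinarith
    linarith
  have hfl : ⌊v⌋₊ ≤ w := by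
    have h5 : ((⌊v⌋₊ : ℕ) : ℝ) ≤ w := (Nat.floor_le hv0.le).trans hw1
    exact_mod_cast h5
  unfold An
  have h1 : T^[⌈δ * v⌉₊] y = T^[⌈δ * v⌉₊ - u] (T^[u] y) := by
    rw [← Function.iterate_add_apply]
    congr 1
    omega
  rw [h1]
  refine Rg_mono ?_ (Rg_sub (by omega) h)
  unfold r3 rr
  apply mul_le_mul_of_nonneg_left _ (by linarith)
  apply mul_le_mul_of_nonneg_left _ Real.pi_pos.le
  apply Real.sqrt_le_sqrt
  have h5 : (1 - δ) * Real.log (Λ / v) ≤ Real.log (Λ / w) := by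
    have g1 : Real.log (Λ / v) - δ ≤ Real.log (Λ / w) := by
      have g2 : Real.log (Λ / w) = Real.log Λ - Real.log w := Real.log_div hΛ.ne' hw0.ne'
      have g3 : Real.log (Λ / v) = Real.log Λ - Real.log v := Real.log_div hΛ.ne' hv0.ne'
      have g4 : Real.log w ≤ Real.log v + δ := by
        calc Real.log w ≤ Real.log ((1 + δ) * v) := Real.log_le_log hw0 hw2
          _ = Real.log (1 + δ) + Real.log v := Real.log_mul (by positivity) hv0.ne'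
          _ ≤ _ := by
              have := Real.log_le_sub_one_of_pos (show 0 < 1 + δ by positivity)
              linarith
      linarith
    have g5 : (1 - δ) * Real.log (Λ / v) = Real.log (Λ / v) - δ * Real.log (Λ / v) := by ring
    have g6 : δ * 1 ≤ δ * Real.log (Λ / v) := mul_le_mul_of_nonneg_left hvΛ hδ.le
    linarith
  have h6 : 0 < (1 - δ) * Real.log (Λ / v) := mul_pos (by linarith) (by linarith)
  exact div_le_div₀ (by positivity) hw2 (by positivity) (by linarith)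

theorem An_pr {δ e C r0 Λ v : ℝ} (he : 0 < e) (he1 : e < 1) (hδ : δ = e / 64) (hC : 0 < C)
    (hup : ∀ (w : ℕ) (r : ℝ), r0 ≤ r →
      prq (2 ^ w) (Rg w r) ≤ C * Real.exp (-((1 - 5 * δ) * (Real.pi ^ 2 * w / (2 * r ^ 2)))))
    (hv : 4 / δ ≤ v) (hvΛ : 1 ≤ Real.log (Λ / v)) (hr : r0 ≤ r3 δ e Λ v) :
    prq (2 ^ (⌈δ * v⌉₊ + (⌊v⌋₊ - ⌈δ * v⌉₊))) (An δ e Λ v) ≤ C * Real.exp (-((1 + e / 2) * Real.log (Λ / v))) := by
  have hδ0 : 0 < δ := by rw [hδ]; positivity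
  have hδ64 : δ ≤ 1 / 64 := by rw [hδ]; linarith
  have hv0 : 0 < v := lt_of_lt_of_le (by positivity) hv
  have h4 : 4 ≤ δ * v := by
    rw [div_le_iff₀ hδ0] at hv
    linarith
  set L := Real.log (Λ / v) with hL
  have hL0 : 0 < L := by linarith
  have hle : ⌈δ * v⌉₊ ≤ ⌊v⌋₊ := by
    apply Nat.le_floor
    have := Nat.ceil_lt_add_one (show 0 ≤ δ * v by positivity)
    have h5 : δ * v ≤ 1 / 64 * v := mul_le_mul_of_nonneg_right hδ64 hv0.le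
    linarith
  have h1 : prq (2 ^ (⌈δ * v⌉₊ + (⌊v⌋₊ - ⌈δ * v⌉₊))) (An δ e Λ v) = prq (2 ^ (⌊v⌋₊ - ⌈δ * v⌉₊)) (Rg (⌊v⌋₊ - ⌈δ * v⌉₊) (r3 δ e Λ v)) :=
    prq_shift (Rg_per _ _)
  rw [h1]
  refine (hup _ _ hr).trans ?_
  apply mul_le_mul_of_nonneg_left _ hC.le
  apply Real.exp_le_exp.2
  apply neg_le_neg
  have hw' : (1 - 2 * δ) * v ≤ ((⌊v⌋₊ - ⌈δ * v⌉₊ : ℕ) : ℝ) := by
    rw [Nat.cast_sub hle]
    have g1 := Nat.lt_floor_add_one v
    have g2 := Nat.ceil_lt_add_one (show 0 ≤ δ * v by positivity)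
    linarith
  have h1e : 0 < 1 - e := by linarith
  have h1δ : 0 < 1 - δ := by linarith
  have hr2 : r3 δ e Λ v ^ 2 = (1 - e) ^ 2 * (Real.pi ^ 2 * ((1 + δ) * v / (2 * ((1 - δ) * L)))) := by
    unfold r3
    rw [mul_pow, mul_pow, Real.sq_sqrt (by positivity)]
  rw [hr2]
  have hpi := Real.pi_pos
  have h5 : (1 - δ) * (1 - 2 * δ) / ((1 - e) ^ 2 * (1 + δ)) * L ≤
      Real.pi ^ 2 * ((⌊v⌋₊ - ⌈δ * v⌉₊ : ℕ) : ℝ) / (2 * ((1 - e) ^ 2 * (Real.pi ^ 2 * ((1 + δ) * v / (2 * ((1 - δ) * L)))))) := by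
    calc (1 - δ) * (1 - 2 * δ) / ((1 - e) ^ 2 * (1 + δ)) * L =
        Real.pi ^ 2 * ((1 - 2 * δ) * v) / (2 * ((1 - e) ^ 2 * (Real.pi ^ 2 * ((1 + δ) * v / (2 * ((1 - δ) * L)))))) := by
          field_simp
      _ ≤ _ := by
          apply div_le_div_of_nonneg_right _ (by positivity)
          exact mul_le_mul_of_nonneg_left hw' (by positivity)
  have h6 : (1 + e / 2) ≤ (1 - 5 * δ) * ((1 - δ) * (1 - 2 * δ) / ((1 - e) ^ 2 * (1 + δ))) := by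
    rw [← mul_div_assoc, le_div_iff₀ (by positivity)]
    have k1 : (1 + e / 2) * (1 - e) ^ 2 ≤ (1 - e) := by
      have : (1 + e / 2) * (1 - e) ≤ 1 := by nlinarith
      calc (1 + e / 2) * (1 - e) ^ 2 = ((1 + e / 2) * (1 - e)) * (1 - e) := by ring
        _ ≤ 1 * (1 - e) := mul_le_mul_of_nonneg_right this h1e.le
        _ = _ := one_mul _
    have k2 : 1 - 8 * δ ≤ (1 - 5 * δ) * ((1 - δ) * (1 - 2 * δ)) := by
      nlinarith [mul_pos hδ0 hδ0, mul_pos (mul_pos hδ0 hδ0) hδ0]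
    calc (1 + e / 2) * ((1 - e) ^ 2 * (1 + δ)) = ((1 + e / 2) * (1 - e) ^ 2) * (1 + δ) := by ring
      _ ≤ (1 - e) * (1 + δ) := mul_le_mul_of_nonneg_right k1 (by positivity)
      _ ≤ 1 - 8 * δ := by
          rw [hδ]
          nlinarith
      _ ≤ _ := k2
  have h7 : 0 ≤ 1 - 5 * δ := by linarith
  calc (1 + e / 2) * L ≤ (1 - 5 * δ) * ((1 - δ) * (1 - 2 * δ) / ((1 - e) ^ 2 * (1 + δ))) * L :=
        mul_le_mul_of_nonneg_right h6 hL0.le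
    _ = (1 - 5 * δ) * ((1 - δ) * (1 - 2 * δ) / ((1 - e) ^ 2 * (1 + δ)) * L) := by ring
    _ ≤ _ := mul_le_mul_of_nonneg_left h5 h7

end Pool.Agent.V11311.ER
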