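import Pool.Agent.V11311.ER.W4

/-! Small oscillations of trajectories, part 5: existence, conclusion. -/

set_option autoImplicit false

namespace Pool.Agent.V11311.ER

open Finset Filter Topology Pool.Agent.V11311.FP Pool.Agent.V11311.RC Pool.Agent.V11311.SL

open Pool.Agent.V11311.DV (fl fl_card mem_fl)

open Pool.Agent.Helper894.Collatz (T od er od_add iter_eq sum_pow_od period)

open Pool.Agent.H377R2 (iter_pos)

/-- the event of one window -/
def Wq (e Λ : ℝ) (w y : ℕ) : Prop := Rg w ((1 + e) * rr Λ w) y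

theorem Wq_per (e Λ : ℝ) (w : ℕ) : Per (2 ^ w) (Wq e Λ w) := Rg_per _ _

/-- the probability of one window -/
theorem Wq_pr {α1 α2 e : ℝ} (hα1 : 0 < α1) (hα2 : α2 < 1) (he : 0 < e) (he1 : e < 1) :
    ∀ᶠ Λ : ℝ in atTop, ∀ w : ℕ, Λ ^ α1 / 2 ≤ w → (w : ℝ) ≤ Λ ^ α2 →
    ((w : ℝ) / Λ) ^ (1 - e / 2) ≤ prq (2 ^ w) (Wq e Λ w) := by
  obtain ⟨r0, hr0, hlow⟩ := Rg_low he he1.le
  have h1e : 0 < 1 - e := by linarith
  have hβ : 0 < 1 - α2 := by linarith
  have e2 : ∀ᶠ X : ℝ in atTop, 4 * r0 ^ 2 * Real.log X ≤ X ^ α1 := by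
    have h1 : ∀ᶠ X : ℝ in atTop, ‖Real.log X‖ ≤ (1 / (4 * r0 ^ 2)) * ‖X ^ α1‖ :=
      (isLittleO_log_rpow_atTop hα1).bound (by positivity)
    filter_upwards [h1, eventually_ge_atTop (1 : ℝ)] with X h1 h3
    rw [Real.norm_of_nonneg (Real.log_nonneg h3), Real.norm_of_nonneg (by positivity), one_div, inv_mul_eq_div,
      le_div_iff₀ (by positivity)] at h1
    linarith
  have e3 : ∀ᶠ X : ℝ in atTop, (1 : ℝ) ≤ Real.log X := Real.tendsto_log_atTop.eventually (eventually_ge_atTop _)
  filter_upwards [e2, e3, eventually_ge_atTop (1 : ℝ)] with Λ f2 f3 f4 w hw1 hw2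
  have hΛ0 : 0 < Λ := by linarith
  have hw0 : (0 : ℝ) < w := lt_of_lt_of_le (by positivity) hw1
  have hw1' : (1 : ℝ) ≤ w := by
    have : 0 < w := by exact_mod_cast hw0
    exact_mod_cast this
  set L := Real.log (Λ / w) with hL
  have hL1 : (1 - α2) * Real.log Λ ≤ L := log_ratio hΛ0 hw0 hw2
  have hL0 : 0 < L := lt_of_lt_of_le (by positivity) hL1
  have hL2 : L ≤ Real.log Λ := by
    apply Real.log_le_log (by positivity)
    exact div_le_self hΛ0.le hw1'
  have hpi := Real.pi_gt_three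
  have hsq : 0 ≤ Real.sqrt (w / (2 * L)) := Real.sqrt_nonneg _
  have hrr : r0 ≤ (1 + e) * rr Λ w := by
    have k2 : r0 ≤ Real.sqrt (w / (2 * L)) := by
      apply Real.le_sqrt_of_sq_le
      rw [le_div_iff₀ (by positivity)]
      calc r0 ^ 2 * (2 * L) ≤ r0 ^ 2 * (2 * Real.log Λ) := mul_le_mul_of_nonneg_left (by linarith) (by positivity)
        _ = 4 * r0 ^ 2 * Real.log Λ / 2 := by ring
        _ ≤ Λ ^ α1 / 2 := by linarith
        _ ≤ w := hw1
    have k3 : rr Λ w = Real.pi * Real.sqrt (w / (2 * L)) := rfl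
    rw [k3]
    have k4 : Real.sqrt (w / (2 * L)) ≤ Real.pi * Real.sqrt (w / (2 * L)) := by nlinarith
    have k5 : Real.pi * Real.sqrt (w / (2 * L)) ≤ (1 + e) * (Real.pi * Real.sqrt (w / (2 * L))) := by
      have : 0 ≤ Real.pi * Real.sqrt (w / (2 * L)) := by positivity
      nlinarith
    linarith
  have h1 := hlow w ((1 + e) * rr Λ w) hrr
  refine le_trans ?_ h1
  rw [Real.rpow_def_of_pos (by positivity)]
  apply Real.exp_le_exp.2
  have h3 : Real.log (w / Λ) = -L := by
    rw [hL, ← Real.log_inv, inv_div]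
  have h4 : Real.pi ^ 2 * w / (2 * ((1 + e) * rr Λ w) ^ 2) = L / (1 + e) ^ 2 := by
    have k3 : rr Λ w = Real.pi * Real.sqrt (w / (2 * L)) := rfl
    rw [k3, mul_pow, mul_pow, Real.sq_sqrt (by positivity)]
    have : 0 < Real.pi := by linarith
    field_simp
  rw [h3, h4]
  have h5 : (1 + e) * (L / (1 + e) ^ 2) = L / (1 + e) := by field_simp
  rw [h5]
  have h6 : L / (1 + e) ≤ (1 - e / 2) * L := by
    rw [div_le_iff₀ (by positivity)]
    have : 1 ≤ (1 - e / 2) * (1 + e) := by nlinarith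
    nlinarith
  linarith

/-- small ranges occur in all windows -/
def UpR (α1 α2 e κ : ℝ) (n : ℕ) : Prop :=
  ∀ w : ℕ, Real.log n ^ α1 ≤ w → (w : ℝ) ≤ Real.log n ^ α2 →
    ∃ s, (∀ s', s' ≤ s + w → (n : ℝ) ^ κ < (T^[s'] n : ℕ)) ∧ Rg w ((1 + e) * rr (Real.log n) w) (T^[s] n)

/-- no ranges are smaller -/
def LoR (α1 α2 e κ : ℝ) (n : ℕ) : Prop :=
  ∀ w : ℕ, Real.log n ^ α1 ≤ w → (w : ℝ) ≤ Real.log n ^ α2 → ∀ s,
    (∀ s', s' ≤ s + w → (n : ℝ) ^ κ < (T^[s'] n : ℕ)) → ¬ Rg w ((1 - e) * rr (Real.log n) w) (T^[s] n)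

theorem UpR_rare {α1 α2 e κ : ℝ} (hα1 : 0 < α1) (hα1' : α1 < 1) (hα2' : 0 ≤ α2) (hα2 : α2 < 1) (he : 0 < e) (he1 : e < 1)
    (hκ0 : 0 < κ) (hκ1 : κ < 1) (ε : ℝ) (hε : 0 < ε) :
    ∀ᶠ N : ℕ in atTop, (cN (fun n => Real.sqrt N ≤ n ∧ n ≤ N ∧ ¬ UpR α1 α2 e κ n) N : ℝ) ≤ ε * N := by
  classical
  have hlog : Tendsto (fun N : ℕ => Real.log (N : ℝ)) atTop atTop :=
    Real.tendsto_log_atTop.comp tendsto_natCast_atTop_atTop
  have h1e : 0 < 1 - e := by linarith
  have hβ : 0 < 1 - α2 := by linarith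
  set c0 := (1 - κ) / 2 with hc0
  have hc0p : 0 < c0 := by rw [hc0]; linarith
  have e1 : ∀ᶠ X : ℝ in atTop, 2 / c0 ≤ X ^ (1 - α2) := (tendsto_rpow_atTop hβ).eventually (eventually_ge_atTop _)
  have e2 : ∀ᶠ X : ℝ in atTop, Real.log (8 / ε) + 2 * Real.log X ≤ c0 / 2 * X ^ ((1 - α2) * (e / 2)) := by
    have h1 : ∀ᶠ X : ℝ in atTop, ‖Real.log X‖ ≤ (c0 / 8) * ‖X ^ ((1 - α2) * (e / 2))‖ :=
      (isLittleO_log_rpow_atTop (show (0 : ℝ) < (1 - α2) * (e / 2) by positivity)).bound (by positivity)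
    have h2 : ∀ᶠ X : ℝ in atTop, 4 / c0 * |Real.log (8 / ε)| ≤ X ^ ((1 - α2) * (e / 2)) :=
      (tendsto_rpow_atTop (by positivity)).eventually (eventually_ge_atTop _)
    filter_upwards [h1, h2, eventually_ge_atTop (1 : ℝ)] with X h1 h2 h3
    rw [Real.norm_of_nonneg (Real.log_nonneg h3), Real.norm_of_nonneg (by positivity)] at h1
    have h4 : |Real.log (8 / ε)| ≤ c0 / 4 * X ^ ((1 - α2) * (e / 2)) := by
      calc |Real.log (8 / ε)| = c0 / 4 * (4 / c0 * |Real.log (8 / ε)|) := by field_simp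
        _ ≤ _ := mul_le_mul_of_nonneg_left h2 (by positivity)
    linarith [le_abs_self (Real.log (8 / ε))]
  filter_upwards [hlog.eventually (Wq_pr hα1 hα2 he he1), hlog.eventually (e1.and (e2.and (eventually_ge_atTop (3 : ℝ)))),
    ll_tendsto.eventually (eventually_ge_atTop (2 / (1 - α2))), eventually_ge_atTop 3] with N hW h2 hll hN3
  obtain ⟨f1, f2, f3⟩ := h2
  set Λ := Real.log N with hΛ
  have hΛ0 : 0 < Λ := by linarith
  have hNR : (3 : ℝ) ≤ N := by exact_mod_cast hN3
  set WS : Finset ℕ := (range (⌊Λ⌋₊ + 1)).filter (fun w : ℕ => Λ ^ α1 / 2 ≤ w ∧ (w : ℝ) ≤ Λ ^ α2) with hWS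
  set R : ℕ → ℕ := fun w => ⌊c0 * Λ / w⌋₊ with hR
  have hwfacts : ∀ w ∈ WS, Λ ^ α1 / 2 ≤ w ∧ (w : ℝ) ≤ Λ ^ α2 ∧ (0 : ℝ) < w := by
    intro w hw
    rw [hWS, mem_filter] at hw
    exact ⟨hw.2.1, hw.2.2, lt_of_lt_of_le (by positivity) hw.2.1⟩
  have hRw : ∀ w ∈ WS, ((w * R w : ℕ) : ℝ) ≤ (1 - κ) / 2 * Λ := by
    intro w hw
    obtain ⟨-, -, hw0⟩ := hwfacts w hw
    have h1 : (R w : ℝ) ≤ c0 * Λ / w := Nat.floor_le (by positivity)
    rw [le_div_iff₀ hw0] at h1
    push_cast
    rw [← hc0]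
    linarith
  -- the exceptional set
  have hcn : (cN (fun n => Real.sqrt N ≤ n ∧ n ≤ N ∧ ¬ UpR α1 α2 e κ n) N : ℝ) ≤
      ∑ p ∈ WS, (cN (fun x => ∀ r, r < R p → ¬ Wq e Λ p (T^[p * r] x)) N : ℝ) := by
    apply cN_union
    rintro n hn hnN ⟨g1, g2, g3⟩
    unfold UpR at g3
    push Not at g3
    obtain ⟨w, g4, g5, g7⟩ := g3
    have hn0 : (0 : ℝ) < n := by exact_mod_cast hn
    have hnR : (n : ℝ) ≤ N := by exact_mod_cast hnN
    have hl1 := log_half g1 (by omega)
    have hl2 : Real.log n ≤ Λ := Real.log_le_log hn0 hnR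
    have hln : 0 < Real.log n := by linarith
    have hw1 : Λ ^ α1 / 2 ≤ w := by
      refine le_trans ?_ g4
      calc Λ ^ α1 / 2 ≤ Λ ^ α1 / 2 ^ α1 := by
            apply div_le_div_of_nonneg_left (by positivity) (by positivity)
            calc (2 : ℝ) ^ α1 ≤ 2 ^ (1 : ℝ) := Real.rpow_le_rpow_of_exponent_le (by norm_num) hα1'.le
              _ = 2 := Real.rpow_one _
        _ = (Λ / 2) ^ α1 := by rw [Real.div_rpow hΛ0.le (by norm_num)]
        _ ≤ _ := Real.rpow_le_rpow (by positivity) hl1 hα1.le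
    · have hw2 : (w : ℝ) ≤ Λ ^ α2 := g5.trans (Real.rpow_le_rpow hln.le hl2 hα2')
      have hwΛ : (w : ℝ) ≤ Λ := by
        refine hw2.trans ?_
        calc Λ ^ α2 ≤ Λ ^ (1 : ℝ) := Real.rpow_le_rpow_of_exponent_le (by linarith) hα2.le
          _ = Λ := Real.rpow_one _
      have hwS : w ∈ WS := by
        rw [hWS, mem_filter, mem_range, Nat.lt_succ_iff]
        exact ⟨Nat.le_floor hwΛ, hw1, hw2⟩
      refine ⟨w, hwS, ?_⟩
      intro r hr hW'
      have hj : w * r + w ≤ w * R w := by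
        calc w * r + w = w * (r + 1) := by ring
          _ ≤ w * R w := Nat.mul_le_mul_left _ hr
      refine g7 (w * r) (fun s' hs' => above hκ1 hn g1 hN3 (hRw w hwS) s' (hs'.trans hj)) ?_
      have hw0 := (hwfacts w hwS).2.2
      refine Rg_mono ?_ hW'
      apply mul_le_mul_of_nonneg_left _ (by linarith)
      unfold rr
      apply mul_le_mul_of_nonneg_left _ Real.pi_pos.le
      apply Real.sqrt_le_sqrt
      have hL := log_ratio hΛ0 hw0 hw2
      have hL2 : 2 ≤ Real.log (Λ / w) := by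
        refine le_trans ?_ hL
        rw [div_le_iff₀ hβ] at hll
        linarith
      have hl3 : 0 < Real.log (Real.log n / w) := by
        have k1 : Real.log (Λ / 2 / w) ≤ Real.log (Real.log n / w) :=
          Real.log_le_log (by positivity) (div_le_div_of_nonneg_right hl1 hw0.le)
        have k2 : Real.log (Λ / 2 / w) = Real.log (Λ / w) - Real.log 2 := by
          rw [Real.log_div (by positivity) hw0.ne', Real.log_div hΛ0.ne' (by norm_num),
            Real.log_div hΛ0.ne' hw0.ne']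
          ring
        have hl2 : Real.log 2 < 1 := by have := Real.log_two_lt_d9; linarith
        linarith
      apply div_le_div_of_nonneg_left hw0.le (by positivity)
      have : Real.log (Real.log n / w) ≤ Real.log (Λ / w) :=
        Real.log_le_log (by positivity) (div_le_div_of_nonneg_right hl2 hw0.le)
      linarith
  refine hcn.trans ?_
  have key : ∀ p ∈ WS,
      (cN (fun x => ∀ r, r < R p → ¬ Wq e Λ p (T^[p * r] x)) N : ℝ) ≤ 2 * N * (ε / (8 * Λ ^ 2)) := by
    intro p hp1
    obtain ⟨m1, m2, m3⟩ := hwfacts p hp1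
    have hq := hW p m1 m2
    obtain ⟨hP1, hP2⟩ := no_suc p (Wq_per e Λ p) (R p)
    have hpow : 2 ^ (p * R p) ≤ N := by
      have h1 : (2 : ℝ) ^ (p * R p) ≤ N := by
        calc (2 : ℝ) ^ (p * R p) = Real.exp (((p * R p : ℕ) : ℝ) * Real.log 2) := by
              rw [Real.exp_nat_mul, Real.exp_log (by norm_num)]
          _ ≤ Real.exp Λ := by
              apply Real.exp_le_exp.2
              have hl2 : Real.log 2 < 1 := by have := Real.log_two_lt_d9; linarith
              have hl2' : 0 < Real.log 2 := Real.log_pos (by norm_num)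
              have h3 := hRw p hp1
              have h4 : (0 : ℝ) ≤ ((p * R p : ℕ) : ℝ) := Nat.cast_nonneg _
              nlinarith
          _ = N := Real.exp_log (by linarith)
      exact_mod_cast h1
    refine (cN_rare _ hP1 hpow).trans ?_
    rw [← prq_pow, hP2]
    set q := prq (2 ^ p) (Wq e Λ p) with hqd
    have hq1 : q ≤ 1 := prq_le_one _ _
    have hq0 : 0 ≤ q := prq_nonneg _ _
    apply mul_le_mul_of_nonneg_left _ (by positivity)
    have hR1 : c0 * Λ / (2 * p) ≤ R p := by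
      have k1 : c0 * Λ / p < R p + 1 := Nat.lt_floor_add_one _
      have k2 : 2 ≤ c0 * Λ / p := by
        rw [le_div_iff₀ m3]
        rw [div_le_iff₀ hc0p] at f1
        calc 2 * (p : ℝ) ≤ (Λ ^ (1 - α2) * c0) * Λ ^ α2 := mul_le_mul f1 m2 m3.le (by positivity)
          _ = c0 * (Λ ^ (1 - α2) * Λ ^ α2) := by ring
          _ = c0 * Λ := by
              rw [← Real.rpow_add hΛ0]
              simp
      have k3 : c0 * Λ / (2 * p) = c0 * Λ / p / 2 := by
        rw [div_div, mul_comm 2 (p : ℝ)]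
      rw [k3]
      linarith
    have hqR : c0 / 2 * Λ ^ ((1 - α2) * (e / 2)) ≤ q * R p := by
      calc c0 / 2 * Λ ^ ((1 - α2) * (e / 2)) ≤ c0 / 2 * (Λ / p) ^ (e / 2) := by
            apply mul_le_mul_of_nonneg_left _ (by positivity)
            rw [Real.rpow_mul hΛ0.le]
            apply Real.rpow_le_rpow (by positivity) _ (by positivity)
            rw [le_div_iff₀ m3]
            calc Λ ^ (1 - α2) * p ≤ Λ ^ (1 - α2) * Λ ^ α2 := mul_le_mul_of_nonneg_left m2 (by positivity)
              _ = Λ := by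
                  rw [← Real.rpow_add hΛ0]
                  simp
        _ = ((p : ℝ) / Λ) ^ (1 - e / 2) * (c0 * Λ / (2 * p)) := by
            have k1 : ((p : ℝ) / Λ) ^ (1 - e / 2) = (p : ℝ) / Λ * (Λ / p) ^ (e / 2) := by
              rw [Real.rpow_sub (by positivity), Real.rpow_one, ← inv_div Λ (p : ℝ), Real.inv_rpow (by positivity),
                div_inv_eq_mul]
            rw [k1]
            field_simp
        _ ≤ q * R p := mul_le_mul hq hR1 (by positivity) hq0
    calc (1 - q) ^ R p ≤ Real.exp (-q) ^ R p := by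
          apply pow_le_pow_left₀ (by linarith)
          have := Real.add_one_le_exp (-q)
          linarith
      _ = Real.exp (-(q * R p)) := by
          rw [← Real.exp_nat_mul]
          congr 1
          ring
      _ ≤ Real.exp (-(Real.log (8 / ε) + 2 * Real.log Λ)) := Real.exp_le_exp.2 (by linarith)
      _ = ε / (8 * Λ ^ 2) := by
          rw [Real.exp_neg, Real.exp_add, Real.exp_log (by positivity),
            show (2 : ℝ) * Real.log Λ = ((2 : ℕ) : ℝ) * Real.log Λ by norm_num, Real.exp_nat_mul,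
            Real.exp_log hΛ0]
          field_simp
  refine (sum_le_sum key).trans ?_
  rw [sum_const, nsmul_eq_mul]
  have hc1 : (WS.card : ℝ) ≤ 2 * Λ := by
    have k1 : WS.card ≤ ⌊Λ⌋₊ + 1 := (card_filter_le _ _).trans (by rw [card_range])
    have k2 : ((⌊Λ⌋₊ : ℕ) : ℝ) ≤ Λ := Nat.floor_le hΛ0.le
    have k3 : (WS.card : ℝ) ≤ (⌊Λ⌋₊ : ℕ) + 1 := by exact_mod_cast k1
    linarith
  calc (WS.card : ℝ) * (2 * N * (ε / (8 * Λ ^ 2))) ≤ 2 * Λ * (2 * N * (ε / (8 * Λ ^ 2))) := by
        apply mul_le_mul_of_nonneg_right hc1 (by positivity)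
    _ = ε * N / (2 * Λ) := by
        field_simp
        ring
    _ ≤ ε * N := div_le_self (by positivity) (by linarith)

/-- **the small ranges of typical trajectories** -/
theorem rng_law {α1 α2 e κ : ℝ} (hα1 : 0 < α1) (hα12 : α1 ≤ α2) (hα2 : α2 < 1) (he : 0 < e) (he1 : e < 1)
    (hκ0 : 0 < κ) (hκ1 : κ < 1) : HasD (fun n => LoR α1 α2 e κ n ∧ UpR α1 α2 e κ n) 1 := by
  have hlog : Tendsto (fun N : ℕ => Real.log (N : ℝ)) atTop atTop :=
    Real.tendsto_log_atTop.comp tendsto_natCast_atTop_atTop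
  have hβ : 0 < 1 - α2 := by linarith
  apply hasD_one
  intro ε hε
  filter_upwards [small_rare (ε / 3) (by positivity),
    UpR_rare hα1 (by linarith) (by linarith) hα2 he he1 hκ0 hκ1 (ε / 3) (by positivity),
    rng_rare (α1 := α1) (α2 := α2) (e := e / 2) (κ := κ / 2) hα1 hα2 (by positivity) (by linarith) (by positivity)
      (ε / 3) (by positivity), eventually_ge_atTop 3, hlog.eventually (eventually_ge_atTop (3 : ℝ)),
    ll_tendsto.eventually (eventually_ge_atTop (4 / (e * (1 - α2))))] with N h1 h2 h3 hN3 hlogN hll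
  set Λ := Real.log N with hΛ
  have hΛ0 : 0 < Λ := by linarith
  have h7 := cN_or3 (P := fun n => ¬ (LoR α1 α2 e κ n ∧ UpR α1 α2 e κ n)) (A := fun n => (n : ℝ) < Real.sqrt N)
    (B := fun n => Real.sqrt N ≤ n ∧ n ≤ N ∧ ¬ UpR α1 α2 e κ n)
    (C := St (PJ α1 α2 (e / 2)) N (Lv (κ / 2) N)) (N := N)
    (fun n hn hnN hbad => by
      rcases lt_or_ge (n : ℝ) (Real.sqrt N) with h | h
      · exact Or.inl h
      · right
        have hn0 : (0 : ℝ) < n := by exact_mod_cast hn
        have hnR : (n : ℝ) ≤ N := by exact_mod_cast hnN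
        have hl1 := log_half h (by omega)
        have hl2 : Real.log n ≤ Λ := Real.log_le_log hn0 hnR
        have hln : 0 < Real.log n := by linarith
        rcases Classical.not_and_iff_not_or_not.1 hbad with h' | h'
        · right
          unfold LoR at h'
          push Not at h'
          obtain ⟨w, g4, g5, s, g6, g7⟩ := h'
          have hw1 : Λ ^ α1 / 2 ≤ w := by
            refine le_trans ?_ g4
            calc Λ ^ α1 / 2 ≤ Λ ^ α1 / 2 ^ α1 := by
                  apply div_le_div_of_nonneg_left (by positivity) (by positivity)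
                  calc (2 : ℝ) ^ α1 ≤ 2 ^ (1 : ℝ) := Real.rpow_le_rpow_of_exponent_le (by norm_num) (by linarith)
                    _ = 2 := Real.rpow_one _
              _ = (Λ / 2) ^ α1 := by rw [Real.div_rpow hΛ0.le (by norm_num)]
              _ ≤ _ := Real.rpow_le_rpow (by positivity) hl1 hα1.le
          have hw2 : (w : ℝ) ≤ Λ ^ α2 := g5.trans (Real.rpow_le_rpow hln.le hl2 (by linarith))
          have hw0 : (0 : ℝ) < w := lt_of_lt_of_le (by positivity) hw1
          refine ⟨s, fun s' hs' => Lv_lt hκ0 h (g6 s' (by omega)), w, hw1, hw2, ?_⟩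
          refine Rg_mono ?_ g7
          have hL := log_ratio hΛ0 hw0 hw2
          set L := Real.log (Λ / w) with hLd
          have hL4 : 4 / e ≤ L := by
            refine le_trans ?_ hL
            have k1 : 4 / e = (1 - α2) * (4 / (e * (1 - α2))) := by field_simp
            rw [k1]
            exact mul_le_mul_of_nonneg_left hll hβ.le
          have hL0 : 0 < L := lt_of_lt_of_le (by positivity) hL4
          have hL44 : 4 ≤ L := by
            rw [div_le_iff₀ he] at hL4
            nlinarith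
          have hLn : L - 1 ≤ Real.log (Real.log n / w) := by
            have k1 : Real.log (Λ / 2 / w) ≤ Real.log (Real.log n / w) :=
              Real.log_le_log (by positivity) (div_le_div_of_nonneg_right hl1 hw0.le)
            have k2 : Real.log (Λ / 2 / w) = L - Real.log 2 := by
              rw [hLd, Real.log_div (by positivity) hw0.ne', Real.log_div hΛ0.ne' (by norm_num),
                Real.log_div hΛ0.ne' hw0.ne']
              ring
            have hl2 : Real.log 2 < 1 := by have := Real.log_two_lt_d9; linarith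
            linarith
          have h1e : 0 < 1 - e := by linarith
          have h2e : 0 < 1 - e / 2 := by linarith
          have hLn0 : 0 < Real.log (Real.log n / w) := by linarith
          -- compare the square roots
          have k3 : (1 - e) ^ 2 * L ≤ (1 - e / 2) ^ 2 * Real.log (Real.log n / w) := by
            have k4 : (1 - e / 2) ^ 2 * (L - 1) ≤ (1 - e / 2) ^ 2 * Real.log (Real.log n / w) :=
              mul_le_mul_of_nonneg_left hLn (by positivity)
            refine le_trans ?_ k4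
            rw [div_le_iff₀ he] at hL4
            nlinarith
          have hpi := Real.pi_pos
          have k5 : ((1 - e) * rr (Real.log n) w) ^ 2 ≤ ((1 - e / 2) * rr Λ w) ^ 2 := by
            unfold rr
            rw [mul_pow, mul_pow, mul_pow, mul_pow, Real.sq_sqrt (by positivity), Real.sq_sqrt (by positivity)]
            have k6 : (1 - e) ^ 2 * (Real.pi ^ 2 * (w / (2 * Real.log (Real.log n / w)))) =
                Real.pi ^ 2 * w / 2 * ((1 - e) ^ 2 / Real.log (Real.log n / w)) := by field_simp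
            have k7 : (1 - e / 2) ^ 2 * (Real.pi ^ 2 * (w / (2 * Real.log (Λ / w)))) =
                Real.pi ^ 2 * w / 2 * ((1 - e / 2) ^ 2 / L) := by
              rw [← hLd]
              field_simp
            rw [k6, k7]
            apply mul_le_mul_of_nonneg_left _ (by positivity)
            rw [div_le_div_iff₀ hLn0 hL0]
            exact k3
          exact le_of_sq_le_sq k5 (by
            unfold rr
            positivity)
        · left
          exact ⟨h, hnN, h'⟩)
  linarith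

end Pool.Agent.V11311.ER
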