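import Pool.Agent.V11311.ER.R4
import Pool.Agent.V11311.ER.V3

/-! Pairs of blocks of two trajectories, part 1: Chernoff's bound with weights. -/

set_option autoImplicit false

namespace Pool.Agent.V11311.ER

open Finset Filter Topology Pool.Agent.V11311.FP Pool.Agent.V11311.RC Pool.Agent.V11311.SL

open Pool.Agent.V11311.DV (fl fl_card mem_fl)

open Pool.Agent.Helper894.Collatz (T od er od_add iter_eq sum_pow_od period)

open Pool.Agent.H377R2 (iter_pos)

/-- the indicator function -/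
noncomputable def ind (A : ℕ → Prop) (x : ℕ) : ℝ := by
  classical
  exact if A x then 1 else 0

theorem ind_pos {A : ℕ → Prop} {x : ℕ} (h : A x) : ind A x = 1 := by
  unfold ind; rw [if_pos h]

theorem ind_neg {A : ℕ → Prop} {x : ℕ} (h : ¬ A x) : ind A x = 0 := by
  unfold ind; rw [if_neg h]

theorem ind_nonneg (A : ℕ → Prop) (x : ℕ) : 0 ≤ ind A x := by
  by_cases h : A x
  · rw [ind_pos h]; norm_num
  · rw [ind_neg h]

theorem ind_le_one (A : ℕ → Prop) (x : ℕ) : ind A x ≤ 1 := by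
  by_cases h : A x
  · rw [ind_pos h]
  · rw [ind_neg h]; norm_num

/-- the weighted sum over the multiples of `k` -/
noncomputable def Fb (k : ℕ) (A : ℕ → Prop) (p : ℝ) (g : ℕ → ℝ) (b x : ℕ) : ℝ :=
  ∑ r ∈ range b, g r * (ind A (T^[k * r] x) - p)

theorem Fb_succ (k : ℕ) (A : ℕ → Prop) (p : ℝ) (g : ℕ → ℝ) (b x : ℕ) :
    Fb k A p g (b + 1) x = g 0 * (ind A x - p) + Fb k A p (fun r => g (r + 1)) b (T^[k] x) := by
  unfold Fb
  rw [sum_range_succ', add_comm]
  congr 1
  apply sum_congr rfl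
  intro r _
  rw [mul_add, mul_one, Function.iterate_add_apply]

theorem Fb_per {k : ℕ} {A : ℕ → Prop} (hA : Per (2 ^ k) A) (p : ℝ) (g : ℕ → ℝ) (b x : ℕ) :
    Fb k A p g b (x % 2 ^ (k * b)) = Fb k A p g b x := by
  unfold Fb
  apply sum_congr rfl
  intro r hr
  rw [mem_range] at hr
  have h1 : k * r + k ≤ k * b := by
    calc k * r + k = k * (r + 1) := by ring
      _ ≤ k * b := Nat.mul_le_mul_left _ hr
  have h2 := per_le h1 (Per.shift (i := k * r) hA) x
  congr 2
  by_cases h : A (T^[k * r] x)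
  · rw [ind_pos h, ind_pos (h2.2 h)]
  · rw [ind_neg h, ind_neg (fun h3 => h (h2.1 h3))]

theorem hoeff {p z : ℝ} (hp0 : 0 ≤ p) (hp1 : p ≤ 1) (hz0 : 0 ≤ z) (hz1 : z ≤ 1) :
    p * Real.exp (z * (1 - p)) + (1 - p) * Real.exp (-(z * p)) ≤ Real.exp (z ^ 2) := by
  have h1p : 0 ≤ 1 - p := by linarith
  have e1 : Real.exp (z * (1 - p)) ≤ 1 + z * (1 - p) + (z * (1 - p)) ^ 2 := by
    have h : |z * (1 - p)| ≤ 1 := by
      rw [abs_of_nonneg (by positivity)]
      nlinarith
    have := (abs_le.1 (Real.abs_exp_sub_one_sub_id_le h)).2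
    linarith
  have e2 : Real.exp (-(z * p)) ≤ 1 + -(z * p) + (-(z * p)) ^ 2 := by
    have h : |-(z * p)| ≤ 1 := by
      rw [abs_neg, abs_of_nonneg (by positivity)]
      nlinarith
    have := (abs_le.1 (Real.abs_exp_sub_one_sub_id_le h)).2
    linarith
  have e3 := Real.add_one_le_exp (z ^ 2)
  have e4 := mul_le_mul_of_nonneg_left e1 hp0
  have e5 := mul_le_mul_of_nonneg_left e2 h1p
  have e6 : p * (1 + z * (1 - p) + (z * (1 - p)) ^ 2) + (1 - p) * (1 + -(z * p) + (-(z * p)) ^ 2) = 1 + z ^ 2 * (p * (1 - p)) := by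
    ring
  have e7 : z ^ 2 * (p * (1 - p)) ≤ z ^ 2 * 1 := mul_le_mul_of_nonneg_left (by nlinarith) (sq_nonneg z)
  linarith

theorem Fb_pr {k : ℕ} {A : ℕ → Prop} (hA : Per (2 ^ k) A) {l : ℝ} (h0 : 0 ≤ l) (h1 : l ≤ 1) (b : ℕ) :
    ∀ g : ℕ → ℝ, (∀ r, 0 ≤ g r ∧ g r ≤ 1) → ∀ y : ℝ,
    prq (2 ^ (k * b)) (fun x => y ≤ Fb k A (prq (2 ^ k) A) g b x) ≤ Real.exp (-(l * y) + l ^ 2 * b) := by
  classical
  set p := prq (2 ^ k) A with hp
  have hp0 : 0 ≤ p := prq_nonneg _ _
  have hp1 : p ≤ 1 := prq_le_one _ _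
  induction b with
  | zero =>
    intro g hg y
    rcases lt_or_ge 0 y with h | h
    · have : prq (2 ^ (k * 0)) (fun x => y ≤ Fb k A p g 0 x) = 0 := by
        rw [prq_eq, filter_false_of_mem]
        · simp
        · intro x _ hx
          unfold Fb at hx
          rw [range_zero, sum_empty] at hx
          linarith
      rw [this]
      exact (Real.exp_pos _).le
    · refine (prq_le_one _ _).trans (Real.one_le_exp ?_)
      push_cast
      nlinarith
  | succ b ih =>
    intro g hg y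
    have e0 : k * (b + 1) = k + k * b := by ring
    have s1 : prq (2 ^ (k * (b + 1))) (fun x => y ≤ Fb k A p g (b + 1) x) ≤
        prq (2 ^ k * 2 ^ (k * b)) (fun x => (A x ∧ y - g 0 * (1 - p) ≤ Fb k A p (fun r => g (r + 1)) b (T^[k] x)) ∨
          (¬ A x ∧ y + g 0 * p ≤ Fb k A p (fun r => g (r + 1)) b (T^[k] x))) := by
      rw [e0, pow_add]
      apply prq_mono
      intro x hx
      rw [Fb_succ] at hx
      by_cases h : A x
      · left
        rw [ind_pos h] at hx
        exact ⟨h, by linarith⟩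
      · right
        rw [ind_neg h] at hx
        exact ⟨h, by linarith⟩
    have hB : ∀ z : ℝ, Per (2 ^ (k * b)) (fun x => z ≤ Fb k A p (fun r => g (r + 1)) b x) := by
      intro z x
      simp only
      rw [Fb_per hA]
    rw [prq_or (fun x g g' => g'.1 g.1),
      prod_prq (B := fun x => y - g 0 * (1 - p) ≤ Fb k A p (fun r => g (r + 1)) b x) (by positivity)
        (Nat.Coprime.pow_left _ (by norm_num)) hA (hB _),
      prod_prq (B := fun x => y + g 0 * p ≤ Fb k A p (fun r => g (r + 1)) b x) (by positivity)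
        (Nat.Coprime.pow_left _ (by norm_num)) (Per.not hA) (hB _), prq_not (by positivity), ← hp] at s1
    refine s1.trans ?_
    have i1 := ih (fun r => g (r + 1)) (fun r => hg (r + 1)) (y - g 0 * (1 - p))
    have i2 := ih (fun r => g (r + 1)) (fun r => hg (r + 1)) (y + g 0 * p)
    have i3 := hoeff hp0 hp1 (show 0 ≤ l * g 0 from mul_nonneg h0 (hg 0).1) (by nlinarith [hg 0])
    have i4 : (l * g 0) ^ 2 ≤ l ^ 2 := by
      rw [mul_pow]
      have : g 0 ^ 2 ≤ 1 := by nlinarith [hg 0]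
      nlinarith [sq_nonneg l]
    calc p * prq (2 ^ (k * b)) (fun x => y - g 0 * (1 - p) ≤ Fb k A p (fun r => g (r + 1)) b x) +
          (1 - p) * prq (2 ^ (k * b)) (fun x => y + g 0 * p ≤ Fb k A p (fun r => g (r + 1)) b x)
        ≤ p * Real.exp (-(l * (y - g 0 * (1 - p))) + l ^ 2 * b) + (1 - p) * Real.exp (-(l * (y + g 0 * p)) + l ^ 2 * b) :=
          add_le_add (mul_le_mul_of_nonneg_left i1 hp0) (mul_le_mul_of_nonneg_left i2 (by linarith))
      _ = Real.exp (-(l * y) + l ^ 2 * b) * (p * Real.exp (l * g 0 * (1 - p)) + (1 - p) * Real.exp (-(l * g 0 * p))) := by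
          rw [show -(l * (y - g 0 * (1 - p))) + l ^ 2 * b = (-(l * y) + l ^ 2 * b) + l * g 0 * (1 - p) by ring,
            show -(l * (y + g 0 * p)) + l ^ 2 * b = (-(l * y) + l ^ 2 * b) + -(l * g 0 * p) by ring,
            Real.exp_add (-(l * y) + l ^ 2 * b) (l * g 0 * (1 - p)), Real.exp_add (-(l * y) + l ^ 2 * b) (-(l * g 0 * p))]
          ring
      _ ≤ Real.exp (-(l * y) + l ^ 2 * b) * Real.exp (l ^ 2) := by
          apply mul_le_mul_of_nonneg_left _ (Real.exp_pos _).le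
          exact i3.trans (Real.exp_le_exp.2 i4)
      _ = Real.exp (-(l * y) + l ^ 2 * ((b + 1 : ℕ) : ℝ)) := by
          rw [← Real.exp_add]
          congr 1
          push_cast
          ring

/-- the window sum -/
noncomputable def Wg (A : ℕ → Prop) (p : ℝ) (g : ℕ → ℝ) (w x : ℕ) : ℝ :=
  ∑ j ∈ range w, g j * (ind A (T^[j] x) - p)

theorem sum_block (k b : ℕ) (f : ℕ → ℝ) : ∑ j ∈ range (k * b), f j = ∑ i ∈ range k, ∑ r ∈ range b, f (i + k * r) := by
  induction b with
  | zero => simp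
  | succ b ih =>
    rw [mul_add, mul_one, sum_range_add, ih]
    simp only [sum_range_succ]
    rw [sum_add_distrib]
    congr 1
    apply sum_congr rfl
    intro i _
    rw [add_comm i]

theorem Wg_block (k : ℕ) (A : ℕ → Prop) (p : ℝ) (g : ℕ → ℝ) (b x : ℕ) :
    Wg A p g (k * b) x = ∑ i ∈ range k, Fb k A p (fun r => g (i + k * r)) b (T^[i] x) := by
  unfold Wg Fb
  rw [sum_block]
  apply sum_congr rfl
  intro i _
  apply sum_congr rfl
  intro r _
  have h : T^[i + k * r] x = T^[k * r] (T^[i] x) := by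
    rw [add_comm i (k * r), Function.iterate_add_apply]
  rw [h]

theorem Wg_per {k : ℕ} {A : ℕ → Prop} (hA : Per (2 ^ k) A) (p : ℝ) (g : ℕ → ℝ) (η : ℝ) (b : ℕ) :
    Per (2 ^ (k * b + k)) (fun x => η < |Wg A p g (k * b) x|) := by
  intro x
  simp only
  have : Wg A p g (k * b) (x % 2 ^ (k * b + k)) = Wg A p g (k * b) x := by
    unfold Wg
    apply sum_congr rfl
    intro j hj
    rw [mem_range] at hj
    have h2 := per_le (show j + k ≤ k * b + k by omega) (Per.shift (i := j) hA) x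
    congr 2
    by_cases h : A (T^[j] x)
    · rw [ind_pos h, ind_pos (h2.2 h)]
    · rw [ind_neg h, ind_neg (fun h3 => h (h2.1 h3))]
  rw [this]

theorem Fb_not {k : ℕ} {A : ℕ → Prop} (g : ℕ → ℝ) (b x : ℕ) :
    Fb k (fun x => ¬ A x) (prq (2 ^ k) (fun x => ¬ A x)) g b x = -Fb k A (prq (2 ^ k) A) g b x := by
  unfold Fb
  rw [← sum_neg_distrib]
  apply sum_congr rfl
  intro r _
  rw [prq_not (by positivity)]
  by_cases h : A (T^[k * r] x)
  · rw [ind_pos h, ind_neg (A := fun x => ¬ A x) (not_not.2 h)]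
    ring
  · rw [ind_neg h, ind_pos (A := fun x => ¬ A x) h]
    ring

theorem Wg_pr {k : ℕ} {A : ℕ → Prop} (hA : Per (2 ^ k) A) {η : ℝ} (h0 : 0 < η) (h1 : η ≤ 1) (b : ℕ)
    {g : ℕ → ℝ} (hg : ∀ r, 0 ≤ g r ∧ g r ≤ 1) :
    prq (2 ^ (k * b + k)) (fun x => η * (k * b) < |Wg A (prq (2 ^ k) A) g (k * b) x|) ≤
      2 * k * Real.exp (-(η ^ 2 / 4 * b)) := by
  classical
  set p := prq (2 ^ k) A with hp
  have hexp : ∀ g : ℕ → ℝ, (∀ r, 0 ≤ g r ∧ g r ≤ 1) →
      prq (2 ^ (k * b)) (fun x => η * b ≤ |Fb k A p g b x|) ≤ 2 * Real.exp (-(η ^ 2 / 4 * b)) := by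
    intro g hg
    have e1 := Fb_pr hA (l := η / 2) (by linarith) (by linarith) b g hg (η * b)
    have e2 := Fb_pr (Per.not hA) (l := η / 2) (by linarith) (by linarith) b g hg (η * b)
    have e3 : -(η / 2 * (η * b)) + (η / 2) ^ 2 * b = -(η ^ 2 / 4 * b) := by ring
    rw [e3] at e1 e2
    have e4 : prq (2 ^ (k * b)) (fun x => η * b ≤ |Fb k A p g b x|) ≤
        prq (2 ^ (k * b)) (fun x => (η * b ≤ Fb k A p g b x) ∨
          (η * b ≤ Fb k (fun x => ¬ A x) (prq (2 ^ k) (fun x => ¬ A x)) g b x)) := by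
      apply prq_mono
      intro x hx
      rw [Fb_not]
      exact le_abs.1 hx
    refine e4.trans (prq_or_le.trans ?_)
    linarith
  have h2 : prq (2 ^ (k * b + k)) (fun x => η * (k * b) < |Wg A p g (k * b) x|) ≤
      ∑ i ∈ range k, prq (2 ^ (k * b + k)) (fun x => η * b ≤ |Fb k A p (fun r => g (i + k * r)) b (T^[i] x)|) := by
    apply prq_union
    intro x hx
    by_contra hcon
    push Not at hcon
    rw [Wg_block] at hx
    have h3 : |∑ i ∈ range k, Fb k A p (fun r => g (i + k * r)) b (T^[i] x)| ≤ ∑ i ∈ range k, η * b :=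
      (abs_sum_le_sum_abs _ _).trans (sum_le_sum fun i hi => (hcon i hi).le)
    rw [sum_const, card_range, nsmul_eq_mul] at h3
    have : (k : ℝ) * (η * b) = η * (k * b) := by ring
    linarith
  refine h2.trans ?_
  calc _ ≤ ∑ _i ∈ range k, 2 * Real.exp (-(η ^ 2 / 4 * b)) := by
        refine sum_le_sum fun i hi => ?_
        rw [mem_range] at hi
        have hP : Per (2 ^ (k * b)) (fun x => η * b ≤ |Fb k A p (fun r => g (i + k * r)) b x|) := by
          intro x
          simp only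
          rw [Fb_per hA]
        rw [prq_le_pow (show i + k * b ≤ k * b + k by omega) (Per.shift (i := i) hP), prq_shift hP]
        exact hexp _ (fun r => hg _)
    _ = _ := by
        rw [sum_const, card_range, nsmul_eq_mul]
        ring

end Pool.Agent.V11311.ER
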