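import Pool.Agent.V11311.ER.Y1

/-! Pairs of blocks of two trajectories, part 2: families of weights. -/

set_option autoImplicit false

namespace Pool.Agent.V11311.ER

open Finset Filter Topology Pool.Agent.V11311.FP Pool.Agent.V11311.RC Pool.Agent.V11311.SL

open Pool.Agent.V11311.DV (fl fl_card mem_fl)

open Pool.Agent.Helper894.Collatz (T od er od_add iter_eq sum_pow_od period)

open Pool.Agent.H377R2 (iter_pos)

/-- the number of blocks -/
noncomputable def bn (c : ℝ) (N : ℕ) : ℕ := ⌈c * Real.log (Real.log N)⌉₊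

/-- bad windows for a family of weights -/
def BF (k : ℕ) (η c : ℝ) (G : ℕ × ℕ → ℕ → ℝ) (N x : ℕ) : Prop :=
  ∃ q ∈ (range (⌊21 * Real.log N⌋₊ + 1)) ×ˢ range (2 ^ k), ∃ a ∈ range (2 ^ k),
    η * (k * bn c N) < |Wg (Cr k a) (1 / 2 ^ k) (G q) (k * bn c N) x|

theorem fam_rare {k : ℕ} (hk : 1 ≤ k) {η c κ : ℝ} (hη : 0 < η) (hη1 : η ≤ 1) (hc : c = 12 / η ^ 2) (hκ : 0 < κ)
    (ε : ℝ) (hε : 0 < ε) : ∀ᶠ N : ℕ in atTop, ∀ G : ℕ × ℕ → ℕ → ℝ, (∀ q j, 0 ≤ G q j ∧ G q j ≤ 1) →
      (cN (St (fun N x => BF k η c G N x) N (Lv κ N)) N : ℝ) ≤ ε * N := by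
  classical
  have hc0 : 0 < c := by rw [hc]; positivity
  have hk0 : (0 : ℝ) < k := by exact_mod_cast hk
  set bad : ℕ → (ℕ × ℕ → ℕ → ℝ) → Prop := fun N G => (∀ q j, 0 ≤ G q j ∧ G q j ≤ 1) ∧
    ¬ (cN (St (fun N x => BF k η c G N x) N (Lv κ N)) N : ℝ) ≤ ε * N with hbad
  set Gf : ℕ → (ℕ × ℕ → ℕ → ℝ) := fun N => if h : ∃ G, bad N G then h.choose else fun _ _ => 0 with hGf
  have hG : ∀ N, ∀ q j, 0 ≤ Gf N q j ∧ Gf N q j ≤ 1 := by
    intro N
    rw [hGf]
    simp only
    by_cases h : ∃ G, bad N G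
    · rw [dif_pos h]
      exact h.choose_spec.1
    · rw [dif_neg h]
      intro q j
      norm_num
  have hlog : Tendsto (fun N : ℕ => Real.log (N : ℝ)) atTop atTop :=
    Real.tendsto_log_atTop.comp tendsto_natCast_atTop_atTop
  have key := St_rare2 (ι := (ℕ × ℕ) × ℕ) (fun N x => BF k η c (Gf N) N x)
    (fun N => ((range (⌊21 * Real.log N⌋₊ + 1)) ×ˢ range (2 ^ k)) ×ˢ range (2 ^ k)) (fun N _ => k * bn c N + k)
    (fun N p x => η * (k * bn c N) < |Wg (Cr k p.2) (1 / 2 ^ k) (Gf N p.1) (k * bn c N) x|)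
    (fun N p => Wg_per (Cr_per k p.2) _ _ _ _) ?_ ?_ ?_ hκ ε hε
  · filter_upwards [key] with N hN G hG'
    by_contra hcon
    have hex : ∃ G, bad N G := ⟨G, hG', hcon⟩
    have h1 : Gf N = hex.choose := by
      rw [hGf]
      simp only
      rw [dif_pos hex]
    apply hex.choose_spec.2
    rw [← h1]
    exact hN
  · intro κ' hκ'
    have e1 : ∀ᶠ X : ℝ in atTop, k * (c * Real.log X + 2) ≤ κ' * X := by
      have h1 : ∀ᶠ X : ℝ in atTop, ‖Real.log X‖ ≤ (κ' / (2 * (k * c))) * ‖X‖ :=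
        (Real.isLittleO_log_id_atTop).bound (by positivity)
      filter_upwards [h1, eventually_ge_atTop (1 : ℝ), eventually_ge_atTop (4 * k / κ')] with X h1 h2 h3
      rw [Real.norm_of_nonneg (Real.log_nonneg h2), Real.norm_of_nonneg (by linarith)] at h1
      rw [div_le_iff₀ hκ'] at h3
      have h4 : (k * c) * Real.log X ≤ (k * c) * (κ' / (2 * (k * c)) * X) := mul_le_mul_of_nonneg_left h1 (by positivity)
      have h5 : (k * c) * (κ' / (2 * (k * c)) * X) = κ' / 2 * X := by field_simp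
      linarith
    filter_upwards [hlog.eventually (e1.and (eventually_ge_atTop (3 : ℝ))), ll_tendsto.eventually (eventually_ge_atTop (1 : ℝ))]
      with N h1 h4 d _
    obtain ⟨h1, h2⟩ := h1
    have hN0 : (0 : ℝ) < N := by
      by_contra hcon
      push Not at hcon
      have : (N : ℝ) = 0 := le_antisymm hcon (Nat.cast_nonneg _)
      rw [this, Real.log_zero] at h2
      norm_num at h2
    have h3 : ((k * bn c N + k : ℕ) : ℝ) ≤ k * (c * Real.log (Real.log N) + 2) := by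
      have g2 := Nat.ceil_lt_add_one (show 0 ≤ c * Real.log (Real.log N) by positivity)
      have g3 : (bn c N : ℝ) ≤ c * Real.log (Real.log N) + 1 := by
        unfold bn
        exact g2.le
      push_cast
      calc (k : ℝ) * bn c N + k ≤ k * (c * Real.log (Real.log N) + 1) + k := by
            have := mul_le_mul_of_nonneg_left g3 hk0.le
            linarith
        _ = _ := by ring
    calc (2 : ℝ) ^ (k * bn c N + k) = Real.exp (((k * bn c N + k : ℕ) : ℝ) * Real.log 2) := by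
          rw [Real.exp_nat_mul, Real.exp_log (by norm_num)]
      _ ≤ Real.exp (Real.log N * κ') := by
          apply Real.exp_le_exp.2
          have hl2 : Real.log 2 < 1 := by have := Real.log_two_lt_d9; linarith
          have hl2' : 0 < Real.log 2 := Real.log_pos (by norm_num)
          have m0 : (0 : ℝ) ≤ ((k * bn c N + k : ℕ) : ℝ) := Nat.cast_nonneg _
          nlinarith
      _ = (N : ℝ) ^ κ' := by rw [Real.rpow_def_of_pos hN0]
  · filter_upwards with N m hm
    obtain ⟨q, hq, a, ha, h⟩ := hm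
    exact ⟨(q, a), mem_product.2 ⟨hq, ha⟩, h⟩
  · have h1 : Tendsto (fun N : ℕ => (44 * k * 2 ^ k * 2 ^ k) * (Real.log N) ^ (-(1 : ℝ))) atTop (𝓝 0) := by
      have h2 := (tendsto_rpow_neg_atTop (by norm_num : (0 : ℝ) < 1)).comp hlog
      have h3 := h2.const_mul ((44 * k * 2 ^ k * 2 ^ k : ℝ))
      rw [mul_zero] at h3
      exact h3
    refine squeeze_zero' ?_ ?_ h1
    · filter_upwards with N
      exact mul_nonneg (Real.log_natCast_nonneg N) (sum_nonneg fun p _ => prq_nonneg _ _)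
    · filter_upwards [hlog.eventually (eventually_ge_atTop (3 : ℝ)), ll_tendsto.eventually (eventually_ge_atTop (1 : ℝ))]
        with N h2 h4
      set Λ := Real.log N with hΛ
      have hΛ0 : 0 < Λ := by linarith
      have key : ∀ p ∈ ((range (⌊21 * Λ⌋₊ + 1)) ×ˢ range (2 ^ k)) ×ˢ range (2 ^ k),
          prq (2 ^ (k * bn c N + k)) (fun x => η * (k * bn c N) < |Wg (Cr k p.2) (1 / 2 ^ k) (Gf N p.1) (k * bn c N) x|) ≤
          2 * k * Λ ^ (-(3 : ℝ)) := by
        intro p hp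
        rw [mem_product, mem_range] at hp
        have h5 := Wg_pr (Cr_per k p.2) hη hη1 (bn c N) (hG N p.1)
        rw [Cr_prq hp.2] at h5
        refine h5.trans ?_
        apply mul_le_mul_of_nonneg_left _ (by positivity)
        rw [Real.rpow_def_of_pos hΛ0]
        apply Real.exp_le_exp.2
        have g1 : c * Real.log Λ ≤ bn c N := Nat.le_ceil _
        have g2 : η ^ 2 / 4 * (c * Real.log Λ) ≤ η ^ 2 / 4 * bn c N := mul_le_mul_of_nonneg_left g1 (by positivity)
        have g3 : η ^ 2 / 4 * (c * Real.log Λ) = 3 * Real.log Λ := by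
          rw [hc]
          field_simp
          ring
        linarith
      have hcard : (((((range (⌊21 * Λ⌋₊ + 1)) ×ˢ range (2 ^ k)) ×ˢ range (2 ^ k)).card : ℕ) : ℝ) ≤ 22 * Λ * 2 ^ k * 2 ^ k := by
        rw [card_product, card_product, card_range, card_range]
        push_cast
        have g2 : ((⌊21 * Λ⌋₊ : ℕ) : ℝ) ≤ 21 * Λ := Nat.floor_le (by linarith)
        have g3 : ((⌊21 * Λ⌋₊ : ℕ) : ℝ) + 1 ≤ 22 * Λ := by linarith
        exact mul_le_mul_of_nonneg_right (mul_le_mul_of_nonneg_right g3 (by positivity)) (by positivity)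
      calc _ ≤ Λ * ∑ _p ∈ ((range (⌊21 * Λ⌋₊ + 1)) ×ˢ range (2 ^ k)) ×ˢ range (2 ^ k), 2 * k * Λ ^ (-(3 : ℝ)) :=
            mul_le_mul_of_nonneg_left (sum_le_sum key) hΛ0.le
        _ = Λ * ((((((range (⌊21 * Λ⌋₊ + 1)) ×ˢ range (2 ^ k)) ×ˢ range (2 ^ k)).card : ℕ) : ℝ) * (2 * k * Λ ^ (-(3 : ℝ)))) := by
            rw [sum_const, nsmul_eq_mul]
        _ ≤ Λ * (22 * Λ * 2 ^ k * 2 ^ k * (2 * k * Λ ^ (-(3 : ℝ)))) := by
            apply mul_le_mul_of_nonneg_left _ hΛ0.le
            exact mul_le_mul_of_nonneg_right hcard (by positivity)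
        _ = 44 * k * 2 ^ k * 2 ^ k * (Λ ^ (1 : ℝ) * Λ ^ (1 : ℝ) * Λ ^ (-(3 : ℝ))) := by
            rw [Real.rpow_one]
            ring
        _ = _ := by
            rw [← Real.rpow_add hΛ0, ← Real.rpow_add hΛ0]
            norm_num

end Pool.Agent.V11311.ER
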