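import Pool.Agent.V11311.ER.Y3

/-! Windows of a typical trajectory show no periodicity. -/

set_option autoImplicit false

namespace Pool.Agent.V11311.ER

open Finset Filter Topology Pool.Agent.V11311.FP Pool.Agent.V11311.RC Pool.Agent.V11311.SL

open Pool.Agent.V11311.DV (fl fl_card mem_fl)

open Pool.Agent.Helper894.Collatz (T od er od_add iter_eq sum_pow_od period)

open Pool.Agent.H377R2 (iter_pos)

/-- the frequencies of the net -/
noncomputable def fq (M q : ℕ) : ℝ := 2 * Real.pi * (q / M)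

/-- the weights of the net -/
noncomputable def GC (M : ℕ) (q : ℕ × ℕ) (j : ℕ) : ℝ :=
  if q.2 = 0 then (1 + Real.cos (fq M q.1 * j)) / 2 else (1 + Real.sin (fq M q.1 * j)) / 2

theorem GC_mem (M : ℕ) (q : ℕ × ℕ) (j : ℕ) : 0 ≤ GC M q j ∧ GC M q j ≤ 1 := by
  unfold GC
  have h1 := Real.neg_one_le_cos (fq M q.1 * j)
  have h2 := Real.cos_le_one (fq M q.1 * j)
  have h3 := Real.neg_one_le_sin (fq M q.1 * j)
  have h4 := Real.sin_le_one (fq M q.1 * j)
  split_ifs
  · constructor <;> linarith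
  · constructor <;> linarith

theorem cos_lip (x y : ℝ) : |Real.cos x - Real.cos y| ≤ |x - y| := by
  rw [Real.cos_sub_cos]
  rw [abs_mul, abs_mul]
  have h1 := Real.abs_sin_le_one ((x + y) / 2)
  have h2 : |Real.sin ((x - y) / 2)| ≤ |(x - y) / 2| := Real.abs_sin_le_abs
  have h3 : |(x - y) / 2| = |x - y| / 2 := by rw [abs_div, abs_of_pos (show (0 : ℝ) < 2 by norm_num)]
  have h4 : |(-2 : ℝ)| = 2 := by norm_num
  rw [h4]
  rw [h3] at h2
  calc 2 * |Real.sin ((x + y) / 2)| * |Real.sin ((x - y) / 2)| ≤ 2 * 1 * (|x - y| / 2) := by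
        apply mul_le_mul _ h2 (abs_nonneg _) (by norm_num)
        linarith
    _ = _ := by ring

/-- from the net to all frequencies and phases -/
theorem net {h : ℕ → ℝ} (hh : ∀ j, |h j| ≤ 1) {M W : ℕ} (hM : 0 < M) {η : ℝ} (h2 : 2 * Real.pi * W ≤ η * M)
    (hc : ∀ q, q < M → |∑ j ∈ range W, GC M (q, 0) j * h j| ≤ η * W)
    (hs : ∀ q, q < M → |∑ j ∈ range W, GC M (q, 1) j * h j| ≤ η * W) (θ φ : ℝ) :
    |∑ j ∈ range W, Real.cos (θ * j + φ) * h j| ≤ 7 * η * W := by
  have hM0 : (0 : ℝ) < M := by exact_mod_cast hM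
  have hpi := Real.pi_pos
  set f : ℝ := Int.fract (θ / (2 * Real.pi)) with hf
  have hf0 : 0 ≤ f := Int.fract_nonneg _
  have hf1 : f < 1 := Int.fract_lt_one _
  set q : ℕ := ⌊f * M⌋₊ with hq
  have hq1 : (q : ℝ) ≤ f * M := Nat.floor_le (by positivity)
  have hq2 : f * M < q + 1 := Nat.lt_floor_add_one _
  have hqM : q < M := by
    have : (q : ℝ) < M := lt_of_le_of_lt hq1 (by nlinarith)
    exact_mod_cast this
  have hcos : ∀ j : ℕ, Real.cos (θ * j + φ) = Real.cos (2 * Real.pi * f * j + φ) := by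
    intro j
    have e1 : θ * j + φ = (2 * Real.pi * f * j + φ) + ((⌊θ / (2 * Real.pi)⌋ * j : ℤ) : ℝ) * (2 * Real.pi) := by
      have e2 : f = θ / (2 * Real.pi) - ⌊θ / (2 * Real.pi)⌋ := rfl
      rw [e2]
      push_cast
      field_simp
      ring
    rw [e1, Real.cos_add_int_mul_two_pi]
  have hap : ∀ j, j < W → |Real.cos (θ * j + φ) - Real.cos (fq M q * j + φ)| ≤ η := by
    intro j hj
    rw [hcos]
    refine (cos_lip _ _).trans ?_
    have e1 : 2 * Real.pi * f * j + φ - (fq M q * j + φ) = 2 * Real.pi * j * (f - q / M) := by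
      unfold fq
      ring
    rw [e1, abs_mul, abs_of_nonneg (show (0 : ℝ) ≤ 2 * Real.pi * j by positivity)]
    have e2 : |f - q / M| ≤ 1 / M := by
      rw [abs_of_nonneg]
      · rw [sub_le_iff_le_add, ← add_div, le_div_iff₀ hM0]
        linarith
      · rw [sub_nonneg, div_le_iff₀ hM0]
        exact hq1
    have hjW : (j : ℝ) ≤ W := by exact_mod_cast hj.le
    calc 2 * Real.pi * j * |f - q / M| ≤ 2 * Real.pi * W * (1 / M) :=
          mul_le_mul (mul_le_mul_of_nonneg_left hjW (by positivity)) e2 (abs_nonneg _) (by positivity)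
      _ ≤ η := by
          rw [mul_one_div, div_le_iff₀ hM0]
          exact h2
  have h0 : ∀ j : ℕ, GC M (0, 0) j = 1 := by
    intro j
    unfold GC fq
    simp
  have k0 := hc 0 hM
  simp only [h0, one_mul] at k0
  have k1 := hc q hqM
  have k2 := hs q hqM
  have e3 : ∑ j ∈ range W, Real.cos (fq M q * j + φ) * h j =
      Real.cos φ * (2 * ∑ j ∈ range W, GC M (q, 0) j * h j - ∑ j ∈ range W, h j) -
      Real.sin φ * (2 * ∑ j ∈ range W, GC M (q, 1) j * h j - ∑ j ∈ range W, h j) := by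
    rw [mul_sum, mul_sum, ← sum_sub_distrib, ← sum_sub_distrib, mul_sum, mul_sum, ← sum_sub_distrib]
    apply sum_congr rfl
    intro j _
    unfold GC
    rw [if_pos rfl, if_neg (by norm_num), Real.cos_add]
    ring
  have e4 : |∑ j ∈ range W, Real.cos (fq M q * j + φ) * h j| ≤ 6 * η * W := by
    rw [e3]
    have hcφ := Real.abs_cos_le_one φ
    have hsφ := Real.abs_sin_le_one φ
    have a1 : |2 * ∑ j ∈ range W, GC M (q, 0) j * h j - ∑ j ∈ range W, h j| ≤ 3 * (η * W) := by
      rw [abs_le] at k0 k1 ⊢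
      constructor <;> linarith [k0.1, k0.2, k1.1, k1.2]
    have a2 : |2 * ∑ j ∈ range W, GC M (q, 1) j * h j - ∑ j ∈ range W, h j| ≤ 3 * (η * W) := by
      rw [abs_le] at k0 k2 ⊢
      constructor <;> linarith [k0.1, k0.2, k2.1, k2.2]
    refine (abs_sub _ _).trans ?_
    rw [abs_mul, abs_mul]
    have b1 : |Real.cos φ| * |2 * ∑ j ∈ range W, GC M (q, 0) j * h j - ∑ j ∈ range W, h j| ≤ 1 * (3 * (η * W)) :=
      mul_le_mul hcφ a1 (abs_nonneg _) (by norm_num)
    have b2 : |Real.sin φ| * |2 * ∑ j ∈ range W, GC M (q, 1) j * h j - ∑ j ∈ range W, h j| ≤ 1 * (3 * (η * W)) :=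
      mul_le_mul hsφ a2 (abs_nonneg _) (by norm_num)
    linarith
  have e5 : |∑ j ∈ range W, Real.cos (θ * j + φ) * h j - ∑ j ∈ range W, Real.cos (fq M q * j + φ) * h j| ≤ η * W := by
    rw [← sum_sub_distrib]
    refine (abs_sum_le_sum_abs _ _).trans ?_
    calc ∑ j ∈ range W, |Real.cos (θ * j + φ) * h j - Real.cos (fq M q * j + φ) * h j|
        ≤ ∑ _j ∈ range W, η := by
          apply sum_le_sum
          intro j hj
          rw [← sub_mul, abs_mul]
          have g1 := hap j (mem_range.1 hj)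
          calc |Real.cos (θ * j + φ) - Real.cos (fq M q * j + φ)| * |h j| ≤ η * 1 :=
                mul_le_mul g1 (hh j) (abs_nonneg _) ((abs_nonneg _).trans g1)
            _ = η := mul_one _
      _ = η * W := by rw [sum_const, card_range, nsmul_eq_mul, mul_comm]
  have e6 := abs_sub_abs_le_abs_sub (∑ j ∈ range W, Real.cos (θ * j + φ) * h j)
    (∑ j ∈ range W, Real.cos (fq M q * j + φ) * h j)
  linarith

end Pool.Agent.V11311.ER
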