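import Pool.Agent.V11311.ER.Z1

/-! Windows of a typical trajectory show no periodicity, part 2: classes of weights with small nets. -/

set_option autoImplicit false

namespace Pool.Agent.V11311.ER

open Finset Filter Topology Pool.Agent.V11311.FP Pool.Agent.V11311.RC Pool.Agent.V11311.SL

open Pool.Agent.V11311.DV (fl fl_card mem_fl)

open Pool.Agent.Helper894.Collatz (T od er od_add iter_eq sum_pow_od period)

open Pool.Agent.H377R2 (iter_pos)

/-- a class of weights, closed under shifts, with small nets -/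
def NetP (k : ℕ) (F : Set (ℕ → ℝ)) : Prop :=
  (∀ g ∈ F, ∀ j, |g j| ≤ 1) ∧ (∀ g ∈ F, ∀ t : ℕ, (fun j => g (t + j)) ∈ F) ∧
  ∀ η c : ℝ, 0 < η → 0 < c → ∀ᶠ N : ℕ in atTop, ∃ G : ℕ × ℕ → ℕ → ℝ, (∀ q j, 0 ≤ G q j ∧ G q j ≤ 1) ∧
    ∀ h : ℕ → ℝ, (∀ j, |h j| ≤ 1) → (∀ q ∈ (range (⌊21 * Real.log N⌋₊ + 1)) ×ˢ range (2 ^ k),
      |∑ j ∈ range (k * bn c N), G q j * h j| ≤ η * (k * bn c N : ℕ)) →
      ∀ g ∈ F, |∑ j ∈ range (k * bn c N), g j * h j| ≤ 7 * η * (k * bn c N : ℕ)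

theorem net_law {k : ℕ} (hk : 1 ≤ k) {δ : ℝ} (hδ : 0 < δ) (hδ1 : δ ≤ 1) :
    ∃ C : ℝ, 0 < C ∧ ∀ F : Set (ℕ → ℝ), NetP k F → ∀ κ : ℝ, 0 < κ → ∀ ε : ℝ, 0 < ε → ∀ᶠ N : ℕ in atTop,
      (cN (fun n => ¬ ∀ s w : ℕ, C * Real.log (Real.log N) ≤ w → (∀ s', s' < s + w → Lv κ N < T^[s'] n) →
        ∀ a, a < 2 ^ k → ∀ g ∈ F, |∑ j ∈ range w, g j * (ind (Cr k a) (T^[s + j] n) - 1 / 2 ^ k)| ≤ δ * w) N : ℝ) ≤
      ε * N := by
  classical
  set η : ℝ := δ / 14 with hη
  have hη0 : 0 < η := by positivity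
  have hη1 : η ≤ 1 := by rw [hη]; linarith
  set c : ℝ := 12 / η ^ 2 with hc
  have hc0 : 0 < c := by rw [hc]; positivity
  have hk0 : (0 : ℝ) < k := by exact_mod_cast hk
  refine ⟨2 * k * (c + 1) / δ, by positivity, fun F hF κ hκ ε hε => ?_⟩
  obtain ⟨hF1, hF2, hF3⟩ := hF
  filter_upwards [fam_rare hk hη0 hη1 hc hκ ε hε, hF3 η c hη0 hc0, eventually_ge_atTop 3,
    (Real.tendsto_log_atTop.comp tendsto_natCast_atTop_atTop).eventually (eventually_ge_atTop 1),
    ll_tendsto.eventually (eventually_ge_atTop (1 : ℝ))] with N h2 h3 hN hlog hll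
  rw [Function.comp_apply] at hlog
  obtain ⟨G, hG, h4⟩ := h3
  set Λ := Real.log N with hΛ
  have hbn : (bn c N : ℝ) ≤ (c + 1) * Real.log Λ := by
    unfold bn
    have g1 := Nat.ceil_lt_add_one (show 0 ≤ c * Real.log (Real.log N) by rw [← hΛ]; positivity)
    rw [← hΛ] at g1 ⊢
    linarith
  have hbn0 : 0 < bn c N := by
    unfold bn
    apply Nat.ceil_pos.2
    rw [← hΛ]
    positivity
  refine le_trans (Nat.cast_le.2 (cN_mono (fun n hn hP => ?_) N)) (h2 G hG)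
  by_contra hst
  apply hP
  intro s w hw hsn a ha g hg
  have hWw : ((k * bn c N : ℕ) : ℝ) ≤ δ / 2 * w := by
    push_cast
    calc (k : ℝ) * bn c N ≤ k * ((c + 1) * Real.log Λ) := mul_le_mul_of_nonneg_left hbn hk0.le
      _ = δ / 2 * (2 * k * (c + 1) / δ * Real.log Λ) := by field_simp
      _ ≤ δ / 2 * w := mul_le_mul_of_nonneg_left hw (by positivity)
  have hW0 : 0 < k * bn c N := Nat.mul_pos hk hbn0
  set W := k * bn c N with hW
  have hdiv := Nat.div_add_mod w W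
  have hmod := Nat.mod_lt w hW0
  have hhb : ∀ x : ℕ, |ind (Cr k a) x - 1 / 2 ^ k| ≤ 1 := by
    intro x
    have u1 := ind_nonneg (Cr k a) x
    have u2 := ind_le_one (Cr k a) x
    have u5 : (0 : ℝ) ≤ 1 / 2 ^ k := by positivity
    have u6 : (1 : ℝ) / 2 ^ k ≤ 1 := by
      rw [div_le_one (by positivity)]
      exact one_le_pow₀ (by norm_num)
    rw [abs_le]
    constructor <;> linarith
  -- one window
  have hone : ∀ i, i < w / W → |∑ j ∈ range W, (g (W * i + j) * (ind (Cr k a) (T^[s + (W * i + j)] n) - 1 / 2 ^ k))| ≤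
      δ / 2 * W := by
    intro i hi
    have hi1 : W * i + W ≤ w := by
      calc W * i + W = W * (i + 1) := by ring
        _ ≤ W * (w / W) := Nat.mul_le_mul_left _ hi
        _ ≤ w := by omega
    have q1 : ¬ BF k η c G N (T^[s + W * i] n) := by
      intro hB
      exact hst ⟨s + W * i, fun s' hs' => hsn s' (by omega), hB⟩
    unfold BF at q1
    push Not at q1
    have q2 := h4 (fun j => ind (Cr k a) (T^[j] (T^[s + W * i] n)) - 1 / 2 ^ k) (fun j => hhb _) (fun q hq => by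
      have q3 := q1 q hq a (mem_range.2 ha)
      unfold Wg at q3
      rw [← hW] at q3
      have eW : η * ((k : ℝ) * bn c N) = η * W := by rw [hW]; push_cast; ring
      rw [eW] at q3
      exact q3) (fun j => g (W * i + j)) (hF2 g hg (W * i))
    have e1 : ∀ j, T^[j] (T^[s + W * i] n) = T^[s + (W * i + j)] n := by
      intro j
      rw [← Function.iterate_add_apply]
      congr 1
      ring
    simp only [e1] at q2
    have e2 : 7 * η * (W : ℝ) = δ / 2 * W := by rw [hη]; ring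
    rw [e2] at q2
    exact q2
  have hh : ∀ j, |g j * (ind (Cr k a) (T^[s + j] n) - 1 / 2 ^ k)| ≤ 1 := by
    intro j
    rw [abs_mul]
    exact mul_le_one₀ (hF1 g hg j) (abs_nonneg _) (hhb _)
  have hfin := pieces2 (h := fun j => g j * (ind (Cr k a) (T^[s + j] n) - 1 / 2 ^ k)) hh (w / W) (w % W) hone
  rw [hdiv] at hfin
  refine hfin.trans ?_
  have m1 : ((W * (w / W) : ℕ) : ℝ) ≤ w := by
    have : W * (w / W) ≤ w := by omega
    exact_mod_cast this
  have m2 : ((w % W : ℕ) : ℝ) ≤ W := by exact_mod_cast hmod.le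
  push_cast at m1
  have m3 : δ / 2 * (W : ℝ) * ((w / W : ℕ) : ℝ) ≤ δ / 2 * w := by
    have := mul_le_mul_of_nonneg_left m1 (show 0 ≤ δ / 2 by positivity)
    linarith
  linarith

end Pool.Agent.V11311.ER
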