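import Pool.Agent.V11311.ER.Z2

/-! Windows of a typical trajectory show no periodicity, part 3: polynomial phases. -/

set_option autoImplicit false

namespace Pool.Agent.V11311.ER

open Finset Filter Topology Pool.Agent.V11311.FP Pool.Agent.V11311.RC Pool.Agent.V11311.SL

open Pool.Agent.V11311.DV (fl fl_card mem_fl)

open Pool.Agent.Helper894.Collatz (T od er od_add iter_eq sum_pow_od period)

open Pool.Agent.H377R2 (iter_pos)

theorem digits {L : ℕ} (hL : 0 < L) : ∀ n : ℕ, ∀ a : ℕ → ℕ, (∀ d, a d < L) →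
    ∃ q, q < L ^ n ∧ ∀ d, d < n → q / L ^ d % L = a d := by
  intro n
  induction n with
  | zero => intro a _; exact ⟨0, by norm_num, fun d hd => by omega⟩
  | succ n ih =>
    intro a ha
    obtain ⟨q, hq1, hq2⟩ := ih (fun d => a (d + 1)) (fun d => ha _)
    refine ⟨a 0 + L * q, ?_, ?_⟩
    · rw [pow_succ]
      have h1 := ha 0
      calc a 0 + L * q < L + L * q := by omega
        _ = L * (q + 1) := by ring
        _ ≤ L * L ^ n := Nat.mul_le_mul_left _ hq1
        _ = L ^ n * L := mul_comm _ _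
    · intro d hd
      rcases d with _ | d
      · rw [pow_zero, Nat.div_one, Nat.add_mul_mod_self_left, Nat.mod_eq_of_lt (ha 0)]
      · rw [pow_succ', ← Nat.div_div_eq_div_mul]
        have e1 : (a 0 + L * q) / L = q := by
          rw [Nat.add_mul_div_left _ _ hL, Nat.div_eq_of_lt (ha 0), zero_add]
        rw [e1]
        exact hq2 d (by omega)

/-- Newton's formula -/
theorem newton (P : Polynomial ℝ) {D : ℕ} (hD : P.natDegree ≤ D) : ∃ α : ℕ → ℝ, ∀ j : ℕ,
    P.eval (j : ℝ) = ∑ d ∈ range (D + 1), α d * (j.choose d : ℕ) := by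
  set α : ℕ → ℝ := fun d => (fwdDiff (1 : ℝ))^[d] P.eval 0 with hα
  refine ⟨α, fun j => ?_⟩
  have h1 := shift_eq_sum_fwdDiff_iter (1 : ℝ) P.eval j 0
  rw [zero_add, nsmul_eq_mul, mul_one] at h1
  have z2 : ∀ d, D < d → α d = 0 := by
    intro d hd
    rw [hα]
    simp only
    rw [Polynomial.fwdDiff_iter_eq_zero_of_degree_lt (lt_of_le_of_lt hD hd)]
    rfl
  rw [h1]
  have e1 : ∑ d ∈ range (j + 1), (j.choose d) • (fwdDiff (1 : ℝ))^[d] P.eval 0 =
      ∑ d ∈ range (j + 1 + (D + 1)), α d * (j.choose d : ℕ) := by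
    rw [← sum_subset (range_mono (show j + 1 ≤ j + 1 + (D + 1) by omega)) (fun d _ hd => by
      rw [mem_range] at hd
      rw [Nat.choose_eq_zero_of_lt (by omega)]
      simp)]
    apply sum_congr rfl
    intro d _
    rw [nsmul_eq_mul, mul_comm]
  have e2 : ∑ d ∈ range (D + 1), α d * (j.choose d : ℕ) =
      ∑ d ∈ range (j + 1 + (D + 1)), α d * (j.choose d : ℕ) := by
    apply sum_subset (range_mono (show D + 1 ≤ j + 1 + (D + 1) by omega))
    intro d _ hd
    rw [mem_range] at hd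
    rw [z2 d (by omega), zero_mul]
  rw [e1, e2]

/-- the polynomial phase with the coefficients `β` in the binomial basis -/
noncomputable def ph (D : ℕ) (β : ℕ → ℝ) (j : ℕ) : ℝ := 2 * Real.pi * ∑ d ∈ range (D + 1), β d * (j.choose d : ℕ)

/-- the weights of the net -/
noncomputable def GP (D L : ℕ) (q : ℕ × ℕ) (j : ℕ) : ℝ :=
  (1 + Real.cos (ph D (fun d => ((q.1 / L ^ d % L : ℕ) : ℝ) / L) j)) / 2

theorem GP_mem (D L : ℕ) (q : ℕ × ℕ) (j : ℕ) : 0 ≤ GP D L q j ∧ GP D L q j ≤ 1 := by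
  unfold GP
  have h1 := Real.neg_one_le_cos (ph D (fun d => ((q.1 / L ^ d % L : ℕ) : ℝ) / L) j)
  have h2 := Real.cos_le_one (ph D (fun d => ((q.1 / L ^ d % L : ℕ) : ℝ) / L) j)
  constructor <;> linarith

theorem pnet {h : ℕ → ℝ} (hh : ∀ j, |h j| ≤ 1) {D L W : ℕ} (hL : 0 < L) {η : ℝ} (hη : 0 ≤ η)
    (h2 : 2 * Real.pi * ((D + 1) * (W : ℝ) ^ D) ≤ η * L)
    (hc : ∀ q, q < L ^ (D + 1) → |∑ j ∈ range W, GP D L (q, 0) j * h j| ≤ η * W) (α : ℕ → ℝ) :
    |∑ j ∈ range W, Real.cos (ph D α j) * h j| ≤ 7 * η * W := by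
  have hL0 : (0 : ℝ) < L := by exact_mod_cast hL
  have hpi := Real.pi_pos
  have ha : ∀ d, ⌊Int.fract (α d) * L⌋₊ < L := by
    intro d
    have h1 : (⌊Int.fract (α d) * L⌋₊ : ℝ) ≤ Int.fract (α d) * L :=
      Nat.floor_le (mul_nonneg (Int.fract_nonneg _) hL0.le)
    have h3 : (⌊Int.fract (α d) * L⌋₊ : ℝ) < L :=
      lt_of_le_of_lt h1 (by nlinarith [Int.fract_lt_one (α d)])
    exact_mod_cast h3
  obtain ⟨q, hq1, hq2⟩ := digits hL (D + 1) (fun d => ⌊Int.fract (α d) * L⌋₊) ha
  have hcos : ∀ j : ℕ, Real.cos (ph D α j) = Real.cos (ph D (fun d => Int.fract (α d)) j) := by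
    intro j
    have e1 : ph D α j = ph D (fun d => Int.fract (α d)) j +
        ((∑ d ∈ range (D + 1), ⌊α d⌋ * (j.choose d : ℕ) : ℤ) : ℝ) * (2 * Real.pi) := by
      unfold ph
      push_cast
      rw [mul_comm (∑ d ∈ range (D + 1), (⌊α d⌋ : ℝ) * (j.choose d : ℕ)) (2 * Real.pi), ← mul_add, ← sum_add_distrib]
      congr 1
      apply sum_congr rfl
      intro d _
      have e2 : Int.fract (α d) = α d - ⌊α d⌋ := rfl
      rw [e2]
      ring
    rw [e1, Real.cos_add_int_mul_two_pi]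
  have hap : ∀ j, j < W → |Real.cos (ph D α j) -
      Real.cos (ph D (fun d => ((q / L ^ d % L : ℕ) : ℝ) / L) j)| ≤ η := by
    intro j hj
    rw [hcos]
    refine (cos_lip _ _).trans ?_
    have hW1 : (1 : ℝ) ≤ W := by
      have : 1 ≤ W := by omega
      exact_mod_cast this
    have e1 : ph D (fun d => Int.fract (α d)) j - ph D (fun d => ((q / L ^ d % L : ℕ) : ℝ) / L) j =
        2 * Real.pi * ∑ d ∈ range (D + 1), (Int.fract (α d) - ((q / L ^ d % L : ℕ) : ℝ) / L) * (j.choose d : ℕ) := by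
      unfold ph
      rw [← mul_sub, ← sum_sub_distrib]
      congr 1
      apply sum_congr rfl
      intro d _
      ring
    rw [e1, abs_mul, abs_of_pos (show (0 : ℝ) < 2 * Real.pi by positivity)]
    have e2 : |∑ d ∈ range (D + 1), (Int.fract (α d) - ((q / L ^ d % L : ℕ) : ℝ) / L) * (j.choose d : ℕ)| ≤
        (D + 1) * ((W : ℝ) ^ D / L) := by
      refine (abs_sum_le_sum_abs _ _).trans ?_
      calc ∑ d ∈ range (D + 1), |(Int.fract (α d) - ((q / L ^ d % L : ℕ) : ℝ) / L) * (j.choose d : ℕ)|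
          ≤ ∑ _d ∈ range (D + 1), (W : ℝ) ^ D / L := by
            apply sum_le_sum
            intro d hd
            rw [mem_range] at hd
            rw [hq2 d hd, abs_mul]
            have g1 : (⌊Int.fract (α d) * L⌋₊ : ℝ) ≤ Int.fract (α d) * L :=
              Nat.floor_le (mul_nonneg (Int.fract_nonneg _) hL0.le)
            have g2 : Int.fract (α d) * L < (⌊Int.fract (α d) * L⌋₊ : ℝ) + 1 := Nat.lt_floor_add_one _
            have g3 : |Int.fract (α d) - (⌊Int.fract (α d) * L⌋₊ : ℝ) / L| ≤ 1 / L := by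
              rw [abs_of_nonneg]
              · rw [sub_le_iff_le_add, ← add_div, le_div_iff₀ hL0]
                linarith
              · rw [sub_nonneg, div_le_iff₀ hL0]
                exact g1
            have g4 : |((j.choose d : ℕ) : ℝ)| ≤ (W : ℝ) ^ D := by
              rw [abs_of_nonneg (Nat.cast_nonneg _)]
              calc ((j.choose d : ℕ) : ℝ) ≤ ((j ^ d : ℕ) : ℝ) := by exact_mod_cast Nat.choose_le_pow j d
                _ = (j : ℝ) ^ d := by push_cast; rfl
                _ ≤ (W : ℝ) ^ d := pow_le_pow_left₀ (Nat.cast_nonneg _) (by exact_mod_cast hj.le) _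
                _ ≤ (W : ℝ) ^ D := pow_le_pow_right₀ hW1 (by omega)
            calc |Int.fract (α d) - (⌊Int.fract (α d) * L⌋₊ : ℝ) / L| * |((j.choose d : ℕ) : ℝ)| ≤
                  1 / L * (W : ℝ) ^ D := mul_le_mul g3 g4 (abs_nonneg _) (by positivity)
              _ = (W : ℝ) ^ D / L := by ring
        _ = (D + 1) * ((W : ℝ) ^ D / L) := by
            rw [sum_const, card_range, nsmul_eq_mul]
            push_cast
            rfl
    calc 2 * Real.pi * |∑ d ∈ range (D + 1), (Int.fract (α d) - ((q / L ^ d % L : ℕ) : ℝ) / L) * (j.choose d : ℕ)|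
        ≤ 2 * Real.pi * ((D + 1) * ((W : ℝ) ^ D / L)) := mul_le_mul_of_nonneg_left e2 (by positivity)
      _ = 2 * Real.pi * ((D + 1) * (W : ℝ) ^ D) / L := by ring
      _ ≤ η := by
          rw [div_le_iff₀ hL0]
          exact h2
  have h0 : ∀ j : ℕ, GP D L (0, 0) j = 1 := by
    intro j
    unfold GP ph
    simp
  have k0 := hc 0 (by positivity)
  simp only [h0, one_mul] at k0
  have k1 := hc q hq1
  have e3 : ∑ j ∈ range W, Real.cos (ph D (fun d => ((q / L ^ d % L : ℕ) : ℝ) / L) j) * h j =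
      2 * ∑ j ∈ range W, GP D L (q, 0) j * h j - ∑ j ∈ range W, h j := by
    rw [mul_sum, ← sum_sub_distrib]
    apply sum_congr rfl
    intro j _
    unfold GP
    ring
  have e4 : |∑ j ∈ range W, Real.cos (ph D (fun d => ((q / L ^ d % L : ℕ) : ℝ) / L) j) * h j| ≤ 3 * η * W := by
    rw [e3]
    rw [abs_le] at k0 k1 ⊢
    constructor <;> linarith [k0.1, k0.2, k1.1, k1.2]
  have e5 : |∑ j ∈ range W, Real.cos (ph D α j) * h j -
      ∑ j ∈ range W, Real.cos (ph D (fun d => ((q / L ^ d % L : ℕ) : ℝ) / L) j) * h j| ≤ η * W := by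
    rw [← sum_sub_distrib]
    refine (abs_sum_le_sum_abs _ _).trans ?_
    calc ∑ j ∈ range W, |Real.cos (ph D α j) * h j - Real.cos (ph D (fun d => ((q / L ^ d % L : ℕ) : ℝ) / L) j) * h j|
        ≤ ∑ _j ∈ range W, η := by
          apply sum_le_sum
          intro j hj
          rw [← sub_mul, abs_mul]
          have g1 := hap j (mem_range.1 hj)
          calc |Real.cos (ph D α j) - Real.cos (ph D (fun d => ((q / L ^ d % L : ℕ) : ℝ) / L) j)| * |h j| ≤ η * 1 :=
                mul_le_mul g1 (hh j) (abs_nonneg _) hη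
            _ = η := mul_one _
      _ = η * W := by rw [sum_const, card_range, nsmul_eq_mul, mul_comm]
  have e6 := abs_sub_abs_le_abs_sub (∑ j ∈ range W, Real.cos (ph D α j) * h j)
    (∑ j ∈ range W, Real.cos (ph D (fun d => ((q / L ^ d % L : ℕ) : ℝ) / L) j) * h j)
  have e7 : 0 ≤ η * W := mul_nonneg hη (Nat.cast_nonneg _)
  linarith

end Pool.Agent.V11311.ER
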